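import Pool.Agent.Lib.MP_f4617e_lc_G.Cert

/-!
MP_f4617e_lc, project G: a block system for three symbols, blocks of length three.
-/

set_option autoImplicit false

namespace Pool.Agent.MPf4617e

open Finset

/-! ### The data -/

/-- special words -/
def zt33 : List ℕ := [0, 1, 3, 7, 9, 11, 21, 26]

/-- levels -/
def lt33 : List ℕ :=
  [0, 1, 0, 1, 1, 1, 0, 2, 0, 1, 1, 2, 1, 1, 2, 1, 2, 2, 0, 1, 0, 2, 2, 2, 0, 2, 3]

/-- key 0 -/
def k33_0 : KeyData where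
  tab := [4, 0, 3, 4, 0, 3, 4, 0, 3, 2, 0, 1, 2, 0, 1, 2, 0, 1, 0, 0, 0, 0, 0, 0, 0, 0, 0]
  sv := [[(0, 20, 0), (1, 14, 2), (2, 12, 1), (3, 8, 0), (4, 6, 0)], [(0, 18, 1)], [(0, 10, 2), (1,
    11, 2), (2, 9, 1), (3, 2, 1), (4, 0, 1)], [(0, 18, 3)], [(0, 1, 1)], [], [(0, 1, 2)], []]

/-- key 1 -/
def k33_1 : KeyData where
  tab := [8, 0, 7, 0, 0, 0, 6, 0, 5, 0, 0, 0, 0, 0, 0, 0, 0, 0, 4, 0, 3, 0, 0, 0, 2, 0, 1]
  sv := [[(0, 13, 1), (1, 26, 3), (2, 24, 0), (3, 20, 0), (4, 18, 0), (5, 8, 0), (6, 6, 0), (7, 2,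
    0), (8, 0, 0)], [(0, 3, 1)], [(0, 9, 1)], [(0, 9, 2)], [(0, 1, 1)], [(0, 3, 2)], [(0, 1,
    2)], []]

/-- key 2 -/
def k33_2 : KeyData where
  tab := [4, 0, 3, 4, 0, 3, 4, 0, 3, 0, 0, 0, 0, 0, 0, 0, 0, 0, 2, 0, 1, 2, 0, 1, 2, 0, 1]
  sv := [[(0, 13, 1), (1, 20, 0), (2, 24, 0), (3, 8, 0), (4, 6, 0)], [(0, 12, 2)], [(0, 9, 1), (1,
    20, 3), (2, 18, 2), (3, 2, 1), (4, 0, 1)], [(0, 9, 2)], [(0, 1, 1)], [], [(0, 1, 2)], []]

/-- key 3 -/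
def k33_3 : KeyData where
  tab := [4, 0, 3, 0, 0, 0, 2, 0, 1, 4, 0, 3, 0, 0, 0, 2, 0, 1, 4, 0, 3, 0, 0, 0, 2, 0, 1]
  sv := [[(0, 13, 1), (1, 8, 0), (2, 24, 0), (3, 20, 0), (4, 18, 0)], [(0, 3, 1)], [(0, 10, 2)], [],
    [(0, 1, 1), (1, 8, 3), (2, 6, 1), (3, 2, 2), (4, 0, 1)], [(0, 3, 2)], [(0, 1, 2)], []]

/-- key 4 -/
def k33_4 : KeyData where
  tab := [6, 3, 2, 2, 2, 2, 0, 1, 2, 0, 3, 4, 0, 0, 0, 0, 1, 2, 3, 3, 3, 5, 5, 5, 0, 1, 2]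
  sv := [[(0, 24, 0), (1, 16, 2), (2, 8, 0), (3, 20, 0), (4, 11, 2), (5, 22, 2), (6, 0, 0)], [(0,
    12, 2), (2, 3, 1), (3, 18, 1), (5, 21, 2)], [(0, 9, 1), (2, 2, 1)], [], [(0, 6, 1), (1, 7,
    2), (2, 8, 3), (3, 1, 1)], [], [], []]

/-- key 5 -/
def k33_5 : KeyData where
  tab := [6, 3, 1, 6, 3, 1, 6, 3, 1, 2, 3, 4, 2, 0, 1, 2, 2, 2, 3, 3, 3, 1, 1, 1, 5, 5, 5]
  sv := [[(0, 13, 1), (1, 8, 0), (2, 12, 1), (3, 20, 0), (4, 11, 2), (5, 24, 0), (6, 6, 0)], [(1,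
    21, 2), (2, 15, 2), (3, 18, 1), (5, 24, 3)], [(1, 2, 1), (2, 9, 1), (3, 1, 2), (6, 0, 1)],
    [], [(1, 5, 2), (3, 1, 1)], [], [], []]

/-- key 6 -/
def k33_6 : KeyData where
  tab := [6, 6, 6, 1, 1, 1, 2, 3, 4, 2, 2, 2, 2, 0, 1, 2, 3, 4, 3, 3, 3, 5, 3, 1, 2, 3, 4]
  sv := [[(0, 13, 1), (1, 4, 1), (2, 24, 0), (3, 20, 0), (4, 8, 0), (5, 21, 2), (6, 2, 0)], [(1, 3,
    1), (2, 9, 2), (3, 18, 1), (6, 0, 1)], [(2, 9, 1), (3, 19, 2)], [], [(1, 5, 2), (2, 6, 1),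
    (3, 7, 2), (4, 8, 3)], [], [], []]

/-- key 7 -/
def k33_7 : KeyData where
  tab := [0, 0, 0, 0, 0, 0, 0, 0, 0, 0, 0, 0, 0, 0, 0, 0, 0, 0, 0, 0, 0, 0, 0, 0, 0, 0, 0]
  sv := [[(0, 8, 0)], [(0, 3, 1)], [(0, 2, 1)], [(0, 9, 2)], [(0, 1, 1)], [(0, 3, 2)], [(0, 1, 2)],
    [(0, 0, 3)]]

/-- key 8 -/
def k33_8 : KeyData where
  tab := [4, 3, 2, 2, 2, 2, 1, 6, 2, 4, 3, 1, 2, 0, 1, 1, 1, 1, 4, 3, 5, 2, 3, 5, 1, 3, 5]
  sv := [[(0, 13, 1), (1, 24, 0), (2, 8, 0), (3, 10, 1), (4, 18, 0), (5, 20, 0), (6, 7, 2)], [(1,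
    15, 2), (2, 3, 1)], [(1, 11, 2), (2, 2, 1), (3, 19, 2), (5, 20, 3)], [], [(1, 6, 1), (2, 3,
    2), (3, 1, 1), (4, 0, 1)], [], [], []]

/-- key 9 -/
def k33_9 : KeyData where
  tab := [6, 0, 4, 4, 4, 4, 2, 5, 4, 2, 0, 1, 2, 0, 1, 2, 0, 1, 0, 0, 0, 3, 3, 3, 2, 2, 2]
  sv := [[(0, 20, 0), (1, 14, 2), (2, 24, 0), (3, 22, 2), (4, 8, 0), (5, 7, 2), (6, 0, 0)], [(0, 18,
    1), (2, 24, 3), (3, 21, 2), (4, 3, 1)], [(0, 10, 2), (1, 11, 2), (2, 9, 1), (4, 2, 1)], [],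
    [(0, 1, 1), (2, 6, 1)], [], [], []]

/-- key 10 -/
def k33_10 : KeyData where
  tab := [4, 4, 4, 0, 0, 0, 3, 3, 3, 0, 0, 0, 0, 0, 0, 0, 0, 0, 2, 2, 2, 0, 0, 0, 1, 1, 1]
  sv := [[(0, 13, 1), (1, 24, 0), (2, 20, 0), (3, 8, 0), (4, 2, 0)], [(0, 3, 1), (1, 24, 3), (2, 18,
    1), (3, 6, 2), (4, 0, 1)], [(0, 9, 1)], [(0, 9, 2)], [(0, 4, 2)], [(0, 3, 2)], [], []]

/-- key 11 -/
def k33_11 : KeyData where
  tab := [4, 4, 4, 3, 3, 3, 0, 0, 0, 0, 0, 0, 0, 0, 0, 0, 0, 0, 2, 2, 2, 1, 1, 1, 0, 0, 0]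
  sv := [[(0, 8, 0), (1, 22, 2), (2, 20, 0), (3, 4, 1), (4, 2, 0)], [(0, 12, 2), (1, 21, 2), (2, 18,
    1), (3, 3, 1), (4, 0, 1)], [(0, 9, 1)], [(0, 9, 2)], [(0, 6, 1)], [(0, 6, 3)], [], []]

/-- key 12 -/
def k33_12 : KeyData where
  tab := [6, 4, 0, 0, 0, 0, 2, 3, 0, 2, 4, 1, 2, 0, 1, 2, 3, 1, 4, 4, 4, 5, 0, 4, 2, 3, 4]
  sv := [[(0, 8, 0), (1, 14, 2), (2, 24, 0), (3, 16, 2), (4, 20, 0), (5, 21, 2), (6, 0, 0)], [(0, 3,
    1), (4, 18, 1)], [(0, 2, 1), (1, 11, 2), (2, 9, 1), (4, 20, 3)], [], [(0, 4, 2), (2, 6, 1),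
    (3, 7, 2), (4, 1, 1)], [], [], []]

/-- key 13 -/
def k33_13 : KeyData where
  tab := [4, 3, 0, 0, 0, 0, 2, 1, 0, 4, 3, 0, 0, 0, 0, 2, 1, 0, 4, 3, 0, 0, 0, 0, 2, 1, 0]
  sv := [[(0, 8, 0), (1, 16, 2), (2, 24, 0), (3, 10, 1), (4, 18, 0)], [(0, 3, 1)], [(0, 2, 1)], [],
    [(0, 4, 2), (1, 7, 2), (2, 6, 1), (3, 1, 1), (4, 0, 1)], [(0, 3, 2)], [(0, 2, 3)], []]

/-- the keys -/
def D33 : List KeyData :=
  [k33_0, k33_1, k33_2, k33_3, k33_4, k33_5, k33_6, k33_7, k33_8, k33_9, k33_10, k33_11, k33_12,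
    k33_13]

theorem zchk33 : zchk 3 3 zt33 lt33 = true := by decide +kernel

theorem kchk33 : D33.all (kchk 3 3 9 lt33) = true := by decide +kernel

/-! ### The weights -/

section

variable (t : ℝ)

/-- weight of key 7 -/
noncomputable def f33 : ℝ := 27 / 8 * t ^ 3

/-- weights -/
noncomputable def s33 : ℝ :=
  (7 * (3 / 2 * t) ^ 2 * (3 * (1 - t)) + 3 * (3 / 2 * t) * (3 * (1 - t)) ^ 2 - 10) / 5

/-- weight of key 1 -/
noncomputable def e33 : ℝ := (3 / 2 * t) ^ 2 * (3 * (1 - t)) - f33 t - 2 * s33 t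

/-- weights -/
noncomputable def g33 : ℝ := (1 - f33 t - e33 t - 3 * s33 t) / 3

/-- parameter -/
noncomputable def u33 : ℝ := (10000 * t - 4480) / 108

/-- weight of the keys 2, 3, 10 -/
noncomputable def b33 : ℝ := 509 / 10000 - 24 / 10000 * u33 t

/-- weight of the keys 4, 9, 12 -/
noncomputable def d33 : ℝ := 270 / 10000 - 197 / 10000 * u33 t

/-- weight of the keys 0, 11, 13 -/
noncomputable def a33 : ℝ := s33 t - b33 t

/-- weight of the keys 5, 6, 8 -/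
noncomputable def c33 : ℝ := g33 t - d33 t

/-- the constant of the level condition -/
noncomputable def cc33 : ℝ := 8375 / 10000 + 103 / 10000 * u33 t

/-- list of the weights -/
noncomputable def P33 : List ℝ :=
  [a33 t, e33 t, b33 t, b33 t, d33 t, c33 t, c33 t, f33 t, c33 t, d33 t, b33 t, a33 t, d33 t,
    a33 t]

end

private theorem n33_0 : D33.map (nE 0) = [5, 9, 5, 5, 7, 7, 7, 1, 7, 7, 5, 5, 7, 5] := by decide

private theorem y33_0 : D33.map (yE 0) = [3, 4, 1, 1, 6, 4, 4, 0, 4, 6, 1, 3, 6, 3] := by decide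

private theorem n33_1 : D33.map (nE 1) = [1, 1, 1, 1, 4, 4, 4, 1, 2, 4, 5, 5, 2, 1] := by decide

private theorem y33_1 : D33.map (yE 1) = [1, 1, 2, 1, 6, 8, 5, 1, 3, 7, 8, 7, 2, 1] := by decide

private theorem n33_2 : D33.map (nE 2) = [5, 1, 5, 1, 2, 4, 2, 1, 4, 4, 1, 1, 4, 1] := by decide

private theorem y33_2 : D33.map (yE 2) = [7, 1, 8, 2, 2, 5, 3, 1, 8, 6, 1, 1, 7, 1] := by decide

private theorem n33_3 : D33.map (nE 3) = [1, 1, 1, 0, 0, 0, 0, 1, 0, 0, 1, 1, 0, 0] := by decide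

private theorem y33_3 : D33.map (yE 3) = [3, 2, 2, 0, 0, 0, 0, 2, 0, 0, 2, 2, 0, 0] := by decide

private theorem n33_4 : D33.map (nE 4) = [1, 1, 1, 5, 4, 2, 4, 1, 4, 2, 1, 1, 4, 5] := by decide

private theorem y33_4 : D33.map (yE 4) = [1, 1, 1, 8, 7, 3, 8, 1, 5, 2, 2, 1, 6, 7] := by decide

private theorem n33_5 : D33.map (nE 5) = [0, 1, 0, 1, 0, 0, 0, 1, 0, 0, 1, 1, 0, 1] := by decide

private theorem y33_5 : D33.map (yE 5) = [0, 2, 0, 2, 0, 0, 0, 2, 0, 0, 2, 3, 0, 2] := by decide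

private theorem n33_6 : D33.map (nE 6) = [1, 1, 1, 1, 0, 0, 0, 1, 0, 0, 0, 0, 0, 1] := by decide

private theorem y33_6 : D33.map (yE 6) = [2, 2, 2, 2, 0, 0, 0, 2, 0, 0, 0, 0, 0, 3] := by decide

private theorem n33_7 : D33.map (nE 7) = [0, 0, 0, 0, 0, 0, 0, 1, 0, 0, 0, 0, 0, 0] := by decide

private theorem y33_7 : D33.map (yE 7) = [0, 0, 0, 0, 0, 0, 0, 3, 0, 0, 0, 0, 0, 0] := by decide


/-- nonnegative products -/
private theorem bern {t : ℝ} (h0 : 448 / 1000 ≤ t) (h1 : t ≤ 4588 / 10000) :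
    (0 ≤ (t - 448 / 1000) ^ 4 ∧ 0 ≤ (t - 448 / 1000) ^ 3 * (4588 / 10000 - t) ∧
    0 ≤ (t - 448 / 1000) ^ 2 * (4588 / 10000 - t) ^ 2 ∧
    0 ≤ (t - 448 / 1000) * (4588 / 10000 - t) ^ 3 ∧ 0 ≤ (4588 / 10000 - t) ^ 4) ∧
    (0 ≤ (t - 448 / 1000) ^ 3 ∧ 0 ≤ (t - 448 / 1000) ^ 2 * (4588 / 10000 - t) ∧
    0 ≤ (t - 448 / 1000) * (4588 / 10000 - t) ^ 2 ∧ 0 ≤ (4588 / 10000 - t) ^ 3) := by
  have h2 : 0 ≤ t - 448 / 1000 := by linarith
  have h3 : 0 ≤ 4588 / 10000 - t := by linarith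
  refine ⟨⟨?_, ?_, ?_, ?_, ?_⟩, ?_, ?_, ?_, ?_⟩ <;> positivity

theorem goodG33 {t : ℝ} (h0 : 448 / 1000 ≤ t) (h1 : t ≤ 4588 / 10000) :
    GoodG 3 3 t (cc33 t) (1 - cc33 t) 0 := by
  obtain ⟨⟨b4, b31, b22, b13, b04⟩, b3, b21, b12, b03⟩ := bern h0 h1
  have hu : 0 ≤ u33 t ∧ u33 t ≤ 1 := by
    unfold u33
    constructor <;> linarith
  have hc : 0 ≤ cc33 t ∧ cc33 t ≤ 1 := by
    unfold cc33
    constructor <;> linarith [hu.1, hu.2]
  have hb : 0 ≤ b33 t := by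
    unfold b33
    linarith [hu.2]
  have hd : 0 ≤ d33 t := by
    unfold d33
    linarith [hu.2]
  have hf : 0 ≤ f33 t := by
    unfold f33
    have : 0 ≤ t := by linarith
    positivity
  have ha : 0 ≤ a33 t := by
    unfold a33 s33 b33 u33
    nlinarith
  have he : 0 ≤ e33 t := by
    unfold e33 f33 s33
    nlinarith
  have hcc : 0 ≤ c33 t := by
    unfold c33 g33 e33 f33 s33 d33 u33
    nlinarith
  have hal : al 3 t = 3 / 2 * t := by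
    unfold al
    norm_num
    ring
  have hpc : pc 3 0 = 0 ∧ pc 3 1 = 1 ∧ pc 3 2 = 1 ∧ pc 3 3 = 2 ∧ pc 3 4 = 1 ∧ pc 3 5 = 2 ∧
      pc 3 6 = 2 ∧ pc 3 7 = 3 := by decide
  obtain ⟨p0, p1, p2, p3, p4, p5, p6, p7⟩ := hpc
  refine goodG_cert (q := 3) (L := 3) (N := 9) (by norm_num) (by linarith) (by linarith) hc.1
    (by linarith [hc.2]) (zt := zt33) (lt := lt33) (D := D33) (Pl := P33 t) rfl ?_ ?_ zchk33 kchk33
    ?_ ?_
  · intro p hp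
    simp only [P33, List.mem_cons, List.not_mem_nil, or_false] at hp
    rcases hp with h | h | h | h | h | h | h | h | h | h | h | h | h | h <;> rw [h] <;> assumption
  · simp only [P33, List.sum_cons, List.sum_nil]
    unfold a33 c33 g33
    ring
  · intro m hm
    have hm' : m < 8 := hm
    interval_cases m
    · rw [hal, p0, n33_0, P33]
      refine le_of_eq ?_
      simp only [dot]
      unfold a33 c33 g33 e33 f33 s33
      push_cast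
      ring
    · rw [hal, p1, n33_1, P33]
      refine le_of_eq ?_
      simp only [dot]
      unfold a33 c33 g33 e33 f33 s33
      push_cast
      ring
    · rw [hal, p2, n33_2, P33]
      refine le_of_eq ?_
      simp only [dot]
      unfold a33 c33 g33 e33 f33 s33
      push_cast
      ring
    · rw [hal, p3, n33_3, P33]
      refine le_of_eq ?_
      simp only [dot]
      unfold a33 c33 g33 e33 f33 s33
      push_cast
      ring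
    · rw [hal, p4, n33_4, P33]
      refine le_of_eq ?_
      simp only [dot]
      unfold a33 c33 g33 e33 f33 s33
      push_cast
      ring
    · rw [hal, p5, n33_5, P33]
      refine le_of_eq ?_
      simp only [dot]
      unfold a33 c33 g33 e33 f33 s33
      push_cast
      ring
    · rw [hal, p6, n33_6, P33]
      refine le_of_eq ?_
      simp only [dot]
      unfold a33 c33 g33 e33 f33 s33
      push_cast
      ring
    · rw [hal, p7, n33_7, P33]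
      refine le_of_eq ?_
      simp only [dot]
      unfold a33 c33 g33 e33 f33 s33
      push_cast
      ring
  · intro m hm
    have hm' : m < 8 := hm
    interval_cases m
    · rw [p0, n33_0, y33_0, P33]
      simp only [dot]
      unfold cc33 a33 c33 g33 e33 f33 s33 b33 d33 u33
      push_cast
      nlinarith
    · rw [p1, n33_1, y33_1, P33]
      simp only [dot]
      unfold cc33 a33 c33 g33 e33 f33 s33 b33 d33 u33
      push_cast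
      nlinarith
    · rw [p2, n33_2, y33_2, P33]
      simp only [dot]
      unfold cc33 a33 c33 g33 e33 f33 s33 b33 d33 u33
      push_cast
      nlinarith
    · rw [p3, n33_3, y33_3, P33]
      simp only [dot]
      unfold cc33 a33 c33 g33 e33 f33 s33 b33 d33 u33
      push_cast
      nlinarith
    · rw [p4, n33_4, y33_4, P33]
      simp only [dot]
      unfold cc33 a33 c33 g33 e33 f33 s33 b33 d33 u33
      push_cast
      nlinarith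
    · rw [p5, n33_5, y33_5, P33]
      simp only [dot]
      unfold cc33 a33 c33 g33 e33 f33 s33 b33 d33 u33
      push_cast
      nlinarith
    · rw [p6, n33_6, y33_6, P33]
      simp only [dot]
      unfold cc33 a33 c33 g33 e33 f33 s33 b33 d33 u33
      push_cast
      nlinarith
    · rw [p7, n33_7, y33_7, P33]
      simp only [dot]
      unfold cc33 a33 c33 g33 e33 f33 s33 b33 d33 u33
      push_cast
      nlinarith

theorem cc33_ok {t : ℝ} (h0 : 448 / 1000 ≤ t) (h1 : t ≤ 4588 / 10000) :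
    0 < cc33 t ∧ cc33 t ≤ 1 ∧ cc33 t * t + (1 - cc33 t) < 1 - t := by
  unfold cc33 u33
  refine ⟨by linarith, by linarith, ?_⟩
  nlinarith [mul_nonneg (sub_nonneg.2 h0) (sub_nonneg.2 h1)]

end Pool.Agent.MPf4617e
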