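import Pool.Agent.Lib.MP_f4617e_lc_G.Cert

/-!
MP_f4617e_lc, project G: a block system for 4 symbols, blocks of length two.
-/

set_option autoImplicit false

namespace Pool.Agent.MPf4617e

open Finset

/-! ### The data -/

/-- special words -/
def zt42 : List ℕ := [0, 1, 4, 10]

/-- levels -/
def lt42 : List ℕ :=
  [0, 1, 0, 0, 1, 1, 1, 1, 0, 1, 2, 0, 0, 1, 0, 0]

/-- key 0 -/
def k42_0 : KeyData where
  tab := [0, 0, 0, 0, 0, 0, 0, 0, 0, 0, 0, 0, 0, 0, 0, 0]
  sv := [[(0, 0, 0)], [(0, 0, 1)], [(0, 0, 1)], [(0, 0, 2)]]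

/-- key 1 -/
def k42_1 : KeyData where
  tab := [1, 0, 2, 3, 0, 0, 0, 0, 4, 0, 5, 6, 7, 0, 8, 9]
  sv := [[(0, 4, 1), (1, 0, 0), (2, 2, 0), (3, 3, 0), (4, 8, 0), (5, 10, 2), (6, 11, 0), (7, 12,
    0), (8, 14, 0), (9, 15, 0)], [(0, 4, 1)], [(0, 1, 1)], []]

/-- key 2 -/
def k42_2 : KeyData where
  tab := [0, 1, 2, 3, 0, 1, 2, 3, 0, 1, 2, 3, 0, 1, 2, 3]
  sv := [[(0, 0, 0), (1, 1, 1), (2, 2, 0), (3, 3, 0)], [], [(0, 0, 1), (1, 1, 1), (2, 2, 2), (3,
    3, 1)], []]

/-- key 3 -/
def k42_3 : KeyData where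
  tab := [0, 0, 0, 0, 1, 1, 1, 1, 2, 2, 2, 2, 3, 3, 3, 3]
  sv := [[(0, 0, 0), (1, 4, 1), (2, 8, 0), (3, 12, 0)], [(0, 0, 1), (1, 4, 1), (2, 8, 2), (3,
    12, 1)], [], []]

/-- the keys -/
def D42 : List KeyData := [k42_0, k42_1, k42_2, k42_3]

theorem zchk42 : zchk 4 2 zt42 lt42 = true := by decide +kernel

theorem kchk42 : D42.all (kchk 4 2 10 lt42) = true := by decide +kernel

/-! ### The weights -/

section

variable (t : ℝ)

/-- weight of the trivial partition -/
noncomputable def f42 : ℝ := (4 / 3 * t) ^ 2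

/-- weight of the keys 2, 3 -/
noncomputable def r42 : ℝ := (4 / 3 * t * (4 * (1 - t)) - 1 - 0) / 2

/-- weight of the cross -/
noncomputable def x42 : ℝ := 1 - f42 t - 2 * r42 t - 0

/-- the constant of the level condition -/
noncomputable def cc42 : ℝ := 85691 / 100000 + 179 / 100 * (t - 229 / 500)

/-- list of the weights -/
noncomputable def P42 : List ℝ := [f42 t, x42 t, r42 t, r42 t]

end

private theorem n42_0 : D42.map (nE 0) = [1, 10, 4, 4] := by decide +kernel

private theorem y42_0 : D42.map (yE 0) = [0, 3, 1, 1] := by decide +kernel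

private theorem n42_1 : D42.map (nE 1) = [1, 1, 0, 4] := by decide +kernel

private theorem y42_1 : D42.map (yE 1) = [1, 1, 0, 5] := by decide +kernel

private theorem n42_2 : D42.map (nE 2) = [1, 1, 4, 0] := by decide +kernel

private theorem y42_2 : D42.map (yE 2) = [1, 1, 5, 0] := by decide +kernel

private theorem n42_3 : D42.map (nE 3) = [1, 0, 0, 0] := by decide +kernel

private theorem y42_3 : D42.map (yE 3) = [2, 0, 0, 0] := by decide +kernel

theorem goodG42 {t : ℝ} (h0 : 229 / 500 ≤ t) (h1 : t ≤ 93 / 200) :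
    GoodG 4 2 t (cc42 t) (1 - cc42 t) 0 ∧ 0 < cc42 t ∧ cc42 t ≤ 1 ∧
      cc42 t * t + (1 - cc42 t) < 1 - t := by
  have v0 : 0 ≤ t - 229 / 500 := by linarith
  have w0 : 0 ≤ 93 / 200 - t := by linarith
  have b11 := mul_nonneg v0 w0
  have b20 := mul_nonneg v0 v0
  have b02 := mul_nonneg w0 w0
  have b30 := mul_nonneg b20 v0
  have b21 := mul_nonneg b20 w0
  have b12 := mul_nonneg b02 v0
  have b03 := mul_nonneg b02 w0
  have hc : 0 < cc42 t ∧ cc42 t ≤ 1 := by
    unfold cc42
    constructor <;> linarith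
  have hf : 0 ≤ f42 t := by
    unfold f42
    positivity
  have hr : 0 ≤ r42 t := by
    unfold r42
    nlinarith
  have hx : 0 ≤ x42 t := by
    unfold x42 f42 r42
    nlinarith
  have hal : al 4 t = 4 / 3 * t := by
    unfold al
    norm_num
    ring
  have hpc : pc 2 0 = 0 ∧ pc 2 1 = 1 ∧ pc 2 2 = 1 ∧ pc 2 3 = 2 := by decide
  obtain ⟨p0, p1, p2, p3⟩ := hpc
  refine ⟨?_, hc.1, hc.2, ?_⟩
  · refine goodG_cert (q := 4) (L := 2) (N := 10) (by norm_num) (by linarith) (by linarith) hc.1.le
      (by linarith [hc.2]) (zt := zt42) (lt := lt42) (D := D42) (Pl := P42 t) rfl ?_ ?_ zchk42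
      kchk42 ?_ ?_
    · intro p hp
      simp only [P42, List.mem_cons, List.not_mem_nil, or_false] at hp
      rcases hp with h | h | h | h <;> rw [h] <;> assumption
    · simp only [P42, List.sum_cons, List.sum_nil]
      unfold x42
      ring
    · intro m hm
      have hm' : m < 4 := hm
      interval_cases m
      · rw [hal, p0, n42_0, P42]
        refine le_of_eq ?_
        simp only [dot]
        unfold x42 f42 r42
        push_cast
        ring
      · rw [hal, p1, n42_1, P42]
        refine le_of_eq ?_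
        simp only [dot]
        unfold x42 f42 r42
        push_cast
        ring
      · rw [hal, p2, n42_2, P42]
        refine le_of_eq ?_
        simp only [dot]
        unfold x42 f42 r42
        push_cast
        ring
      · rw [hal, p3, n42_3, P42]
        refine le_of_eq ?_
        simp only [dot]
        unfold x42 f42 r42
        push_cast
        ring
    · intro m hm
      have hm' : m < 4 := hm
      interval_cases m
      · rw [p0, n42_0, y42_0, P42]
        simp only [dot]
        unfold cc42 x42 f42 r42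
        push_cast
        nlinarith
      · rw [p1, n42_1, y42_1, P42]
        simp only [dot]
        unfold cc42 x42 f42 r42
        push_cast
        nlinarith
      · rw [p2, n42_2, y42_2, P42]
        simp only [dot]
        unfold cc42 x42 f42 r42
        push_cast
        nlinarith
      · rw [p3, n42_3, y42_3, P42]
        simp only [dot]
        unfold cc42 x42 f42 r42
        push_cast
        nlinarith
  · unfold cc42
    nlinarith

end Pool.Agent.MPf4617e
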