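import Pool.Agent.Lib.MP_f4617e_lc_G.Seg

/-!
MP_f4617e_lc, project G: a block system for 4 symbols, blocks of length 3 (system found by
linear programming).
-/

set_option autoImplicit false

namespace Pool.Agent.MPf4617e

/-- special words -/
def zt43 : List ℕ := [0, 3, 12, 7, 48, 49, 60, 25]

/-- levels -/
def lt43 : List ℕ :=
  [0, 0, 0, 1, 0, 0, 0, 2, 0, 0, 0, 1, 1, 1, 1, 1, 0, 0, 0, 1, 0, 0, 0, 2, 0, 3, 0, 1,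
  1, 1, 1, 1, 0, 0, 0, 1, 0, 0, 0, 2, 0, 0, 0, 1, 1, 1, 1, 1, 1, 2, 1, 1, 1, 2, 1, 2, 1,
  2, 1, 1, 2, 2, 2, 2]

/-- key 0 -/
def k43_0 : KeyData where
  tab := [26, 8, 17, 27, 20, 2, 11, 27, 23, 5, 14, 27, 27, 27, 27, 27, 24, 6, 15, 27, 18, 0,
    9, 27, 21, 3, 12, 27, 27, 27, 27, 27, 25, 7, 16, 27, 19, 1, 10, 27, 22, 4, 13, 27,
    27, 27, 27, 27, 27, 27, 27, 27, 27, 27, 27, 27, 27, 27, 27, 27, 27, 27, 27, 27]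
  sv := [[(0, 21, 0), (1, 37, 0), (2, 5, 0), (3, 25, 3), (4, 41, 0), (5, 9, 0), (6, 17, 0),
    (7, 33, 0), (8, 1, 0), (9, 22, 0), (10, 38, 0), (11, 6, 0), (12, 26, 0), (13, 42,
    0), (14, 10, 0), (15, 18, 0), (16, 34, 0), (17, 2, 0), (18, 20, 0), (19, 36, 0),
    (20, 4, 0), (21, 24, 0), (22, 40, 0), (23, 8, 0), (24, 16, 0), (25, 32, 0), (26, 0,
    0), (27, 31, 1)], [(27, 28, 1)], [(27, 51, 2)], [(27, 48, 2)], [(27, 11, 1)], [(27,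
    12, 2)], [(27, 3, 2)], []]

/-- key 1 -/
def k43_1 : KeyData where
  tab := [7, 7, 7, 7, 3, 3, 3, 3, 5, 5, 5, 5, 1, 1, 1, 1, 9, 9, 9, 9, 9, 9, 9, 9, 9, 9, 9, 9,
    9, 9, 9, 9, 6, 6, 6, 6, 2, 2, 2, 2, 4, 4, 4, 4, 0, 0, 0, 0, 8, 8, 8, 8, 8, 8, 8, 8,
    8, 8, 8, 8, 8, 8, 8, 8]
  sv := [[(0, 47, 1), (1, 15, 1), (2, 37, 0), (3, 5, 0), (4, 41, 0), (5, 9, 0), (6, 33, 0),
    (7, 1, 0), (8, 59, 1), (9, 21, 0)], [(0, 44, 1), (1, 12, 1), (2, 36, 2), (3, 4, 2),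
    (4, 40, 1), (5, 8, 1), (6, 32, 1), (7, 0, 1), (8, 60, 2), (9, 28, 1)], [(8, 51, 2),
    (9, 18, 1)], [(8, 48, 2), (9, 16, 3)], [], [], [], []]

/-- key 2 -/
def k43_2 : KeyData where
  tab := [11, 11, 11, 11, 12, 12, 12, 12, 8, 8, 8, 8, 6, 6, 6, 6, 9, 9, 9, 9, 12, 12, 12, 12,
    3, 1, 2, 0, 4, 4, 4, 4, 10, 10, 10, 10, 12, 12, 12, 12, 7, 7, 7, 7, 5, 5, 5, 5, 12,
    12, 12, 12, 12, 12, 12, 12, 12, 12, 12, 12, 12, 12, 12, 12]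
  sv := [[(0, 27, 1), (1, 25, 3), (2, 26, 0), (3, 24, 0), (4, 31, 1), (5, 47, 1), (6, 15,
    1), (7, 41, 0), (8, 9, 0), (9, 17, 0), (10, 33, 0), (11, 1, 0), (12, 21, 0)], [(4,
    28, 1), (5, 44, 1), (6, 12, 1), (7, 40, 1), (8, 8, 1), (9, 16, 1), (10, 32, 1), (11,
    0, 1), (12, 60, 2)], [(12, 51, 2)], [(12, 48, 2)], [(12, 6, 1)], [(12, 4, 2)], [],
    []]

/-- key 3 -/
def k43_3 : KeyData where
  tab := [3, 3, 3, 3, 3, 3, 3, 3, 3, 3, 3, 3, 3, 3, 3, 3, 1, 1, 1, 1, 1, 1, 1, 1, 1, 1, 1, 1,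
    1, 1, 1, 1, 2, 2, 2, 2, 2, 2, 2, 2, 2, 2, 2, 2, 2, 2, 2, 2, 0, 0, 0, 0, 0, 0, 0, 0,
    0, 0, 0, 0, 0, 0, 0, 0]
  sv := [[(0, 59, 1), (1, 21, 0), (2, 37, 0), (3, 5, 0)], [(0, 60, 2), (1, 28, 1), (2, 44,
    1), (3, 12, 1)], [(0, 51, 2), (1, 18, 1), (2, 33, 1), (3, 1, 1)], [(0, 48, 2), (1,
    16, 3), (2, 32, 2), (3, 0, 2)], [], [], [], []]

/-- key 4 -/
def k43_4 : KeyData where
  tab := [8, 9, 5, 2, 6, 9, 3, 0, 7, 9, 4, 1, 9, 9, 9, 9, 8, 9, 5, 2, 6, 9, 3, 0, 7, 9, 4, 1,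
    9, 9, 9, 9, 8, 9, 5, 2, 6, 9, 3, 0, 7, 9, 4, 1, 9, 9, 9, 9, 8, 9, 5, 2, 6, 9, 3, 0,
    7, 9, 4, 1, 9, 9, 9, 9]
  sv := [[(0, 55, 2), (1, 59, 1), (2, 51, 1), (3, 22, 0), (4, 26, 0), (5, 18, 0), (6, 20,
    0), (7, 24, 0), (8, 16, 0), (9, 21, 0)], [(9, 28, 1)], [(9, 33, 1)], [], [(0, 7, 2),
    (1, 11, 1), (2, 3, 1), (3, 6, 1), (4, 10, 1), (5, 2, 1), (6, 4, 1), (7, 8, 1), (8,
    0, 1), (9, 15, 2)], [(9, 12, 2)], [(9, 1, 3)], []]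

/-- key 5 -/
def k43_5 : KeyData where
  tab := [6, 6, 6, 6, 1, 1, 1, 1, 2, 2, 2, 2, 0, 0, 0, 0, 4, 4, 4, 4, 1, 1, 1, 1, 2, 2, 2, 2,
    0, 0, 0, 0, 5, 5, 5, 5, 1, 1, 1, 1, 2, 2, 2, 2, 0, 0, 0, 0, 3, 3, 3, 3, 1, 1, 1, 1,
    2, 2, 2, 2, 0, 0, 0, 0]
  sv := [[(0, 31, 1), (1, 21, 0), (2, 41, 0), (3, 51, 1), (4, 17, 0), (5, 33, 0), (6, 1,
    0)], [(0, 28, 1), (1, 52, 2), (2, 40, 1), (3, 48, 2), (4, 16, 1), (5, 32, 1), (6, 0,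
    1)], [], [], [(0, 15, 2), (1, 6, 1), (2, 11, 1)], [(0, 12, 2), (1, 4, 2), (2, 8,
    3)], [], []]

/-- key 6 -/
def k43_6 : KeyData where
  tab := [3, 1, 2, 0, 3, 1, 2, 0, 3, 1, 2, 0, 3, 1, 2, 0, 3, 1, 2, 0, 3, 1, 2, 0, 3, 1, 2, 0,
    3, 1, 2, 0, 3, 1, 2, 0, 3, 1, 2, 0, 3, 1, 2, 0, 3, 1, 2, 0, 3, 1, 2, 0, 3, 1, 2, 0,
    3, 1, 2, 0, 3, 1, 2, 0]
  sv := [[(0, 31, 1), (1, 21, 0), (2, 22, 0), (3, 20, 0)], [], [(0, 51, 2), (1, 33, 1), (2,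
    18, 1), (3, 16, 1)], [], [(0, 11, 1), (1, 13, 2), (2, 6, 1), (3, 4, 1)], [], [(0, 3,
    2), (1, 1, 3), (2, 2, 2), (3, 0, 2)], []]

/-- key 7 -/
def k43_7 : KeyData where
  tab := [0, 0, 0, 0, 0, 0, 0, 0, 0, 0, 0, 0, 0, 0, 0, 0, 0, 0, 0, 0, 0, 0, 0, 0, 0, 0, 0, 0,
    0, 0, 0, 0, 0, 0, 0, 0, 0, 0, 0, 0, 0, 0, 0, 0, 0, 0, 0, 0, 0, 0, 0, 0, 0, 0, 0, 0,
    0, 0, 0, 0, 0, 0, 0, 0]
  sv := [[(0, 21, 0)], [(0, 28, 1)], [(0, 33, 1)], [(0, 48, 2)], [(0, 11, 1)], [(0, 12, 2)],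
    [(0, 3, 2)], [(0, 0, 3)]]

/-- key 8 -/
def k43_8 : KeyData where
  tab := [11, 5, 8, 12, 11, 5, 8, 12, 11, 5, 8, 12, 11, 5, 8, 12, 9, 3, 6, 12, 9, 1, 6, 12,
    9, 2, 6, 12, 9, 0, 6, 12, 10, 4, 7, 12, 10, 4, 7, 12, 10, 4, 7, 12, 10, 4, 7, 12,
    12, 12, 12, 12, 12, 12, 12, 12, 12, 12, 12, 12, 12, 12, 12, 12]
  sv := [[(0, 29, 1), (1, 21, 0), (2, 25, 3), (3, 17, 0), (4, 37, 0), (5, 5, 0), (6, 22, 0),
    (7, 38, 0), (8, 6, 0), (9, 20, 0), (10, 36, 0), (11, 4, 0), (12, 31, 1)], [(12, 60,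
    2)], [(4, 33, 1), (5, 1, 1), (6, 18, 1), (7, 34, 1), (8, 2, 1), (9, 16, 1), (10, 32,
    1), (11, 0, 1), (12, 51, 2)], [(12, 48, 2)], [(12, 11, 1)], [], [(12, 3, 2)], []]

/-- key 9 -/
def k43_9 : KeyData where
  tab := [11, 15, 8, 2, 9, 15, 6, 0, 10, 15, 7, 1, 15, 15, 15, 15, 11, 5, 8, 2, 9, 3, 6, 0,
    10, 4, 7, 1, 12, 12, 12, 12, 11, 14, 8, 2, 9, 14, 6, 0, 10, 14, 7, 1, 14, 14, 14,
    14, 11, 13, 8, 2, 9, 13, 6, 0, 10, 13, 7, 1, 13, 13, 13, 13]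
  sv := [[(0, 55, 2), (1, 59, 1), (2, 51, 1), (3, 21, 0), (4, 25, 3), (5, 17, 0), (6, 22,
    0), (7, 26, 0), (8, 18, 0), (9, 20, 0), (10, 24, 0), (11, 16, 0), (12, 31, 1), (13,
    63, 2), (14, 37, 0), (15, 5, 0)], [(12, 28, 1), (13, 60, 2), (14, 44, 1), (15, 12,
    1)], [(13, 49, 2), (14, 33, 1), (15, 1, 1)], [], [(0, 7, 2), (1, 11, 1), (2, 3, 1),
    (6, 6, 1), (7, 10, 1), (8, 2, 1), (9, 4, 1), (10, 8, 1), (11, 0, 1)], [], [], []]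

/-- key 10 -/
def k43_10 : KeyData where
  tab := [8, 2, 5, 9, 6, 0, 3, 9, 7, 1, 4, 9, 9, 9, 9, 9, 8, 2, 5, 9, 6, 0, 3, 9, 7, 1, 4, 9,
    9, 9, 9, 9, 8, 2, 5, 9, 6, 0, 3, 9, 7, 1, 4, 9, 9, 9, 9, 9, 8, 2, 5, 9, 6, 0, 3, 9,
    7, 1, 4, 9, 9, 9, 9, 9]
  sv := [[(0, 21, 0), (1, 41, 0), (2, 17, 0), (3, 22, 0), (4, 26, 0), (5, 18, 0), (6, 20,
    0), (7, 24, 0), (8, 16, 0), (9, 31, 1)], [(9, 28, 1)], [(9, 51, 2)], [], [(0, 5, 2),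
    (1, 9, 3), (2, 1, 2), (3, 6, 1), (4, 10, 1), (5, 2, 1), (6, 4, 1), (7, 8, 1), (8, 0,
    1), (9, 11, 1)], [(9, 12, 2)], [(9, 3, 2)], []]

/-- key 11 -/
def k43_11 : KeyData where
  tab := [8, 8, 8, 8, 9, 9, 9, 9, 5, 5, 5, 5, 2, 2, 2, 2, 9, 9, 9, 9, 9, 9, 9, 9, 9, 9, 9, 9,
    9, 9, 9, 9, 7, 7, 7, 7, 9, 9, 9, 9, 4, 4, 4, 4, 1, 1, 1, 1, 6, 6, 6, 6, 9, 9, 9, 9,
    3, 3, 3, 3, 0, 0, 0, 0]
  sv := [[(0, 63, 2), (1, 47, 1), (2, 15, 1), (3, 59, 1), (4, 41, 0), (5, 9, 0), (6, 51, 1),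
    (7, 33, 0), (8, 1, 0), (9, 21, 0)], [(0, 60, 2), (1, 44, 1), (2, 12, 1), (3, 56, 2),
    (4, 40, 1), (5, 8, 1), (6, 48, 2), (7, 32, 1), (8, 0, 1), (9, 28, 1)], [(9, 18, 1)],
    [(9, 16, 3)], [(9, 6, 1)], [(9, 4, 2)], [], []]

/-- the keys -/
def D43 : List KeyData :=
  [k43_0, k43_1, k43_2, k43_3, k43_4, k43_5, k43_6, k43_7, k43_8, k43_9, k43_10, k43_11]

theorem zchk43 : zchk 4 3 zt43 lt43 = true := by decide +kernel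

theorem kchk43 : D43.all (kchk 4 3 28 lt43) = true := by decide +kernel

/-- coefficients of the weights -/
def C43_0 : List (List ℕ) :=
  [[11251955531250, 32942069955000, 32131590029550, 10441338823386], [969342187500,
  2823735937500, 2697300000000, 856954687500], [16955221218750, 50071062285000,
  49361184542850, 16249273946022], [5535084375000, 17701031250000, 18754664062500,
  6588717187500], [6546571875000, 18881100000000, 18080339062500, 5773907812500],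
  [10773085218750, 33807832080000, 35183344547050, 12160246195286], [5958089156250,
  18820839870000, 19712209306200, 6853170186129], [33481360125000, 101718532147500,
  103009154383350, 34772050752057], [27619628062500, 81690089670000, 80571929396700,
  26497400537364], [6383707031250, 19680850875000, 20087048288750, 6799713858250],
  [12832822406250, 37837090305000, 37354812943050, 12311532264006], [2177507812500,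
  5478890625000, 4509548437500, 1180068750000]]

theorem schk43_0 : segchk 4 3 4650 4709 10000 8901 10000
    140484375000000 D43 C43_0 = true := by decide +kernel

theorem goodG43_0 {t : ℝ} (h0 : 4650 / 10000 ≤ t) (h1 : t ≤ 4709 / 10000) :
    GoodG 4 3 t (8901 / 10000) (1 - 8901 / 10000) 0 := by
  have h2 := goodG_seg (N := 28) (by norm_num) zchk43 kchk43 schk43_0
    (u := (10000 * t - 4650) / 59) (v := (4709 - 10000 * t) / 59) (by linarith) (by linarith)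
    (by ring)
  have e : ((4650 : ℕ) * ((4709 - 10000 * t) / 59) + (4709 : ℕ) * ((10000 * t - 4650) / 59)) /
      (10000 : ℕ) = t := by
    push_cast
    ring
  rw [e] at h2
  have h3 := h2 (by linarith) (by linarith)
  push_cast at h3
  exact h3

end Pool.Agent.MPf4617e
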