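import Pool.Agent.Lib.MP_f4617e_lc_G.Cert

/-!
MP_f4617e_lc, project G: a block system for 5 symbols, blocks of length two.
-/

set_option autoImplicit false

namespace Pool.Agent.MPf4617e

open Finset

/-! ### The data -/

/-- special words -/
def zt52 : List ℕ := [0, 1, 5, 12]

/-- levels -/
def lt52 : List ℕ :=
  [0, 1, 0, 0, 0, 1, 1, 1, 1, 1, 0, 1, 2, 0, 0, 0, 1, 0, 0, 0, 0, 1, 0, 0, 0]

/-- key 0 -/
def k52_0 : KeyData where
  tab := [0, 0, 0, 0, 0, 0, 0, 0, 0, 0, 0, 0, 0, 0, 0, 0, 0, 0, 0, 0, 0, 0, 0, 0, 0]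
  sv := [[(0, 0, 0)], [(0, 0, 1)], [(0, 0, 1)], [(0, 0, 2)]]

/-- key 1 -/
def k52_1 : KeyData where
  tab := [1, 0, 2, 3, 4, 0, 0, 0, 0, 0, 5, 0, 6, 7, 8, 9, 0, 10, 11, 12, 13, 0, 14, 15, 16]
  sv := [[(0, 5, 1), (1, 0, 0), (2, 2, 0), (3, 3, 0), (4, 4, 0), (5, 10, 0), (6, 12, 2), (7, 13,
    0), (8, 14, 0), (9, 15, 0), (10, 17, 0), (11, 18, 0), (12, 19, 0), (13, 20, 0), (14, 22,
    0), (15, 23, 0), (16, 24, 0)], [(0, 5, 1)], [(0, 1, 1)], []]

/-- key 2 -/
def k52_2 : KeyData where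
  tab := [0, 1, 2, 3, 4, 0, 1, 2, 3, 4, 0, 1, 2, 3, 4, 0, 1, 2, 3, 4, 0, 1, 2, 3, 4]
  sv := [[(0, 0, 0), (1, 1, 1), (2, 2, 0), (3, 3, 0), (4, 4, 0)], [], [(0, 0, 1), (1, 1, 1), (2,
    2, 2), (3, 3, 1), (4, 4, 1)], []]

/-- key 3 -/
def k52_3 : KeyData where
  tab := [0, 0, 0, 0, 0, 1, 1, 1, 1, 1, 2, 2, 2, 2, 2, 3, 3, 3, 3, 3, 4, 4, 4, 4, 4]
  sv := [[(0, 0, 0), (1, 5, 1), (2, 10, 0), (3, 15, 0), (4, 20, 0)], [(0, 0, 1), (1, 5, 1), (2,
    10, 2), (3, 15, 1), (4, 20, 1)], [], []]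

/-- key 4 -/
def k52_4 : KeyData where
  tab := [0, 1, 2, 7, 8, 0, 1, 3, 7, 8, 0, 1, 4, 7, 8, 0, 1, 5, 7, 8, 0, 1, 6, 7, 8]
  sv := [[(0, 0, 0), (1, 1, 1), (2, 2, 0), (3, 7, 1), (4, 12, 2), (5, 17, 0), (6, 22, 0), (7, 3,
    0), (8, 4, 0)], [], [(0, 0, 1), (1, 1, 1), (7, 3, 1), (8, 4, 1)], []]

/-- key 5 -/
def k52_5 : KeyData where
  tab := [0, 0, 0, 0, 0, 1, 1, 1, 1, 1, 2, 3, 4, 5, 6, 7, 7, 7, 7, 7, 8, 8, 8, 8, 8]
  sv := [[(0, 0, 0), (1, 5, 1), (2, 10, 0), (3, 11, 1), (4, 12, 2), (5, 13, 0), (6, 14, 0), (7,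
    15, 0), (8, 20, 0)], [(0, 0, 1), (1, 5, 1), (7, 15, 1), (8, 20, 1)], [], []]

/-- the keys -/
def D52 : List KeyData := [k52_0, k52_1, k52_2, k52_3, k52_4, k52_5]

theorem zchk52 : zchk 5 2 zt52 lt52 = true := by decide +kernel

theorem kchk52 : D52.all (kchk 5 2 17 lt52) = true := by decide +kernel

/-! ### The weights -/

section

variable (t : ℝ)

/-- weight of the trivial partition -/
noncomputable def f52 : ℝ := (5 / 4 * t) ^ 2

/-- weight of the keys 2, 3 -/
noncomputable def r52 : ℝ := (5 / 4 * t * (5 * (1 - t)) - 1 - 53 / 625) / 3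

/-- weight of the cross -/
noncomputable def x52 : ℝ := 1 - f52 t - 2 * r52 t - 53 / 625

/-- the constant of the level condition -/
noncomputable def cc52 : ℝ := 4369 / 5000 + 2489 / 1430 * (t - 459 / 1000)

/-- list of the weights -/
noncomputable def P52 : List ℝ := [f52 t, x52 t, r52 t, r52 t, 53 / 1250, 53 / 1250]

end

private theorem n52_0 : D52.map (nE 0) = [1, 17, 5, 5, 9, 9] := by decide +kernel

private theorem y52_0 : D52.map (yE 0) = [0, 3, 1, 1, 4, 4] := by decide +kernel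

private theorem n52_1 : D52.map (nE 1) = [1, 1, 0, 5, 0, 4] := by decide +kernel

private theorem y52_1 : D52.map (yE 1) = [1, 1, 0, 6, 0, 4] := by decide +kernel

private theorem n52_2 : D52.map (nE 2) = [1, 1, 5, 0, 4, 0] := by decide +kernel

private theorem y52_2 : D52.map (yE 2) = [1, 1, 6, 0, 4, 0] := by decide +kernel

private theorem n52_3 : D52.map (nE 3) = [1, 0, 0, 0, 0, 0] := by decide +kernel

private theorem y52_3 : D52.map (yE 3) = [2, 0, 0, 0, 0, 0] := by decide +kernel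

theorem goodG52 {t : ℝ} (h0 : 459 / 1000 ≤ t) (h1 : t ≤ 4733 / 10000) :
    GoodG 5 2 t (cc52 t) (1 - cc52 t) 0 ∧ 0 < cc52 t ∧ cc52 t ≤ 1 ∧
      cc52 t * t + (1 - cc52 t) < 1 - t := by
  have v0 : 0 ≤ t - 459 / 1000 := by linarith
  have w0 : 0 ≤ 4733 / 10000 - t := by linarith
  have b11 := mul_nonneg v0 w0
  have b20 := mul_nonneg v0 v0
  have b02 := mul_nonneg w0 w0
  have b30 := mul_nonneg b20 v0
  have b21 := mul_nonneg b20 w0
  have b12 := mul_nonneg b02 v0
  have b03 := mul_nonneg b02 w0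
  have hc : 0 < cc52 t ∧ cc52 t ≤ 1 := by
    unfold cc52
    constructor <;> linarith
  have hf : 0 ≤ f52 t := by
    unfold f52
    positivity
  have hr : 0 ≤ r52 t := by
    unfold r52
    nlinarith
  have hx : 0 ≤ x52 t := by
    unfold x52 f52 r52
    nlinarith
  have hal : al 5 t = 5 / 4 * t := by
    unfold al
    norm_num
    ring
  have hpc : pc 2 0 = 0 ∧ pc 2 1 = 1 ∧ pc 2 2 = 1 ∧ pc 2 3 = 2 := by decide
  obtain ⟨p0, p1, p2, p3⟩ := hpc
  refine ⟨?_, hc.1, hc.2, ?_⟩
  · refine goodG_cert (q := 5) (L := 2) (N := 17) (by norm_num) (by linarith) (by linarith) hc.1.le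
      (by linarith [hc.2]) (zt := zt52) (lt := lt52) (D := D52) (Pl := P52 t) rfl ?_ ?_ zchk52
      kchk52 ?_ ?_
    · intro p hp
      simp only [P52, List.mem_cons, List.not_mem_nil, or_false] at hp
      rcases hp with h | h | h | h | h | h <;> rw [h] <;> first | assumption | norm_num
    · simp only [P52, List.sum_cons, List.sum_nil]
      unfold x52
      ring
    · intro m hm
      have hm' : m < 4 := hm
      interval_cases m
      · rw [hal, p0, n52_0, P52]
        refine le_of_eq ?_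
        simp only [dot]
        unfold x52 f52 r52
        push_cast
        ring
      · rw [hal, p1, n52_1, P52]
        refine le_of_eq ?_
        simp only [dot]
        unfold x52 f52 r52
        push_cast
        ring
      · rw [hal, p2, n52_2, P52]
        refine le_of_eq ?_
        simp only [dot]
        unfold x52 f52 r52
        push_cast
        ring
      · rw [hal, p3, n52_3, P52]
        refine le_of_eq ?_
        simp only [dot]
        unfold x52 f52 r52
        push_cast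
        ring
    · intro m hm
      have hm' : m < 4 := hm
      interval_cases m
      · rw [p0, n52_0, y52_0, P52]
        simp only [dot]
        unfold cc52 x52 f52 r52
        push_cast
        nlinarith
      · rw [p1, n52_1, y52_1, P52]
        simp only [dot]
        unfold cc52 x52 f52 r52
        push_cast
        nlinarith
      · rw [p2, n52_2, y52_2, P52]
        simp only [dot]
        unfold cc52 x52 f52 r52
        push_cast
        nlinarith
      · rw [p3, n52_3, y52_3, P52]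
        simp only [dot]
        unfold cc52 x52 f52 r52
        push_cast
        nlinarith
  · unfold cc52
    nlinarith

end Pool.Agent.MPf4617e
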