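import Pool.Agent.Lib.MP_f4617e_lc_G.Seg

/-!
MP_f4617e_lc, project G: a block system for 5 symbols, blocks of length 3 (system found by
linear programming).
-/

set_option autoImplicit false

namespace Pool.Agent.MPf4617e

/-- special words -/
def zt53 : List ℕ := [0, 3, 15, 8, 75, 77, 90, 36]

/-- levels -/
def lt53 : List ℕ :=
  [0, 0, 0, 1, 0, 0, 0, 0, 2, 0, 0, 0, 0, 1, 0, 1, 1, 1, 1, 1, 0, 0, 0, 1, 0, 0, 0, 0,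
  1, 0, 0, 0, 0, 2, 0, 0, 3, 0, 1, 0, 1, 1, 1, 1, 1, 0, 0, 0, 1, 0, 0, 0, 0, 1, 0, 0, 0,
  0, 2, 0, 0, 0, 0, 1, 0, 1, 1, 1, 1, 1, 0, 0, 0, 1, 0, 1, 1, 2, 1, 1, 1, 1, 2, 2, 1, 1,
  1, 2, 1, 1, 2, 2, 2, 2, 2, 1, 1, 2, 1, 1, 0, 0, 0, 1, 0, 0, 0, 0, 2, 0, 0, 0, 0, 1, 0,
  1, 1, 1, 1, 1, 0, 0, 0, 1, 0]

/-- key 0 -/
def k53_0 : KeyData where
  tab := [10, 10, 10, 10, 10, 16, 16, 16, 16, 16, 6, 6, 6, 6, 6, 2, 2, 2, 2, 2, 14, 14, 14,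
    14, 14, 8, 8, 8, 8, 8, 16, 16, 16, 16, 16, 4, 4, 4, 4, 4, 0, 0, 0, 0, 0, 12, 12, 12,
    12, 12, 9, 9, 9, 9, 9, 16, 16, 16, 16, 16, 5, 5, 5, 5, 5, 1, 1, 1, 1, 1, 13, 13, 13,
    13, 13, 16, 16, 16, 16, 16, 16, 16, 16, 16, 16, 16, 16, 16, 16, 16, 16, 16, 16, 16,
    16, 16, 16, 16, 16, 16, 11, 11, 11, 11, 11, 16, 16, 16, 16, 16, 7, 7, 7, 7, 7, 3, 3,
    3, 3, 3, 15, 15, 15, 15, 15]
  sv := [[(0, 43, 1), (1, 68, 1), (2, 18, 1), (3, 118, 1), (4, 37, 0), (5, 61, 0), (6, 11,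
    0), (7, 111, 0), (8, 26, 0), (9, 51, 0), (10, 1, 0), (11, 101, 0), (12, 46, 0), (13,
    71, 0), (14, 21, 0), (15, 121, 0), (16, 31, 0)], [(0, 40, 1), (1, 65, 1), (2, 15,
    1), (3, 115, 1), (4, 35, 3), (5, 60, 1), (6, 10, 1), (7, 110, 1), (8, 25, 1), (9,
    50, 1), (10, 0, 1), (11, 100, 1), (12, 45, 1), (13, 70, 1), (14, 20, 1), (15, 120,
    1), (16, 90, 2)], [(16, 78, 2)], [(16, 75, 2)], [(16, 6, 1)], [(16, 5, 2)], [], []]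

/-- key 1 -/
def k53_1 : KeyData where
  tab := [14, 6, 10, 20, 18, 14, 6, 10, 20, 18, 14, 6, 10, 20, 18, 14, 6, 10, 20, 18, 14, 6,
    10, 20, 18, 12, 3, 8, 20, 16, 12, 1, 8, 20, 16, 12, 2, 8, 20, 16, 12, 0, 8, 20, 16,
    12, 4, 8, 20, 16, 13, 5, 9, 20, 17, 13, 5, 9, 20, 17, 13, 5, 9, 20, 17, 13, 5, 9,
    20, 17, 13, 5, 9, 20, 17, 20, 20, 20, 20, 20, 20, 20, 20, 20, 20, 20, 20, 20, 20,
    20, 20, 20, 20, 20, 20, 20, 20, 20, 20, 20, 15, 7, 11, 20, 19, 15, 7, 11, 20, 19,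
    15, 7, 11, 20, 19, 15, 7, 11, 20, 19, 15, 7, 11, 20, 19]
  sv := [[(0, 41, 1), (1, 31, 0), (2, 36, 3), (3, 26, 0), (4, 46, 0), (5, 56, 0), (6, 6, 0),
    (7, 106, 0), (8, 32, 0), (9, 57, 0), (10, 7, 0), (11, 107, 0), (12, 30, 0), (13, 55,
    0), (14, 5, 0), (15, 105, 0), (16, 34, 0), (17, 59, 0), (18, 9, 0), (19, 109, 0),
    (20, 43, 1)], [(20, 90, 2)], [(5, 51, 1), (6, 1, 1), (7, 101, 1), (8, 27, 1), (9,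
    52, 1), (10, 2, 1), (11, 102, 1), (12, 25, 1), (13, 50, 1), (14, 0, 1), (15, 100,
    1), (16, 29, 1), (17, 54, 1), (18, 4, 1), (19, 104, 1), (20, 78, 2)], [(20, 75, 2)],
    [(20, 13, 1)], [], [(20, 3, 2)], []]

/-- key 2 -/
def k53_2 : KeyData where
  tab := [3, 3, 3, 3, 3, 3, 3, 3, 3, 3, 3, 3, 3, 3, 3, 3, 3, 3, 3, 3, 3, 3, 3, 3, 3, 1, 1, 1,
    1, 1, 1, 1, 1, 1, 1, 1, 1, 1, 1, 1, 1, 1, 1, 1, 1, 1, 1, 1, 1, 1, 2, 2, 2, 2, 2, 2,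
    2, 2, 2, 2, 2, 2, 2, 2, 2, 2, 2, 2, 2, 2, 2, 2, 2, 2, 2, 0, 0, 0, 0, 0, 0, 0, 0, 0,
    0, 0, 0, 0, 0, 0, 0, 0, 0, 0, 0, 0, 0, 0, 0, 0, 4, 4, 4, 4, 4, 4, 4, 4, 4, 4, 4, 4,
    4, 4, 4, 4, 4, 4, 4, 4, 4, 4, 4, 4, 4]
  sv := [[(0, 88, 1), (1, 31, 0), (2, 56, 0), (3, 6, 0), (4, 106, 0)], [(0, 90, 2), (1, 40,
    1), (2, 65, 1), (3, 15, 1), (4, 115, 1)], [(0, 78, 2), (1, 27, 1), (2, 51, 1), (3,
    1, 1), (4, 101, 1)], [(0, 75, 2), (1, 25, 3), (2, 50, 2), (3, 0, 2), (4, 100, 2)],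
    [], [], [], []]

/-- key 3 -/
def k53_3 : KeyData where
  tab := [10, 6, 16, 2, 14, 8, 4, 16, 0, 12, 9, 5, 16, 1, 13, 16, 16, 16, 16, 16, 11, 7, 16,
    3, 15, 10, 6, 16, 2, 14, 8, 4, 16, 0, 12, 9, 5, 16, 1, 13, 16, 16, 16, 16, 16, 11,
    7, 16, 3, 15, 10, 6, 16, 2, 14, 8, 4, 16, 0, 12, 9, 5, 16, 1, 13, 16, 16, 16, 16,
    16, 11, 7, 16, 3, 15, 10, 6, 16, 2, 14, 8, 4, 16, 0, 12, 9, 5, 16, 1, 13, 16, 16,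
    16, 16, 16, 11, 7, 16, 3, 15, 10, 6, 16, 2, 14, 8, 4, 16, 0, 12, 9, 5, 16, 1, 13,
    16, 16, 16, 16, 16, 11, 7, 16, 3, 15]
  sv := [[(0, 83, 2), (1, 88, 1), (2, 78, 1), (3, 98, 1), (4, 31, 0), (5, 61, 0), (6, 26,
    0), (7, 46, 0), (8, 30, 0), (9, 35, 0), (10, 25, 0), (11, 45, 0), (12, 34, 0), (13,
    39, 0), (14, 29, 0), (15, 49, 0), (16, 32, 0)], [(16, 40, 1)], [(16, 27, 1)], [],
    [(0, 8, 2), (1, 13, 1), (2, 3, 1), (3, 23, 1), (4, 6, 1), (5, 11, 3), (6, 1, 1), (7,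
    21, 1), (8, 5, 1), (9, 10, 1), (10, 0, 1), (11, 20, 1), (12, 9, 1), (13, 14, 1),
    (14, 4, 1), (15, 24, 1), (16, 18, 2)], [(16, 15, 2)], [(16, 2, 2)], []]

/-- key 4 -/
def k53_4 : KeyData where
  tab := [3, 3, 3, 3, 3, 1, 1, 1, 1, 1, 2, 2, 2, 2, 2, 0, 0, 0, 0, 0, 4, 4, 4, 4, 4, 3, 3, 3,
    3, 3, 1, 1, 1, 1, 1, 2, 2, 2, 2, 2, 0, 0, 0, 0, 0, 4, 4, 4, 4, 4, 3, 3, 3, 3, 3, 1,
    1, 1, 1, 1, 2, 2, 2, 2, 2, 0, 0, 0, 0, 0, 4, 4, 4, 4, 4, 3, 3, 3, 3, 3, 1, 1, 1, 1,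
    1, 2, 2, 2, 2, 2, 0, 0, 0, 0, 0, 4, 4, 4, 4, 4, 3, 3, 3, 3, 3, 1, 1, 1, 1, 1, 2, 2,
    2, 2, 2, 0, 0, 0, 0, 0, 4, 4, 4, 4, 4]
  sv := [[(0, 43, 1), (1, 31, 0), (2, 61, 0), (3, 26, 0), (4, 46, 0)], [(0, 40, 1), (1, 80,
    2), (2, 60, 1), (3, 25, 1), (4, 45, 1)], [], [], [(0, 18, 2), (1, 6, 1), (2, 13, 1),
    (3, 3, 1), (4, 23, 1)], [(0, 15, 2), (1, 5, 2), (2, 10, 3), (3, 0, 2), (4, 20, 2)],
    [], []]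

/-- key 5 -/
def k53_5 : KeyData where
  tab := [3, 1, 2, 0, 4, 3, 1, 2, 0, 4, 3, 1, 2, 0, 4, 3, 1, 2, 0, 4, 3, 1, 2, 0, 4, 3, 1, 2,
    0, 4, 3, 1, 2, 0, 4, 3, 1, 2, 0, 4, 3, 1, 2, 0, 4, 3, 1, 2, 0, 4, 3, 1, 2, 0, 4, 3,
    1, 2, 0, 4, 3, 1, 2, 0, 4, 3, 1, 2, 0, 4, 3, 1, 2, 0, 4, 3, 1, 2, 0, 4, 3, 1, 2, 0,
    4, 3, 1, 2, 0, 4, 3, 1, 2, 0, 4, 3, 1, 2, 0, 4, 3, 1, 2, 0, 4, 3, 1, 2, 0, 4, 3, 1,
    2, 0, 4, 3, 1, 2, 0, 4, 3, 1, 2, 0, 4]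
  sv := [[(0, 43, 1), (1, 31, 0), (2, 32, 0), (3, 30, 0), (4, 34, 0)], [], [(0, 78, 2), (1,
    51, 1), (2, 27, 1), (3, 25, 1), (4, 29, 1)], [], [(0, 13, 1), (1, 6, 1), (2, 17, 2),
    (3, 5, 1), (4, 9, 1)], [], [(0, 3, 2), (1, 1, 3), (2, 2, 2), (3, 0, 2), (4, 4, 2)],
    []]

/-- key 6 -/
def k53_6 : KeyData where
  tab := [0, 0, 0, 0, 0, 0, 0, 0, 0, 0, 0, 0, 0, 0, 0, 0, 0, 0, 0, 0, 0, 0, 0, 0, 0, 0, 0, 0,
    0, 0, 0, 0, 0, 0, 0, 0, 0, 0, 0, 0, 0, 0, 0, 0, 0, 0, 0, 0, 0, 0, 0, 0, 0, 0, 0, 0,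
    0, 0, 0, 0, 0, 0, 0, 0, 0, 0, 0, 0, 0, 0, 0, 0, 0, 0, 0, 0, 0, 0, 0, 0, 0, 0, 0, 0,
    0, 0, 0, 0, 0, 0, 0, 0, 0, 0, 0, 0, 0, 0, 0, 0, 0, 0, 0, 0, 0, 0, 0, 0, 0, 0, 0, 0,
    0, 0, 0, 0, 0, 0, 0, 0, 0, 0, 0, 0, 0]
  sv := [[(0, 31, 0)], [(0, 40, 1)], [(0, 51, 1)], [(0, 75, 2)], [(0, 13, 1)], [(0, 15, 2)],
    [(0, 3, 2)], [(0, 0, 3)]]

/-- key 7 -/
def k53_7 : KeyData where
  tab := [14, 10, 23, 2, 18, 12, 4, 23, 0, 16, 13, 8, 23, 1, 17, 23, 23, 23, 23, 23, 15, 11,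
    23, 3, 19, 14, 10, 21, 2, 18, 12, 4, 21, 0, 16, 13, 6, 21, 1, 17, 21, 21, 21, 21,
    21, 15, 11, 21, 3, 19, 14, 10, 22, 2, 18, 12, 4, 22, 0, 16, 13, 7, 22, 1, 17, 22,
    22, 22, 22, 22, 15, 11, 22, 3, 19, 14, 10, 20, 2, 18, 12, 4, 20, 0, 16, 13, 5, 20,
    1, 17, 20, 20, 20, 20, 20, 15, 11, 20, 3, 19, 14, 10, 24, 2, 18, 12, 4, 24, 0, 16,
    13, 9, 24, 1, 17, 24, 24, 24, 24, 24, 15, 11, 24, 3, 19]
  sv := [[(0, 83, 2), (1, 88, 1), (2, 78, 1), (3, 98, 1), (4, 31, 0), (5, 86, 1), (6, 36,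
    3), (7, 61, 0), (8, 11, 0), (9, 111, 0), (10, 26, 0), (11, 46, 0), (12, 30, 0), (13,
    35, 0), (14, 25, 0), (15, 45, 0), (16, 34, 0), (17, 39, 0), (18, 29, 0), (19, 49,
    0), (20, 93, 2), (21, 32, 0), (22, 57, 0), (23, 7, 0), (24, 107, 0)], [(20, 90, 2),
    (21, 40, 1), (22, 65, 1), (23, 15, 1), (24, 115, 1)], [(20, 77, 2), (21, 27, 1),
    (22, 52, 1), (23, 2, 1), (24, 102, 1)], [], [(0, 8, 2), (1, 13, 1), (2, 3, 1), (3,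
    23, 1), (4, 6, 1), (10, 1, 1), (11, 21, 1), (12, 5, 1), (13, 10, 1), (14, 0, 1),
    (15, 20, 1), (16, 9, 1), (17, 14, 1), (18, 4, 1), (19, 24, 1)], [], [], []]

/-- key 8 -/
def k53_8 : KeyData where
  tab := [14, 14, 14, 14, 14, 20, 20, 20, 20, 20, 10, 10, 10, 10, 10, 7, 7, 7, 7, 7, 18, 18,
    18, 18, 18, 12, 12, 12, 12, 12, 20, 20, 20, 20, 20, 3, 1, 2, 0, 4, 5, 5, 5, 5, 5,
    16, 16, 16, 16, 16, 13, 13, 13, 13, 13, 20, 20, 20, 20, 20, 9, 9, 9, 9, 9, 6, 6, 6,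
    6, 6, 17, 17, 17, 17, 17, 20, 20, 20, 20, 20, 20, 20, 20, 20, 20, 20, 20, 20, 20,
    20, 20, 20, 20, 20, 20, 20, 20, 20, 20, 20, 15, 15, 15, 15, 15, 20, 20, 20, 20, 20,
    11, 11, 11, 11, 11, 8, 8, 8, 8, 8, 19, 19, 19, 19, 19]
  sv := [[(0, 38, 1), (1, 36, 3), (2, 37, 0), (3, 35, 0), (4, 39, 0), (5, 43, 1), (6, 68,
    1), (7, 18, 1), (8, 118, 1), (9, 61, 0), (10, 11, 0), (11, 111, 0), (12, 26, 0),
    (13, 51, 0), (14, 1, 0), (15, 101, 0), (16, 46, 0), (17, 71, 0), (18, 21, 0), (19,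
    121, 0), (20, 31, 0)], [(5, 40, 1), (6, 65, 1), (7, 15, 1), (8, 115, 1), (9, 60, 1),
    (10, 10, 1), (11, 110, 1), (12, 25, 1), (13, 50, 1), (14, 0, 1), (15, 100, 1), (16,
    45, 1), (17, 70, 1), (18, 20, 1), (19, 120, 1), (20, 90, 2)], [(20, 78, 2)], [(20,
    75, 2)], [(20, 6, 1)], [(20, 5, 2)], [], []]

/-- key 9 -/
def k53_9 : KeyData where
  tab := [42, 10, 26, 64, 58, 34, 2, 18, 64, 50, 38, 6, 22, 64, 54, 64, 64, 64, 64, 64, 46,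
    14, 30, 64, 62, 40, 8, 24, 64, 56, 32, 0, 16, 64, 48, 36, 4, 20, 64, 52, 64, 64, 64,
    64, 64, 44, 12, 28, 64, 60, 41, 9, 25, 64, 57, 33, 1, 17, 64, 49, 37, 5, 21, 64, 53,
    64, 64, 64, 64, 64, 45, 13, 29, 64, 61, 64, 64, 64, 64, 64, 64, 64, 64, 64, 64, 64,
    64, 64, 64, 64, 64, 64, 64, 64, 64, 64, 64, 64, 64, 64, 43, 11, 27, 64, 59, 35, 3,
    19, 64, 51, 39, 7, 23, 64, 55, 64, 64, 64, 64, 64, 47, 15, 31, 64, 63]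
  sv := [[(0, 31, 0), (1, 56, 0), (2, 6, 0), (3, 106, 0), (4, 36, 3), (5, 61, 0), (6, 11,
    0), (7, 111, 0), (8, 26, 0), (9, 51, 0), (10, 1, 0), (11, 101, 0), (12, 46, 0), (13,
    71, 0), (14, 21, 0), (15, 121, 0), (16, 32, 0), (17, 57, 0), (18, 7, 0), (19, 107,
    0), (20, 37, 0), (21, 62, 0), (22, 12, 0), (23, 112, 0), (24, 27, 0), (25, 52, 0),
    (26, 2, 0), (27, 102, 0), (28, 47, 0), (29, 72, 0), (30, 22, 0), (31, 122, 0), (32,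
    30, 0), (33, 55, 0), (34, 5, 0), (35, 105, 0), (36, 35, 0), (37, 60, 0), (38, 10,
    0), (39, 110, 0), (40, 25, 0), (41, 50, 0), (42, 0, 0), (43, 100, 0), (44, 45, 0),
    (45, 70, 0), (46, 20, 0), (47, 120, 0), (48, 34, 0), (49, 59, 0), (50, 9, 0), (51,
    109, 0), (52, 39, 0), (53, 64, 0), (54, 14, 0), (55, 114, 0), (56, 29, 0), (57, 54,
    0), (58, 4, 0), (59, 104, 0), (60, 49, 0), (61, 74, 0), (62, 24, 0), (63, 124, 0),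
    (64, 43, 1)], [(64, 40, 1)], [(64, 78, 2)], [(64, 75, 2)], [(64, 13, 1)], [(64, 15,
    2)], [(64, 3, 2)], []]

/-- key 10 -/
def k53_10 : KeyData where
  tab := [14, 10, 20, 2, 18, 12, 4, 20, 0, 16, 13, 8, 20, 1, 17, 20, 20, 20, 20, 20, 15, 11,
    20, 3, 19, 14, 10, 20, 2, 18, 12, 4, 20, 0, 16, 13, 6, 20, 1, 17, 20, 20, 20, 20,
    20, 15, 11, 20, 3, 19, 14, 10, 20, 2, 18, 12, 4, 20, 0, 16, 13, 7, 20, 1, 17, 20,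
    20, 20, 20, 20, 15, 11, 20, 3, 19, 14, 10, 20, 2, 18, 12, 4, 20, 0, 16, 13, 5, 20,
    1, 17, 20, 20, 20, 20, 20, 15, 11, 20, 3, 19, 14, 10, 20, 2, 18, 12, 4, 20, 0, 16,
    13, 9, 20, 1, 17, 20, 20, 20, 20, 20, 15, 11, 20, 3, 19]
  sv := [[(0, 83, 2), (1, 88, 1), (2, 78, 1), (3, 98, 1), (4, 31, 0), (5, 86, 1), (6, 36,
    3), (7, 61, 0), (8, 11, 0), (9, 111, 0), (10, 26, 0), (11, 46, 0), (12, 30, 0), (13,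
    35, 0), (14, 25, 0), (15, 45, 0), (16, 34, 0), (17, 39, 0), (18, 29, 0), (19, 49,
    0), (20, 32, 0)], [(20, 40, 1)], [(20, 27, 1)], [], [(0, 8, 2), (1, 13, 1), (2, 3,
    1), (3, 23, 1), (4, 6, 1), (10, 1, 1), (11, 21, 1), (12, 5, 1), (13, 10, 1), (14, 0,
    1), (15, 20, 1), (16, 9, 1), (17, 14, 1), (18, 4, 1), (19, 24, 1), (20, 18, 2)],
    [(20, 15, 2)], [(20, 2, 2)], []]

/-- the keys -/
def D53 : List KeyData :=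
  [k53_0, k53_1, k53_2, k53_3, k53_4, k53_5, k53_6, k53_7, k53_8, k53_9, k53_10]

theorem zchk53 : zchk 5 3 zt53 lt53 = true := by decide +kernel

theorem kchk53 : D53.all (kchk 5 3 65 lt53) = true := by decide +kernel

/-- coefficients of the weights -/
def C53_0 : List (List ℕ) :=
  [[25372569600000, 74485555200000, 72853401600000, 23789875200000], [85924159468275,
  253026214656300, 248371213693200, 81287426241600], [26545604087688, 82827983275296,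
  85932206607744, 29643441526272], [35616656570390, 108572848025880, 110163284460320,
  37210953772160], [28990387867265, 90886441561380, 94670486214320, 32761036180160],
  [28627922587265, 89822362201380, 93629723334320, 32421180820160], [102420440608542,
  312389917731864, 317604116654496, 107635115806848], [13551820800000, 45551923200000,
  50151628800000, 18102067200000], [58739263468275, 173220262656300, 170313997693200,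
  55798274241600], [50719590942300, 148831416291600, 145569409742400, 47454129811200],
  [38083584000000, 104161075200000, 94516531200000, 28488499200000]]

theorem schk53_0 : segchk 5 3 4733 4812 10000 9276 10000
    494592000000000 D53 C53_0 = true := by decide +kernel

theorem goodG53_0 {t : ℝ} (h0 : 4733 / 10000 ≤ t) (h1 : t ≤ 4812 / 10000) :
    GoodG 5 3 t (9276 / 10000) (1 - 9276 / 10000) 0 := by
  have h2 := goodG_seg (N := 65) (by norm_num) zchk53 kchk53 schk53_0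
    (u := (10000 * t - 4733) / 79) (v := (4812 - 10000 * t) / 79) (by linarith) (by linarith)
    (by ring)
  have e : ((4733 : ℕ) * ((4812 - 10000 * t) / 79) + (4812 : ℕ) * ((10000 * t - 4733) / 79)) /
      (10000 : ℕ) = t := by
    push_cast
    ring
  rw [e] at h2
  have h3 := h2 (by linarith) (by linarith)
  push_cast at h3
  exact h3

end Pool.Agent.MPf4617e
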