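import Pool.Agent.Lib.MP_f4617e_lc_G.Cert

/-!
MP_f4617e_lc, project G: a block system for 6 symbols, blocks of length two.
-/

set_option autoImplicit false

namespace Pool.Agent.MPf4617e

open Finset

/-! ### The data -/

/-- special words -/
def zt62 : List ℕ := [0, 1, 6, 14]

/-- levels -/
def lt62 : List ℕ :=
  [0, 1, 0, 0, 0, 0, 1, 1, 1, 1, 1, 1, 0, 1, 2, 0, 0, 0, 0, 1, 0, 0, 0, 0, 0, 1, 0, 0, 0, 0,
  0, 1, 0, 0, 0, 0]

/-- key 0 -/
def k62_0 : KeyData where
  tab := [0, 0, 0, 0, 0, 0, 0, 0, 0, 0, 0, 0, 0, 0, 0, 0, 0, 0, 0, 0, 0, 0, 0, 0, 0, 0, 0, 0, 0,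
    0, 0, 0, 0, 0, 0, 0]
  sv := [[(0, 0, 0)], [(0, 0, 1)], [(0, 0, 1)], [(0, 0, 2)]]

/-- key 1 -/
def k62_1 : KeyData where
  tab := [1, 0, 2, 3, 4, 5, 0, 0, 0, 0, 0, 0, 6, 0, 7, 8, 9, 10, 11, 0, 12, 13, 14, 15, 16, 0,
    17, 18, 19, 20, 21, 0, 22, 23, 24, 25]
  sv := [[(0, 6, 1), (1, 0, 0), (2, 2, 0), (3, 3, 0), (4, 4, 0), (5, 5, 0), (6, 12, 0), (7, 14,
    2), (8, 15, 0), (9, 16, 0), (10, 17, 0), (11, 18, 0), (12, 20, 0), (13, 21, 0), (14, 22,
    0), (15, 23, 0), (16, 24, 0), (17, 26, 0), (18, 27, 0), (19, 28, 0), (20, 29, 0), (21,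
    30, 0), (22, 32, 0), (23, 33, 0), (24, 34, 0), (25, 35, 0)], [(0, 6, 1)], [(0, 1, 1)],
    []]

/-- key 2 -/
def k62_2 : KeyData where
  tab := [0, 1, 2, 3, 4, 5, 0, 1, 2, 3, 4, 5, 0, 1, 2, 3, 4, 5, 0, 1, 2, 3, 4, 5, 0, 1, 2, 3, 4,
    5, 0, 1, 2, 3, 4, 5]
  sv := [[(0, 0, 0), (1, 1, 1), (2, 2, 0), (3, 3, 0), (4, 4, 0), (5, 5, 0)], [], [(0, 0, 1), (1,
    1, 1), (2, 2, 2), (3, 3, 1), (4, 4, 1), (5, 5, 1)], []]

/-- key 3 -/
def k62_3 : KeyData where
  tab := [0, 0, 0, 0, 0, 0, 1, 1, 1, 1, 1, 1, 2, 2, 2, 2, 2, 2, 3, 3, 3, 3, 3, 3, 4, 4, 4, 4, 4,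
    4, 5, 5, 5, 5, 5, 5]
  sv := [[(0, 0, 0), (1, 6, 1), (2, 12, 0), (3, 18, 0), (4, 24, 0), (5, 30, 0)], [(0, 0, 1), (1,
    6, 1), (2, 12, 2), (3, 18, 1), (4, 24, 1), (5, 30, 1)], [], []]

/-- key 4 -/
def k62_4 : KeyData where
  tab := [0, 1, 2, 8, 9, 10, 0, 1, 3, 8, 9, 10, 0, 1, 4, 8, 9, 10, 0, 1, 5, 8, 9, 10, 0, 1, 6, 8,
    9, 10, 0, 1, 7, 8, 9, 10]
  sv := [[(0, 0, 0), (1, 1, 1), (2, 2, 0), (3, 8, 1), (4, 14, 2), (5, 20, 0), (6, 26, 0), (7,
    32, 0), (8, 3, 0), (9, 4, 0), (10, 5, 0)], [], [(0, 0, 1), (1, 1, 1), (8, 3, 1), (9, 4,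
    1), (10, 5, 1)], []]

/-- key 5 -/
def k62_5 : KeyData where
  tab := [0, 0, 0, 0, 0, 0, 1, 1, 1, 1, 1, 1, 2, 3, 4, 5, 6, 7, 8, 8, 8, 8, 8, 8, 9, 9, 9, 9, 9,
    9, 10, 10, 10, 10, 10, 10]
  sv := [[(0, 0, 0), (1, 6, 1), (2, 12, 0), (3, 13, 1), (4, 14, 2), (5, 15, 0), (6, 16, 0), (7,
    17, 0), (8, 18, 0), (9, 24, 0), (10, 30, 0)], [(0, 0, 1), (1, 6, 1), (8, 18, 1), (9, 24,
    1), (10, 30, 1)], [], []]

/-- the keys -/
def D62 : List KeyData := [k62_0, k62_1, k62_2, k62_3, k62_4, k62_5]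

theorem zchk62 : zchk 6 2 zt62 lt62 = true := by decide +kernel

theorem kchk62 : D62.all (kchk 6 2 26 lt62) = true := by decide +kernel

/-! ### The weights -/

section

variable (t : ℝ)

/-- weight of the trivial partition -/
noncomputable def f62 : ℝ := (6 / 5 * t) ^ 2

/-- weight of the keys 2, 3 -/
noncomputable def r62 : ℝ := (6 / 5 * t * (6 * (1 - t)) - 1 - 87 / 400) / 4

/-- weight of the cross -/
noncomputable def x62 : ℝ := 1 - f62 t - 2 * r62 t - 29 / 200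

/-- the constant of the level condition -/
noncomputable def cc62 : ℝ := 90687 / 100000 + 313 / 175 * (t - 59 / 125)

/-- list of the weights -/
noncomputable def P62 : List ℝ := [f62 t, x62 t, r62 t, r62 t, 29 / 400, 29 / 400]

end

private theorem n62_0 : D62.map (nE 0) = [1, 26, 6, 6, 11, 11] := by decide +kernel

private theorem y62_0 : D62.map (yE 0) = [0, 3, 1, 1, 4, 4] := by decide +kernel

private theorem n62_1 : D62.map (nE 1) = [1, 1, 0, 6, 0, 5] := by decide +kernel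

private theorem y62_1 : D62.map (yE 1) = [1, 1, 0, 7, 0, 5] := by decide +kernel

private theorem n62_2 : D62.map (nE 2) = [1, 1, 6, 0, 5, 0] := by decide +kernel

private theorem y62_2 : D62.map (yE 2) = [1, 1, 7, 0, 5, 0] := by decide +kernel

private theorem n62_3 : D62.map (nE 3) = [1, 0, 0, 0, 0, 0] := by decide +kernel

private theorem y62_3 : D62.map (yE 3) = [2, 0, 0, 0, 0, 0] := by decide +kernel

theorem goodG62 {t : ℝ} (h0 : 59 / 125 ≤ t) (h1 : t ≤ 479 / 1000) :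
    GoodG 6 2 t (cc62 t) (1 - cc62 t) 0 ∧ 0 < cc62 t ∧ cc62 t ≤ 1 ∧
      cc62 t * t + (1 - cc62 t) < 1 - t := by
  have v0 : 0 ≤ t - 59 / 125 := by linarith
  have w0 : 0 ≤ 479 / 1000 - t := by linarith
  have b11 := mul_nonneg v0 w0
  have b20 := mul_nonneg v0 v0
  have b02 := mul_nonneg w0 w0
  have b30 := mul_nonneg b20 v0
  have b21 := mul_nonneg b20 w0
  have b12 := mul_nonneg b02 v0
  have b03 := mul_nonneg b02 w0
  have hc : 0 < cc62 t ∧ cc62 t ≤ 1 := by
    unfold cc62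
    constructor <;> linarith
  have hf : 0 ≤ f62 t := by
    unfold f62
    positivity
  have hr : 0 ≤ r62 t := by
    unfold r62
    nlinarith
  have hx : 0 ≤ x62 t := by
    unfold x62 f62 r62
    nlinarith
  have hal : al 6 t = 6 / 5 * t := by
    unfold al
    norm_num
    ring
  have hpc : pc 2 0 = 0 ∧ pc 2 1 = 1 ∧ pc 2 2 = 1 ∧ pc 2 3 = 2 := by decide
  obtain ⟨p0, p1, p2, p3⟩ := hpc
  refine ⟨?_, hc.1, hc.2, ?_⟩
  · refine goodG_cert (q := 6) (L := 2) (N := 26) (by norm_num) (by linarith) (by linarith) hc.1.le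
      (by linarith [hc.2]) (zt := zt62) (lt := lt62) (D := D62) (Pl := P62 t) rfl ?_ ?_ zchk62
      kchk62 ?_ ?_
    · intro p hp
      simp only [P62, List.mem_cons, List.not_mem_nil, or_false] at hp
      rcases hp with h | h | h | h | h | h <;> rw [h] <;> first | assumption | norm_num
    · simp only [P62, List.sum_cons, List.sum_nil]
      unfold x62
      ring
    · intro m hm
      have hm' : m < 4 := hm
      interval_cases m
      · rw [hal, p0, n62_0, P62]
        refine le_of_eq ?_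
        simp only [dot]
        unfold x62 f62 r62
        push_cast
        ring
      · rw [hal, p1, n62_1, P62]
        refine le_of_eq ?_
        simp only [dot]
        unfold x62 f62 r62
        push_cast
        ring
      · rw [hal, p2, n62_2, P62]
        refine le_of_eq ?_
        simp only [dot]
        unfold x62 f62 r62
        push_cast
        ring
      · rw [hal, p3, n62_3, P62]
        refine le_of_eq ?_
        simp only [dot]
        unfold x62 f62 r62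
        push_cast
        ring
    · intro m hm
      have hm' : m < 4 := hm
      interval_cases m
      · rw [p0, n62_0, y62_0, P62]
        simp only [dot]
        unfold cc62 x62 f62 r62
        push_cast
        nlinarith
      · rw [p1, n62_1, y62_1, P62]
        simp only [dot]
        unfold cc62 x62 f62 r62
        push_cast
        nlinarith
      · rw [p2, n62_2, y62_2, P62]
        simp only [dot]
        unfold cc62 x62 f62 r62
        push_cast
        nlinarith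
      · rw [p3, n62_3, y62_3, P62]
        simp only [dot]
        unfold cc62 x62 f62 r62
        push_cast
        nlinarith
  · unfold cc62
    nlinarith

end Pool.Agent.MPf4617e
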