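import Pool.Agent.Lib.MP_f4617e_lc_G.Cert

/-!
MP_f4617e_lc, project G: a block system for 7 symbols, blocks of length two.
-/

set_option autoImplicit false

namespace Pool.Agent.MPf4617e

open Finset

/-! ### The data -/

/-- special words -/
def zt72 : List ℕ := [0, 1, 7, 16]

/-- levels -/
def lt72 : List ℕ :=
  [0, 1, 0, 0, 0, 0, 0, 1, 1, 1, 1, 1, 1, 1, 0, 1, 2, 0, 0, 0, 0, 0, 1, 0, 0, 0, 0, 0, 0, 1,
  0, 0, 0, 0, 0, 0, 1, 0, 0, 0, 0, 0, 0, 1, 0, 0, 0, 0, 0]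

/-- key 0 -/
def k72_0 : KeyData where
  tab := [0, 0, 0, 0, 0, 0, 0, 0, 0, 0, 0, 0, 0, 0, 0, 0, 0, 0, 0, 0, 0, 0, 0, 0, 0, 0, 0, 0, 0,
    0, 0, 0, 0, 0, 0, 0, 0, 0, 0, 0, 0, 0, 0, 0, 0, 0, 0, 0, 0]
  sv := [[(0, 0, 0)], [(0, 0, 1)], [(0, 0, 1)], [(0, 0, 2)]]

/-- key 1 -/
def k72_1 : KeyData where
  tab := [1, 0, 2, 3, 4, 5, 6, 0, 0, 0, 0, 0, 0, 0, 7, 0, 8, 9, 10, 11, 12, 13, 0, 14, 15, 16,
    17, 18, 19, 0, 20, 21, 22, 23, 24, 25, 0, 26, 27, 28, 29, 30, 31, 0, 32, 33, 34, 35, 36]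
  sv := [[(0, 7, 1), (1, 0, 0), (2, 2, 0), (3, 3, 0), (4, 4, 0), (5, 5, 0), (6, 6, 0), (7, 14,
    0), (8, 16, 2), (9, 17, 0), (10, 18, 0), (11, 19, 0), (12, 20, 0), (13, 21, 0), (14, 23,
    0), (15, 24, 0), (16, 25, 0), (17, 26, 0), (18, 27, 0), (19, 28, 0), (20, 30, 0), (21,
    31, 0), (22, 32, 0), (23, 33, 0), (24, 34, 0), (25, 35, 0), (26, 37, 0), (27, 38, 0),
    (28, 39, 0), (29, 40, 0), (30, 41, 0), (31, 42, 0), (32, 44, 0), (33, 45, 0), (34, 46,
    0), (35, 47, 0), (36, 48, 0)], [(0, 7, 1)], [(0, 1, 1)], []]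

/-- key 2 -/
def k72_2 : KeyData where
  tab := [0, 1, 2, 3, 4, 5, 6, 0, 1, 2, 3, 4, 5, 6, 0, 1, 2, 3, 4, 5, 6, 0, 1, 2, 3, 4, 5, 6, 0,
    1, 2, 3, 4, 5, 6, 0, 1, 2, 3, 4, 5, 6, 0, 1, 2, 3, 4, 5, 6]
  sv := [[(0, 0, 0), (1, 1, 1), (2, 2, 0), (3, 3, 0), (4, 4, 0), (5, 5, 0), (6, 6, 0)], [], [(0,
    0, 1), (1, 1, 1), (2, 2, 2), (3, 3, 1), (4, 4, 1), (5, 5, 1), (6, 6, 1)], []]

/-- key 3 -/
def k72_3 : KeyData where
  tab := [0, 0, 0, 0, 0, 0, 0, 1, 1, 1, 1, 1, 1, 1, 2, 2, 2, 2, 2, 2, 2, 3, 3, 3, 3, 3, 3, 3, 4,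
    4, 4, 4, 4, 4, 4, 5, 5, 5, 5, 5, 5, 5, 6, 6, 6, 6, 6, 6, 6]
  sv := [[(0, 0, 0), (1, 7, 1), (2, 14, 0), (3, 21, 0), (4, 28, 0), (5, 35, 0), (6, 42, 0)],
    [(0, 0, 1), (1, 7, 1), (2, 14, 2), (3, 21, 1), (4, 28, 1), (5, 35, 1), (6, 42, 1)], [],
    []]

/-- key 4 -/
def k72_4 : KeyData where
  tab := [0, 1, 2, 9, 10, 11, 12, 0, 1, 3, 9, 10, 11, 12, 0, 1, 4, 9, 10, 11, 12, 0, 1, 5, 9, 10,
    11, 12, 0, 1, 6, 9, 10, 11, 12, 0, 1, 7, 9, 10, 11, 12, 0, 1, 8, 9, 10, 11, 12]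
  sv := [[(0, 0, 0), (1, 1, 1), (2, 2, 0), (3, 9, 1), (4, 16, 2), (5, 23, 0), (6, 30, 0), (7,
    37, 0), (8, 44, 0), (9, 3, 0), (10, 4, 0), (11, 5, 0), (12, 6, 0)], [], [(0, 0, 1), (1,
    1, 1), (9, 3, 1), (10, 4, 1), (11, 5, 1), (12, 6, 1)], []]

/-- key 5 -/
def k72_5 : KeyData where
  tab := [0, 0, 0, 0, 0, 0, 0, 1, 1, 1, 1, 1, 1, 1, 2, 3, 4, 5, 6, 7, 8, 9, 9, 9, 9, 9, 9, 9, 10,
    10, 10, 10, 10, 10, 10, 11, 11, 11, 11, 11, 11, 11, 12, 12, 12, 12, 12, 12, 12]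
  sv := [[(0, 0, 0), (1, 7, 1), (2, 14, 0), (3, 15, 1), (4, 16, 2), (5, 17, 0), (6, 18, 0), (7,
    19, 0), (8, 20, 0), (9, 21, 0), (10, 28, 0), (11, 35, 0), (12, 42, 0)], [(0, 0, 1), (1,
    7, 1), (9, 21, 1), (10, 28, 1), (11, 35, 1), (12, 42, 1)], [], []]

/-- the keys -/
def D72 : List KeyData := [k72_0, k72_1, k72_2, k72_3, k72_4, k72_5]

theorem zchk72 : zchk 7 2 zt72 lt72 = true := by decide +kernel

theorem kchk72 : D72.all (kchk 7 2 37 lt72) = true := by decide +kernel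

/-! ### The weights -/

section

variable (t : ℝ)

/-- weight of the trivial partition -/
noncomputable def f72 : ℝ := (7 / 6 * t) ^ 2

/-- weight of the keys 2, 3 -/
noncomputable def r72 : ℝ := (7 / 6 * t * (7 * (1 - t)) - 1 - 47 / 125) / 5

/-- weight of the cross -/
noncomputable def x72 : ℝ := 1 - f72 t - 2 * r72 t - 47 / 250

/-- the constant of the level condition -/
noncomputable def cc72 : ℝ := 92819 / 100000 + 73 / 40 * (t - 959 / 2000)

/-- list of the weights -/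
noncomputable def P72 : List ℝ := [f72 t, x72 t, r72 t, r72 t, 47 / 500, 47 / 500]

end

private theorem n72_0 : D72.map (nE 0) = [1, 37, 7, 7, 13, 13] := by decide +kernel

private theorem y72_0 : D72.map (yE 0) = [0, 3, 1, 1, 4, 4] := by decide +kernel

private theorem n72_1 : D72.map (nE 1) = [1, 1, 0, 7, 0, 6] := by decide +kernel

private theorem y72_1 : D72.map (yE 1) = [1, 1, 0, 8, 0, 6] := by decide +kernel

private theorem n72_2 : D72.map (nE 2) = [1, 1, 7, 0, 6, 0] := by decide +kernel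

private theorem y72_2 : D72.map (yE 2) = [1, 1, 8, 0, 6, 0] := by decide +kernel

private theorem n72_3 : D72.map (nE 3) = [1, 0, 0, 0, 0, 0] := by decide +kernel

private theorem y72_3 : D72.map (yE 3) = [2, 0, 0, 0, 0, 0] := by decide +kernel

theorem goodG72 {t : ℝ} (h0 : 959 / 2000 ≤ t) (h1 : t ≤ 4831 / 10000) :
    GoodG 7 2 t (cc72 t) (1 - cc72 t) 0 ∧ 0 < cc72 t ∧ cc72 t ≤ 1 ∧
      cc72 t * t + (1 - cc72 t) < 1 - t := by
  have v0 : 0 ≤ t - 959 / 2000 := by linarith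
  have w0 : 0 ≤ 4831 / 10000 - t := by linarith
  have b11 := mul_nonneg v0 w0
  have b20 := mul_nonneg v0 v0
  have b02 := mul_nonneg w0 w0
  have b30 := mul_nonneg b20 v0
  have b21 := mul_nonneg b20 w0
  have b12 := mul_nonneg b02 v0
  have b03 := mul_nonneg b02 w0
  have hc : 0 < cc72 t ∧ cc72 t ≤ 1 := by
    unfold cc72
    constructor <;> linarith
  have hf : 0 ≤ f72 t := by
    unfold f72
    positivity
  have hr : 0 ≤ r72 t := by
    unfold r72
    nlinarith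
  have hx : 0 ≤ x72 t := by
    unfold x72 f72 r72
    nlinarith
  have hal : al 7 t = 7 / 6 * t := by
    unfold al
    norm_num
    ring
  have hpc : pc 2 0 = 0 ∧ pc 2 1 = 1 ∧ pc 2 2 = 1 ∧ pc 2 3 = 2 := by decide
  obtain ⟨p0, p1, p2, p3⟩ := hpc
  refine ⟨?_, hc.1, hc.2, ?_⟩
  · refine goodG_cert (q := 7) (L := 2) (N := 37) (by norm_num) (by linarith) (by linarith) hc.1.le
      (by linarith [hc.2]) (zt := zt72) (lt := lt72) (D := D72) (Pl := P72 t) rfl ?_ ?_ zchk72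
      kchk72 ?_ ?_
    · intro p hp
      simp only [P72, List.mem_cons, List.not_mem_nil, or_false] at hp
      rcases hp with h | h | h | h | h | h <;> rw [h] <;> first | assumption | norm_num
    · simp only [P72, List.sum_cons, List.sum_nil]
      unfold x72
      ring
    · intro m hm
      have hm' : m < 4 := hm
      interval_cases m
      · rw [hal, p0, n72_0, P72]
        refine le_of_eq ?_
        simp only [dot]
        unfold x72 f72 r72
        push_cast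
        ring
      · rw [hal, p1, n72_1, P72]
        refine le_of_eq ?_
        simp only [dot]
        unfold x72 f72 r72
        push_cast
        ring
      · rw [hal, p2, n72_2, P72]
        refine le_of_eq ?_
        simp only [dot]
        unfold x72 f72 r72
        push_cast
        ring
      · rw [hal, p3, n72_3, P72]
        refine le_of_eq ?_
        simp only [dot]
        unfold x72 f72 r72
        push_cast
        ring
    · intro m hm
      have hm' : m < 4 := hm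
      interval_cases m
      · rw [p0, n72_0, y72_0, P72]
        simp only [dot]
        unfold cc72 x72 f72 r72
        push_cast
        nlinarith
      · rw [p1, n72_1, y72_1, P72]
        simp only [dot]
        unfold cc72 x72 f72 r72
        push_cast
        nlinarith
      · rw [p2, n72_2, y72_2, P72]
        simp only [dot]
        unfold cc72 x72 f72 r72
        push_cast
        nlinarith
      · rw [p3, n72_3, y72_3, P72]
        simp only [dot]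
        unfold cc72 x72 f72 r72
        push_cast
        nlinarith
  · unfold cc72
    nlinarith

end Pool.Agent.MPf4617e
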