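import Pool.Agent.Lib.MP_f4617e_lc_G.Cert

/-!
MP_f4617e_lc, project G: a block system for 8 symbols, blocks of length two.
-/

set_option autoImplicit false

namespace Pool.Agent.MPf4617e

open Finset

/-! ### The data -/

/-- special words -/
def zt82 : List ℕ := [0, 1, 8, 18]

/-- levels -/
def lt82 : List ℕ :=
  [0, 1, 0, 0, 0, 0, 0, 0, 1, 1, 1, 1, 1, 1, 1, 1, 0, 1, 2, 0, 0, 0, 0, 0, 0, 1, 0, 0, 0, 0,
  0, 0, 0, 1, 0, 0, 0, 0, 0, 0, 0, 1, 0, 0, 0, 0, 0, 0, 0, 1, 0, 0, 0, 0, 0, 0, 0, 1, 0, 0,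
  0, 0, 0, 0]

/-- key 0 -/
def k82_0 : KeyData where
  tab := [0, 0, 0, 0, 0, 0, 0, 0, 0, 0, 0, 0, 0, 0, 0, 0, 0, 0, 0, 0, 0, 0, 0, 0, 0, 0, 0, 0, 0,
    0, 0, 0, 0, 0, 0, 0, 0, 0, 0, 0, 0, 0, 0, 0, 0, 0, 0, 0, 0, 0, 0, 0, 0, 0, 0, 0, 0, 0,
    0, 0, 0, 0, 0, 0]
  sv := [[(0, 0, 0)], [(0, 0, 1)], [(0, 0, 1)], [(0, 0, 2)]]

/-- key 1 -/
def k82_1 : KeyData where
  tab := [1, 0, 2, 3, 4, 5, 6, 7, 0, 0, 0, 0, 0, 0, 0, 0, 8, 0, 9, 10, 11, 12, 13, 14, 15, 0, 16,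
    17, 18, 19, 20, 21, 22, 0, 23, 24, 25, 26, 27, 28, 29, 0, 30, 31, 32, 33, 34, 35, 36, 0,
    37, 38, 39, 40, 41, 42, 43, 0, 44, 45, 46, 47, 48, 49]
  sv := [[(0, 8, 1), (1, 0, 0), (2, 2, 0), (3, 3, 0), (4, 4, 0), (5, 5, 0), (6, 6, 0), (7, 7,
    0), (8, 16, 0), (9, 18, 2), (10, 19, 0), (11, 20, 0), (12, 21, 0), (13, 22, 0), (14, 23,
    0), (15, 24, 0), (16, 26, 0), (17, 27, 0), (18, 28, 0), (19, 29, 0), (20, 30, 0), (21,
    31, 0), (22, 32, 0), (23, 34, 0), (24, 35, 0), (25, 36, 0), (26, 37, 0), (27, 38, 0),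
    (28, 39, 0), (29, 40, 0), (30, 42, 0), (31, 43, 0), (32, 44, 0), (33, 45, 0), (34, 46,
    0), (35, 47, 0), (36, 48, 0), (37, 50, 0), (38, 51, 0), (39, 52, 0), (40, 53, 0), (41,
    54, 0), (42, 55, 0), (43, 56, 0), (44, 58, 0), (45, 59, 0), (46, 60, 0), (47, 61, 0),
    (48, 62, 0), (49, 63, 0)], [(0, 8, 1)], [(0, 1, 1)], []]

/-- key 2 -/
def k82_2 : KeyData where
  tab := [0, 1, 2, 3, 4, 5, 6, 7, 0, 1, 2, 3, 4, 5, 6, 7, 0, 1, 2, 3, 4, 5, 6, 7, 0, 1, 2, 3, 4,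
    5, 6, 7, 0, 1, 2, 3, 4, 5, 6, 7, 0, 1, 2, 3, 4, 5, 6, 7, 0, 1, 2, 3, 4, 5, 6, 7, 0, 1,
    2, 3, 4, 5, 6, 7]
  sv := [[(0, 0, 0), (1, 1, 1), (2, 2, 0), (3, 3, 0), (4, 4, 0), (5, 5, 0), (6, 6, 0), (7, 7,
    0)], [], [(0, 0, 1), (1, 1, 1), (2, 2, 2), (3, 3, 1), (4, 4, 1), (5, 5, 1), (6, 6, 1),
    (7, 7, 1)], []]

/-- key 3 -/
def k82_3 : KeyData where
  tab := [0, 0, 0, 0, 0, 0, 0, 0, 1, 1, 1, 1, 1, 1, 1, 1, 2, 2, 2, 2, 2, 2, 2, 2, 3, 3, 3, 3, 3,
    3, 3, 3, 4, 4, 4, 4, 4, 4, 4, 4, 5, 5, 5, 5, 5, 5, 5, 5, 6, 6, 6, 6, 6, 6, 6, 6, 7, 7,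
    7, 7, 7, 7, 7, 7]
  sv := [[(0, 0, 0), (1, 8, 1), (2, 16, 0), (3, 24, 0), (4, 32, 0), (5, 40, 0), (6, 48, 0), (7,
    56, 0)], [(0, 0, 1), (1, 8, 1), (2, 16, 2), (3, 24, 1), (4, 32, 1), (5, 40, 1), (6, 48,
    1), (7, 56, 1)], [], []]

/-- key 4 -/
def k82_4 : KeyData where
  tab := [0, 1, 2, 10, 11, 12, 13, 14, 0, 1, 3, 10, 11, 12, 13, 14, 0, 1, 4, 10, 11, 12, 13, 14,
    0, 1, 5, 10, 11, 12, 13, 14, 0, 1, 6, 10, 11, 12, 13, 14, 0, 1, 7, 10, 11, 12, 13, 14,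
    0, 1, 8, 10, 11, 12, 13, 14, 0, 1, 9, 10, 11, 12, 13, 14]
  sv := [[(0, 0, 0), (1, 1, 1), (2, 2, 0), (3, 10, 1), (4, 18, 2), (5, 26, 0), (6, 34, 0), (7,
    42, 0), (8, 50, 0), (9, 58, 0), (10, 3, 0), (11, 4, 0), (12, 5, 0), (13, 6, 0), (14, 7,
    0)], [], [(0, 0, 1), (1, 1, 1), (10, 3, 1), (11, 4, 1), (12, 5, 1), (13, 6, 1), (14, 7,
    1)], []]

/-- key 5 -/
def k82_5 : KeyData where
  tab := [0, 0, 0, 0, 0, 0, 0, 0, 1, 1, 1, 1, 1, 1, 1, 1, 2, 3, 4, 5, 6, 7, 8, 9, 10, 10, 10, 10,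
    10, 10, 10, 10, 11, 11, 11, 11, 11, 11, 11, 11, 12, 12, 12, 12, 12, 12, 12, 12, 13, 13,
    13, 13, 13, 13, 13, 13, 14, 14, 14, 14, 14, 14, 14, 14]
  sv := [[(0, 0, 0), (1, 8, 1), (2, 16, 0), (3, 17, 1), (4, 18, 2), (5, 19, 0), (6, 20, 0), (7,
    21, 0), (8, 22, 0), (9, 23, 0), (10, 24, 0), (11, 32, 0), (12, 40, 0), (13, 48, 0), (14,
    56, 0)], [(0, 0, 1), (1, 8, 1), (10, 24, 1), (11, 32, 1), (12, 40, 1), (13, 48, 1), (14,
    56, 1)], [], []]

/-- the keys -/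
def D82 : List KeyData := [k82_0, k82_1, k82_2, k82_3, k82_4, k82_5]

theorem zchk82 : zchk 8 2 zt82 lt82 = true := by decide +kernel

theorem kchk82 : D82.all (kchk 8 2 50 lt82) = true := by decide +kernel

/-! ### The weights -/

section

variable (t : ℝ)

/-- weight of the trivial partition -/
noncomputable def f82 : ℝ := (8 / 7 * t) ^ 2

/-- weight of the keys 2, 3 -/
noncomputable def r82 : ℝ := (8 / 7 * t * (8 * (1 - t)) - 1 - 221 / 400) / 6

/-- weight of the cross -/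
noncomputable def x82 : ℝ := 1 - f82 t - 2 * r82 t - 221 / 1000

/-- the constant of the level condition -/
noncomputable def cc82 : ℝ := 5893 / 6250 + 176 / 95 * (t - 4843 / 10000)

/-- list of the weights -/
noncomputable def P82 : List ℝ := [f82 t, x82 t, r82 t, r82 t, 221 / 2000, 221 / 2000]

end

private theorem n82_0 : D82.map (nE 0) = [1, 50, 8, 8, 15, 15] := by decide +kernel

private theorem y82_0 : D82.map (yE 0) = [0, 3, 1, 1, 4, 4] := by decide +kernel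

private theorem n82_1 : D82.map (nE 1) = [1, 1, 0, 8, 0, 7] := by decide +kernel

private theorem y82_1 : D82.map (yE 1) = [1, 1, 0, 9, 0, 7] := by decide +kernel

private theorem n82_2 : D82.map (nE 2) = [1, 1, 8, 0, 7, 0] := by decide +kernel

private theorem y82_2 : D82.map (yE 2) = [1, 1, 9, 0, 7, 0] := by decide +kernel

private theorem n82_3 : D82.map (nE 3) = [1, 0, 0, 0, 0, 0] := by decide +kernel

private theorem y82_3 : D82.map (yE 3) = [2, 0, 0, 0, 0, 0] := by decide +kernel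

theorem goodG82 {t : ℝ} (h0 : 4843 / 10000 ≤ t) (h1 : t ≤ 2431 / 5000) :
    GoodG 8 2 t (cc82 t) (1 - cc82 t) 0 ∧ 0 < cc82 t ∧ cc82 t ≤ 1 ∧
      cc82 t * t + (1 - cc82 t) < 1 - t := by
  have v0 : 0 ≤ t - 4843 / 10000 := by linarith
  have w0 : 0 ≤ 2431 / 5000 - t := by linarith
  have b11 := mul_nonneg v0 w0
  have b20 := mul_nonneg v0 v0
  have b02 := mul_nonneg w0 w0
  have b30 := mul_nonneg b20 v0
  have b21 := mul_nonneg b20 w0
  have b12 := mul_nonneg b02 v0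
  have b03 := mul_nonneg b02 w0
  have hc : 0 < cc82 t ∧ cc82 t ≤ 1 := by
    unfold cc82
    constructor <;> linarith
  have hf : 0 ≤ f82 t := by
    unfold f82
    positivity
  have hr : 0 ≤ r82 t := by
    unfold r82
    nlinarith
  have hx : 0 ≤ x82 t := by
    unfold x82 f82 r82
    nlinarith
  have hal : al 8 t = 8 / 7 * t := by
    unfold al
    norm_num
    ring
  have hpc : pc 2 0 = 0 ∧ pc 2 1 = 1 ∧ pc 2 2 = 1 ∧ pc 2 3 = 2 := by decide
  obtain ⟨p0, p1, p2, p3⟩ := hpc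
  refine ⟨?_, hc.1, hc.2, ?_⟩
  · refine goodG_cert (q := 8) (L := 2) (N := 50) (by norm_num) (by linarith) (by linarith) hc.1.le
      (by linarith [hc.2]) (zt := zt82) (lt := lt82) (D := D82) (Pl := P82 t) rfl ?_ ?_ zchk82
      kchk82 ?_ ?_
    · intro p hp
      simp only [P82, List.mem_cons, List.not_mem_nil, or_false] at hp
      rcases hp with h | h | h | h | h | h <;> rw [h] <;> first | assumption | norm_num
    · simp only [P82, List.sum_cons, List.sum_nil]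
      unfold x82
      ring
    · intro m hm
      have hm' : m < 4 := hm
      interval_cases m
      · rw [hal, p0, n82_0, P82]
        refine le_of_eq ?_
        simp only [dot]
        unfold x82 f82 r82
        push_cast
        ring
      · rw [hal, p1, n82_1, P82]
        refine le_of_eq ?_
        simp only [dot]
        unfold x82 f82 r82
        push_cast
        ring
      · rw [hal, p2, n82_2, P82]
        refine le_of_eq ?_
        simp only [dot]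
        unfold x82 f82 r82
        push_cast
        ring
      · rw [hal, p3, n82_3, P82]
        refine le_of_eq ?_
        simp only [dot]
        unfold x82 f82 r82
        push_cast
        ring
    · intro m hm
      have hm' : m < 4 := hm
      interval_cases m
      · rw [p0, n82_0, y82_0, P82]
        simp only [dot]
        unfold cc82 x82 f82 r82
        push_cast
        nlinarith
      · rw [p1, n82_1, y82_1, P82]
        simp only [dot]
        unfold cc82 x82 f82 r82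
        push_cast
        nlinarith
      · rw [p2, n82_2, y82_2, P82]
        simp only [dot]
        unfold cc82 x82 f82 r82
        push_cast
        nlinarith
      · rw [p3, n82_3, y82_3, P82]
        simp only [dot]
        unfold cc82 x82 f82 r82
        push_cast
        nlinarith
  · unfold cc82
    nlinarith

end Pool.Agent.MPf4617e
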