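import Pool.Agent.Lib.MP_f4617e_lc_G.EngineG
import Pool.Agent.Lib.MP_f4617e_lc_G.K33
import Pool.Agent.Lib.MP_f4617e_lc_G.K42
import Pool.Agent.Lib.MP_f4617e_lc_G.K52
import Pool.Agent.Lib.MP_f4617e_lc_G.K62
import Pool.Agent.Lib.MP_f4617e_lc_G.K72
import Pool.Agent.Lib.MP_f4617e_lc_G.K82
import Pool.Agent.Lib.MP_f4617e_lc_G.K43
import Pool.Agent.Lib.MP_f4617e_lc_G.K53

/-!
MP_f4617e_lc, project G: the Hamming bound from the block systems with general letters.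
-/

set_option autoImplicit false

namespace Pool.Agent.MPf4617e

open Finset

theorem GoodG.mono {q L : ℕ} [NeZero q] {τ c1 c2 ε ε' : ℝ} (hq : 1 ≤ q) (h0 : 0 ≤ al q τ)
    (h1 : 0 ≤ (q : ℝ) * (1 - τ)) (hε : ε ≤ ε') (h : GoodG q L τ c1 c2 ε) :
    GoodG q L τ c1 c2 ε' := by
  obtain ⟨z, hz, nΛ, W, hW⟩ := h
  refine ⟨z, hz, nΛ, W, fun B E => ?_⟩
  obtain ⟨k, h2, h3, h4⟩ := hW B E
  refine ⟨k, h2, le_trans (mul_le_mul_of_nonneg_left ?_ ?_) h3, h4⟩
  · refine Real.rpow_le_rpow_of_exponent_le (by exact_mod_cast hq) ?_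
    rw [neg_le_neg_iff]
    exact mul_le_mul_of_nonneg_right hε (by positivity)
  · exact Finset.prod_nonneg fun b _ => by positivity

/-- A lossless good system gives the Hamming bound. -/
theorem achievable_of_goodG0 {q L : ℕ} [NeZero q] (hq : 2 ≤ q) (hL : 0 < L) {τ c1 : ℝ}
    (hτ0 : 0 < τ) (hτ1 : τ < 1 / 2)
    (h : GoodG q L τ c1 (1 - c1) 0 ∧ 0 < c1 ∧ c1 ≤ 1 ∧ c1 * τ + (1 - c1) < 1 - τ) :
    Achievable q τ :=
  achievable_of_goodG hq hτ0 hτ1 fun _ hε => ⟨L, c1, 1 - c1, hL, h.2.1, h.2.2.1,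
    by linarith [h.2.2.1], h.2.2.2,
    h.1.mono (by omega) (al_pos hq hτ0).le (qt_pos hq hτ1).le hε.le⟩

theorem ach3 {t : ℝ} (h0 : 448 / 1000 ≤ t) (h1 : t ≤ 4588 / 10000) : Achievable 3 t :=
  achievable_of_goodG0 (L := 3) (by norm_num) (by norm_num) (by linarith) (by linarith)
    ⟨goodG33 h0 h1, cc33_ok h0 h1⟩

theorem ach4 {t : ℝ} (h0 : 229 / 500 ≤ t) (h1 : t ≤ 93 / 200) : Achievable 4 t :=
  achievable_of_goodG0 (L := 2) (by norm_num) (by norm_num) (by linarith) (by linarith)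
    (goodG42 h0 h1)

theorem ach5 {t : ℝ} (h0 : 459 / 1000 ≤ t) (h1 : t ≤ 4733 / 10000) : Achievable 5 t :=
  achievable_of_goodG0 (L := 2) (by norm_num) (by norm_num) (by linarith) (by linarith)
    (goodG52 h0 h1)

theorem ach6 {t : ℝ} (h0 : 59 / 125 ≤ t) (h1 : t ≤ 479 / 1000) : Achievable 6 t :=
  achievable_of_goodG0 (L := 2) (by norm_num) (by norm_num) (by linarith) (by linarith)
    (goodG62 h0 h1)

theorem ach7 {t : ℝ} (h0 : 959 / 2000 ≤ t) (h1 : t ≤ 4831 / 10000) : Achievable 7 t :=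
  achievable_of_goodG0 (L := 2) (by norm_num) (by norm_num) (by linarith) (by linarith)
    (goodG72 h0 h1)

theorem ach8 {t : ℝ} (h0 : 4843 / 10000 ≤ t) (h1 : t ≤ 2431 / 5000) : Achievable 8 t :=
  achievable_of_goodG0 (L := 2) (by norm_num) (by norm_num) (by linarith) (by linarith)
    (goodG82 h0 h1)

theorem ach43 {t : ℝ} (h0 : 4650 / 10000 ≤ t) (h1 : t ≤ 4709 / 10000) : Achievable 4 t :=
  achievable_of_goodG0 (L := 3) (by norm_num) (by norm_num) (by linarith) (by linarith)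
    ⟨goodG43_0 h0 h1, by norm_num, by norm_num, by linarith⟩

theorem ach53 {t : ℝ} (h0 : 4733 / 10000 ≤ t) (h1 : t ≤ 4812 / 10000) : Achievable 5 t :=
  achievable_of_goodG0 (L := 3) (by norm_num) (by norm_num) (by linarith) (by linarith)
    ⟨goodG53_0 h0 h1, by norm_num, by norm_num, by linarith⟩

end Pool.Agent.MPf4617e
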