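import Pool.Agent.Lib.MP_f4617e_lc_G.Fast

/-!
MP_f4617e_lc, project G: a block system for 3 symbols, blocks of length 4 (system found by
linear programming).
-/

set_option autoImplicit false

namespace Pool.Agent.MPf4617e

/-- special words -/
def zt34 : List ℕ := [0, 2, 6, 7, 18, 11, 24, 16, 54, 55, 57, 58, 72, 64, 75, 43]

/-- levels -/
def g34 : ℕ → ℕ := look 8 95
  [4042443730292746789077505354026712463701397150967253999295639445706145856]

/-- table of the levels -/
def lt34 : List ℕ := tabOf (3 ^ 4) g34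

/-- cells of key 0 -/
def f34_0 : ℕ → ℕ := look 8 95
  [11839222932817481022663438361416035143146620148392002158891608501237540]

/-- entries of key 0 -/
def s34_0 : List (List (ℕ × ℕ × ℕ)) :=
  [[(0, 80, 2), (1, 69, 1), (2, 62, 1), (3, 40, 0), (4, 37, 0)], [(0, 78, 2), (1, 69,
  3), (2, 60, 2), (3, 48, 1), (4, 45, 1)], [], [], [(3, 31, 1), (4, 28, 1)], [(3, 30,
  2), (4, 27, 2)], [], [], [(0, 26, 2), (1, 15, 1), (2, 8, 1), (3, 14, 2), (4, 2, 1)],
  [(0, 24, 2), (1, 15, 4), (2, 6, 2), (3, 21, 3), (4, 18, 2)], [], [], [(3, 5, 3), (4,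
  2, 2)], [(3, 3, 3), (4, 0, 3)], [], []]

/-- key 0 -/
def k34_0 : KeyData := ⟨tabOf (3 ^ 4) f34_0, s34_0⟩

theorem c34_0 : kchkF 3 4 15 g34 f34_0 s34_0 = true := by decide +kernel

/-- cells of key 1 -/
def f34_1 : ℕ → ℕ := look 16 71
  [18034798682775826726348960593388694977063680948649748465187643799629464751113429756586,
  586424088440]

/-- entries of key 1 -/
def s34_1 : List (List (ℕ × ℕ × ℕ)) :=
  [[(0, 32, 1), (1, 61, 2), (2, 37, 0), (3, 10, 0), (4, 39, 0), (5, 40, 0), (6, 13, 0),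
  (7, 47, 1), (8, 62, 1), (9, 77, 3), (10, 28, 0)], [(5, 48, 1), (6, 21, 1), (7, 45, 1),
  (8, 78, 2), (9, 75, 3), (10, 27, 1)], [(4, 36, 1), (8, 65, 2), (9, 64, 3), (10, 27,
  1)], [], [(5, 31, 1), (6, 4, 1), (8, 62, 2), (9, 58, 3)], [], [], [], [(0, 5, 2), (1,
  7, 2), (4, 15, 1), (7, 20, 2), (8, 8, 1), (9, 16, 4), (10, 2, 1)], [(7, 18, 2), (8,
  24, 2), (10, 0, 2)], [(4, 9, 2), (8, 11, 2), (10, 0, 2)], [], [(8, 8, 2)], [], [], []]

/-- key 1 -/
def k34_1 : KeyData := ⟨tabOf (3 ^ 4) f34_1, s34_1⟩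

theorem c34_1 : kchkF 3 4 15 g34 f34_1 s34_1 = true := by decide +kernel

/-- cells of key 2 -/
def f34_2 : ℕ → ℕ := look 16 71
  [24866161820489332107741029129563094658286529846776104035320081138444656306542459206587,
  879609302220]

/-- entries of key 2 -/
def s34_2 : List (List (ℕ × ℕ × ℕ)) :=
  [[(0, 43, 4), (1, 16, 3), (2, 40, 0), (3, 13, 0), (4, 37, 0), (5, 10, 0), (6, 39, 0),
  (7, 12, 0), (8, 50, 1), (9, 23, 1), (10, 31, 0), (11, 4, 0), (12, 62, 1)], [(8, 48,
  1), (9, 21, 1), (10, 30, 1), (11, 3, 1), (12, 78, 2)], [(6, 36, 1), (7, 9, 1), (8, 47,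
  2), (9, 20, 2), (10, 29, 1), (11, 2, 1), (12, 65, 2)], [(8, 45, 2), (9, 18, 2), (10,
  27, 2), (11, 0, 2), (12, 72, 3)], [(12, 62, 2)], [(12, 60, 3)], [(12, 56, 3)], [(12,
  54, 3)], [(12, 17, 2)], [], [(12, 11, 2)], [], [], [], [], []]

/-- key 2 -/
def k34_2 : KeyData := ⟨tabOf (3 ^ 4) f34_2, s34_2⟩

theorem c34_2 : kchkF 3 4 15 g34 f34_2 s34_2 = true := by decide +kernel

/-- cells of key 3 -/
def f34_3 : ℕ → ℕ := look 8 95
  [15760044626651629405068003774147137311215810426618477413897722241894619]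

/-- entries of key 3 -/
def s34_3 : List (List (ℕ × ℕ × ℕ)) :=
  [[(0, 80, 2), (1, 62, 1), (2, 47, 1), (3, 28, 0), (4, 40, 0)], [(0, 78, 2), (1, 60,
  2), (2, 45, 1), (3, 27, 1), (4, 48, 1)], [(4, 36, 1)], [(4, 63, 3)], [(4, 31, 1)],
  [(4, 30, 2)], [], [], [(0, 26, 2), (1, 8, 1), (2, 20, 2), (3, 2, 1), (4, 15, 1)], [(0,
  24, 2), (1, 6, 2), (2, 18, 2), (3, 0, 2), (4, 21, 3)], [(4, 11, 2)], [(4, 9, 4)], [(4,
  5, 3)], [(4, 3, 3)], [], []]

/-- key 3 -/
def k34_3 : KeyData := ⟨tabOf (3 ^ 4) f34_3, s34_3⟩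

theorem c34_3 : kchkF 3 4 15 g34 f34_3 s34_3 = true := by decide +kernel

/-- cells of key 4 -/
def f34_4 : ℕ → ℕ := look 16 71
  [24866161820489332107769112407340968657733316809781553651653889230145693431102947441787,
  879609302220]

/-- entries of key 4 -/
def s34_4 : List (List (ℕ × ℕ × ℕ)) :=
  [[(0, 43, 4), (1, 16, 3), (2, 40, 0), (3, 13, 0), (4, 37, 0), (5, 10, 0), (6, 31, 0),
  (7, 4, 0), (8, 39, 0), (9, 12, 0), (10, 30, 0), (11, 3, 0), (12, 62, 1)], [(12, 48,
  1)], [(6, 28, 2), (7, 1, 2), (8, 36, 1), (9, 9, 1), (10, 27, 1), (11, 0, 1), (12, 29,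
  1)], [(12, 45, 2)], [(12, 62, 2)], [(12, 60, 3)], [(12, 29, 2)], [(12, 54, 3)], [(12,
  8, 1)], [(12, 24, 2)], [(12, 11, 2)], [(12, 18, 3)], [(12, 8, 2)], [], [(12, 2, 3)],
  []]

/-- key 4 -/
def k34_4 : KeyData := ⟨tabOf (3 ^ 4) f34_4, s34_4⟩

theorem c34_4 : kchkF 3 4 15 g34 f34_4 s34_4 = true := by decide +kernel

/-- cells of key 5 -/
def f34_5 : ℕ → ℕ := look 16 71
  [15848938496313839834662811444017547240753915345268866625535656572317659603084211947285,
  439840438134]

/-- entries of key 5 -/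
def s34_5 : List (List (ℕ × ℕ × ℕ)) :=
  [[(0, 61, 2), (1, 28, 0), (2, 69, 1), (3, 60, 1), (4, 36, 0), (5, 27, 0), (6, 62, 1),
  (7, 47, 1), (8, 40, 0)], [(6, 78, 2), (7, 45, 1), (8, 48, 1)], [(8, 64, 3)], [], [(6,
  62, 2), (7, 56, 2), (8, 31, 1)], [(8, 30, 2)], [], [], [(0, 7, 2), (1, 1, 2), (2, 15,
  1), (3, 6, 1), (4, 9, 1), (5, 0, 1), (6, 8, 1), (7, 2, 1), (8, 14, 2)], [(6, 24, 2),
  (7, 18, 2), (8, 21, 3)], [(8, 10, 4)], [], [(6, 8, 2), (7, 2, 2), (8, 5, 3)], [(8, 3,
  3)], [], []]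

/-- key 5 -/
def k34_5 : KeyData := ⟨tabOf (3 ^ 4) f34_5, s34_5⟩

theorem c34_5 : kchkF 3 4 15 g34 f34_5 s34_5 = true := by decide +kernel

/-- cells of key 6 -/
def f34_6 : ℕ → ℕ := look 16 71
  [809444430690268865969636523060274800683897491657583936261856071589581534819556960857,
  733007751850]

/-- entries of key 6 -/
def s34_6 : List (List (ℕ × ℕ × ℕ)) :=
  [[(0, 70, 3), (1, 61, 2), (2, 64, 3), (3, 37, 0), (4, 10, 0), (5, 28, 0), (6, 69, 1),
  (7, 60, 1), (8, 36, 0), (9, 27, 0), (10, 40, 0)], [(10, 48, 1)], [(10, 29, 1)], [(10,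
  45, 2)], [(10, 31, 1)], [(10, 30, 2)], [(10, 29, 2)], [], [(0, 16, 4), (1, 7, 2), (5,
  1, 2), (6, 15, 1), (7, 6, 1), (8, 9, 1), (9, 0, 1), (10, 8, 1)], [(10, 24, 2)], [(10,
  11, 2)], [(10, 18, 3)], [(10, 8, 2)], [(10, 3, 3)], [(10, 2, 3)], []]

/-- key 6 -/
def k34_6 : KeyData := ⟨tabOf (3 ^ 4) f34_6, s34_6⟩

theorem c34_6 : kchkF 3 4 15 g34 f34_6 s34_6 = true := by decide +kernel

/-- cells of key 7 -/
def f34_7 : ℕ → ℕ := look 16 71
  [16577441213176381047483883744002041547378326223735376720902659134127368476660383384917,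
  439697285672]

/-- entries of key 7 -/
def s34_7 : List (List (ℕ × ℕ × ℕ)) :=
  [[(0, 77, 3), (1, 59, 2), (2, 74, 2), (3, 20, 1), (4, 56, 1), (5, 1, 0), (6, 50, 1),
  (7, 31, 0), (8, 40, 0)], [(0, 75, 3), (1, 57, 3), (2, 72, 2), (3, 18, 1), (4, 54, 2),
  (5, 0, 1), (6, 48, 1), (7, 30, 1), (8, 21, 1)], [(6, 47, 2), (7, 29, 1), (8, 36, 1)],
  [(6, 45, 2), (7, 27, 2), (8, 63, 3)], [(8, 4, 1)], [(8, 3, 2)], [], [], [(6, 26, 2),
  (7, 8, 1), (8, 15, 1)], [(6, 24, 2), (7, 6, 2), (8, 12, 3)], [(8, 11, 2)], [(8, 9,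
  4)], [], [], [], []]

/-- key 7 -/
def k34_7 : KeyData := ⟨tabOf (3 ^ 4) f34_7, s34_7⟩

theorem c34_7 : kchkF 3 4 15 g34 f34_7 s34_7 = true := by decide +kernel

/-- cells of key 8 -/
def f34_8 : ℕ → ℕ := look 16 71
  [6558108611997186490007170377824802180877323765394937663369516801233418308711810107429,
  14499054432]

/-- entries of key 8 -/
def s34_8 : List (List (ℕ × ℕ × ℕ)) :=
  [[(0, 62, 1), (1, 37, 0), (2, 10, 0), (3, 79, 2), (4, 36, 0), (5, 9, 0), (6, 69, 1),
  (7, 40, 0), (8, 13, 0)], [(7, 48, 1), (8, 21, 1)], [(0, 65, 2), (3, 73, 3), (6, 63,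
  2), (7, 29, 1), (8, 2, 1)], [], [(0, 62, 2), (1, 28, 1), (2, 1, 1), (3, 61, 3), (4,
  27, 1), (5, 0, 1), (6, 60, 2), (7, 31, 1), (8, 4, 1)], [(7, 30, 2), (8, 3, 2)], [(0,
  56, 3), (3, 55, 3), (6, 54, 3), (7, 29, 2), (8, 2, 2)], [], [(3, 25, 2), (6, 15, 1)],
  [], [], [], [(3, 7, 4), (6, 6, 2)], [], [], []]

/-- key 8 -/
def k34_8 : KeyData := ⟨tabOf (3 ^ 4) f34_8, s34_8⟩

theorem c34_8 : kchkF 3 4 15 g34 f34_8 s34_8 = true := by decide +kernel

/-- cells of key 9 -/
def f34_9 : ℕ → ℕ := look 16 71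
  [19742639467101728357547537690234328408865857975799343611251411032013964124534743579779,
  659724854889]

/-- entries of key 9 -/
def s34_9 : List (List (ℕ × ℕ × ℕ)) :=
  [[(0, 61, 2), (1, 40, 0), (2, 39, 0), (3, 3, 0), (4, 50, 1), (5, 13, 0), (6, 74, 2),
  (7, 37, 0), (8, 10, 0), (9, 62, 1), (10, 77, 3), (11, 31, 0), (12, 56, 1)], [(4, 48,
  1), (5, 21, 1), (6, 72, 2), (7, 45, 1), (8, 18, 1), (9, 78, 2), (10, 75, 3), (11, 30,
  1), (12, 54, 2)], [(2, 36, 1), (3, 0, 1), (9, 65, 2), (10, 64, 3), (11, 27, 1), (12,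
  54, 2)], [], [(5, 4, 1), (7, 28, 1), (8, 1, 1), (9, 62, 2), (10, 58, 3)], [], [], [],
  [(0, 7, 2), (2, 15, 1), (9, 8, 1), (10, 16, 4), (11, 5, 2), (12, 2, 1)], [(9, 24, 2)],
  [(2, 9, 2), (9, 11, 2)], [], [(9, 8, 2)], [], [], []]

/-- key 9 -/
def k34_9 : KeyData := ⟨tabOf (3 ^ 4) f34_9, s34_9⟩

theorem c34_9 : kchkF 3 4 15 g34 f34_9 s34_9 = true := by decide +kernel

/-- cells of key 10 -/
def f34_10 : ℕ → ℕ := look 8 95
  [8077015168317227284381635486078690300170444439742423233207323396004156123]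

/-- entries of key 10 -/
def s34_10 : List (List (ℕ × ℕ × ℕ)) :=
  [[(0, 59, 2), (1, 4, 0), (2, 56, 1), (3, 1, 0), (4, 50, 1), (5, 40, 0), (6, 31, 0)],
  [(0, 57, 3), (1, 3, 1), (2, 54, 2), (3, 0, 1), (4, 48, 1), (5, 39, 2), (6, 30, 1)],
  [(4, 47, 2), (5, 36, 1), (6, 29, 1)], [(4, 45, 2), (5, 63, 3), (6, 27, 2)], [], [],
  [], [], [(4, 26, 2), (5, 15, 1), (6, 8, 1)], [(4, 24, 2), (5, 12, 3), (6, 6, 2)], [(4,
  20, 3), (5, 11, 2)], [(4, 18, 3), (5, 9, 4)], [], [], [], []]

/-- key 10 -/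
def k34_10 : KeyData := ⟨tabOf (3 ^ 4) f34_10, s34_10⟩

theorem c34_10 : kchkF 3 4 15 g34 f34_10 s34_10 = true := by decide +kernel

/-- cells of key 11 -/
def f34_11 : ℕ → ℕ := look 16 71
  [24866161820489332107755070768451841920466769685692875372817783631176525310431218604921,
  879609302220]

/-- entries of key 11 -/
def s34_11 : List (List (ℕ × ℕ × ℕ)) :=
  [[(0, 43, 4), (1, 16, 3), (2, 40, 0), (3, 13, 0), (4, 37, 0), (5, 10, 0), (6, 31, 0),
  (7, 4, 0), (8, 30, 0), (9, 3, 0), (10, 35, 1), (11, 8, 1), (12, 39, 0)], [(10, 48, 1),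
  (11, 21, 1), (12, 78, 2)], [(6, 28, 2), (7, 1, 2), (8, 27, 1), (9, 0, 1), (10, 29, 1),
  (11, 2, 1), (12, 36, 1)], [(10, 45, 2), (11, 18, 2), (12, 72, 3)], [(10, 35, 2), (11,
  8, 2), (12, 62, 2)], [(12, 60, 3)], [(10, 29, 2), (11, 2, 2), (12, 56, 3)], [(12, 54,
  3)], [(12, 15, 1)], [], [(12, 9, 2)], [], [], [], [], []]

/-- key 11 -/
def k34_11 : KeyData := ⟨tabOf (3 ^ 4) f34_11, s34_11⟩

theorem c34_11 : kchkF 3 4 15 g34 f34_11 s34_11 = true := by decide +kernel

/-- cells of key 12 -/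
def f34_12 : ℕ → ℕ := look 8 95
  [8077015146265534020034008243574212961301183339489180062272939122207102731]

/-- entries of key 12 -/
def s34_12 : List (List (ℕ × ℕ × ℕ)) :=
  [[(0, 40, 0), (1, 31, 0), (2, 39, 0), (3, 30, 0), (4, 62, 1)], [(4, 48, 1)], [(0, 64,
  3), (1, 28, 2), (2, 36, 1), (3, 27, 1), (4, 29, 1)], [(4, 45, 2)], [(4, 62, 2)], [],
  [(4, 29, 2)], [], [(0, 13, 3), (1, 7, 2), (2, 15, 1), (3, 6, 1), (4, 8, 1)], [(4, 24,
  2)], [(0, 10, 4), (1, 1, 3), (2, 9, 2), (3, 0, 2), (4, 11, 2)], [(4, 18, 3)], [(4, 8,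
  2)], [], [(4, 2, 3)], []]

/-- key 12 -/
def k34_12 : KeyData := ⟨tabOf (3 ^ 4) f34_12, s34_12⟩

theorem c34_12 : kchkF 3 4 15 g34 f34_12 s34_12 = true := by decide +kernel

/-- cells of key 13 -/
def f34_13 : ℕ → ℕ := look 16 71
  [22422051893445438962770180510528109264235825581284706826726793935656421987325170139580,
  806308527034]

/-- entries of key 13 -/
def s34_13 : List (List (ℕ × ℕ × ℕ)) :=
  [[(0, 62, 1), (1, 8, 1), (2, 43, 4), (3, 16, 3), (4, 40, 0), (5, 13, 0), (6, 37, 0),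
  (7, 10, 0), (8, 69, 1), (9, 39, 0), (10, 35, 1), (11, 31, 0), (12, 12, 0)], [(10, 48,
  1), (11, 78, 2), (12, 21, 1)], [(0, 56, 2), (1, 2, 1), (8, 63, 2), (9, 36, 1), (10,
  29, 1), (11, 28, 2), (12, 9, 1)], [(10, 45, 2), (11, 72, 3), (12, 18, 2)], [(10, 35,
  2), (11, 61, 3), (12, 3, 1)], [], [(10, 29, 2), (11, 55, 3), (12, 0, 2)], [], [(10,
  17, 2), (11, 7, 2), (12, 6, 1)], [], [(10, 11, 2), (11, 1, 3), (12, 0, 2)], [], [],
  [], [], []]

/-- key 13 -/
def k34_13 : KeyData := ⟨tabOf (3 ^ 4) f34_13, s34_13⟩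

theorem c34_13 : kchkF 3 4 15 g34 f34_13 s34_13 = true := by decide +kernel

/-- cells of key 14 -/
def f34_14 : ℕ → ℕ := look 2 285
  [0]

/-- entries of key 14 -/
def s34_14 : List (List (ℕ × ℕ × ℕ)) :=
  [[(0, 40, 0)], [(0, 48, 1)], [(0, 29, 1)], [(0, 45, 2)], [(0, 31, 1)], [(0, 30, 2)],
  [(0, 29, 2)], [(0, 54, 3)], [(0, 8, 1)], [(0, 24, 2)], [(0, 11, 2)], [(0, 18, 3)],
  [(0, 8, 2)], [(0, 3, 3)], [(0, 2, 3)], [(0, 0, 4)]]

/-- key 14 -/
def k34_14 : KeyData := ⟨tabOf (3 ^ 4) f34_14, s34_14⟩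

theorem c34_14 : kchkF 3 4 15 g34 f34_14 s34_14 = true := by decide +kernel

/-- cells of key 15 -/
def f34_15 : ℕ → ℕ := look 8 95
  [276610107988788153359420363807123347533875507954581732615459498993129484]

/-- entries of key 15 -/
def s34_15 : List (List (ℕ × ℕ × ℕ)) :=
  [[(0, 62, 1), (1, 40, 0), (2, 69, 1), (3, 39, 0), (4, 12, 0)], [], [(0, 29, 1), (1,
  46, 2), (2, 63, 2), (3, 36, 1), (4, 9, 1)], [], [(0, 62, 2), (1, 31, 1), (2, 60, 2),
  (3, 30, 1), (4, 3, 1)], [], [(0, 29, 2), (1, 55, 3), (2, 54, 3), (3, 27, 2), (4, 0,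
  2)], [], [(0, 8, 1), (1, 25, 2)], [], [(0, 11, 2), (1, 19, 3)], [], [(0, 8, 2), (1, 4,
  3)], [], [(0, 2, 3), (1, 1, 4)], []]

/-- key 15 -/
def k34_15 : KeyData := ⟨tabOf (3 ^ 4) f34_15, s34_15⟩

theorem c34_15 : kchkF 3 4 15 g34 f34_15 s34_15 = true := by decide +kernel

/-- cells of key 16 -/
def f34_16 : ℕ → ℕ := look 16 71
  [6740189352865228295780440889837379906420397246425486819328473653882547638954058872871,
  564657423192]

/-- entries of key 16 -/
def s34_16 : List (List (ℕ × ℕ × ℕ)) :=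
  [[(0, 13, 0), (1, 37, 0), (2, 10, 0), (3, 79, 2), (4, 66, 2), (5, 63, 1), (6, 36, 0),
  (7, 12, 0), (8, 40, 0)], [(8, 48, 1)], [(3, 73, 3), (7, 9, 1), (8, 29, 1)], [], [(0,
  4, 1), (1, 28, 1), (2, 1, 1), (3, 61, 3), (4, 57, 3), (5, 54, 2), (6, 27, 1), (7, 3,
  1), (8, 31, 1)], [(8, 30, 2)], [(3, 55, 3), (7, 0, 2), (8, 29, 2)], [], [(3, 25, 2),
  (7, 15, 1), (8, 8, 1)], [], [(8, 11, 2)], [], [(3, 7, 4), (7, 6, 2), (8, 8, 2)], [],
  [(8, 2, 3)], []]

/-- key 16 -/
def k34_16 : KeyData := ⟨tabOf (3 ^ 4) f34_16, s34_16⟩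

theorem c34_16 : kchkF 3 4 15 g34 f34_16 s34_16 = true := by decide +kernel

/-- cells of key 17 -/
def f34_17 : ℕ → ℕ := look 16 71
  [23886999770516617042175723091457763573974514477237005709071713168511063619765364285093,
  806326405259]

/-- entries of key 17 -/
def s34_17 : List (List (ℕ × ℕ × ℕ)) :=
  [[(0, 43, 4), (1, 16, 3), (2, 61, 2), (3, 40, 0), (4, 39, 0), (5, 3, 0), (6, 50, 1),
  (7, 13, 0), (8, 74, 2), (9, 37, 0), (10, 10, 0), (11, 62, 1), (12, 77, 3), (13, 31,
  0), (14, 56, 1)], [(6, 48, 1), (7, 21, 1), (8, 72, 2), (9, 45, 1), (10, 18, 1), (11,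
  78, 2), (12, 75, 3), (13, 30, 1), (14, 54, 2)], [(4, 36, 1), (5, 0, 1), (11, 65, 2),
  (12, 64, 3), (13, 27, 1), (14, 54, 2)], [], [(7, 4, 1), (9, 28, 1), (10, 1, 1), (11,
  62, 2), (12, 58, 3)], [], [], [], [(2, 7, 2), (4, 15, 1), (11, 8, 1), (13, 5, 2), (14,
  2, 1)], [(11, 24, 2)], [(4, 9, 2), (11, 11, 2)], [], [(11, 8, 2)], [], [], []]

/-- key 17 -/
def k34_17 : KeyData := ⟨tabOf (3 ^ 4) f34_17, s34_17⟩

theorem c34_17 : kchkF 3 4 15 g34 f34_17 s34_17 = true := by decide +kernel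

/-- cells of key 18 -/
def f34_18 : ℕ → ℕ := look 16 71
  [16577441213659554738460020563141546216973020460785787233696746050900862856195587928407,
  586406201480]

/-- entries of key 18 -/
def s34_18 : List (List (ℕ × ℕ × ℕ)) :=
  [[(0, 35, 1), (1, 8, 1), (2, 40, 0), (3, 13, 0), (4, 37, 0), (5, 10, 0), (6, 39, 0),
  (7, 12, 0), (8, 62, 1)], [(8, 78, 2)], [(0, 29, 1), (1, 2, 1), (6, 36, 1), (7, 9, 1),
  (8, 65, 2)], [(8, 72, 3)], [(0, 35, 2), (1, 8, 2), (2, 31, 1), (3, 4, 1), (4, 28, 1),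
  (5, 1, 1), (6, 30, 1), (7, 3, 1), (8, 62, 2)], [(8, 60, 3)], [(0, 29, 2), (1, 2, 2),
  (6, 27, 2), (7, 0, 2), (8, 56, 3)], [(8, 54, 3)], [(8, 25, 2)], [], [], [], [(8, 7,
  4)], [], [], []]

/-- key 18 -/
def k34_18 : KeyData := ⟨tabOf (3 ^ 4) f34_18, s34_18⟩

theorem c34_18 : kchkF 3 4 15 g34 f34_18 s34_18 = true := by decide +kernel

/-- cells of key 19 -/
def f34_19 : ℕ → ℕ := look 8 95
  [10238207059050211992285354561639793755116965808026025786232483163574744868]

/-- entries of key 19 -/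
def s34_19 : List (List (ℕ × ℕ × ℕ)) :=
  [[(0, 56, 1), (1, 37, 0), (2, 69, 1), (3, 13, 0), (4, 10, 0), (5, 40, 0), (6, 68, 2)],
  [(3, 21, 1), (4, 18, 1), (5, 48, 1), (6, 75, 3)], [(5, 29, 1), (6, 73, 3)], [], [(0,
  56, 2), (1, 28, 1), (2, 60, 2), (3, 4, 1), (4, 1, 1), (5, 31, 1), (6, 59, 3)], [(3, 3,
  2), (4, 0, 2), (5, 30, 2), (6, 57, 3)], [(5, 29, 2), (6, 55, 3)], [], [(2, 15, 1), (4,
  9, 1), (5, 8, 1), (6, 25, 2)], [], [], [], [(2, 6, 2), (4, 0, 2), (5, 8, 2), (6, 7,
  4)], [], [], []]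

/-- key 19 -/
def k34_19 : KeyData := ⟨tabOf (3 ^ 4) f34_19, s34_19⟩

theorem c34_19 : kchkF 3 4 15 g34 f34_19 s34_19 = true := by decide +kernel

/-- cells of key 20 -/
def f34_20 : ℕ → ℕ := look 16 71
  [16577441213659554738512740776166414357242246444283373734763739406904037992377190799415,
  586406201480]

/-- entries of key 20 -/
def s34_20 : List (List (ℕ × ℕ × ℕ)) :=
  [[(0, 40, 0), (1, 13, 0), (2, 37, 0), (3, 10, 0), (4, 39, 0), (5, 12, 0), (6, 36, 0),
  (7, 9, 0), (8, 62, 1)], [(8, 78, 2)], [(8, 29, 1)], [(8, 72, 3)], [(0, 31, 1), (1, 4,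
  1), (2, 28, 1), (3, 1, 1), (4, 30, 1), (5, 3, 1), (6, 27, 1), (7, 0, 1), (8, 62, 2)],
  [(8, 60, 3)], [(8, 29, 2)], [(8, 54, 3)], [(8, 8, 1)], [(8, 24, 2)], [(8, 11, 2)], [],
  [(8, 8, 2)], [(8, 6, 4)], [(8, 2, 3)], []]

/-- key 20 -/
def k34_20 : KeyData := ⟨tabOf (3 ^ 4) f34_20, s34_20⟩

theorem c34_20 : kchkF 3 4 15 g34 f34_20 s34_20 = true := by decide +kernel

/-- cells of key 21 -/
def f34_21 : ℕ → ℕ := look 8 95
  [8077015153272614078095074282592307800374621156425565319001840642709033691]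

/-- entries of key 21 -/
def s34_21 : List (List (ℕ × ℕ × ℕ)) :=
  [[(0, 40, 0), (1, 13, 0), (2, 37, 0), (3, 10, 0), (4, 62, 1)], [(0, 48, 1), (1, 21,
  1), (2, 45, 1), (3, 18, 1), (4, 78, 2)], [(4, 65, 2)], [(4, 72, 3)], [(0, 31, 1), (1,
  4, 1), (2, 28, 1), (3, 1, 1), (4, 62, 2)], [(0, 30, 2), (1, 3, 2), (2, 27, 2), (3, 0,
  2), (4, 60, 3)], [(4, 56, 3)], [(4, 54, 3)], [(4, 8, 1)], [(4, 24, 2)], [], [], [(4,
  8, 2)], [(4, 6, 4)], [], []]

/-- key 21 -/
def k34_21 : KeyData := ⟨tabOf (3 ^ 4) f34_21, s34_21⟩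

theorem c34_21 : kchkF 3 4 15 g34 f34_21 s34_21 = true := by decide +kernel

/-- cells of key 22 -/
def f34_22 : ℕ → ℕ := look 8 95
  [6057761364954460558571306551976656243353040905677787779073103545714156690]

/-- entries of key 22 -/
def s34_22 : List (List (ℕ × ℕ × ℕ)) :=
  [[(0, 23, 1), (1, 13, 0), (2, 4, 0), (3, 62, 1), (4, 40, 0)], [(0, 21, 1), (1, 12, 2),
  (2, 3, 1), (3, 78, 2), (4, 48, 1)], [(0, 20, 2), (1, 9, 1), (2, 2, 1), (3, 65, 2), (4,
  29, 1)], [(0, 18, 2), (1, 9, 3), (2, 0, 2), (3, 72, 3), (4, 45, 2)], [(3, 62, 2), (4,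
  31, 1)], [(3, 60, 3), (4, 30, 2)], [(3, 56, 3), (4, 29, 2)], [(3, 54, 3), (4, 27, 4)],
  [], [], [], [], [], [], [], []]

/-- key 22 -/
def k34_22 : KeyData := ⟨tabOf (3 ^ 4) f34_22, s34_22⟩

theorem c34_22 : kchkF 3 4 15 g34 f34_22 s34_22 = true := by decide +kernel

/-- cells of key 23 -/
def f34_23 : ℕ → ℕ := look 8 95
  [19711587479252775160787146623053202712633372534991987187972981219093942]

/-- entries of key 23 -/
def s34_23 : List (List (ℕ × ℕ × ℕ)) :=
  [[(0, 80, 2), (1, 40, 0), (2, 10, 0), (3, 56, 1), (4, 37, 0), (5, 69, 1), (6, 13, 0)],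
  [(0, 78, 2), (1, 48, 1), (2, 9, 2), (3, 54, 2), (4, 45, 1), (5, 69, 3), (6, 21, 1)],
  [(5, 65, 2), (6, 2, 1)], [(5, 63, 3), (6, 0, 2)], [(1, 31, 1), (4, 28, 1), (5, 59, 3),
  (6, 4, 1)], [(1, 30, 2), (4, 27, 2), (5, 57, 3), (6, 3, 2)], [], [], [(0, 26, 2), (4,
  20, 2), (5, 15, 1), (6, 8, 1)], [(0, 24, 2), (4, 18, 2), (5, 15, 4), (6, 6, 2)], [],
  [], [], [], [], []]

/-- key 23 -/
def k34_23 : KeyData := ⟨tabOf (3 ^ 4) f34_23, s34_23⟩

theorem c34_23 : kchkF 3 4 15 g34 f34_23 s34_23 = true := by decide +kernel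

/-- cells of key 24 -/
def f34_24 : ℕ → ℕ := look 8 95
  [954392545044786413852131709379056810089955225538957305236325337418844259]

/-- entries of key 24 -/
def s34_24 : List (List (ℕ × ℕ × ℕ)) :=
  [[(0, 62, 1), (1, 47, 1), (2, 69, 1), (3, 36, 0), (4, 40, 0)], [(4, 48, 1)], [(4, 46,
  2)], [], [(0, 62, 2), (1, 56, 2), (2, 60, 2), (3, 27, 1), (4, 31, 1)], [(4, 30, 2)],
  [(4, 55, 3)], [], [(0, 8, 1), (1, 2, 1), (2, 15, 1), (3, 9, 1), (4, 14, 2)], [(4, 21,
  3)], [(4, 19, 3)], [], [(0, 8, 2), (1, 2, 2), (2, 6, 2), (3, 0, 2), (4, 5, 3)], [(4,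
  3, 3)], [(4, 1, 4)], []]

/-- key 24 -/
def k34_24 : KeyData := ⟨tabOf (3 ^ 4) f34_24, s34_24⟩

theorem c34_24 : kchkF 3 4 15 g34 f34_24 s34_24 = true := by decide +kernel

/-- cells of key 25 -/
def f34_25 : ℕ → ℕ := look 16 71
  [20721801517074443423123645780029982059979063020107873924677881197379684996957423114583,
  733007751850]

/-- entries of key 25 -/
def s34_25 : List (List (ℕ × ℕ × ℕ)) :=
  [[(0, 52, 2), (1, 43, 4), (2, 34, 2), (3, 25, 2), (4, 37, 0), (5, 10, 0), (6, 36, 0),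
  (7, 9, 0), (8, 40, 0), (9, 13, 0), (10, 62, 1)], [(8, 48, 1), (9, 21, 1), (10, 78,
  2)], [(8, 29, 1), (9, 2, 1), (10, 65, 2)], [(10, 72, 3)], [(3, 7, 3), (4, 28, 1), (5,
  1, 1), (6, 27, 1), (7, 0, 1), (8, 31, 1), (9, 4, 1), (10, 62, 2)], [(8, 30, 2), (9, 3,
  2), (10, 60, 3)], [(8, 29, 2), (9, 2, 2), (10, 56, 3)], [(10, 54, 3)], [(10, 15, 1)],
  [], [], [], [(10, 6, 2)], [], [], []]

/-- key 25 -/
def k34_25 : KeyData := ⟨tabOf (3 ^ 4) f34_25, s34_25⟩

theorem c34_25 : kchkF 3 4 15 g34 f34_25 s34_25 = true := by decide +kernel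

/-- cells of key 26 -/
def f34_26 : ℕ → ℕ := look 16 71
  [15788039251558528428269426560002366947858999293919968783925855776643743846178397434227,
  586406201472]

/-- entries of key 26 -/
def s34_26 : List (List (ℕ × ℕ × ℕ)) :=
  [[(0, 71, 2), (1, 62, 1), (2, 39, 0), (3, 30, 0), (4, 40, 0), (5, 13, 0), (6, 37, 0),
  (7, 10, 0), (8, 80, 2)], [(4, 48, 1), (5, 21, 1), (6, 45, 1), (7, 18, 1), (8, 78, 2)],
  [(0, 65, 2), (1, 29, 1), (2, 36, 1), (3, 27, 1), (8, 74, 3)], [(8, 72, 3)], [(4, 31,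
  1), (5, 4, 1), (6, 28, 1), (7, 1, 1), (8, 61, 3)], [], [(8, 55, 3)], [], [(0, 17, 2),
  (1, 8, 1), (2, 15, 1), (3, 6, 1), (8, 26, 2)], [(8, 24, 2)], [(0, 11, 2), (1, 2, 2),
  (2, 9, 2), (3, 0, 2)], [], [(8, 7, 4)], [], [], []]

/-- key 26 -/
def k34_26 : KeyData := ⟨tabOf (3 ^ 4) f34_26, s34_26⟩

theorem c34_26 : kchkF 3 4 15 g34 f34_26 s34_26 = true := by decide +kernel

/-- cells of key 27 -/
def f34_27 : ℕ → ℕ := look 16 71
  [24866161820489332107741029129563168735775118272408700262573522449100199682099757431739,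
  879609302220]

/-- entries of key 27 -/
def s34_27 : List (List (ℕ × ℕ × ℕ)) :=
  [[(0, 40, 0), (1, 13, 0), (2, 37, 0), (3, 10, 0), (4, 39, 0), (5, 12, 0), (6, 36, 0),
  (7, 9, 0), (8, 50, 1), (9, 23, 1), (10, 31, 0), (11, 4, 0), (12, 62, 1)], [(8, 48, 1),
  (9, 21, 1), (10, 30, 1), (11, 3, 1), (12, 78, 2)], [(8, 47, 2), (9, 20, 2), (10, 29,
  1), (11, 2, 1), (12, 65, 2)], [(8, 45, 2), (9, 18, 2), (10, 27, 2), (11, 0, 2), (12,
  72, 3)], [(12, 62, 2)], [(12, 60, 3)], [(12, 56, 3)], [(12, 54, 3)], [(12, 15, 1)],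
  [(12, 15, 4)], [(12, 11, 2)], [], [], [], [], []]

/-- key 27 -/
def k34_27 : KeyData := ⟨tabOf (3 ^ 4) f34_27, s34_27⟩

theorem c34_27 : kchkF 3 4 15 g34 f34_27 s34_27 = true := by decide +kernel

/-- the keys -/
def D34 : List KeyData :=
  [k34_0, k34_1, k34_2, k34_3, k34_4, k34_5, k34_6, k34_7, k34_8, k34_9, k34_10, k34_11,
  k34_12, k34_13, k34_14, k34_15, k34_16, k34_17, k34_18, k34_19, k34_20, k34_21,
  k34_22, k34_23, k34_24, k34_25, k34_26, k34_27]

theorem zchkf34 : zchkF 3 4 zt34 g34 = true := by decide +kernel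

theorem zchk34 : zchk 3 4 zt34 lt34 = true := zchk_of_fast zchkf34

theorem kchk34 : D34.all (kchk 3 4 15 lt34) = true := by
  simp only [D34, List.all_cons, List.all_nil, Bool.and_true, Bool.and_eq_true]
  exact ⟨kchk_of_fast c34_0, kchk_of_fast c34_1, kchk_of_fast c34_2, kchk_of_fast c34_3,
    kchk_of_fast c34_4, kchk_of_fast c34_5, kchk_of_fast c34_6, kchk_of_fast c34_7,
    kchk_of_fast c34_8, kchk_of_fast c34_9, kchk_of_fast c34_10, kchk_of_fast c34_11,
    kchk_of_fast c34_12, kchk_of_fast c34_13, kchk_of_fast c34_14, kchk_of_fast c34_15,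
    kchk_of_fast c34_16, kchk_of_fast c34_17, kchk_of_fast c34_18, kchk_of_fast c34_19,
    kchk_of_fast c34_20, kchk_of_fast c34_21, kchk_of_fast c34_22, kchk_of_fast c34_23,
    kchk_of_fast c34_24, kchk_of_fast c34_25, kchk_of_fast c34_26, kchk_of_fast c34_27⟩

/-- coefficients of the weights -/
def C34_0 : List (List ℕ) :=
  [[2883304706233251499008, 11730616895116477947904, 17891123825648259522432,
  11996470124507126379136, 2982886903027845085148], [644250312000000000000,
  2587979952000000000000, 3899935080000000000000, 2697966604800000000000,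
  721550368800000000000], [147863181600000000000, 872108323200000000000,
  1722558657600000000000, 1235204006400000000000, 281054822400000000000],
  [798401296800000000000, 3202787376000000000000, 4819451443200000000000,
  3380642380800000000000, 928299326400000000000], [2652577811481763480320,
  10398611341245281276160, 15283438613206383077280, 9956883003353807455440,
  2425268090882910372795], [638910669600000000000, 2517117408000000000000,
  3715193433600000000000, 2162006236800000000000, 389993508000000000000],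
  [2934816092814463236864, 11636490434870239045632, 17302902986629557298656,
  11569003744649609894688, 2935985878522871569359], [637563283200000000000,
  2154820176000000000000, 2641176763200000000000, 1443599769600000000000,
  301714747200000000000], [170868556800000000000, 589256985600000000000,
  744056712000000000000, 496037808000000000000, 148312310400000000000],
  [2274259782420300996864, 8922126664764557125632, 13120191275439630538656,
  8339548288271479214688, 1922314306408388198109], [2347644013064633304576,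
  9685179318124856537088, 14966563083332891719104, 10052969173456001289792,
  2475244972844214455406], [2924643526902759538944, 11628201631115829180672,
  17338423094512515770976, 11495631153977268540048, 2859756679185823549089],
  [3496276731041030248704, 14157095917613061783552, 21489471467843969018016,
  14582258180560813375968, 3732240615738816112149], [762221476800000000000,
  2911352688000000000000, 4164322233600000000000, 2628700963200000000000,
  617003164800000000000], [11194045515049456408320, 45000648535216254140160,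
  67839360417136709189280, 45452962929877559731440, 11420205539977409978295],
  [1048006592662361666304, 4316125447859399972352, 6658881740926303768416,
  4418506926747818175168, 1061816307944629443999], [332505021600000000000,
  1465756790400000000000, 2400144307200000000000, 1615266777600000000000,
  376419837600000000000], [28794146400000000000, 247719484800000000000,
  570692995200000000000, 829790409600000000000, 402668920800000000000],
  [961459070088859174656, 3793506555737936656128, 5607849721589881163424,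
  3862653450036851191152, 1043644840224717077511], [3725213075261617552128,
  14910332876441881150464, 22383326377468881330912, 14936343388701787822176,
  3738180817427803879743], [2410171603721761524480, 9570393010864144266240,
  14253231360673386781920, 9421234710906601976160, 2331736117113952722255],
  [1373451370581014063616, 5472576370744187108608, 8173925342006440587264,
  5455832948396004423472, 1373494519655295202646], [1372815707096420239872,
  5659617994451791745536, 8743530265711684337088, 6035539536358193441824,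
  1570151896610222987882], [392289055200000000000, 1562369385600000000000,
  2332176148800000000000, 1599497366400000000000, 424776038400000000000],
  [1292562795482781752064, 5059565491266768863232, 7422615223339789119456,
  5056665155309764253088, 1348715448685217300559], [594047692800000000000,
  2466415756800000000000, 3834062856000000000000, 2412919526400000000000,
  506467576800000000000], [459159343200000000000, 1694912284800000000000,
  2331577310400000000000, 1351777881600000000000, 271024279200000000000],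
  [1405077570097525313280, 5399114903367333200640, 7769017263733716777120,
  5126887553689312835760, 1312272164949882065055]]

theorem schk34_0 : segchk 3 4 4588 4611 10000 85564 100000
    49903200000000000000000 D34 C34_0 = true := by decide +kernel

theorem goodG34_0 {t : ℝ} (h0 : 4588 / 10000 ≤ t) (h1 : t ≤ 4611 / 10000) :
    GoodG 3 4 t (85564 / 100000) (1 - 85564 / 100000) 0 := by
  have h2 := goodG_seg (N := 15) (by norm_num) zchk34 kchk34 schk34_0
    (u := (10000 * t - 4588) / 23) (v := (4611 - 10000 * t) / 23) (by linarith) (by linarith)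
    (by ring)
  have e : ((4588 : ℕ) * ((4611 - 10000 * t) / 23) + (4611 : ℕ) * ((10000 * t - 4588) / 23)) /
      (10000 : ℕ) = t := by
    push_cast
    ring
  rw [e] at h2
  have h3 := h2 (by linarith) (by linarith)
  push_cast at h3
  exact h3

/-- coefficients of the weights -/
def C34_1 : List (List ℕ) :=
  [[2888129816787845085148, 11552590322254358945936, 17329586147111348110632,
  11553352686777344783504, 2888492119210676678108], [633171801600000000000,
  2545262812800000000000, 3836458209600000000000, 2570214412800000000000,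
  645647601600000000000], [390243024000000000000, 1559974032000000000000,
  2338164532800000000000, 1557778291200000000000, 389195056800000000000],
  [829041861600000000000, 3337925241600000000000, 5039225136000000000000,
  3381041606400000000000, 850699850400000000000], [2399633556482910372795,
  9577511234225366189940, 14334667333835667886530, 9535428289500159012660,
  2378587571007940191195], [580823344800000000000, 2283570432000000000000,
  3365771227200000000000, 2204124537600000000000, 541100397600000000000],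
  [2857399400602871569359, 11438674997653388571588, 17171556940237287580506,
  11456771057004249652932, 2866444524457248489039], [523783987200000000000,
  2070982800000000000000, 3070244476800000000000, 2022476889600000000000,
  499580935200000000000], [99457077600000000000, 402219792000000000000,
  609617491200000000000, 410603529600000000000, 103698849600000000000],
  [2069843670088388198109, 8233300248805907016588, 12281178074583312633006,
  8141585203433117857932, 2023971079007778717789], [2447946412364214455406,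
  9788506295063888824392, 14677968713332808282004, 9782254086478430025288,
  2444742889603771868526], [2998834315665823549089, 11989682264837731209948,
  17976741315882000172326, 11978890416266648418972, 2993426970186849138369],
  [3768246973818816112149, 15098902249069564541868, 22687393681745735898366,
  15150791047670285703852, 3794203915816371412629], [465397243200000000000,
  1848414528000000000000, 2752860124800000000000, 1822065638400000000000,
  452222798400000000000], [11420205539977409978295, 45700636005999386015940,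
  68580687669380340823530, 45740289484399842726660, 11440032281041882156695],
  [1085211335624629443999, 4332535797739448176068, 6486360054591253126266,
  4316019255689991587652, 1076955533053308256479], [391590410400000000000,
  1562369385600000000000, 2337565694400000000000, 1554384873600000000000,
  387598154400000000000], [191029449600000000000, 817614028800000000000,
  1306365969600000000000, 924207264000000000000, 244326067200000000000],
  [1173034218144717077511, 4710903945537304581252, 7094114644950927952074,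
  4748223929913370437828, 1191602136522085920231], [3549171513587803879743,
  14197807548811165753476, 21299040081341081098362, 14200733219184689682564,
  3550668069142651127103], [2256990989913952722255, 9020266537947046446660,
  13519220107240880830170, 9005187002961884764740, 2249488761748891179855],
  [1543768771975295202646, 6177178146265109192072, 9268178161741213816164,
  6180771204595738324808, 1545516220909574760566], [1355050300450222987882,
  5439911223575039648024, 8189611820649704963388, 5479379631184498550936,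
  1374821067574828580522], [426522650400000000000, 1712278598400000000000,
  2577699892800000000000, 1724654592000000000000, 432660744000000000000],
  [1429714601965217300559, 5738213112701834849988, 8635901128642229481306,
  5776416281014992110532, 1448768582552036044239], [518444344800000000000,
  2050821907200000000000, 3042099072000000000000, 2005110576000000000000,
  495638582400000000000], [327564604800000000000, 1289897913600000000000,
  1904306112000000000000, 1249176902400000000000, 307204099200000000000],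
  [1282948782549882065055, 5134848597513460036260, 7706616185534207345370,
  5140868090324756359140, 1285905141364105478655]]

theorem schk34_1 : segchk 3 4 4611 4613 10000 85633 100000
    49903200000000000000000 D34 C34_1 = true := by decide +kernel

theorem goodG34_1 {t : ℝ} (h0 : 4611 / 10000 ≤ t) (h1 : t ≤ 4613 / 10000) :
    GoodG 3 4 t (85633 / 100000) (1 - 85633 / 100000) 0 := by
  have h2 := goodG_seg (N := 15) (by norm_num) zchk34 kchk34 schk34_1
    (u := (10000 * t - 4611) / 2) (v := (4613 - 10000 * t) / 2) (by linarith) (by linarith)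
    (by ring)
  have e : ((4611 : ℕ) * ((4613 - 10000 * t) / 2) + (4613 : ℕ) * ((10000 * t - 4611) / 2)) /
      (10000 : ℕ) = t := by
    push_cast
    ring
  rw [e] at h2
  have h3 := h2 (by linarith) (by linarith)
  push_cast at h3
  exact h3

end Pool.Agent.MPf4617e
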