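import Pool.Agent.Lib.MP_f4617e_lc_G.AchK
import Pool.Agent.Lib.MP_f4617e_lc_G.K34
import Pool.Agent.Lib.MP_f4617e_lc_G.K63
import Pool.Agent.Lib.MP_f4617e_lc_G.K73
import Pool.Agent.Lib.MP_f4617e_lc_G.K83
import Pool.Agent.Lib.MP_f4617e_lc_G.K93
import Pool.Agent.Lib.MP_f4617e_lc_G.K103
import Pool.Agent.Lib.MP_f4617e_lc_G.K113
import Pool.Agent.Lib.MP_f4617e_lc_G.K123

/-!
MP_f4617e_lc, project G: the Hamming bound from the block systems of length three (and four) found
by linear programming.
-/

set_option autoImplicit false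

namespace Pool.Agent.MPf4617e

open Finset

theorem ach34 {t : ℝ} (h0 : 4588 / 10000 ≤ t) (h1 : t ≤ 4613 / 10000) : Achievable 3 t := by
  rcases le_total t (4611 / 10000) with h | h
  · exact achievable_of_goodG0 (L := 4) (by norm_num) (by norm_num) (by linarith) (by linarith)
      ⟨goodG34_0 (by linarith) (by linarith), by norm_num, by norm_num, by linarith⟩
  · exact achievable_of_goodG0 (L := 4) (by norm_num) (by norm_num) (by linarith) (by linarith)
      ⟨goodG34_1 (by linarith) (by linarith), by norm_num, by norm_num, by linarith⟩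

theorem ach63 {t : ℝ} (h0 : 4790 / 10000 ≤ t) (h1 : t ≤ 4869 / 10000) : Achievable 6 t := by
  exact achievable_of_goodG0 (L := 3) (by norm_num) (by norm_num) (by linarith) (by linarith)
    ⟨goodG63_0 (by linarith) (by linarith), by norm_num, by norm_num, by linarith⟩

theorem ach73 {t : ℝ} (h0 : 4831 / 10000 ≤ t) (h1 : t ≤ 4901 / 10000) : Achievable 7 t := by
  exact achievable_of_goodG0 (L := 3) (by norm_num) (by norm_num) (by linarith) (by linarith)
    ⟨goodG73_0 (by linarith) (by linarith), by norm_num, by norm_num, by linarith⟩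

theorem ach83 {t : ℝ} (h0 : 4862 / 10000 ≤ t) (h1 : t ≤ 4923 / 10000) : Achievable 8 t := by
  exact achievable_of_goodG0 (L := 3) (by norm_num) (by norm_num) (by linarith) (by linarith)
    ⟨goodG83_0 (by linarith) (by linarith), by norm_num, by norm_num, by linarith⟩

theorem ach93 {t : ℝ} (h0 : 4876 / 10000 ≤ t) (h1 : t ≤ 4938 / 10000) : Achievable 9 t := by
  exact achievable_of_goodG0 (L := 3) (by norm_num) (by norm_num) (by linarith) (by linarith)
    ⟨goodG93_0 (by linarith) (by linarith), by norm_num, by norm_num, by linarith⟩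

theorem ach103 {t : ℝ} (h0 : 4900 / 10000 ≤ t) (h1 : t ≤ 4949 / 10000) : Achievable 10 t := by
  exact achievable_of_goodG0 (L := 3) (by norm_num) (by norm_num) (by linarith) (by linarith)
    ⟨goodG103_0 (by linarith) (by linarith), by norm_num, by norm_num, by linarith⟩

theorem ach113 {t : ℝ} (h0 : 4917 / 10000 ≤ t) (h1 : t ≤ 4958 / 10000) : Achievable 11 t := by
  exact achievable_of_goodG0 (L := 3) (by norm_num) (by norm_num) (by linarith) (by linarith)
    ⟨goodG113_0 (by linarith) (by linarith), by norm_num, by norm_num, by linarith⟩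

theorem ach123 {t : ℝ} (h0 : 4930 / 10000 ≤ t) (h1 : t ≤ 4964 / 10000) : Achievable 12 t := by
  exact achievable_of_goodG0 (L := 3) (by norm_num) (by norm_num) (by linarith) (by linarith)
    ⟨goodG123_0 (by linarith) (by linarith), by norm_num, by norm_num, by linarith⟩

end Pool.Agent.MPf4617e
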