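import Pool.Agent.Lib.MP_f4617e_lc.One
import Pool.Agent.Lib.MP_f4617e_lc.Two
import Pool.Agent.Lib.MP_f4617e_lc.ChainSys

/-!
MP_f4617e_lc: the Hamming bound for codes correcting localized errors, the ranges given by words
written one symbol at a time.
-/

set_option autoImplicit false

namespace Pool.Agent.MPf4617e

theorem ach_small {q : ℕ} (hq : 3 ≤ q) {τ : ℝ} (h0 : 0 < τ) (h1 : τ < 4 / 9) :
    Achievable q τ := by
  refine ach_one hq h0 ?_ (by linarith)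
  have hq' : (3 : ℝ) ≤ q := by exact_mod_cast hq
  unfold al
  rw [div_lt_iff₀ (by linarith), sub_lt_iff_lt_add, ← sub_lt_iff_lt_add', lt_div_iff₀ (by linarith)]
  nlinarith [mul_nonneg (sub_nonneg.2 hq') (sub_nonneg.2 hq'), mul_pos h0 h0,
    mul_nonneg (sub_nonneg.2 hq') (sub_nonneg.2 h1.le), mul_nonneg
      (mul_nonneg (sub_nonneg.2 hq') (sub_nonneg.2 hq')) (sub_nonneg.2 h1.le)]

theorem ineq_five (q : ℕ) (hq : 5 ≤ q) (τ : ℝ) (h : 4 / 9 ≤ τ)
    (h1 : τ < 1 / 2 - 1 / (q : ℝ) ^ 2) :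
   ((q : ℝ) - 1) / q ^ 2 ≤ τ ∧ 1 / ((q : ℝ) * (q - 1)) < 1 - 2 * τ ∧
   1 / ((q : ℝ) ^ 2 * τ) - 1 / (q * (q - 1) * (q * (1 - τ) - 1)) < 1 - 2 * τ := by
  have hq' : (5 : ℝ) ≤ q := by exact_mod_cast hq
  have hq2 : (0 : ℝ) < (q : ℝ) ^ 2 := by positivity
  set s : ℝ := 1 - 2 * τ with hs
  have hs1 : 2 / (q : ℝ) ^ 2 < s := by
    have : 2 / (q : ℝ) ^ 2 = 2 * (1 / (q : ℝ) ^ 2) := by ring
    rw [this]; linarith
  have hs2 : 2 < s * (q : ℝ) ^ 2 := by rwa [div_lt_iff₀ hq2] at hs1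
  have hs3 : s ≤ 1 / 9 := by linarith
  have hs0 : 0 < s := lt_trans (by positivity) hs1
  refine ⟨?_, ?_, ?_⟩
  · rw [div_le_iff₀ hq2]; nlinarith
  · rw [div_lt_iff₀ (by nlinarith)]
    nlinarith
  · have hτ : 0 < τ := by linarith
    have hQ : 0 < (q : ℝ) * (1 - τ) - 1 := by nlinarith
    have hQ2 : (q : ℝ) * (1 - τ) - 1 ≤ 5 / 9 * q := by nlinarith
    have hb : 9 / (5 * (q : ℝ) ^ 2 * (q - 1)) ≤ 1 / (q * (q - 1) * (q * (1 - τ) - 1)) := by
      rw [div_le_div_iff₀ (by nlinarith) (by apply mul_pos; nlinarith; exact hQ)]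
      have : (0:ℝ) ≤ q * (q - 1) := by nlinarith
      nlinarith [mul_le_mul_of_nonneg_left hQ2 this]
    have key : 1 / ((q : ℝ) ^ 2 * τ) - 9 / (5 * (q : ℝ) ^ 2 * (q - 1)) < s := by
      have hq1 : (0 : ℝ) < q - 1 := by linarith
      have hτs : τ = (1 - s) / 2 := by rw [hs]; ring
      have h4 : 5 * ((q : ℝ) - 1) < 5 * (q - 1) * (s * q ^ 2) * τ + 9 * τ := by
        rw [hτs]
        set v : ℝ := s * (q : ℝ) ^ 2 with hv
        rcases le_or_gt (5 / 2) v with hv1 | hv1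
        · have : (5 / 2 : ℝ) * (8 / 9) ≤ v * (1 - s) := by nlinarith
          nlinarith [mul_le_mul_of_nonneg_left this (by linarith : (0:ℝ) ≤ 5 * (q - 1))]
        · have hsv : s * (q : ℝ) ^ 2 = v := rfl
          have h5 : s * v ≤ 25 / 4 / (q : ℝ) ^ 2 := by
            rw [le_div_iff₀ hq2]
            have : s * v * (q : ℝ) ^ 2 = v * v := by rw [← hsv]; ring
            rw [this]; nlinarith
          have h6 : 5 * ((q : ℝ) - 1) * (25 / 4 / (q : ℝ) ^ 2) < 8 := by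
            rw [← mul_div_assoc, div_lt_iff₀ hq2]
            nlinarith
          have h7 : 5 * ((q : ℝ) - 1) * (s * v) < 8 :=
            lt_of_le_of_lt (mul_le_mul_of_nonneg_left h5 (by linarith)) h6
          nlinarith [mul_pos hq1 (sub_pos.2 hs2)]
      rw [sub_lt_iff_lt_add, div_lt_iff₀ (by positivity)]
      have e : (s + 9 / (5 * (q : ℝ) ^ 2 * (q - 1))) * ((q : ℝ) ^ 2 * τ) =
          (5 * (q - 1) * (s * q ^ 2) * τ + 9 * τ) / (5 * (q - 1)) := by
        field_simp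
      rw [e, lt_div_iff₀ (by linarith)]
      linarith
    linarith

/-- The Hamming bound is achievable at `(q, τ)` for `q = 3` and all `τ < 0.4486`, for `q = 4` and
all `τ < 11 / 24`, and for every `q ≥ 5` and all `τ < 1 / 2 - 1 / q ^ 2`. -/
theorem all_old :
    (∀ τ : ℝ, 0 < τ → τ < 0.4486 → Achievable 3 τ) ∧
    (∀ τ : ℝ, 0 < τ → τ < 11 / 24 → Achievable 4 τ) ∧
    (∀ q : ℕ, 5 ≤ q → ∀ τ : ℝ, 0 < τ → τ < 1 / 2 - 1 / (q : ℝ) ^ 2 → Achievable q τ) := by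
  refine ⟨fun τ h0 h1 => ?_, fun τ h0 h1 => ?_, fun q hq τ h0 h1 => ?_⟩
  · rcases lt_or_ge τ (4 / 9) with h | h
    · exact ach_small (by norm_num) h0 h
    · exact ach_two h h1
  · rcases lt_or_ge τ (4 / 9) with h | h
    · exact ach_small (by norm_num) h0 h
    · refine ach_chain (by norm_num) (by push_cast; linarith) (by push_cast; linarith) ?_
      push_cast
      have e1 : (0 : ℝ) < (4 : ℝ) * (1 - τ) - 1 := by linarith
      rw [div_sub_div _ _ (by positivity) (by positivity), div_lt_iff₀ (by positivity)]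
      nlinarith [mul_nonneg (sub_nonneg.2 h) (sub_nonneg.2 h1.le),
        mul_nonneg (mul_nonneg (sub_nonneg.2 h) (sub_nonneg.2 h1.le)) h0.le,
        mul_nonneg (mul_nonneg (sub_nonneg.2 h) (sub_nonneg.2 h1.le)) (sub_nonneg.2 h1.le)]
  · rcases lt_or_ge τ (4 / 9) with h | h
    · exact ach_small (by omega) h0 h
    · obtain ⟨g1, g2, g3⟩ := ineq_five q hq τ h h1
      exact ach_chain (by omega) g1 g2 g3

end Pool.Agent.MPf4617e
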