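import Pool.Agent.Lib.MP_f4617e_lc_G.Single

/-!
MP_f4617e_lc, project G: laws given by finite data.

Words of length `L` over `q` symbols are numbers `< q ^ L`, sets of positions are numbers `< 2 ^ L`.
-/

set_option autoImplicit false

namespace Pool.Agent.MPf4617e

open Finset

/-! ### Codes -/

/-- digit `i` of `c` in base `q` -/
def dig (q c i : ℕ) : ℕ := c / q ^ i % q

/-- number of a word -/
def wc {q L : ℕ} (y : Fin L → Fin q) : ℕ := (finFunctionFinEquiv y : Fin (q ^ L))

/-- number of a set -/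
def mc {L : ℕ} (E : Finset (Fin L)) : ℕ :=
  wc (fun i => if i ∈ E then (1 : Fin 2) else 0)

/-- number of elements of the set with number `m` -/
def pc (L m : ℕ) : ℕ := ((List.range L).map (dig 2 m)).sum

theorem wc_lt {q L : ℕ} (y : Fin L → Fin q) : wc y < q ^ L := (finFunctionFinEquiv y).isLt

theorem dig_wc {q L : ℕ} (y : Fin L → Fin q) (i : Fin L) : dig q (wc y) i = y i := by
  have h := finFunctionFinEquiv_symm_apply_val (finFunctionFinEquiv y) i
  rw [Equiv.symm_apply_apply] at h
  exact h.symm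

theorem mc_lt {L : ℕ} (E : Finset (Fin L)) : mc E < 2 ^ L := wc_lt _

theorem dig_mc {L : ℕ} (E : Finset (Fin L)) (i : Fin L) :
    dig 2 (mc E) i = if i ∈ E then 1 else 0 := by
  unfold mc
  rw [dig_wc]
  split_ifs <;> rfl

theorem pc_mc {L : ℕ} (E : Finset (Fin L)) : pc L (mc E) = E.card := by
  have h1 : pc L (mc E) = ∑ i ∈ Finset.range L, dig 2 (mc E) i := by
    unfold pc
    rw [← List.sum_toFinset _ List.nodup_range]
    congr 1
    ext i
    simp
  rw [h1, ← Fin.sum_univ_eq_sum_range (dig 2 (mc E)) L]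
  simp only [dig_mc]
  rw [Finset.sum_boole]
  simp

/-! ### Data and the check -/

/-- data of one key: the table of the cells and the served entries (cell, word, level) of every
set of positions -/
structure KeyData where
  tab : List ℕ
  sv : List (List (ℕ × ℕ × ℕ))

/-- the words `y` and `w` agree off the set `E` -/
def agr (q L w y E : ℕ) : Bool :=
  (List.range L).all fun i => dig 2 E i == 1 || dig q y i == dig q w i

/-- the word `y` carries the special word of `V` -/
def car (q L w y V : ℕ) : Bool :=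
  (List.range L).all fun i => dig 2 V i == 0 || dig q y i == dig q w i

/-- the check of the table `zt` of the special words and the table `lt` of the levels -/
def zchk (q L : ℕ) (zt lt : List ℕ) : Bool :=
  (List.range (2 ^ L)).all fun V =>
    ((List.range L).all fun i => dig 2 V i == 0 || dig q (zt.getD V 0) i != 0) &&
    (List.range (q ^ L)).all fun y => !car q L (zt.getD V 0) y V || decide (pc L V ≤ lt.getD y 0)

/-- the check of a key -/
def kchk (q L N : ℕ) (lt : List ℕ) (K : KeyData) : Bool :=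
  (List.range (2 ^ L)).all fun E =>
    decide ((K.sv.getD E []).map Prod.fst).Nodup &&
    (K.sv.getD E []).all fun e => decide (e.1 < N) &&
      (List.range (q ^ L)).all fun y => !agr q L e.2.1 y E ||
        (K.tab.getD y 0 == e.1 && decide (lt.getD y 0 ≤ e.2.2))

/-- the special words -/
def zOf (q L : ℕ) [NeZero q] (zt : List ℕ) (V : Finset (Fin L)) (i : Fin L) : Fin q :=
  Fin.ofNat q (dig q (zt.getD (mc V) 0) i)

theorem dig_lt {q : ℕ} [NeZero q] (c i : ℕ) : dig q c i < q :=
  Nat.mod_lt _ (Nat.pos_of_ne_zero (NeZero.ne q))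

theorem ofNat_dig {q : ℕ} [NeZero q] (c i : ℕ) : ((Fin.ofNat q (dig q c i) : Fin q) : ℕ) =
    dig q c i := Nat.mod_eq_of_lt (dig_lt c i)

theorem zOf_ne {q L : ℕ} [NeZero q] {zt lt : List ℕ} (h : zchk q L zt lt = true)
    (V : Finset (Fin L)) (i : Fin L) (hi : i ∈ V) : zOf q L zt V i ≠ 0 := by
  unfold zchk at h
  rw [List.all_eq_true] at h
  have h1 := h (mc V) (List.mem_range.2 (mc_lt V))
  rw [Bool.and_eq_true, List.all_eq_true] at h1
  have h2 := h1.1 i (List.mem_range.2 i.isLt)
  rw [dig_mc, if_pos hi] at h2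
  intro h3
  have h4 := congrArg Fin.val h3
  unfold zOf at h4
  rw [ofNat_dig] at h4
  rw [h4] at h2
  simp at h2

theorem levOf_le {q L : ℕ} [NeZero q] {zt lt : List ℕ} (h : zchk q L zt lt = true)
    (y : Fin L → Fin q) (V : Finset (Fin L)) (hV : ∀ i ∈ V, y i = zOf q L zt V i) :
    V.card ≤ lt.getD (wc y) 0 := by
  unfold zchk at h
  rw [List.all_eq_true] at h
  have h1 := h (mc V) (List.mem_range.2 (mc_lt V))
  rw [Bool.and_eq_true, List.all_eq_true, List.all_eq_true] at h1
  have h2 := h1.2 (wc y) (List.mem_range.2 (wc_lt y))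
  have h3 : car q L (zt.getD (mc V) 0) (wc y) (mc V) = true := by
    unfold car
    rw [List.all_eq_true]
    intro i hi
    rw [List.mem_range] at hi
    have h4 := dig_mc V ⟨i, hi⟩
    have h5 := dig_wc y ⟨i, hi⟩
    simp only at h4 h5
    rw [h4]
    by_cases hiV : (⟨i, hi⟩ : Fin L) ∈ V
    · have h6 := congrArg Fin.val (hV _ hiV)
      unfold zOf at h6
      rw [ofNat_dig] at h6
      rw [h5, h6]
      simp
    · rw [if_neg hiV]
      simp
  rw [h3, pc_mc] at h2
  simpa using h2

/-- entries served by the key `K` for the set `E` -/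
def ent {L : ℕ} (K : KeyData) (E : Finset (Fin L)) : List (ℕ × ℕ × ℕ) := K.sv.getD (mc E) []

/-- the word of the first entry with the cell `c` -/
def wdOf (q : ℕ) [NeZero q] {L : ℕ} (l : List (ℕ × ℕ × ℕ)) (c : ℕ) (i : Fin L) : Fin q :=
  match l.find? (fun e => e.1 == c) with
  | some e => Fin.ofNat q (dig q e.2.1 i)
  | none => 0

theorem find_spec {l : List (ℕ × ℕ × ℕ)} {c : ℕ} (h : ∃ e ∈ l, e.1 = c) :
    ∃ e ∈ l, e.1 = c ∧ l.find? (fun e => e.1 == c) = some e := by
  have h1 : (l.find? (fun e => e.1 == c)).isSome := by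
    rw [List.find?_isSome]
    obtain ⟨e, he, hc⟩ := h
    exact ⟨e, he, by simp [hc]⟩
  obtain ⟨e, he⟩ := Option.isSome_iff_exists.1 h1
  refine ⟨e, List.mem_of_find?_eq_some he, ?_, he⟩
  have := List.find?_some he
  simpa using this

theorem key_spec {q L N : ℕ} [NeZero q] {lt : List ℕ} {K : KeyData}
    (h : kchk q L N lt K = true) (E : Finset (Fin L)) :
    ((ent K E).map Prod.fst).Nodup ∧ ∀ e ∈ ent K E, e.1 < N ∧ ∀ y : Fin L → Fin q,
      (∀ i, i ∉ E → (y i : ℕ) = dig q e.2.1 i) →
        K.tab.getD (wc y) 0 = e.1 ∧ lt.getD (wc y) 0 ≤ e.2.2 := by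
  unfold kchk at h
  rw [List.all_eq_true] at h
  have h1 := h (mc E) (List.mem_range.2 (mc_lt E))
  rw [Bool.and_eq_true, List.all_eq_true, decide_eq_true_eq] at h1
  refine ⟨h1.1, fun e he => ?_⟩
  have h2 := h1.2 e he
  rw [Bool.and_eq_true, List.all_eq_true, decide_eq_true_eq] at h2
  refine ⟨h2.1, fun y hy => ?_⟩
  have h3 := h2.2 (wc y) (List.mem_range.2 (wc_lt y))
  have h4 : agr q L e.2.1 (wc y) (mc E) = true := by
    unfold agr
    rw [List.all_eq_true]
    intro i hi
    rw [List.mem_range] at hi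
    have h4 := dig_mc E ⟨i, hi⟩
    have h5 := dig_wc y ⟨i, hi⟩
    simp only at h4 h5
    rw [h4]
    by_cases hiE : (⟨i, hi⟩ : Fin L) ∈ E
    · rw [if_pos hiE]
      simp
    · rw [h5, hy _ hiE]
      simp
  rw [h4] at h3
  simpa using h3

/-! ### The law -/

/-- the law given by the data -/
noncomputable def mkLaw (q L N : ℕ) [NeZero q] [NeZero N] (lt : List ℕ) (D : List KeyData)
    (P : Fin D.length → ℝ) (h0 : ∀ ω, 0 ≤ P ω) (h1 : ∑ ω, P ω = 1)
    (hD : D.all (kchk q L N lt) = true) : GLaw q L where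
  m := D.length
  N := N
  P := P
  cell ω y := Fin.ofNat N ((D.get ω).tab.getD (wc y) 0)
  good ω c E := ∃ e ∈ ent (D.get ω) E, e.1 = c.val
  wd ω c E := wdOf q (ent (D.get ω) E) c.val
  P_nonneg := h0
  P_sum := h1
  good_cell := by
    intro ω c E hg y hy
    obtain ⟨e, he, hec, hf⟩ := find_spec hg
    rw [List.all_eq_true] at hD
    have h2 := ((key_spec (hD _ (D.get_mem ω)) E).2 e he).2 y (fun i hi => by
      rw [hy i hi]
      unfold wdOf
      rw [hf]
      exact ofNat_dig _ _)
    apply Fin.ext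
    rw [h2.1, hec]
    exact Nat.mod_eq_of_lt c.isLt

/-- number of entries -/
def nE (m : ℕ) (K : KeyData) : ℕ := (K.sv.getD m []).length

/-- total level of the entries -/
def yE (m : ℕ) (K : KeyData) : ℕ := ((K.sv.getD m []).map fun e => e.2.2).sum

theorem sum_entries (N : ℕ) (l : List (ℕ × ℕ × ℕ)) :
    ∑ c : Fin N, (l.map fun e => if e.1 = c.val then e.2.2 else 0).sum ≤
      (l.map fun e => e.2.2).sum := by
  induction l with
  | nil => simp
  | cons e l ih =>
    simp only [List.map_cons, List.sum_cons]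
    rw [Finset.sum_add_distrib]
    refine add_le_add ?_ ih
    by_cases h : e.1 < N
    · have h1 : ∀ c : Fin N, (if e.1 = c.val then e.2.2 else 0) =
          if c = ⟨e.1, h⟩ then e.2.2 else 0 := by
        intro c
        by_cases hc : e.1 = c.val
        · rw [if_pos hc, if_pos (Fin.ext hc.symm)]
        · rw [if_neg hc, if_neg (fun h2 => hc (congrArg Fin.val h2).symm)]
      simp only [h1, Finset.sum_ite_eq', Finset.mem_univ, if_true]
      exact le_rfl
    · have h1 : ∀ c : Fin N, (if e.1 = c.val then e.2.2 else 0) = 0 := by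
        intro c
        rw [if_neg]
        intro h2
        exact h (h2 ▸ c.isLt)
      simp only [h1, Finset.sum_const_zero]
      exact Nat.zero_le _

section

variable {q L N : ℕ} [NeZero q] [NeZero N] {lt zt : List ℕ} {D : List KeyData}
  {P : Fin D.length → ℝ} (h0 : ∀ ω, 0 ≤ P ω) (h1 : ∑ ω, P ω = 1)
  (hD : D.all (kchk q L N lt) = true)

include h0 h1 hD

theorem mkLaw_Z (E : Finset (Fin L)) : ∑ ω, P ω * (nE (mc E) (D.get ω) : ℝ) ≤
    (mkLaw q L N lt D P h0 h1 hD).Z E := by
  classical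
  unfold GLaw.Z
  refine Finset.sum_le_sum fun ω _ => mul_le_mul_of_nonneg_left ?_ (h0 ω)
  rw [Finset.sum_boole]
  norm_cast
  have hD' := List.all_eq_true.1 hD
  obtain ⟨hn, hs⟩ := key_spec (hD' _ (D.get_mem ω)) E
  have h2 : (((ent (D.get ω) E).map Prod.fst).map (Fin.ofNat N)).Nodup := by
    rw [List.nodup_map_iff_inj_on hn]
    intro x hx y hy hxy
    obtain ⟨e, he, rfl⟩ := List.mem_map.1 hx
    obtain ⟨e', he', rfl⟩ := List.mem_map.1 hy
    have h3 := congrArg Fin.val hxy
    simp only [Fin.val_ofNat] at h3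
    rw [Nat.mod_eq_of_lt (hs e he).1, Nat.mod_eq_of_lt (hs e' he').1] at h3
    exact h3
  have h4 : nE (mc E) (D.get ω) =
      (((ent (D.get ω) E).map Prod.fst).map (Fin.ofNat N)).toFinset.card := by
    rw [List.toFinset_card_of_nodup h2, List.length_map, List.length_map]
    rfl
  rw [h4]
  refine Finset.card_le_card fun c hc => ?_
  rw [List.mem_toFinset] at hc
  obtain ⟨x, hx, rfl⟩ := List.mem_map.1 hc
  obtain ⟨e, he, rfl⟩ := List.mem_map.1 hx
  refine Finset.mem_filter.2 ⟨Finset.mem_univ _, e, he, ?_⟩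
  exact (Nat.mod_eq_of_lt (hs e he).1).symm

theorem mkLaw_Y (hz : zchk q L zt lt = true) (E : Finset (Fin L)) :
    (mkLaw q L N lt D P h0 h1 hD).Y (zOf q L zt) E ≤
      ∑ ω, P ω * (yE (mc E) (D.get ω) : ℝ) := by
  classical
  unfold GLaw.Y
  refine Finset.sum_le_sum fun ω _ => mul_le_mul_of_nonneg_left ?_ (h0 ω)
  have hD' := List.all_eq_true.1 hD
  obtain ⟨hn, hs⟩ := key_spec (hD' _ (D.get_mem ω)) E
  have h2 : ∀ c : Fin N, (if (mkLaw q L N lt D P h0 h1 hD).good ω c E then
      (lvl (zOf q L zt) ((mkLaw q L N lt D P h0 h1 hD).wd ω c E) E : ℝ) else 0) ≤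
      (((ent (D.get ω) E).map fun e => if e.1 = c.val then e.2.2 else 0).sum : ℕ) := by
    intro c
    split_ifs with hg
    · obtain ⟨e, he, hec, hf⟩ := find_spec hg
      have h3 : lvl (zOf q L zt) ((mkLaw q L N lt D P h0 h1 hD).wd ω c E) E ≤ e.2.2 := by
        rw [lvl_le_iff]
        intro y hy V hV
        refine (levOf_le hz y V hV).trans ?_
        refine (((hs e he).2 y (fun i hi => ?_))).2
        rw [hy i hi]
        change ((wdOf q (ent (D.get ω) E) c.val i : Fin q) : ℕ) = _
        unfold wdOf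
        rw [hf]
        exact ofNat_dig _ _
      have h4 : e.2.2 ≤ ((ent (D.get ω) E).map fun e => if e.1 = c.val then e.2.2 else 0).sum := by
        refine List.le_sum_of_mem ?_
        rw [List.mem_map]
        exact ⟨e, he, if_pos hec⟩
      exact_mod_cast h3.trans h4
    · exact Nat.cast_nonneg _
  refine (Finset.sum_le_sum fun c _ => h2 c).trans ?_
  rw [← Nat.cast_sum]
  exact_mod_cast sum_entries N (ent (D.get ω) E)

end

/-! ### Weights as lists -/

/-- scalar product of a list of weights and a list of numbers -/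
noncomputable def dot : List ℝ → List ℕ → ℝ
  | p :: ps, n :: ns => p * n + dot ps ns
  | _, _ => 0

theorem sum_dot (D : List KeyData) (f : KeyData → ℕ) (Pl : List ℝ) (h : Pl.length = D.length) :
    ∑ ω : Fin D.length, Pl.getD ω 0 * (f (D.get ω) : ℝ) = dot Pl (D.map f) := by
  induction D generalizing Pl with
  | nil =>
    have h1 : Pl = [] := List.length_eq_zero_iff.1 (by simpa using h)
    subst h1
    simp [dot]
  | cons K D ih =>
    obtain ⟨p, ps, rfl⟩ : ∃ p ps, Pl = p :: ps := by
      cases Pl with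
      | nil => simp at h
      | cons p ps => exact ⟨p, ps, rfl⟩
    have h2 := ih ps (by simpa using h)
    change ∑ ω : Fin (D.length + 1), _ = _
    rw [Fin.sum_univ_succ]
    rw [List.map_cons, dot, ← h2]
    rfl

theorem sum_weights (n : ℕ) (Pl : List ℝ) (h : Pl.length = n) :
    ∑ ω : Fin n, Pl.getD ω 0 = Pl.sum := by
  induction Pl generalizing n with
  | nil =>
    subst h
    simp
  | cons p ps ih =>
    subst h
    rw [List.sum_cons, List.length_cons, Fin.sum_univ_succ, ← ih ps.length rfl]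
    rfl

/-- A good system from finite data. -/
theorem goodG_cert {q L N : ℕ} [NeZero q] [NeZero N] (hq : 2 ≤ q) {τ c1 c2 : ℝ} (h0 : 0 < τ)
    (h1 : τ < 1 / 2) (hc1 : 0 ≤ c1) (hc2 : 0 ≤ c2) {zt lt : List ℕ} {D : List KeyData}
    {Pl : List ℝ} (hlen : Pl.length = D.length) (hP0 : ∀ p ∈ Pl, 0 ≤ p) (hP1 : Pl.sum = 1)
    (hz : zchk q L zt lt = true) (hD : D.all (kchk q L N lt) = true)
    (hZ : ∀ m < 2 ^ L, al q τ ^ pc L m * (q * (1 - τ)) ^ (L - pc L m) ≤ dot Pl (D.map (nE m)))
    (hY : ∀ m < 2 ^ L, dot Pl (D.map (yE m)) ≤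
      (c1 * pc L m + c2 * L) * dot Pl (D.map (nE m))) :
    GoodG q L τ c1 c2 0 := by
  have hP0' : ∀ ω : Fin D.length, 0 ≤ Pl.getD ω 0 := by
    intro ω
    have h2 : (ω : ℕ) < Pl.length := by rw [hlen]; exact ω.isLt
    rw [List.getD_eq_getElem _ _ h2]
    exact hP0 _ (List.getElem_mem h2)
  have hP1' : ∑ ω : Fin D.length, Pl.getD ω 0 = 1 := by
    rw [sum_weights _ _ hlen, hP1]
  have hZ' := mkLaw_Z (N := N) hP0' hP1' hD
  have hY' := mkLaw_Y (N := N) hP0' hP1' hD hz
  refine goodG_single hq h0 h1 (zOf q L zt) (zOf_ne hz) (mkLaw q L N lt D _ hP0' hP1' hD) ?_ ?_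
  · intro E
    have h2 := hZ (mc E) (mc_lt E)
    rw [pc_mc] at h2
    have h3 := hZ' E
    rw [sum_dot D (nE (mc E)) Pl hlen] at h3
    rw [zero_mul, neg_zero, Real.rpow_zero, mul_one]
    exact h2.trans h3
  · intro E
    have h2 := hY (mc E) (mc_lt E)
    rw [pc_mc] at h2
    have h3 := hZ' E
    rw [sum_dot D (nE (mc E)) Pl hlen] at h3
    have h4 := hY' E
    rw [sum_dot D (yE (mc E)) Pl hlen] at h4
    refine h4.trans (h2.trans (mul_le_mul_of_nonneg_left h3 ?_))
    positivity

end Pool.Agent.MPf4617e
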