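import Pool.Agent.Lib.MP_f4617e_lc_G.PSG
import Pool.Agent.Lib.MP_f4617e_lc.Engine

/-!
MP_f4617e_lc, project G: the engine for general letters.
-/

set_option autoImplicit false

namespace Pool.Agent.MPf4617e

open Finset Filter Topology

/-- The rate `R` is achievable at `(q, τ)`. -/
def AchRate (q : ℕ) (τ R : ℝ) : Prop :=
  ∀ ε : ℝ, 0 < ε → ∃ N : ℕ, ∀ n : ℕ, N ≤ n →
    ∃ (M : ℕ) (f : Fin M → Finset (Fin n) → Fin n → Fin q),
      0 < M ∧ Corrects q n ⌊τ * n⌋₊ M f ∧ (R - ε) * n ≤ Real.logb q M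

theorem engineG {q L : ℕ} [NeZero q] (hq : 2 ≤ q) (hL : 0 < L) {τ A D c1 c2 : ℝ} (hτ0 : 0 < τ)
    (hτ1 : τ < 1 / 2) (hA : 0 < A) (hD : D ≤ A) (hc1 : 0 < c1) (hc1' : c1 ≤ 1) (hc2 : 0 ≤ c2)
    (hc : c1 * τ + c2 < 1 - τ) (h : GoodR q L A D c1 c2) :
    AchRate q τ (A - (A - D) * τ) := by
  intro ε hε
  obtain ⟨R, hH⟩ : ∃ R : ℝ, R = A - (A - D) * τ := ⟨_, rfl⟩
  rw [← hH]
  set Bp : ℝ := A - D with hBpdef
  have hBp : 0 ≤ Bp := by rw [hBpdef]; linarith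
  rcases lt_or_ge (R - ε) 0 with hneg | hpos
  · exact ⟨0, fun n _ =>
      engine_trivial (mul_nonpos_of_nonpos_of_nonneg hneg.le (Nat.cast_nonneg n))⟩
  -- constants
  set s : ℝ := 1 - τ - c1 * τ - c2 with hs
  have hs0 : 0 < s := by rw [hs]; linarith
  set δ : ℝ := min (s / 8) (min ((1 - 2 * τ) / 8) (ε / (8 * (Bp + 1)))) with hδ
  have hδ0 : 0 < δ := by
    rw [hδ]
    refine lt_min (by positivity) (lt_min (by linarith) (by positivity))
  have hδ1 : δ ≤ s / 8 := min_le_left _ _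
  have hδ2 : δ ≤ (1 - 2 * τ) / 8 := (min_le_right _ _).trans (min_le_left _ _)
  have hδ3 : Bp * δ ≤ ε / 8 := by
    have : δ ≤ ε / (8 * (Bp + 1)) := (min_le_right _ _).trans (min_le_right _ _)
    calc Bp * δ ≤ (Bp + 1) * δ := by linarith
      _ ≤ (Bp + 1) * (ε / (8 * (Bp + 1))) := mul_le_mul_of_nonneg_left this (by linarith)
      _ = ε / 8 := by field_simp
  set τ1 : ℝ := τ + δ with hτ1def
  have hL' : (1 : ℝ) ≤ L := by exact_mod_cast hL
  -- the prime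
  obtain ⟨b, hb1, hbp⟩ := Nat.exists_infinite_primes
    (⌈12 / s + 10 / (1 - 2 * τ) + 48 * A / ε⌉₊ + 1)
  haveI : Fact b.Prime := ⟨hbp⟩
  have h2τ : 0 < 1 - 2 * τ := by linarith
  have hb2 : 12 / s + 10 / (1 - 2 * τ) + 48 * A / ε < b := by
    have h1 := Nat.le_ceil (12 / s + 10 / (1 - 2 * τ) + 48 * A / ε)
    have h2 : ((⌈12 / s + 10 / (1 - 2 * τ) + 48 * A / ε⌉₊ : ℝ)) + 1 ≤ b := by exact_mod_cast hb1
    linarith
  have hb0 : (0 : ℝ) < b := by exact_mod_cast hbp.pos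
  have e1 : 0 < 12 / s := by positivity
  have e2 : 0 < 10 / (1 - 2 * τ) := by positivity
  have e3 : 0 < 48 * A / ε := by positivity
  have hbs : 3 / (b : ℝ) < s / 4 := by
    have : 12 / s < b := by linarith
    rw [div_lt_iff₀ hs0] at this
    rw [div_lt_iff₀ hb0]
    linarith
  have hbt : 5 / (b : ℝ) < (1 - 2 * τ) / 2 := by
    have : 10 / (1 - 2 * τ) < b := by linarith
    rw [div_lt_iff₀ h2τ] at this
    rw [div_lt_iff₀ hb0]
    linarith
  have hbA : 3 / (b : ℝ) * (2 * A) ≤ ε / 8 := by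
    have : 48 * A / ε < b := by linarith
    rw [div_lt_iff₀ hε] at this
    rw [div_mul_eq_mul_div, div_le_iff₀ hb0]
    linarith
  have hcond1 : c1 * τ1 + (c2 + s / 4) + 3 / (b : ℝ) < 1 - τ1 := by
    have e4 : c1 * δ ≤ 1 * δ := mul_le_mul_of_nonneg_right hc1' hδ0.le
    have e5 : c1 * (τ + δ) = c1 * τ + c1 * δ := by ring
    rw [hτ1def, e5]
    linarith
  have hcond2 : 5 / (b : ℝ) < 1 - 2 * τ1 := by
    rw [hτ1def]; linarith
  -- part schemes
  obtain ⟨σ, hσ, hps⟩ := psg_scheme hq hL hc1.le hc1' hc2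
    (by nlinarith [mul_pos hc1 hτ0]) h (s / 4) (by positivity)
  have hev : ∀ᶠ B : ℕ in atTop, |σ B / B| < min (ε / 8) A := by
    have h1 : (0 : ℝ) < min (ε / 8) A := lt_min (by positivity) hA
    have h2 := (Metric.tendsto_atTop.1 hσ) _ h1
    obtain ⟨B0, hB0⟩ := h2
    filter_upwards [eventually_ge_atTop B0] with B hB
    have h3 := hB0 B hB
    rwa [Real.dist_eq, sub_zero] at h3
  obtain ⟨B1, hB1⟩ := eventually_atTop.1 hev
  obtain ⟨B2, hB2⟩ := exists_nat_gt (τ / δ + 8 * A / ε)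
  set B0 : ℕ := max (max B1 B2) 1 with hB0def
  have hB0 : 1 ≤ B0 := le_max_right _ _
  have hBprop : ∀ B : ℕ, B0 ≤ B → (1 : ℝ) ≤ B ∧ |σ B| ≤ ε / 8 * ((B : ℝ) * L) ∧
      |σ B| ≤ A * ((B : ℝ) * L) ∧ τ ≤ δ * B ∧ A ≤ ε / 8 * B := by
    intro B hB
    have hBN : 1 ≤ B := hB0.trans hB
    have hB1' : (1 : ℝ) ≤ B := by exact_mod_cast hBN
    have hBpos : (0 : ℝ) < B := by linarith
    have h1 := hB1 B (((le_max_left _ _).trans (le_max_left _ _)).trans hB)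
    have h2 : (B2 : ℝ) ≤ B := by
      exact_mod_cast ((le_max_right _ _).trans (le_max_left _ _)).trans hB
    rw [abs_div, abs_of_pos hBpos, lt_min_iff, div_lt_iff₀ hBpos, div_lt_iff₀ hBpos] at h1
    have hBL : (B : ℝ) ≤ B * L := by nlinarith
    have g1 : 0 < τ / δ := by positivity
    have g2 : 0 < 8 * A / ε := by positivity
    have g3 : τ / δ < B := by linarith
    have g4 : 8 * A / ε < B := by linarith
    rw [div_lt_iff₀ hδ0] at g3
    rw [div_lt_iff₀ hε] at g4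
    refine ⟨hB1', ?_, ?_, by linarith, by linarith⟩
    · have : ε / 8 * B ≤ ε / 8 * (B * L) := mul_le_mul_of_nonneg_left hBL (by positivity)
      linarith [h1.1]
    · have : A * B ≤ A * (B * L) := mul_le_mul_of_nonneg_left hBL hA.le
      linarith [h1.2]
  -- the global codes
  have key : ∀ B : ℕ, B0 ≤ B → ∃ d0 : ℕ, ∀ d : ℕ, d0 ≤ d → ∀ ℓ : ℕ,
      (ℓ : ℝ) ≤ (A * ((B : ℝ) * L) - σ B) * ((b : ℝ) ^ (d + 2) - 3 * (b : ℝ) ^ (d + 1))
        - Bp * (τ1 * ((b : ℝ) ^ (d + 2) * ((B : ℝ) * L))) →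
      LocCode q (G b (d + 1) × (Fin B × Fin L))
        (fun E => (E.card : ℝ) ≤ τ1 * ((b : ℝ) ^ (d + 2) * ((B : ℝ) * L)))
        (Fin ℓ → Fin q) := by
    intro B hB
    have hBN : 0 < B := lt_of_lt_of_le one_pos (hB0.trans hB)
    obtain ⟨K, S, V, hlev, hnet⟩ := hps B hBN
    obtain ⟨-, hσ1, hσ2, -, -⟩ := hBprop B hB
    haveI : Nonempty (Fin B × Fin L) := ⟨(⟨0, hBN⟩, ⟨0, hL⟩)⟩
    have hcard : ((Fintype.card (Fin B × Fin L) : ℕ) : ℝ) = (B : ℝ) * L := by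
      simp
    have hg := global_code S V b c1 (c2 + s / 4) τ1 A Bp (σ B) hc1 (by positivity)
      (by positivity) hcond1 hcond2
      (fun E d y h1 h2 => by
        rw [hcard, ← add_assoc]
        exact hlev E d y h1 h2)
      (by rw [hcard]; exact (le_abs_self _).trans hσ2) hBp
      (fun E => by
        rw [hcard]
        have := hnet E
        have e : A * ((B : ℝ) * L) - Bp * E.card - σ B =
            ((B : ℝ) * L - E.card) * A + E.card * D - σ B := by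
          rw [hBpdef]; ring
        rw [e]
        exact this)
    rw [hcard] at hg
    exact hg
  choose! d0 hd0 using key
  set dmax : ℕ := (range (b * B0 + 1)).sup d0 with hdmax
  set m0 : ℕ := B0 * L with hm0
  have hm0pos : 0 < m0 := Nat.mul_pos (by omega) hL
  refine ⟨max (m0 * b ^ (dmax + 2)) (⌈4 / ε⌉₊ + 1), fun n hn => ?_⟩
  have hn1 : m0 * b ^ (dmax + 2) ≤ n := (le_max_left _ _).trans hn
  have hn2 : 4 / ε ≤ n := by
    have h1 : ⌈4 / ε⌉₊ + 1 ≤ n := (le_max_right _ _).trans hn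
    have h2 := Nat.le_ceil (4 / ε)
    have h3 : (⌈4 / ε⌉₊ : ℝ) + 1 ≤ n := by exact_mod_cast h1
    linarith
  have hb1' : 1 < b := hbp.one_lt
  have hbpos : 0 < b := hbp.pos
  set Dn : ℕ := Nat.log b (n / m0) with hDn
  have hdiv : b ^ (dmax + 2) ≤ n / m0 := by
    rw [Nat.le_div_iff_mul_le hm0pos, mul_comm]
    exact hn1
  have hDn1 : dmax + 2 ≤ Dn := Nat.le_log_of_pow_le hb1' hdiv
  have hne : n / m0 ≠ 0 := by
    have : 0 < b ^ (dmax + 2) := pow_pos hbpos _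
    omega
  have hDn2 : b ^ Dn ≤ n / m0 := Nat.pow_log_le_self b hne
  have hDn3 : n / m0 < b ^ (Dn + 1) := Nat.lt_pow_succ_log_self hb1' _
  obtain ⟨d, hd⟩ : ∃ d, Dn = d + 2 := ⟨Dn - 2, by omega⟩
  rw [hd] at hDn2 hDn3 hDn1
  set B : ℕ := n / (b ^ (d + 2) * L) with hB
  have hbL : 0 < b ^ (d + 2) * L := Nat.mul_pos (pow_pos hbpos _) hL
  have hBge : B0 ≤ B := by
    rw [hB, Nat.le_div_iff_mul_le hbL]
    have h1 : b ^ (d + 2) * m0 ≤ n := by
      rw [← Nat.le_div_iff_mul_le hm0pos]; exact hDn2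
    calc B0 * (b ^ (d + 2) * L) = b ^ (d + 2) * m0 := by rw [hm0]; ring
      _ ≤ n := h1
  have hBlt : B < b * B0 := by
    rw [hB, Nat.div_lt_iff_lt_mul hbL]
    have h1 : n < b ^ (d + 2 + 1) * m0 := by
      rw [← Nat.div_lt_iff_lt_mul hm0pos]; exact hDn3
    calc n < b ^ (d + 2 + 1) * m0 := h1
      _ = b * B0 * (b ^ (d + 2) * L) := by rw [hm0]; ring
  have hdd : d0 B ≤ d := by
    have h1 : d0 B ≤ dmax := Finset.le_sup (f := d0) (mem_range.2 (by omega))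
    omega
  obtain ⟨hB1r, hσ1, hσ2, hτB, hAB⟩ := hBprop B hBge
  have hBpos : (0 : ℝ) < B := by linarith
  have hlow : B * (b ^ (d + 2) * L) ≤ n := by
    rw [← Nat.le_div_iff_mul_le hbL]
  have hupp : n < (B + 1) * (b ^ (d + 2) * L) := by
    rw [← Nat.div_lt_iff_lt_mul hbL]
    exact Nat.lt_succ_self _
  set n' : ℝ := (b : ℝ) ^ (d + 2) * ((B : ℝ) * L) with hn'
  have hlow' : n' ≤ n := by
    have : ((B * (b ^ (d + 2) * L) : ℕ) : ℝ) ≤ n := by exact_mod_cast hlow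
    push_cast at this
    calc n' = (B : ℝ) * ((b : ℝ) ^ (d + 2) * L) := by rw [hn']; ring
      _ ≤ n := this
  have hupp' : (n : ℝ) ≤ n' * (1 + 1 / B) := by
    have : (n : ℝ) < (((B + 1) * (b ^ (d + 2) * L) : ℕ) : ℝ) := by exact_mod_cast hupp
    push_cast at this
    calc (n : ℝ) ≤ ((B : ℝ) + 1) * ((b : ℝ) ^ (d + 2) * L) := this.le
      _ = n' * (1 + 1 / B) := by rw [hn']; field_simp
  have hn'0 : 0 < n' := by rw [hn']; positivity
  set X : ℝ := (A * ((B : ℝ) * L) - σ B) * ((b : ℝ) ^ (d + 2) - 3 * (b : ℝ) ^ (d + 1))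
        - Bp * (τ1 * ((b : ℝ) ^ (d + 2) * ((B : ℝ) * L))) with hX
  have hXge : n' * (A - Bp * τ - 3 * ε / 8) ≤ X := by
    refine engine_arith (τ1 := τ1) (B := B) (n := n) hA hBp hτ0 hε hBpos
      (by positivity : (0 : ℝ) < (B : ℝ) * L) (by positivity : (0 : ℝ) < (b : ℝ) ^ (d + 2))
      hσ1 hσ2 ?_ (3 / (b : ℝ)) (by positivity) hbA rfl ?_
    · rw [hτ1def, add_sub_cancel_left]
      exact hδ3
    · rw [hX]
      have : 3 / (b : ℝ) * (b : ℝ) ^ (d + 2) = 3 * (b : ℝ) ^ (d + 1) := by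
        rw [pow_succ (b : ℝ) (d + 1)]
        field_simp
      rw [this]
  rw [← hH] at hXge
  have hX0 : 0 ≤ X := by
    refine le_trans (mul_nonneg hn'0.le ?_) hXge
    linarith
  have hloc := hd0 B hBge d hdd ⌊X⌋₊ (Nat.floor_le hX0)
  have hcardS : Fintype.card (G b (d + 1) × (Fin B × Fin L)) ≤ n := by
    have : Fintype.card (G b (d + 1) × (Fin B × Fin L)) = B * (b ^ (d + 2) * L) := by
      simp only [G, Fintype.card_prod, Fintype.card_fin, Fintype.card_fun, ZMod.card]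
      ring
    rw [this]
    exact hlow
  have ht : ((⌊τ * n⌋₊ : ℕ) : ℝ) ≤ τ1 * n' := by
    have h1 : ((⌊τ * n⌋₊ : ℕ) : ℝ) ≤ τ * n := Nat.floor_le (by positivity)
    have h2 : τ * n ≤ τ * (n' * (1 + 1 / B)) := mul_le_mul_of_nonneg_left hupp' hτ0.le
    have h3 : τ * (n' * (1 + 1 / B)) = n' * (τ + τ / B) := by ring
    have h4 : τ / B ≤ δ := by
      rw [div_le_iff₀ hBpos]; exact hτB
    have h5 : n' * (τ + τ / B) ≤ n' * (τ + δ) :=
      mul_le_mul_of_nonneg_left (by linarith) hn'0.le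
    rw [hτ1def]
    linarith
  obtain ⟨f, hf⟩ := corrects_of_locCode hcardS ht hloc
  have hq1 : (1 : ℝ) < q := by exact_mod_cast (show 1 < q by omega)
  refine ⟨q ^ ⌊X⌋₊, f, pow_pos (by omega) _, hf, ?_⟩
  rw [Nat.cast_pow, Real.logb_pow, Real.logb_self_eq_one hq1, mul_one]
  have hfl : X < (⌊X⌋₊ : ℝ) + 1 := Nat.lt_floor_add_one X
  have hHA : R ≤ A := by
    rw [hH]
    have : 0 ≤ Bp * τ := by positivity
    linarith
  have h1 : (R - ε) * n ≤ (R - ε) * (n' * (1 + 1 / B)) :=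
    mul_le_mul_of_nonneg_left hupp' hpos
  have h2 : (R - ε) * (n' * (1 + 1 / B)) =
      n' * (R - ε) + n' * ((R - ε) / B) := by ring
  have h3 : (R - ε) / B ≤ ε / 8 := by
    rw [div_le_iff₀ hBpos]
    linarith
  have h4 : n' * ((R - ε) / B) ≤ n' * (ε / 8) := mul_le_mul_of_nonneg_left h3 hn'0.le
  have h5 : (n : ℝ) ≤ 2 * n' := by
    have h9 : (1 : ℝ) / B ≤ 1 := by
      rw [div_le_one hBpos]; exact hB1r
    have h10 : n' * (1 + 1 / B) ≤ n' * 2 := mul_le_mul_of_nonneg_left (by linarith) hn'0.le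
    linarith
  have h6 : 4 ≤ ε * n := by
    rw [div_le_iff₀ hε] at hn2
    linarith
  have h7 : ε * n ≤ ε * (2 * n') := mul_le_mul_of_nonneg_left h5 hε.le
  have h8 : n' * (R - 3 * ε / 8) = n' * (R - ε) + n' * (ε / 8) + ε * n' / 2 := by ring
  linarith

/-- Good general systems with arbitrarily small loss give the Hamming bound. -/
theorem achievable_of_goodG {q : ℕ} [NeZero q] (hq : 2 ≤ q) {τ : ℝ} (hτ0 : 0 < τ)
    (hτ1 : τ < 1 / 2)
    (h : ∀ ε : ℝ, 0 < ε → ∃ (L : ℕ) (c1 c2 : ℝ), 0 < L ∧ 0 < c1 ∧ c1 ≤ 1 ∧ 0 ≤ c2 ∧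
      c1 * τ + c2 < 1 - τ ∧ GoodG q L τ c1 c2 ε) : Achievable q τ := by
  intro ε hε
  obtain ⟨hA, hD, hH⟩ := engine_logs hq hτ0 hτ1
  have hε' : 0 < min (ε / 2) (Real.logb q (q * (1 - τ)) / 2) := lt_min (by linarith) (by linarith)
  obtain ⟨L, c1, c2, hL, hc1, hc1', hc2, hc, hG⟩ := h _ hε'
  set ε' : ℝ := min (ε / 2) (Real.logb q (q * (1 - τ)) / 2) with hε'def
  have h1 : ε' ≤ ε / 2 := min_le_left _ _
  have h2 : ε' ≤ Real.logb q (q * (1 - τ)) / 2 := min_le_right _ _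
  have h3 := engineG hq hL hτ0 hτ1 (A := Real.logb q (q * (1 - τ)) - ε')
    (D := Real.logb q (al q τ) - ε') (by linarith) (by linarith) hc1 hc1' hc2 hc
    (goodR_of_goodG hq hτ0 hτ1 hG)
  obtain ⟨N, hN⟩ := h3 (ε / 2) (by linarith)
  refine ⟨N, fun n hn => ?_⟩
  obtain ⟨M, f, hM, hf, hb⟩ := hN n hn
  refine ⟨M, f, hM, hf, le_trans (mul_le_mul_of_nonneg_right ?_ (Nat.cast_nonneg n)) hb⟩
  have e : Real.logb q (q * (1 - τ)) - ε' -
      (Real.logb q (q * (1 - τ)) - ε' - (Real.logb q (al q τ) - ε')) * τ = Hq q τ - ε' := by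
    rw [hH]; ring
  rw [e]
  linarith

/-- One law without loss gives the Hamming bound. -/
theorem achievable_of_law {q L : ℕ} [NeZero q] (hq : 2 ≤ q) (hL : 0 < L) {τ c1 c2 : ℝ}
    (hτ0 : 0 < τ) (hτ1 : τ < 1 / 2) (hc1 : 0 < c1) (hc1' : c1 ≤ 1) (hc2 : 0 ≤ c2)
    (hc : c1 * τ + c2 < 1 - τ)
    (z : Finset (Fin L) → Fin L → Fin q) (hz : ∀ V, ∀ i ∈ V, z V i ≠ 0) (W : GLaw q L)
    (hZ : ∀ E : Finset (Fin L), al q τ ^ E.card * (q * (1 - τ)) ^ (L - E.card) ≤ W.Z E)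
    (hY : ∀ E : Finset (Fin L), W.Y z E ≤ (c1 * E.card + c2 * L) * W.Z E) :
    Achievable q τ := by
  have hq1 : (1 : ℝ) < q := by
    have : 1 < q := by omega
    exact_mod_cast this
  refine achievable_of_goodG hq hτ0 hτ1 fun ε hε => ⟨L, c1, c2, hL, hc1, hc1', hc2, hc,
    goodG_single hq hτ0 hτ1 z hz W (fun E => le_trans ?_ (hZ E)) hY⟩
  have ha := al_pos hq hτ0
  have hQ := qt_pos hq hτ1
  refine mul_le_of_le_one_right (by positivity) ?_
  refine Real.rpow_le_one_of_one_le_of_nonpos hq1.le ?_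
  have : 0 ≤ ε * (L : ℝ) := by positivity
  linarith

end Pool.Agent.MPf4617e
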