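import Pool.Agent.Lib.MP_f4617e_lc_G.Cert
import Pool.Agent.Lib.MP_f4617e_lc_G.EngineG

/-!
MP_f4617e_lc, project G: rates below the Hamming bound from one law.
-/

set_option autoImplicit false

namespace Pool.Agent.MPf4617e

open Finset

theorem goodR_single {q L : ℕ} [NeZero q] (hq : 2 ≤ q) {A D c1 c2 : ℝ}
    (z : Finset (Fin L) → Fin L → Fin q) (hz : ∀ V, ∀ i ∈ V, z V i ≠ 0) (W : GLaw q L)
    (hZ : ∀ E : Finset (Fin L), (q : ℝ) ^ (A * (L - E.card) + D * E.card) ≤ W.Z E)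
    (hY : ∀ E : Finset (Fin L), W.Y z E ≤ (c1 * E.card + c2 * L) * W.Z E) :
    GoodR q L A D c1 c2 := by
  have hq0 : (0 : ℝ) < q := by
    have : 0 < q := by omega
    exact_mod_cast this
  have hZ0 : ∀ E, 0 < W.Z E := fun E => lt_of_lt_of_le (Real.rpow_pos_of_pos hq0 _) (hZ E)
  refine ⟨z, hz, 1, fun _ => W, fun B E => ⟨0, fun b => hZ0 _, ?_, ?_⟩⟩
  · have h2 : (q : ℝ) ^ (A * (B * L - ∑ b, ((E b).card : ℝ)) + D * ∑ b, ((E b).card : ℝ)) =
        ∏ b, (q : ℝ) ^ (A * (L - (E b).card) + D * (E b).card) := by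
      rw [← Real.rpow_sum_of_pos hq0]
      congr 1
      rw [Finset.sum_add_distrib, ← Finset.mul_sum, ← Finset.mul_sum, Finset.sum_sub_distrib]
      simp
    rw [h2]
    exact Finset.prod_le_prod (fun b _ => (Real.rpow_pos_of_pos hq0 _).le) fun b _ => hZ _
  · calc ∑ b, W.Y z (E b) / W.Z (E b)
        ≤ ∑ b : Fin B, (c1 * ((E b).card : ℝ) + c2 * L) :=
          Finset.sum_le_sum fun b _ => (div_le_iff₀ (hZ0 _)).2 (hY _)
      _ = c1 * ∑ b, ((E b).card : ℝ) + c2 * (B * L) := by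
        rw [Finset.sum_add_distrib, ← Finset.mul_sum]
        simp
        ring

open Classical in
/-- No excess. -/
theorem GLaw.Y_le {q L : ℕ} (W : GLaw q L) (z : Finset (Fin L) → Fin L → Fin q)
    (E : Finset (Fin L))
    (h : ∀ ω c, W.good ω c E → lvl z (W.wd ω c E) E ≤ E.card) :
    W.Y z E ≤ (1 * E.card + 0 * L) * W.Z E := by
  unfold GLaw.Y GLaw.Z
  rw [one_mul, zero_mul, add_zero, Finset.mul_sum]
  refine Finset.sum_le_sum fun ω _ => ?_
  rw [mul_left_comm]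
  refine mul_le_mul_of_nonneg_left ?_ (W.P_nonneg ω)
  rw [Finset.mul_sum]
  refine Finset.sum_le_sum fun c _ => ?_
  split_ifs with hg
  · rw [mul_one]
    exact_mod_cast h ω c hg
  · simp

/-- A good system from finite data. -/
theorem goodR_cert {q L N : ℕ} [NeZero q] [NeZero N] (hq : 2 ≤ q) {A D c1 c2 : ℝ}
    (hc1 : 0 ≤ c1) (hc2 : 0 ≤ c2) {zt lt : List ℕ} {K : List KeyData}
    {Pl : List ℝ} (hlen : Pl.length = K.length) (hP0 : ∀ p ∈ Pl, 0 ≤ p) (hP1 : Pl.sum = 1)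
    (hz : zchk q L zt lt = true) (hD : K.all (kchk q L N lt) = true)
    (hZ : ∀ m < 2 ^ L, (q : ℝ) ^ (A * (L - pc L m) + D * pc L m) ≤ dot Pl (K.map (nE m)))
    (hY : ∀ m < 2 ^ L, dot Pl (K.map (yE m)) ≤
      (c1 * pc L m + c2 * L) * dot Pl (K.map (nE m))) :
    GoodR q L A D c1 c2 := by
  have hP0' : ∀ ω : Fin K.length, 0 ≤ Pl.getD ω 0 := by
    intro ω
    have h2 : (ω : ℕ) < Pl.length := by rw [hlen]; exact ω.isLt
    rw [List.getD_eq_getElem _ _ h2]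
    exact hP0 _ (List.getElem_mem h2)
  have hP1' : ∑ ω : Fin K.length, Pl.getD ω 0 = 1 := by
    rw [sum_weights _ _ hlen, hP1]
  have hZ' := mkLaw_Z (N := N) hP0' hP1' hD
  have hY' := mkLaw_Y (N := N) hP0' hP1' hD hz
  refine goodR_single hq (zOf q L zt) (zOf_ne hz) (mkLaw q L N lt K _ hP0' hP1' hD) ?_ ?_
  · intro E
    have h2 := hZ (mc E) (mc_lt E)
    rw [pc_mc] at h2
    have h3 := hZ' E
    rw [sum_dot K (nE (mc E)) Pl hlen] at h3
    exact h2.trans h3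
  · intro E
    have h2 := hY (mc E) (mc_lt E)
    rw [pc_mc] at h2
    have h3 := hZ' E
    rw [sum_dot K (nE (mc E)) Pl hlen] at h3
    have h4 := hY' E
    rw [sum_dot K (yE (mc E)) Pl hlen] at h4
    refine h4.trans (h2.trans (mul_le_mul_of_nonneg_left h3 ?_))
    positivity

end Pool.Agent.MPf4617e
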