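import Pool.Agent.Lib.MP_f4617e_lc_G.Hash
import Pool.Agent.Lib.MP_f4617e_lc.PartSch

/-!
MP_f4617e_lc, project G: the probability of success of one random header.
-/

set_option autoImplicit false

namespace Pool.Agent.MPf4617e

open Finset Filter Topology

/-- A good general block system with weights `q ^ A` (clean positions) and `q ^ D` (errors). -/
def GoodR (q L : ℕ) [NeZero q] (A D c1 c2 : ℝ) : Prop :=
  ∃ z : Finset (Fin L) → Fin L → Fin q, (∀ V, ∀ i ∈ V, z V i ≠ 0) ∧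
    ∃ (nΛ : ℕ) (W : Fin nΛ → GLaw q L), ∀ (B : ℕ) (E : Fin B → Finset (Fin L)),
      ∃ k : Fin nΛ,
        (∀ b, 0 < (W k).Z (E b)) ∧
        (q : ℝ) ^ (A * (B * L - ∑ b, ((E b).card : ℝ)) + D * ∑ b, ((E b).card : ℝ)) ≤
          ∏ b, (W k).Z (E b) ∧
        ∑ b, (W k).Y z (E b) / (W k).Z (E b) ≤ c1 * ∑ b, ((E b).card : ℝ) + c2 * (B * L)

theorem goodR_of_goodG {q L : ℕ} [NeZero q] (hq : 2 ≤ q) {τ c1 c2 ε : ℝ} (h0 : 0 < τ)
    (h1 : τ < 1 / 2) (h : GoodG q L τ c1 c2 ε) :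
    GoodR q L (Real.logb q (q * (1 - τ)) - ε) (Real.logb q (al q τ) - ε) c1 c2 := by
  obtain ⟨z, hz, nΛ, W, hW⟩ := h
  refine ⟨z, hz, nΛ, W, fun B E => ?_⟩
  obtain ⟨k, hk1, hk2, hk3⟩ := hW B E
  refine ⟨k, hk1, le_trans (le_of_eq ?_) hk2, hk3⟩
  have hq' : (1 : ℝ) < q := by exact_mod_cast (show 1 < q by omega)
  have hq0 : (0 : ℝ) < q := by linarith
  have ha := al_pos hq h0
  have hQ := qt_pos hq h1
  have hle : ∀ b, (E b).card ≤ L := fun b => by simpa using Finset.card_le_univ (E b)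
  have hsub : ∑ b, (L - (E b).card) = B * L - ∑ b, (E b).card := by
    rw [Finset.sum_tsub_distrib _ (fun b _ => hle b)]
    simp
  have hle2 : ∑ b, (E b).card ≤ B * L := by
    calc ∑ b, (E b).card ≤ ∑ _b : Fin B, L := Finset.sum_le_sum fun b _ => hle b
      _ = B * L := by simp
  have e1 : ∏ b, (al q τ ^ (E b).card * (q * (1 - τ)) ^ (L - (E b).card)) =
      al q τ ^ (∑ b, (E b).card) * (q * (1 - τ)) ^ (B * L - ∑ b, (E b).card) := by
    rw [Finset.prod_mul_distrib, Finset.prod_pow_eq_pow_sum, Finset.prod_pow_eq_pow_sum, hsub]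
  have e2 : ∀ (x : ℝ) (n : ℕ), 0 < x → x ^ n = (q : ℝ) ^ (Real.logb q x * n) := by
    intro x n hx
    rw [Real.rpow_mul hq0.le, Real.rpow_logb hq0 hq'.ne' hx, Real.rpow_natCast]
  rw [e1, e2 _ _ ha, e2 _ _ hQ, ← Real.rpow_add hq0, ← Real.rpow_add hq0, Nat.cast_sub hle2]
  congr 1
  push_cast
  ring

/-- acceptable level -/
noncomputable def choice_M (B L : ℕ) (c1 c2 γ : ℝ) (e : ℕ) : ℝ :=
  c1 * e + c2 * (B * L) + γ * (B * L)

/-- the acceptable event -/
def choice_ev {q L B : ℕ} (z : Finset (Fin L) → Fin L → Fin q) (W : GLaw q L)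
    (M : ℝ) (E : Finset (Fin B × Fin L)) (d : Fin (B * L) → Fin q)
    (x : (Fin B → Fin W.m) × ((Fin B → Fin W.N) → (Fin (B * L) → Fin q))) : Prop :=
  ∃ c : Fin B → Fin W.N, (∀ b, W.good (x.1 b) (c b) (partsch_sl E b)) ∧
    ∑ b, (lvl z (W.wd (x.1 b) (c b) (partsch_sl E b)) (partsch_sl E b) : ℝ) ≤ M ∧ x.2 c = d

/-- probability bound -/
noncomputable def choice_p (q B L : ℕ) (A D γ : ℝ) (e : ℕ) : ℝ :=
  (q : ℝ) ^ (A * (B * L - e) + D * e) * (γ / (2 + γ)) / (2 * (q : ℝ) ^ (B * L))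

/-- weights of the headers -/
noncomputable def choice_w {q L : ℕ} (B : ℕ) (W : GLaw q L)
    (x : (Fin B → Fin W.m) × ((Fin B → Fin W.N) → (Fin (B * L) → Fin q))) : ℝ :=
  (∏ b, W.P (x.1 b)) *
    (1 / (Fintype.card ((Fin B → Fin W.N) → (Fin (B * L) → Fin q)) : ℝ))

theorem choice_w_nonneg {q L : ℕ} (B : ℕ) (W : GLaw q L)
    (x : (Fin B → Fin W.m) × ((Fin B → Fin W.N) → (Fin (B * L) → Fin q))) :
    0 ≤ choice_w B W x :=
  mul_nonneg (Finset.prod_nonneg fun b _ => W.P_nonneg _) (by positivity)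

theorem choice_w_sum {q L : ℕ} [NeZero q] (B : ℕ) (W : GLaw q L) :
    ∑ x : (Fin B → Fin W.m) × ((Fin B → Fin W.N) → (Fin (B * L) → Fin q)),
      choice_w B W x = 1 := by
  unfold choice_w
  rw [Fintype.sum_prod_type]
  simp only [Finset.sum_const, card_univ, nsmul_eq_mul]
  have hN : (Fintype.card ((Fin B → Fin W.N) → (Fin (B * L) → Fin q)) : ℝ) ≠ 0 := by
    have : 0 < Fintype.card ((Fin B → Fin W.N) → (Fin (B * L) → Fin q)) :=
      Fintype.card_pos_iff.2 ⟨fun _ _ => 0⟩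
    exact_mod_cast this.ne'
  refine (Finset.sum_congr rfl fun w _ => ?_).trans (glaw_one W B)
  field_simp

open Classical in
/-- the number of sequences of cells served is at most the number of words -/
theorem choice_card {q L B : ℕ} [NeZero q] (W : GLaw q L) (E : Fin B → Finset (Fin L))
    (w : Fin B → Fin W.m) :
    (univ.filter fun c : Fin B → Fin W.N => ∀ b, W.good (w b) (c b) (E b)).card ≤
      Fintype.card (Fin (B * L) → Fin q) := by
  have h1 : Fintype.card (Fin (B * L) → Fin q) = Fintype.card (Fin B → Fin L → Fin q) := by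
    simp only [Fintype.card_fun, Fintype.card_fin]
    rw [← pow_mul, mul_comm]
  rw [h1, ← card_univ]
  refine Finset.card_le_card_of_injOn (fun c b => W.wd (w b) (c b) (E b))
    (fun c _ => mem_coe.2 (mem_univ _)) ?_
  intro c hc c' hc' hcc
  simp only [coe_filter, mem_univ, true_and, Set.mem_ofPred_eq] at hc hc'
  funext b
  have h2 : W.wd (w b) (c b) (E b) = W.wd (w b) (c' b) (E b) := congrFun hcc b
  rw [← W.good_cell _ _ _ (hc b) (W.wd (w b) (c b) (E b)) fun _ _ => rfl,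
    ← W.good_cell _ _ _ (hc' b) (W.wd (w b) (c b) (E b)) fun i _ => by rw [h2]]

open Classical in
theorem choice {q L : ℕ} [NeZero q] (hL : 0 < L) {A D c1 c2 : ℝ}
    (hc1 : 0 ≤ c1) (hc1' : c1 ≤ 1) (hc2 : 0 ≤ c2) (hc2' : c2 ≤ 1) {γ : ℝ} (hγ : 0 < γ)
    (z : Finset (Fin L) → Fin L → Fin q) (W : GLaw q L) {B : ℕ} (hB : 0 < B)
    (E : Finset (Fin B × Fin L)) (hZ : ∀ b, 0 < W.Z (partsch_sl E b))
    (hP : (q : ℝ) ^ (A * (B * L - ∑ b, ((partsch_sl E b).card : ℝ)) +
      D * ∑ b, ((partsch_sl E b).card : ℝ)) ≤ ∏ b, W.Z (partsch_sl E b))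
    (hY : ∑ b, W.Y z (partsch_sl E b) / W.Z (partsch_sl E b) ≤
      c1 * ∑ b, ((partsch_sl E b).card : ℝ) + c2 * (B * L)) (d : Fin (B * L) → Fin q) :
    choice_p q B L A D γ E.card ≤
      ∑ x : (Fin B → Fin W.m) × ((Fin B → Fin W.N) → (Fin (B * L) → Fin q)),
        choice_w B W x *
          (if choice_ev z W (choice_M B L c1 c2 γ E.card) E d x then 1 else 0) := by
  have hn : (0 : ℝ) < B * L := by
    have : (0 : ℝ) < B := by exact_mod_cast hB
    have : (0 : ℝ) < L := by exact_mod_cast hL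
    positivity
  have hsum : ∑ b, ((partsch_sl E b).card : ℝ) = E.card := by
    rw [← partsch_sl_card E]; push_cast; rfl
  rw [hsum] at hP hY
  set μ : ℝ := c1 * E.card + c2 * (B * L) with hμ
  have hY0 : 0 ≤ ∑ b, W.Y z (partsch_sl E b) / W.Z (partsch_sl E b) :=
    Finset.sum_nonneg fun b _ => div_nonneg (W.Y_nonneg z _) (W.Z_nonneg _)
  have hμ0 : 0 ≤ μ := hY0.trans hY
  set M := choice_M B L c1 c2 γ E.card with hMdef
  have hM : M = μ + γ * (B * L) := rfl
  have hM0 : 0 < M := by rw [hM]; positivity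
  have hμ1 : μ ≤ 2 * (B * L) := by
    have h1 : c1 * (E.card : ℝ) ≤ 1 * (B * L) := by
      refine mul_le_mul hc1' ?_ (by positivity) zero_le_one
      exact_mod_cast partsch_card_le E
    have h2 : c2 * ((B : ℝ) * L) ≤ 1 * (B * L) := mul_le_mul_of_nonneg_right hc2' hn.le
    rw [hμ]; linarith
  have hP0 : ∀ w : Fin B → Fin W.m, 0 ≤ ∏ b, W.P (w b) :=
    fun w => Finset.prod_nonneg fun b _ => W.P_nonneg _
  -- the sets of good sequences
  let G : (Fin B → Fin W.m) → Finset (Fin B → Fin W.N) := fun w =>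
    univ.filter fun c => ∀ b, W.good (w b) (c b) (partsch_sl E b)
  let lv : (Fin B → Fin W.m) → (Fin B → Fin W.N) → ℝ := fun w c =>
    ∑ b, (lvl z (W.wd (w b) (c b) (partsch_sl E b)) (partsch_sl E b) : ℝ)
  have hlv : ∀ w c, 0 ≤ lv w c := fun w c => Finset.sum_nonneg fun b _ => Nat.cast_nonneg _
  let C : (Fin B → Fin W.m) → Finset (Fin B → Fin W.N) := fun w => (G w).filter fun c => lv w c ≤ M
  have hCG : ∀ w, ((G w).card : ℝ) ≤ (C w).card + (∑ c ∈ G w, lv w c) / M := by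
    intro w
    have h1 : ((C w).card : ℝ) = ∑ c ∈ G w, if lv w c ≤ M then (1 : ℝ) else 0 := by
      rw [Finset.sum_boole]
    rw [h1, Finset.sum_div, ← Finset.sum_add_distrib, Finset.card_eq_sum_ones, Nat.cast_sum]
    refine Finset.sum_le_sum fun c _ => ?_
    rw [Nat.cast_one]
    split_ifs with h
    · have := div_nonneg (hlv w c) hM0.le
      linarith
    · push Not at h
      rw [zero_add, le_div_iff₀ hM0, one_mul]
      exact h.le
  have hZprod : 0 ≤ ∏ b, W.Z (partsch_sl E b) := Finset.prod_nonneg fun b _ => (hZ b).le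
  have h1 := glaw_Z W (partsch_sl E)
  have h2 := glaw_Y W z (partsch_sl E) hZ
  have h3 : (∏ b, W.Z (partsch_sl E b)) * (1 - μ / M) ≤
      ∑ w : Fin B → Fin W.m, (∏ b, W.P (w b)) * ((C w).card : ℝ) := by
    have h4 : ∏ b, W.Z (partsch_sl E b) ≤ ∑ w : Fin B → Fin W.m, (∏ b, W.P (w b)) *
        ((C w).card : ℝ) + (∑ w : Fin B → Fin W.m, (∏ b, W.P (w b)) *
          ∑ c ∈ G w, lv w c) / M := by
      rw [← h1, Finset.sum_div, ← Finset.sum_add_distrib]
      refine Finset.sum_le_sum fun w _ => ?_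
      refine (mul_le_mul_of_nonneg_left (hCG w) (hP0 w)).trans (le_of_eq ?_)
      ring
    have h5 : ∑ w : Fin B → Fin W.m, (∏ b, W.P (w b)) * ∑ c ∈ G w, lv w c ≤
        (∏ b, W.Z (partsch_sl E b)) * μ := by
      refine h2.le.trans ?_
      exact mul_le_mul_of_nonneg_left hY hZprod
    have h6 := div_le_div_of_nonneg_right h5 hM0.le
    have h8 : (∏ b, W.Z (partsch_sl E b)) * (1 - μ / M) =
      ∏ b, W.Z (partsch_sl E b) - (∏ b, W.Z (partsch_sl E b)) * μ / M := by ring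
    rw [h8]
    linarith
  have hQ : ((Fintype.card (Fin (B * L) → Fin q) : ℕ) : ℝ) = (q : ℝ) ^ (B * L) := by simp
  have hqp : (0 : ℝ) < (q : ℝ) ^ (B * L) := by
    have : 0 < q := Nat.pos_of_ne_zero (NeZero.ne q)
    positivity
  -- random functions
  have h9 : ∀ w : Fin B → Fin W.m, ((C w).card : ℝ) / (2 * (q : ℝ) ^ (B * L)) ≤
      ∑ g : (Fin B → Fin W.N) → (Fin (B * L) → Fin q),
        (1 / (Fintype.card ((Fin B → Fin W.N) → (Fin (B * L) → Fin q)) : ℝ)) *
        (if choice_ev z W M E d (w, g) then 1 else 0) := by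
    intro w
    have h := hash (C w) d ((Finset.card_le_card (Finset.filter_subset _ _)).trans
      (choice_card W (partsch_sl E) w))
    rw [hQ] at h
    refine h.trans (le_of_eq ?_)
    refine Finset.sum_congr rfl fun g _ => ?_
    congr 1
    refine if_congr ?_ rfl rfl
    constructor
    · rintro ⟨c, hc, hg⟩
      rw [mem_filter, mem_filter] at hc
      exact ⟨c, hc.1.2, hc.2, hg⟩
    · rintro ⟨c, hc1, hc2, hg⟩
      exact ⟨c, mem_filter.2 ⟨mem_filter.2 ⟨mem_univ _, hc1⟩, hc2⟩, hg⟩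
  have h10 : (∑ w : Fin B → Fin W.m, (∏ b, W.P (w b)) * ((C w).card : ℝ)) /
      (2 * (q : ℝ) ^ (B * L)) ≤
      ∑ x : (Fin B → Fin W.m) × ((Fin B → Fin W.N) → (Fin (B * L) → Fin q)),
        choice_w B W x * (if choice_ev z W M E d x then 1 else 0) := by
    rw [Fintype.sum_prod_type, Finset.sum_div]
    refine Finset.sum_le_sum fun w _ => ?_
    have h11 := mul_le_mul_of_nonneg_left (h9 w) (hP0 w)
    rw [mul_div_assoc]
    refine h11.trans (le_of_eq ?_)
    rw [Finset.mul_sum]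
    refine Finset.sum_congr rfl fun g _ => ?_
    unfold choice_w
    ring
  refine le_trans ?_ h10
  unfold choice_p
  refine div_le_div_of_nonneg_right ?_ (by positivity)
  refine le_trans ?_ h3
  have h12 : γ / (2 + γ) ≤ 1 - μ / M := by
    rw [hM]
    have h13 : 1 - μ / (μ + γ * (B * L)) = γ * (B * L) / (μ + γ * (B * L)) := by
      have : μ + γ * (B * L) ≠ 0 := by positivity
      field_simp
      ring
    rw [h13, div_le_div_iff₀ (by positivity) (by positivity)]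
    nlinarith [mul_le_mul_of_nonneg_left hμ1 hγ.le]
  exact mul_le_mul hP h12 (by positivity) hZprod

end Pool.Agent.MPf4617e
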