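import Pool.Agent.Lib.MP_f4617e_lc.SysDefs

/-!
MP_f4617e_lc, project G: general letters. Definitions.

A general law is a finite random key `ω`; every key gives a partition of the set of all words of
length `L` in cells. For an error set `E` some of the cells are served: there is a word such that
all words agreeing with it off `E` lie in the cell.
-/

set_option autoImplicit false

namespace Pool.Agent.MPf4617e

open Finset

/-- A general law on blocks of length `L`. -/
structure GLaw (q L : ℕ) where
  /-- number of keys -/
  m : ℕ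
  /-- number of cells (some may be empty) -/
  N : ℕ
  /-- weights of the keys -/
  P : Fin m → ℝ
  /-- the partition of the key -/
  cell : Fin m → (Fin L → Fin q) → Fin N
  /-- the served pairs -/
  good : Fin m → Fin N → Finset (Fin L) → Prop
  /-- the word sent -/
  wd : Fin m → Fin N → Finset (Fin L) → Fin L → Fin q
  P_nonneg : ∀ ω, 0 ≤ P ω
  P_sum : ∑ ω, P ω = 1
  good_cell : ∀ ω c E, good ω c E → ∀ y : Fin L → Fin q,
    (∀ i, i ∉ E → y i = wd ω c E i) → cell ω y = c

/-- the largest level of a word that agrees with `x` off `E` -/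
def lvl {q L : ℕ} (z : Finset (Fin L) → Fin L → Fin q) (x : Fin L → Fin q)
    (E : Finset (Fin L)) : ℕ :=
  (univ.filter fun y : Fin L → Fin q => ∀ i, i ∉ E → y i = x i).sup (levOf z)

open Classical in
/-- expected number of cells served for the error set `E` -/
noncomputable def GLaw.Z {q L : ℕ} (W : GLaw q L) (E : Finset (Fin L)) : ℝ :=
  ∑ ω, W.P ω * ∑ c, if W.good ω c E then 1 else 0

open Classical in
/-- expected total level of the cells served for the error set `E` -/
noncomputable def GLaw.Y {q L : ℕ} (W : GLaw q L) (z : Finset (Fin L) → Fin L → Fin q)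
    (E : Finset (Fin L)) : ℝ :=
  ∑ ω, W.P ω * ∑ c, if W.good ω c E then (lvl z (W.wd ω c E) E : ℝ) else 0

/-- A good general block system at `(q, τ)` with loss `ε` per position: the special words never use
the symbol `0`; for every sequence of error sets of blocks one of finitely many laws has nearly the
full weight and a total level at most `c1 * (number of errors) + c2 * (length)` on average. -/
def GoodG (q L : ℕ) [NeZero q] (τ c1 c2 ε : ℝ) : Prop :=
  ∃ z : Finset (Fin L) → Fin L → Fin q, (∀ V, ∀ i ∈ V, z V i ≠ 0) ∧
    ∃ (nΛ : ℕ) (W : Fin nΛ → GLaw q L), ∀ (B : ℕ) (E : Fin B → Finset (Fin L)),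
      ∃ k : Fin nΛ,
        (∀ b, 0 < (W k).Z (E b)) ∧
        (∏ b, (al q τ ^ (E b).card * (q * (1 - τ)) ^ (L - (E b).card))) *
          (q : ℝ) ^ (-(ε * (B * L))) ≤ ∏ b, (W k).Z (E b) ∧
        ∑ b, (W k).Y z (E b) / (W k).Z (E b) ≤ c1 * ∑ b, ((E b).card : ℝ) + c2 * (B * L)

end Pool.Agent.MPf4617e
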