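import Pool.Agent.Lib.MP_f4617e_lc_G.Seg

/-!
MP_f4617e_lc, project G: a faster check of the keys (the words of a cube are enumerated and the
tables are read from numbers).
-/

set_option autoImplicit false

namespace Pool.Agent.MPf4617e

/-- entry `y` of a table given by rows of `w` digits in base `B` -/
def look (B w : ℕ) (rows : List ℕ) (y : ℕ) : ℕ := rows.getD (y / w) 0 / B ^ (y % w) % B

/-- the first `n` values of a function -/
def tabOf (n : ℕ) (f : ℕ → ℕ) : List ℕ := (List.range n).map f

theorem tabOf_getD {n y : ℕ} {f : ℕ → ℕ} (hy : y < n) : (tabOf n f).getD y 0 = f y := by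
  unfold tabOf
  rw [List.getD_eq_getElem _ _ (by simpa using hy)]
  simp

/-- `f` holds for all words with `i` more digits above `y` which agree with `w` off `E` -/
def cubeAll (q w E : ℕ) (f : ℕ → Bool) : ℕ → ℕ → Bool
  | 0, y => f y
  | i + 1, y => if dig 2 E i == 1 then (List.range q).all fun a => cubeAll q w E f i (y + a * q ^ i)
      else cubeAll q w E f i (y + dig q w i * q ^ i)

theorem dig_mod {q y i j : ℕ} (h : j < i) : dig q (y % q ^ i) j = dig q y j := by
  unfold dig
  obtain ⟨k, rfl⟩ := Nat.exists_eq_add_of_lt h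
  have h1 : q ^ (j + k + 1) = q ^ j * (q * q ^ k) := by ring
  rw [h1, Nat.mod_mul_right_div_self, Nat.mod_mul_right_mod]

theorem cubeAll_spec {q w E : ℕ} {f : ℕ → Bool} (i : ℕ) : ∀ y : ℕ, cubeAll q w E f i y = true →
    ∀ x < q ^ i, (∀ j < i, (dig 2 E j == 1 || dig q x j == dig q w j) = true) →
      f (y + x) = true := by
  induction i with
  | zero =>
    intro y h x hx _
    have : x = 0 := by simpa using hx
    rw [this, add_zero]
    exact h
  | succ i ih =>
    intro y h x hx hj
    have hq : 0 < q := by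
      rcases Nat.eq_zero_or_pos q with h0 | h0
      · rw [h0, zero_pow (Nat.succ_ne_zero i)] at hx
        omega
      · exact h0
    have hx2 : x / q ^ i < q := by
      rw [Nat.div_lt_iff_lt_mul (pow_pos hq i)]
      rw [pow_succ] at hx
      rwa [mul_comm]
    have hd : dig q x i = x / q ^ i := Nat.mod_eq_of_lt hx2
    have hx3 : x % q ^ i < q ^ i := Nat.mod_lt _ (pow_pos hq i)
    have hj2 : ∀ j < i, (dig 2 E j == 1 || dig q (x % q ^ i) j == dig q w j) = true := by
      intro j hji
      rw [dig_mod hji]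
      exact hj j (by omega)
    have hsum : y + x / q ^ i * q ^ i + x % q ^ i = y + x := by
      rw [add_assoc, Nat.div_add_mod']
    unfold cubeAll at h
    split_ifs at h with h1
    · rw [List.all_eq_true] at h
      have h2 := ih _ (h (x / q ^ i) (List.mem_range.2 hx2)) _ hx3 hj2
      rwa [hsum] at h2
    · have h3 := hj i (by omega)
      rw [Bool.or_eq_true] at h3
      rcases h3 with h3 | h3
      · exact absurd h3 h1
      · rw [beq_iff_eq, hd] at h3
        rw [← h3] at h
        have h2 := ih _ h _ hx3 hj2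
        rwa [hsum] at h2

/-- the first components increase and are at least `m` -/
def incr : ℕ → List (ℕ × ℕ × ℕ) → Bool
  | _, [] => true
  | m, e :: l => decide (m ≤ e.1) && incr (e.1 + 1) l

theorem incr_spec (l : List (ℕ × ℕ × ℕ)) : ∀ m, incr m l = true →
    (l.map Prod.fst).Nodup ∧ ∀ e ∈ l, m ≤ e.1 := by
  induction l with
  | nil =>
    intro m _
    simp
  | cons e l ih =>
    intro m h
    unfold incr at h
    rw [Bool.and_eq_true, decide_eq_true_eq] at h
    obtain ⟨h1, h2⟩ := ih _ h.2
    refine ⟨?_, ?_⟩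
    · rw [List.map_cons, List.nodup_cons]
      refine ⟨?_, h1⟩
      intro h3
      obtain ⟨e', he', h4⟩ := List.mem_map.1 h3
      have := h2 e' he'
      omega
    · intro e' he'
      rcases List.mem_cons.1 he' with rfl | h3
      · exact h.1
      · have := h2 e' h3
        have := h.1
        omega

/-- the fast check of a key with cells `f` and levels `g` -/
def kchkF (q L N : ℕ) (g f : ℕ → ℕ) (sv : List (List (ℕ × ℕ × ℕ))) : Bool :=
  (List.range (2 ^ L)).all fun E =>
    incr 0 (sv.getD E []) &&
    (sv.getD E []).all fun e => decide (e.1 < N) &&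
      cubeAll q e.2.1 E (fun y => f y == e.1 && decide (g y ≤ e.2.2)) L 0

theorem kchk_of_fast {q L N : ℕ} {g f : ℕ → ℕ} {sv : List (List (ℕ × ℕ × ℕ))}
    (h : kchkF q L N g f sv = true) :
    kchk q L N (tabOf (q ^ L) g) ⟨tabOf (q ^ L) f, sv⟩ = true := by
  unfold kchkF at h
  unfold kchk
  rw [List.all_eq_true] at h ⊢
  intro E hE
  have h1 := h E hE
  rw [Bool.and_eq_true, List.all_eq_true] at h1
  rw [Bool.and_eq_true, decide_eq_true_eq, List.all_eq_true]
  refine ⟨(incr_spec _ _ h1.1).1, fun e he => ?_⟩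
  have h2 := h1.2 e he
  rw [Bool.and_eq_true] at h2 ⊢
  refine ⟨h2.1, ?_⟩
  rw [List.all_eq_true]
  intro y hy
  rw [List.mem_range] at hy
  by_cases ha : agr q L e.2.1 y E = true
  · have h3 := cubeAll_spec L 0 h2.2 y hy (by
      intro j hj
      unfold agr at ha
      rw [List.all_eq_true] at ha
      exact ha j (List.mem_range.2 hj))
    rw [zero_add] at h3
    rw [ha]
    simp only [tabOf_getD hy]
    rw [h3]
    rfl
  · rw [Bool.not_eq_true] at ha
    rw [ha]
    rfl

/-- the fast check of the special words -/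
def zchkF (q L : ℕ) (zt : List ℕ) (g : ℕ → ℕ) : Bool :=
  (List.range (2 ^ L)).all fun V =>
    ((List.range L).all fun i => dig 2 V i == 0 || dig q (zt.getD V 0) i != 0) &&
    (List.range (q ^ L)).all fun y => !car q L (zt.getD V 0) y V || decide (pc L V ≤ g y)

theorem zchk_of_fast {q L : ℕ} {zt : List ℕ} {g : ℕ → ℕ} (h : zchkF q L zt g = true) :
    zchk q L zt (tabOf (q ^ L) g) = true := by
  unfold zchkF at h
  unfold zchk
  rw [List.all_eq_true] at h ⊢
  intro V hV
  have h1 := h V hV
  rw [Bool.and_eq_true] at h1 ⊢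
  refine ⟨h1.1, ?_⟩
  have h2 := h1.2
  rw [List.all_eq_true] at h2 ⊢
  intro y hy
  have h3 := h2 y hy
  rw [List.mem_range] at hy
  rwa [tabOf_getD hy]

end Pool.Agent.MPf4617e
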