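import Pool.Agent.Lib.MP_f4617e_lc_G.Single
import Pool.Agent.Lib.MP_f4617e_lc.Cover

/-!
MP_f4617e_lc, project G: random functions, product formulas.
-/

set_option autoImplicit false

namespace Pool.Agent.MPf4617e

open Finset Filter Topology

theorem hash_exp {x : ℝ} (h0 : 0 ≤ x) (h1 : x ≤ 1) : Real.exp (-x) ≤ 1 - x / 2 := by
  have h2 : 0 < 1 + x := by linarith
  have h3 : 1 + x ≤ Real.exp x := by linarith [Real.add_one_le_exp x]
  have h4 : Real.exp (-x) ≤ 1 / (1 + x) := by
    rw [Real.exp_neg, ← one_div]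
    exact one_div_le_one_div_of_le h2 h3
  refine h4.trans ?_
  rw [div_le_iff₀ h2]
  nlinarith

/-- A random function takes the value `d` somewhere on `C` with probability at least
`|C| / (2 * |β|)`. -/
theorem hash {α β : Type} [Fintype α] [Fintype β] [DecidableEq α] [DecidableEq β] (C : Finset α)
    (d : β) (hC : C.card ≤ Fintype.card β) :
    (C.card : ℝ) / (2 * Fintype.card β) ≤
      ∑ _g : α → β, (1 / (Fintype.card (α → β) : ℝ)) * (if ∃ c ∈ C, _g c = d then 1 else 0) := by
  have hβ : 0 < Fintype.card β := Fintype.card_pos_iff.2 ⟨d⟩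
  have hβ' : (0 : ℝ) < Fintype.card β := by exact_mod_cast hβ
  have hβ1 : (1 : ℝ) ≤ Fintype.card β := by exact_mod_cast hβ
  set Q : ℝ := (Fintype.card β : ℝ) with hQ
  -- functions without a hit
  have h1 : (univ.filter fun g : α → β => ¬ ∃ c ∈ C, g c = d) =
      Fintype.piFinset fun a => if a ∈ C then univ.erase d else (univ : Finset β) := by
    ext g
    simp only [mem_filter, mem_univ, true_and, Fintype.mem_piFinset, not_exists, not_and]
    constructor
    · intro h a
      split_ifs with ha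
      · exact mem_erase.2 ⟨h a ha, mem_univ _⟩
      · exact mem_univ _
    · intro h c hc
      have := h c
      rw [if_pos hc] at this
      exact (mem_erase.1 this).1
  have h2 : ((univ.filter fun g : α → β => ¬ ∃ c ∈ C, g c = d).card : ℝ) =
      Fintype.card (α → β) * (1 - 1 / Q) ^ C.card := by
    rw [h1, Fintype.card_piFinset, Fintype.card_fun, Nat.cast_prod, Nat.cast_pow, ← hQ]
    have h3 : ∀ a : α, (((if a ∈ C then univ.erase d else (univ : Finset β)).card : ℕ) : ℝ) =
        Q * (if a ∈ C then (1 - 1 / Q) else 1) := by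
      intro a
      split_ifs
      · rw [card_erase_of_mem (mem_univ d), card_univ, Nat.cast_sub hβ, Nat.cast_one, ← hQ]
        field_simp
      · rw [card_univ, mul_one, ← hQ]
    rw [Finset.prod_congr rfl fun a _ => h3 a, Finset.prod_mul_distrib, Finset.prod_const,
      card_univ, Finset.prod_ite, Finset.prod_const_one, mul_one, Finset.prod_const]
    congr 2
    congr 1
    ext a
    simp
  have hN : (0 : ℝ) < Fintype.card (α → β) := by
    have : 0 < Fintype.card (α → β) := Fintype.card_pos_iff.2 ⟨fun _ => d⟩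
    exact_mod_cast this
  have h4 : ((univ.filter fun g : α → β => ∃ c ∈ C, g c = d).card : ℝ) +
      ((univ.filter fun g : α → β => ¬ ∃ c ∈ C, g c = d).card : ℝ) =
      Fintype.card (α → β) := by
    have := Finset.card_filter_add_card_filter_not (s := (univ : Finset (α → β)))
      (fun g => ∃ c ∈ C, g c = d)
    rw [card_univ] at this
    exact_mod_cast this
  have h5 : ∑ _g : α → β, (1 / (Fintype.card (α → β) : ℝ)) *
      (if ∃ c ∈ C, _g c = d then 1 else 0) = 1 - (1 - 1 / Q) ^ C.card := by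
    rw [← Finset.mul_sum, Finset.sum_boole]
    rw [h2] at h4
    have h6 : ((univ.filter fun g : α → β => ∃ c ∈ C, g c = d).card : ℝ) =
        Fintype.card (α → β) * (1 - (1 - 1 / Q) ^ C.card) := by linarith
    rw [h6]
    field_simp
  rw [h5]
  have hx1 : (C.card : ℝ) / Q ≤ 1 := by
    rw [div_le_one hβ']
    have hC2 : (C.card : ℝ) ≤ (Fintype.card β : ℝ) := by exact_mod_cast hC
    exact hC2
  have hx0 : 0 ≤ (C.card : ℝ) / Q := by positivity
  have h7 : (1 - 1 / Q) ^ C.card ≤ Real.exp (-((C.card : ℝ) / Q)) := by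
    have h8 : 1 - 1 / Q ≤ Real.exp (-(1 / Q)) := by
      have := Real.add_one_le_exp (-(1 / Q))
      linarith
    have h9 : 0 ≤ 1 - 1 / Q := by
      have : 1 / Q ≤ 1 := by rw [div_le_one hβ']; exact hβ1
      linarith
    calc (1 - 1 / Q) ^ C.card ≤ Real.exp (-(1 / Q)) ^ C.card := pow_le_pow_left₀ h9 h8 _
      _ = Real.exp (-((C.card : ℝ) / Q)) := by
        rw [← Real.exp_nat_mul]
        congr 1
        ring
  have h10 := hash_exp hx0 hx1
  have h11 : (C.card : ℝ) / (2 * Q) = (C.card : ℝ) / Q / 2 := by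
    rw [div_div, mul_comm Q 2]
  rw [h11]
  linarith

/-- sums over keys and cells of several blocks -/
theorem glaw_prod {q L : ℕ} (W : GLaw q L) (B : ℕ) (f : Fin B → Fin W.m → Fin W.N → ℝ) :
    ∑ w : Fin B → Fin W.m, (∏ b, W.P (w b)) * ∑ c : Fin B → Fin W.N, ∏ b, f b (w b) (c b) =
      ∏ b, ∑ ω, W.P ω * ∑ c, f b ω c := by
  rw [Finset.prod_univ_sum, Fintype.piFinset_univ]
  refine Finset.sum_congr rfl fun w _ => ?_
  rw [Finset.prod_mul_distrib, Finset.prod_univ_sum, Fintype.piFinset_univ]

theorem glaw_one {q L : ℕ} (W : GLaw q L) (B : ℕ) :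
    ∑ w : Fin B → Fin W.m, (∏ b, W.P (w b)) = 1 := by
  have := Finset.prod_univ_sum (fun _ : Fin B => (univ : Finset (Fin W.m))) (fun _ ω => W.P ω)
  rw [Fintype.piFinset_univ] at this
  rw [← this]
  simp [W.P_sum]

open Classical in
theorem GLaw.Z_nonneg {q L : ℕ} (W : GLaw q L) (E : Finset (Fin L)) : 0 ≤ W.Z E :=
  Finset.sum_nonneg fun ω _ => mul_nonneg (W.P_nonneg ω)
    (Finset.sum_nonneg fun c _ => by split_ifs <;> norm_num)

open Classical in
theorem GLaw.Y_nonneg {q L : ℕ} (W : GLaw q L) (z : Finset (Fin L) → Fin L → Fin q)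
    (E : Finset (Fin L)) : 0 ≤ W.Y z E :=
  Finset.sum_nonneg fun ω _ => mul_nonneg (W.P_nonneg ω)
    (Finset.sum_nonneg fun c _ => by split_ifs <;> positivity)

open Classical in
/-- the weight of the sequences of cells served -/
theorem glaw_Z {q L B : ℕ} (W : GLaw q L) (E : Fin B → Finset (Fin L)) :
    ∑ w : Fin B → Fin W.m, (∏ b, W.P (w b)) *
      ((univ.filter fun c : Fin B → Fin W.N => ∀ b, W.good (w b) (c b) (E b)).card : ℝ) =
      ∏ b, W.Z (E b) := by
  have h := glaw_prod W B fun b ω c => if W.good ω c (E b) then (1 : ℝ) else 0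
  unfold GLaw.Z
  rw [← h]
  refine Finset.sum_congr rfl fun w _ => ?_
  congr 1
  rw [← Finset.sum_boole]
  refine Finset.sum_congr rfl fun c _ => ?_
  by_cases h1 : ∀ b, W.good (w b) (c b) (E b)
  · rw [if_pos h1, Finset.prod_eq_one]
    intro b _
    rw [if_pos (h1 b)]
  · rw [if_neg h1]
    push Not at h1
    obtain ⟨b, hb⟩ := h1
    symm
    refine Finset.prod_eq_zero (mem_univ b) ?_
    rw [if_neg hb]

open Classical in
/-- the total level of the sequences of cells served -/
theorem glaw_Y {q L B : ℕ} (W : GLaw q L) (z : Finset (Fin L) → Fin L → Fin q)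
    (E : Fin B → Finset (Fin L)) (hZ : ∀ b, 0 < W.Z (E b)) :
    ∑ w : Fin B → Fin W.m, (∏ b, W.P (w b)) *
      ∑ c ∈ univ.filter fun c : Fin B → Fin W.N => ∀ b, W.good (w b) (c b) (E b),
        ∑ b, (lvl z (W.wd (w b) (c b) (E b)) (E b) : ℝ) =
      (∏ b, W.Z (E b)) * ∑ b, W.Y z (E b) / W.Z (E b) := by
  have key : ∀ b0 : Fin B, ∑ w : Fin B → Fin W.m, (∏ b, W.P (w b)) *
      ∑ c ∈ univ.filter fun c : Fin B → Fin W.N => ∀ b, W.good (w b) (c b) (E b),
        (lvl z (W.wd (w b0) (c b0) (E b0)) (E b0) : ℝ) =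
      (∏ b, W.Z (E b)) * (W.Y z (E b0) / W.Z (E b0)) := by
    intro b0
    have h := glaw_prod W B fun b ω c => if b = b0 then
      (if W.good ω c (E b0) then (lvl z (W.wd ω c (E b0)) (E b0) : ℝ) else 0)
        else (if W.good ω c (E b) then (1 : ℝ) else 0)
    have h3 : ∏ b, ∑ ω, W.P ω * ∑ c, (if b = b0 then
        (if W.good ω c (E b0) then (lvl z (W.wd ω c (E b0)) (E b0) : ℝ) else 0)
          else (if W.good ω c (E b) then (1 : ℝ) else 0)) =
        (∏ b, W.Z (E b)) * (W.Y z (E b0) / W.Z (E b0)) := by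
      rw [← Finset.mul_prod_erase univ _ (mem_univ b0),
        ← Finset.mul_prod_erase univ (fun b => W.Z (E b)) (mem_univ b0)]
      have h4 : ∏ b ∈ univ.erase b0, ∑ ω, W.P ω * ∑ c, (if b = b0 then
          (if W.good ω c (E b0) then (lvl z (W.wd ω c (E b0)) (E b0) : ℝ) else 0)
            else (if W.good ω c (E b) then (1 : ℝ) else 0)) =
          ∏ b ∈ univ.erase b0, W.Z (E b) := by
        refine Finset.prod_congr rfl fun b hb => ?_
        unfold GLaw.Z
        simp only [if_neg (Finset.ne_of_mem_erase hb)]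
      rw [h4]
      have h5 : ∑ ω, W.P ω * ∑ c, (if b0 = b0 then
          (if W.good ω c (E b0) then (lvl z (W.wd ω c (E b0)) (E b0) : ℝ) else 0)
            else (if W.good ω c (E b0) then (1 : ℝ) else 0)) = W.Y z (E b0) := by
        unfold GLaw.Y
        simp only [if_true]
      rw [h5]
      have := (hZ b0).ne'
      field_simp
    rw [← h3, ← h]
    refine Finset.sum_congr rfl fun w _ => ?_
    congr 1
    rw [Finset.sum_filter]
    refine Finset.sum_congr rfl fun c _ => ?_
    by_cases h1 : ∀ b, W.good (w b) (c b) (E b)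
    · rw [if_pos h1, ← Finset.mul_prod_erase univ _ (mem_univ b0), if_pos rfl, if_pos (h1 b0),
        Finset.prod_eq_one, mul_one]
      intro b hb
      rw [if_neg (Finset.ne_of_mem_erase hb), if_pos (h1 b)]
    · rw [if_neg h1]
      push Not at h1
      obtain ⟨b, hb⟩ := h1
      symm
      refine Finset.prod_eq_zero (mem_univ b) ?_
      by_cases hbb : b = b0
      · subst hbb
        rw [if_pos rfl, if_neg hb]
      · rw [if_neg hbb, if_neg hb]
  rw [Finset.mul_sum, ← Finset.sum_congr rfl fun b _ => key b, Finset.sum_comm]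
  refine Finset.sum_congr rfl fun w _ => ?_
  rw [← Finset.mul_sum, Finset.sum_comm]

end Pool.Agent.MPf4617e
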