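import Pool.Agent.Lib.MP_f4617e_lc_G.CertR

/-!
MP_f4617e_lc, project G: blocks of length two, at least four symbols.

The special words are `1` on a set with one position and `2`, `2` on both positions. Keys: one
cell; the lines `y 0 = a` (`a ≠ 2`) and points; the lines `y 1 = b` (`b ≠ 2`) and points; the cross
`y 0 = 1` or `y 1 = 1` and points.
-/

set_option autoImplicit false

namespace Pool.Agent.MPf4617e

open Finset

open Classical in
/-- general laws from arbitrary finite types -/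
noncomputable def mkG {q L : ℕ} (K C : Type) [Fintype K] [Fintype C] (P : K → ℝ)
    (cell : K → (Fin L → Fin q) → C) (good : K → C → Finset (Fin L) → Prop)
    (wd : C → Fin L → Fin q) (h0 : ∀ k, 0 ≤ P k) (h1 : ∑ k, P k = 1)
    (hc : ∀ k c E, good k c E → ∀ y : Fin L → Fin q, (∀ i, i ∉ E → y i = wd c i) →
      cell k y = c) : GLaw q L where
  m := Fintype.card K
  N := Fintype.card C
  P k := P ((Fintype.equivFin K).symm k)
  cell k y := Fintype.equivFin C (cell ((Fintype.equivFin K).symm k) y)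
  good k c E := good ((Fintype.equivFin K).symm k) ((Fintype.equivFin C).symm c) E
  wd _ c _ := wd ((Fintype.equivFin C).symm c)
  P_nonneg _ := h0 _
  P_sum := by
    rw [← h1]
    exact Equiv.sum_comp (Fintype.equivFin K).symm P
  good_cell := by
    intro k c E hg y hy
    rw [hc _ _ _ hg y hy, Equiv.apply_symm_apply]

open Classical in
theorem mkG_Z {q L : ℕ} {K C : Type} [Fintype K] [Fintype C] {P : K → ℝ}
    {cell : K → (Fin L → Fin q) → C} {good : K → C → Finset (Fin L) → Prop}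
    {wd : C → Fin L → Fin q} (h0 : ∀ k, 0 ≤ P k) (h1 : ∑ k, P k = 1)
    (hc : ∀ k c E, good k c E → ∀ y : Fin L → Fin q, (∀ i, i ∉ E → y i = wd c i) →
      cell k y = c) (E : Finset (Fin L)) :
    (mkG K C P cell good wd h0 h1 hc).Z E =
      ∑ k, P k * ((univ.filter fun c => good k c E).card : ℝ) := by
  unfold GLaw.Z
  rw [← Equiv.sum_comp (Fintype.equivFin K).symm
    (fun k => P k * ((univ.filter fun c => good k c E).card : ℝ))]
  refine Finset.sum_congr rfl fun k _ => ?_
  congr 1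
  rw [← Finset.sum_boole, ← Equiv.sum_comp (Fintype.equivFin C).symm
    (fun c => if good ((Fintype.equivFin K).symm k) c E then (1 : ℝ) else 0)]
  rfl

open Classical in
theorem mkG_Y {q L : ℕ} {K C : Type} [Fintype K] [Fintype C] {P : K → ℝ}
    {cell : K → (Fin L → Fin q) → C} {good : K → C → Finset (Fin L) → Prop}
    {wd : C → Fin L → Fin q} (h0 : ∀ k, 0 ≤ P k) (h1 : ∑ k, P k = 1)
    (hc : ∀ k c E, good k c E → ∀ y : Fin L → Fin q, (∀ i, i ∉ E → y i = wd c i) →
      cell k y = c) (z : Finset (Fin L) → Fin L → Fin q) (E : Finset (Fin L))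
    (h : ∀ k c, good k c E → lvl z (wd c) E ≤ E.card) :
    (mkG K C P cell good wd h0 h1 hc).Y z E ≤
      (1 * E.card + 0 * L) * (mkG K C P cell good wd h0 h1 hc).Z E :=
  GLaw.Y_le _ z E fun _ _ hg => h _ _ hg

/-- the special words -/
def z2 (q : ℕ) [NeZero q] (V : Finset (Fin 2)) (_ : Fin 2) : Fin q :=
  if V = univ then Fin.ofNat q 2 else Fin.ofNat q 1

section

variable (q : ℕ) [NeZero q]

/-- symbols -/
def sy (k : ℕ) : Fin q := Fin.ofNat q k

/-- cells -/
def cell2 (k : Fin 4) (y : Fin 2 → Fin q) : Fin q × Fin q :=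
  if k = 0 then (sy q 0, sy q 0)
  else if k = 1 then
    (y 0, if y 0 = sy q 2 then (if y 1 = sy q 1 ∨ y 1 = sy q 2 then sy q 0 else y 1) else sy q 0)
  else if k = 2 then
    (if y 1 = sy q 2 then (if y 0 = sy q 1 ∨ y 0 = sy q 2 then sy q 0 else y 0) else sy q 0, y 1)
  else if y 0 = sy q 1 ∨ y 1 = sy q 1 ∨ (y 0 = sy q 2 ∧ y 1 = sy q 2) then (sy q 1, sy q 1)
  else (y 0, y 1)

/-- served pairs -/
def good2 (k : Fin 4) (c : Fin q × Fin q) (E : Finset (Fin 2)) : Prop :=
  if k = 0 then c = (sy q 0, sy q 0)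
  else if k = 1 then
    (E = ∅ ∧ c.1 ≠ sy q 1 ∧ (c.1 = sy q 2 → c.2 ≠ sy q 1 ∧ c.2 ≠ sy q 2) ∧
      (c.1 ≠ sy q 2 → c.2 = sy q 0)) ∨
    (E = {1} ∧ c.1 ≠ sy q 2 ∧ c.2 = sy q 0)
  else if k = 2 then
    (E = ∅ ∧ c.2 ≠ sy q 1 ∧ (c.2 = sy q 2 → c.1 ≠ sy q 1 ∧ c.1 ≠ sy q 2) ∧
      (c.2 ≠ sy q 2 → c.1 = sy q 0)) ∨
    (E = {0} ∧ c.2 ≠ sy q 2 ∧ c.1 = sy q 0)
  else (E = ∅ ∧ c.1 ≠ sy q 1 ∧ c.2 ≠ sy q 1 ∧ c ≠ (sy q 2, sy q 2)) ∨
    ((E = {0} ∨ E = {1}) ∧ c = (sy q 1, sy q 1))

/-- words -/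
def wd2 (c : Fin q × Fin q) (i : Fin 2) : Fin q := if i = 0 then c.1 else c.2

variable {q}

theorem sy_ne {k l : ℕ} (hk : k < q) (hl : l < q) (h : k ≠ l) : sy q k ≠ sy q l := by
  intro h2
  have h3 := congrArg Fin.val h2
  unfold sy at h3
  rw [Fin.val_ofNat, Fin.val_ofNat, Nat.mod_eq_of_lt hk, Nat.mod_eq_of_lt hl] at h3
  exact h h3

theorem good_cell2 (k : Fin 4) (c : Fin q × Fin q) (E : Finset (Fin 2)) (hg : good2 q k c E)
    (y : Fin 2 → Fin q) (hy : ∀ i, i ∉ E → y i = wd2 q c i) : cell2 q k y = c := by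
  obtain ⟨c1, c2⟩ := c
  have hy0 : (0 : Fin 2) ∉ E → y 0 = c1 := fun h => hy 0 h
  have hy1 : (1 : Fin 2) ∉ E → y 1 = c2 := fun h => hy 1 h
  unfold good2 at hg
  unfold cell2
  by_cases k0 : k = 0
  · rw [if_pos k0] at hg ⊢
    exact hg.symm
  rw [if_neg k0] at hg ⊢
  by_cases k1 : k = 1
  · rw [if_pos k1] at hg ⊢
    rcases hg with ⟨hE, h3, h4, h5⟩ | ⟨hE, h3, h4⟩
    · subst hE
      have e0 := hy0 (Finset.notMem_empty _)
      have e1 := hy1 (Finset.notMem_empty _)
      rw [e0, e1]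
      by_cases h2 : c1 = sy q 2
      · have h6 := h4 h2
        rw [if_pos h2, if_neg]
        rintro (h | h)
        · exact h6.1 h
        · exact h6.2 h
      · rw [if_neg h2]
        exact Prod.ext rfl (h5 h2).symm
    · subst hE
      have e0 := hy0 (by decide)
      rw [e0, if_neg h3]
      exact Prod.ext rfl h4.symm
  rw [if_neg k1] at hg ⊢
  by_cases k2 : k = 2
  · rw [if_pos k2] at hg ⊢
    rcases hg with ⟨hE, h3, h4, h5⟩ | ⟨hE, h3, h4⟩
    · subst hE
      have e0 := hy0 (Finset.notMem_empty _)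
      have e1 := hy1 (Finset.notMem_empty _)
      rw [e0, e1]
      by_cases h2 : c2 = sy q 2
      · have h6 := h4 h2
        rw [if_pos h2, if_neg]
        rintro (h | h)
        · exact h6.1 h
        · exact h6.2 h
      · rw [if_neg h2]
        exact Prod.ext (h5 h2).symm rfl
    · subst hE
      have e1 := hy1 (by decide)
      rw [e1, if_neg h3]
      exact Prod.ext h4.symm rfl
  rw [if_neg k2] at hg ⊢
  rcases hg with ⟨hE, h3, h4, h5⟩ | ⟨hE | hE, h3⟩
  · subst hE
    have e0 := hy0 (Finset.notMem_empty _)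
    have e1 := hy1 (Finset.notMem_empty _)
    rw [e0, e1, if_neg]
    rintro (h | h | h)
    · exact h3 h
    · exact h4 h
    · exact h5 (Prod.ext h.1 h.2)
  · subst hE
    have e1 := hy1 (by decide)
    have h6 := (Prod.ext_iff.1 h3).2
    rw [if_pos (Or.inr (Or.inl (e1.trans h6)))]
    exact h3.symm
  · subst hE
    have e0 := hy0 (by decide)
    have h6 := (Prod.ext_iff.1 h3).1
    rw [if_pos (Or.inl (e0.trans h6))]
    exact h3.symm

theorem fin2_cases (E : Finset (Fin 2)) : E = ∅ ∨ E = {0} ∨ E = {1} ∨ E = univ := by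
  revert E
  decide

theorem level2 (h4 : 4 ≤ q) (k : Fin 4) (c : Fin q × Fin q) (E : Finset (Fin 2))
    (hg : good2 q k c E) : lvl (z2 q) (wd2 q c) E ≤ E.card := by
  obtain ⟨c1, c2⟩ := c
  have s01 : sy q 0 ≠ sy q 1 := sy_ne (by omega) (by omega) (by omega)
  have s02 : sy q 0 ≠ sy q 2 := sy_ne (by omega) (by omega) (by omega)
  have s12 : sy q 1 ≠ sy q 2 := sy_ne (by omega) (by omega) (by omega)
  have key : (E = ∅ → c1 ≠ sy q 1 ∧ c2 ≠ sy q 1 ∧ ¬ (c1 = sy q 2 ∧ c2 = sy q 2)) ∧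
      (E = {0} → c2 ≠ sy q 2) ∧ (E = {1} → c1 ≠ sy q 2) := by
    unfold good2 at hg
    have d01 : ({0} : Finset (Fin 2)) ≠ {1} := by decide
    have d0 : (∅ : Finset (Fin 2)) ≠ {0} := by decide
    have d1 : (∅ : Finset (Fin 2)) ≠ {1} := by decide
    by_cases k0 : k = 0
    · rw [if_pos k0] at hg
      obtain ⟨h1, h2⟩ := Prod.ext_iff.1 hg
      change c1 = sy q 0 at h1
      change c2 = sy q 0 at h2
      rw [h1, h2]
      exact ⟨fun _ => ⟨s01, s01, fun h => s02 h.1⟩, fun _ => s02, fun _ => s02⟩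
    rw [if_neg k0] at hg
    by_cases k1 : k = 1
    · rw [if_pos k1] at hg
      rcases hg with ⟨hE, h3, h4, h5⟩ | ⟨hE, h3, h4⟩
      · subst hE
        refine ⟨fun _ => ⟨h3, ?_, fun h => (h4 h.1).2 h.2⟩, fun h => absurd h d0,
          fun h => absurd h d1⟩
        by_cases h2 : c1 = sy q 2
        · exact (h4 h2).1
        · have h6 : c2 = sy q 0 := h5 h2
          rw [h6]
          exact s01
      · subst hE
        exact ⟨fun h => absurd h d1.symm, fun h => absurd h d01.symm, fun _ => h3⟩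
    rw [if_neg k1] at hg
    by_cases k2 : k = 2
    · rw [if_pos k2] at hg
      rcases hg with ⟨hE, h3, h4, h5⟩ | ⟨hE, h3, h4⟩
      · subst hE
        refine ⟨fun _ => ⟨?_, h3, fun h => (h4 h.2).2 h.1⟩, fun h => absurd h d0,
          fun h => absurd h d1⟩
        by_cases h2 : c2 = sy q 2
        · exact (h4 h2).1
        · have h6 : c1 = sy q 0 := h5 h2
          rw [h6]
          exact s01
      · subst hE
        exact ⟨fun h => absurd h d0.symm, fun _ => h3, fun h => absurd h d01⟩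
    rw [if_neg k2] at hg
    rcases hg with ⟨hE, h3, h4, h5⟩ | ⟨hE, h3⟩
    · subst hE
      exact ⟨fun _ => ⟨h3, h4, fun h => h5 (Prod.ext h.1 h.2)⟩, fun h => absurd h d0,
        fun h => absurd h d1⟩
    · obtain ⟨h1, h2⟩ := Prod.ext_iff.1 h3
      change c1 = sy q 1 at h1
      change c2 = sy q 1 at h2
      rw [h1, h2]
      refine ⟨fun h => ?_, fun _ => s12, fun _ => s12⟩
      rcases hE with hE | hE
      · exact absurd (h.symm.trans hE) d0
      · exact absurd (h.symm.trans hE) d1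
  obtain ⟨kE, k0, k1⟩ := key
  rw [lvl_le_iff]
  intro y hy V hV
  have hy0 : (0 : Fin 2) ∉ E → y 0 = c1 := fun h => hy 0 h
  have hy1 : (1 : Fin 2) ∉ E → y 1 = c2 := fun h => hy 1 h
  have u0 : ({0} : Finset (Fin 2)) ≠ univ := by decide
  have u1 : ({1} : Finset (Fin 2)) ≠ univ := by decide
  rcases fin2_cases V with rfl | rfl | rfl | rfl
  · simp
  · have h2 : y 0 = sy q 1 := by
      have h3 := hV 0 (by simp)
      unfold z2 at h3
      rw [if_neg u0] at h3
      exact h3
    rw [Finset.card_singleton, Nat.one_le_iff_ne_zero, Ne, Finset.card_eq_zero]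
    intro hE
    exact (kE hE).1 ((hy0 (by rw [hE]; exact Finset.notMem_empty _)).symm.trans h2)
  · have h2 : y 1 = sy q 1 := by
      have h3 := hV 1 (by simp)
      unfold z2 at h3
      rw [if_neg u1] at h3
      exact h3
    rw [Finset.card_singleton, Nat.one_le_iff_ne_zero, Ne, Finset.card_eq_zero]
    intro hE
    exact (kE hE).2.1 ((hy1 (by rw [hE]; exact Finset.notMem_empty _)).symm.trans h2)
  · have h2 : ∀ i, y i = sy q 2 := by
      intro i
      have h3 := hV i (by simp)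
      unfold z2 at h3
      rw [if_pos rfl] at h3
      exact h3
    rcases fin2_cases E with hE | hE | hE | hE
    · exact absurd ⟨(hy0 (by rw [hE]; exact Finset.notMem_empty _)).symm.trans (h2 0),
        (hy1 (by rw [hE]; exact Finset.notMem_empty _)).symm.trans (h2 1)⟩ (kE hE).2.2
    · exact absurd ((hy1 (by rw [hE]; decide)).symm.trans (h2 1)) (k0 hE)
    · exact absurd ((hy0 (by rw [hE]; decide)).symm.trans (h2 0)) (k1 hE)
    · rw [hE]

open Classical in
/-- number of served cells -/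
noncomputable def cn2 (q : ℕ) [NeZero q] (k : Fin 4) (E : Finset (Fin 2)) : ℕ :=
  (univ.filter fun c => good2 q k c E).card

theorem cn2_0 (E : Finset (Fin 2)) : 1 ≤ cn2 q 0 E := by
  classical
  unfold cn2
  rw [Nat.one_le_iff_ne_zero, Ne, Finset.card_eq_zero, ← Ne, ← Finset.nonempty_iff_ne_empty]
  refine ⟨(sy q 0, sy q 0), ?_⟩
  rw [Finset.mem_filter]
  exact ⟨Finset.mem_univ _, by unfold good2; rw [if_pos rfl]⟩

theorem cn2_3 {E : Finset (Fin 2)} (hE : E = {0} ∨ E = {1}) : 1 ≤ cn2 q 3 E := by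
  classical
  unfold cn2
  rw [Nat.one_le_iff_ne_zero, Ne, Finset.card_eq_zero, ← Ne, ← Finset.nonempty_iff_ne_empty]
  refine ⟨(sy q 1, sy q 1), ?_⟩
  rw [Finset.mem_filter]
  refine ⟨Finset.mem_univ _, ?_⟩
  unfold good2
  rw [if_neg (by decide), if_neg (by decide), if_neg (by decide)]
  exact Or.inr ⟨hE, rfl⟩

theorem cn2_3e (h4 : 4 ≤ q) : (q - 1) * (q - 1) - 1 ≤ cn2 q 3 ∅ := by
  classical
  have s12 : sy q 1 ≠ sy q 2 := sy_ne (by omega) (by omega) (by omega)
  have h1 : (((univ.erase (sy q 1)) ×ˢ (univ.erase (sy q 1))).erase (sy q 2, sy q 2)).card =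
      (q - 1) * (q - 1) - 1 := by
    rw [Finset.card_erase_of_mem, Finset.card_product, Finset.card_erase_of_mem (mem_univ _),
      Finset.card_univ, Fintype.card_fin]
    rw [Finset.mem_product, Finset.mem_erase]
    exact ⟨⟨s12.symm, mem_univ _⟩, s12.symm, mem_univ _⟩
  rw [← h1]
  unfold cn2
  refine Finset.card_le_card fun c hc => ?_
  rw [Finset.mem_erase, Finset.mem_product, Finset.mem_erase, Finset.mem_erase] at hc
  rw [Finset.mem_filter]
  refine ⟨Finset.mem_univ _, ?_⟩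
  unfold good2
  rw [if_neg (by decide), if_neg (by decide), if_neg (by decide)]
  exact Or.inl ⟨rfl, hc.2.1.1, hc.2.2.1, hc.1⟩

theorem cn2_1 : q - 1 ≤ cn2 q 1 {1} := by
  classical
  have h1 : ((univ.erase (sy q 2)) ×ˢ ({sy q 0} : Finset (Fin q))).card = q - 1 := by
    rw [Finset.card_product, Finset.card_erase_of_mem (mem_univ _),
      Finset.card_univ, Fintype.card_fin, Finset.card_singleton, mul_one]
  rw [← h1]
  unfold cn2
  refine Finset.card_le_card fun c hc => ?_
  rw [Finset.mem_product, Finset.mem_erase, Finset.mem_singleton] at hc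
  rw [Finset.mem_filter]
  refine ⟨Finset.mem_univ _, ?_⟩
  unfold good2
  rw [if_neg (by decide), if_pos (by decide)]
  exact Or.inr ⟨rfl, hc.1.1, hc.2⟩

theorem cn2_2 : q - 1 ≤ cn2 q 2 {0} := by
  classical
  have h1 : (({sy q 0} : Finset (Fin q)) ×ˢ (univ.erase (sy q 2))).card = q - 1 := by
    rw [Finset.card_product, Finset.card_erase_of_mem (mem_univ _),
      Finset.card_univ, Fintype.card_fin, Finset.card_singleton, one_mul]
  rw [← h1]
  unfold cn2
  refine Finset.card_le_card fun c hc => ?_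
  rw [Finset.mem_product, Finset.mem_erase, Finset.mem_singleton] at hc
  rw [Finset.mem_filter]
  refine ⟨Finset.mem_univ _, ?_⟩
  unfold good2
  rw [if_neg (by decide), if_neg (by decide), if_pos (by decide)]
  exact Or.inr ⟨rfl, hc.2.1, hc.1⟩

private theorem er2 (h4 : 4 ≤ q) : ((univ.erase (sy q 1)).erase (sy q 2)).card = q - 2 := by
  have s12 : sy q 1 ≠ sy q 2 := sy_ne (by omega) (by omega) (by omega)
  rw [Finset.card_erase_of_mem (Finset.mem_erase.2 ⟨s12.symm, mem_univ _⟩),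
    Finset.card_erase_of_mem (mem_univ _), Finset.card_univ, Fintype.card_fin]
  omega

theorem cn2_1e (h4 : 4 ≤ q) : (q - 2) + (q - 2) ≤ cn2 q 1 ∅ := by
  classical
  have s12 : sy q 1 ≠ sy q 2 := sy_ne (by omega) (by omega) (by omega)
  have h1 : ((({sy q 2} : Finset (Fin q)) ×ˢ ((univ.erase (sy q 1)).erase (sy q 2))) ∪
      (((univ.erase (sy q 1)).erase (sy q 2)) ×ˢ ({sy q 0} : Finset (Fin q)))).card =
      (q - 2) + (q - 2) := by
    rw [Finset.card_union_of_disjoint, Finset.card_product, Finset.card_product, er2 h4,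
      Finset.card_singleton, Finset.card_singleton, one_mul, mul_one]
    rw [Finset.disjoint_left]
    intro c h2 h3
    rw [Finset.mem_product, Finset.mem_singleton] at h2
    rw [Finset.mem_product, Finset.mem_erase] at h3
    exact h3.1.1 h2.1
  rw [← h1]
  unfold cn2
  refine Finset.card_le_card fun c hc => ?_
  rw [Finset.mem_filter]
  refine ⟨Finset.mem_univ _, ?_⟩
  unfold good2
  rw [if_neg (by decide), if_pos (by decide)]
  refine Or.inl ⟨rfl, ?_⟩
  rw [Finset.mem_union, Finset.mem_product, Finset.mem_product, Finset.mem_singleton,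
    Finset.mem_erase, Finset.mem_erase, Finset.mem_singleton, Finset.mem_erase,
    Finset.mem_erase] at hc
  rcases hc with ⟨h2, h3, h5, -⟩ | ⟨⟨h2, h3, -⟩, h5⟩
  · exact ⟨by rw [h2]; exact s12.symm, fun _ => ⟨h5, h3⟩, fun h => absurd h2 h⟩
  · exact ⟨h3, fun h => absurd h h2, fun _ => h5⟩

theorem cn2_2e (h4 : 4 ≤ q) : (q - 2) + (q - 2) ≤ cn2 q 2 ∅ := by
  classical
  have s12 : sy q 1 ≠ sy q 2 := sy_ne (by omega) (by omega) (by omega)
  have h1 : ((((univ.erase (sy q 1)).erase (sy q 2)) ×ˢ ({sy q 2} : Finset (Fin q))) ∪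
      (({sy q 0} : Finset (Fin q)) ×ˢ ((univ.erase (sy q 1)).erase (sy q 2)))).card =
      (q - 2) + (q - 2) := by
    rw [Finset.card_union_of_disjoint, Finset.card_product, Finset.card_product, er2 h4,
      Finset.card_singleton, Finset.card_singleton, one_mul, mul_one]
    rw [Finset.disjoint_left]
    intro c h2 h3
    rw [Finset.mem_product, Finset.mem_singleton] at h2
    rw [Finset.mem_product, Finset.mem_erase] at h3
    exact h3.2.1 h2.2
  rw [← h1]
  unfold cn2
  refine Finset.card_le_card fun c hc => ?_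
  rw [Finset.mem_filter]
  refine ⟨Finset.mem_univ _, ?_⟩
  unfold good2
  rw [if_neg (by decide), if_neg (by decide), if_pos (by decide)]
  refine Or.inl ⟨rfl, ?_⟩
  rw [Finset.mem_union, Finset.mem_product, Finset.mem_product, Finset.mem_singleton,
    Finset.mem_erase, Finset.mem_erase, Finset.mem_singleton, Finset.mem_erase,
    Finset.mem_erase] at hc
  rcases hc with ⟨⟨h3, h5, -⟩, h2⟩ | ⟨h5, h2, h3, -⟩
  · exact ⟨by rw [h2]; exact s12.symm, fun _ => ⟨h5, h3⟩, fun h => absurd h2 h⟩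
  · exact ⟨h3, fun h => absurd h h2, fun _ => h5⟩

end

end Pool.Agent.MPf4617e
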