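import Pool.Agent.Lib.MP_f4617e_lc_G.RTG
import Pool.Agent.Lib.MP_f4617e_lc.Large2
import Pool.Agent.Lib.MP_f4617e_lc.One

/-!
MP_f4617e_lc, project G: large alphabets, all fractions of errors below one half.
-/

set_option autoImplicit false

namespace Pool.Agent.MPf4617e

open Finset Filter Topology

open Classical in
theorem goodR_large {q L w0 N : ℕ} [NeZero q] (hq : 4 ≤ q) (hL : 1 ≤ L) (hN : 1 ≤ N)
    (hLq : 2 * L ^ 2 ≤ q)
    (hcond : ((w0 : ℝ) + 2) * (3 * L) ^ w0 * (3 * (L : ℝ) ^ 2) ≤ q) {τ : ℝ}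
    (h0 : 0 < τ) (h1 : τ < 1 / 2) (hgain : 8 * (N : ℝ) * (1 - τ) ^ L ≤ 1) {κ : ℝ}
    (hκ0 : 0 < κ) (hκ1 : κ ^ L ≤ (1 - 1 / (2 * N)) *
      (1 - L * ((L : ℝ) / (q - 1)) ^ (w0 + 1))) :
    GoodR q L (Real.logb q (q * (1 - τ)) + Real.logb q κ)
      (Real.logb q (al q τ) + Real.logb q κ) 1 0 := by
  obtain ⟨ha, hb, hab, hQ, haQ⟩ := largesys_alpha hq h0 h1
  have hLq1 : L < q := by nlinarith
  have hq' : (4 : ℝ) ≤ q := by exact_mod_cast hq
  have hq1 : (0 : ℝ) < q - 1 := by linarith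
  have hN' : (1 : ℝ) ≤ N := by exact_mod_cast hN
  have hQ0 : 0 < (q : ℝ) * (1 - τ) := by nlinarith
  obtain ⟨s, hs0, hsT, hs1, hs2⟩ := exists_stop (w0 := w0) hL hLq1 ha hb (by ring) hab hcond
  have hw0 : (0 : ℝ) ≤ 1 / (2 * N) := by positivity
  have hw1 : (1 : ℝ) / (2 * N) ≤ 1 / 2 := by
    rw [div_le_div_iff₀ (by positivity) (by norm_num)]; linarith
  let T : Table q L := tableOf zs (zs_ne_zero hLq1)
  obtain ⟨W0, hW0t, hW0g⟩ : ∃ W : Law q L, W.tree = soT s L id [] ∧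
      ∀ l E, W.good l E ↔ Disjoint (sites l) E :=
    ⟨{ tree := soT s L id []
       ok := soT_ok hs0
       good := fun l E => Disjoint (sites l) E
       good_disj := fun _ _ h => h }, rfl, fun _ _ => Iff.rfl⟩
  obtain ⟨W1, hW1t, hW1g⟩ : ∃ W : Law q L,
      W.tree = .mix 2 ![1 - 1 / (2 * N), 1 / (2 * N)] ![soT s L id [], raT L id] ∧
      ∀ l E, W.good l E ↔ Disjoint (sites l) E ∧
        (E = ∅ → l.length = L ∧ ∀ p ∈ l, p.2.val = 0 ∨ L < p.2.val) :=
    ⟨{ tree := .mix 2 ![1 - 1 / (2 * N), 1 / (2 * N)] ![soT s L id [], raT L id]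
       ok := by
         refine ⟨?_, ?_, ?_⟩
         · intro j; fin_cases j
           · simpa using (by linarith : (0 : ℝ) ≤ 1 - 1 / (2 * N))
           · exact hw0
         · simp [Fin.sum_univ_two]
         · intro j; fin_cases j
           · exact soT_ok hs0
           · exact raT_ok
       good := fun l E => Disjoint (sites l) E ∧
         (E = ∅ → l.length = L ∧ ∀ p ∈ l, p.2.val = 0 ∨ L < p.2.val)
       good_disj := fun _ _ h => h.1 }, rfl, fun _ _ => Iff.rfl⟩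
  set δ : ℝ := ((L : ℝ) / (q - 1)) ^ (w0 + 1) with hδ
  have hδ0 : 0 ≤ δ := by positivity
  have hexcL : ∀ (l : Path L q) (E : Finset (Fin L)), (excOf zs l E : ℝ) ≤ L := by
    intro l E
    have h2 : excOf (q := q) zs l E ≤ L := by
      refine le_trans (Nat.sub_le _ _) (Finset.sup_le fun y _ => Finset.sup_le fun V _ => ?_)
      simpa using Finset.card_le_univ V
    exact_mod_cast h2
  have hZ0 : ∀ E : Finset (Fin L), W0.Z E =
      al q τ ^ E.card * (q * (1 - τ)) ^ (L - E.card) := by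
    intro E
    rw [← hQ, ← largesys_Z hs1 hs2 E]
    unfold Law.Z
    rw [hW0t]
    exact congrArg _ (funext fun l => if_congr (hW0g l E) rfl rfl)
  have hX0 : ∀ E : Finset (Fin L), E.Nonempty → W0.X T E ≤
      L * δ * (al q τ ^ E.card * (q * (1 - τ)) ^ (L - E.card)) := by
    intro E hE
    refine le_trans (le_of_eq ?_) (largesys_X hq hLq1 h0 h1 hs0 hsT hs1 hs2 E hE)
    unfold Law.X
    rw [hW0t]
    exact congrArg _ (funext fun l => if_congr (hW0g l E) rfl rfl)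
  have hX0' : ∀ E : Finset (Fin L), W0.X T E ≤
      L * (al q τ ^ E.card * (q * (1 - τ)) ^ (L - E.card)) := by
    intro E
    rw [← hZ0 E]
    unfold Law.X Law.Z
    rw [← RT.LS_const_mul]
    refine RT.LS_mono W0.ok fun l _ _ => ?_
    split_ifs
    · rw [mul_one]; exact hexcL l E
    · simp
  have hmix : ∀ f : Path L q → ℝ, W1.tree.LS f =
      (1 - 1 / (2 * N)) * (soT s L id []).LS f + 1 / (2 * N) * (raT L id).LS f :=
    fun f => by rw [hW1t, RT.LS_mix_two]
  have hgood : ∀ (l : Path L q) (E : Finset (Fin L)), E.Nonempty →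
      (W1.good l E ↔ Disjoint (sites l) E) := by
    intro l E hE
    rw [hW1g]
    exact ⟨fun h => h.1, fun h => ⟨h, fun h' => absurd h' hE.ne_empty⟩⟩
  have hZ1 : ∀ E : Finset (Fin L), E.Nonempty → W1.Z E =
      (1 - 1 / (2 * N)) * (al q τ ^ E.card * (q * (1 - τ)) ^ (L - E.card)) := by
    intro E hE
    rw [← hZ0 E]
    unfold Law.Z
    rw [hmix]
    have h2 := (raT_LS (q := q) (L := L) hL E (fun _ => (1 : ℝ))).1 hE
    have h3 : (raT (q := q) L id).LS (fun l => if W1.good l E then (1 : ℝ) else 0) = 0 := by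
      exact (congrArg _ (funext fun l => if_congr (hgood l E hE) rfl rfl)).trans h2
    rw [h3, mul_zero, add_zero, hW0t]
    exact congrArg _ (congrArg _ (funext fun l =>
      if_congr ((hgood l E hE).trans (hW0g l E).symm) rfl rfl))
  have hX1 : ∀ E : Finset (Fin L), E.Nonempty → W1.X T E ≤
      (1 - 1 / (2 * N)) * (L * δ * (al q τ ^ E.card * (q * (1 - τ)) ^ (L - E.card))) := by
    intro E hE
    have h4 : W1.X T E = (1 - 1 / (2 * N)) * W0.X T E := by
      unfold Law.X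
      rw [hmix]
      have h2 := (raT_LS (q := q) (L := L) hL E (fun l => (T.exc l E : ℝ))).1 hE
      have h3 : (raT (q := q) L id).LS
          (fun l => if W1.good l E then (T.exc l E : ℝ) else 0) = 0 := by
        exact (congrArg _ (funext fun l => if_congr (hgood l E hE) rfl rfl)).trans h2
      rw [h3, mul_zero, add_zero, hW0t]
      exact congrArg _ (congrArg _ (funext fun l =>
        if_congr ((hgood l E hE).trans (hW0g l E).symm) rfl rfl))
    rw [h4]
    exact mul_le_mul_of_nonneg_left (hX0 E hE) (by linarith)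
  have hZ1' : 2 * (al q τ ^ (∅ : Finset (Fin L)).card * (q * (1 - τ)) ^
      (L - (∅ : Finset (Fin L)).card)) ≤ W1.Z ∅ := by
    simp only [card_empty, pow_zero, one_mul, Nat.sub_zero]
    refine (largesys_wild hLq hL hN hgain).trans ?_
    unfold Law.Z
    rw [hmix]
    have h2 := (raT_LS (q := q) (L := L) hL ∅
      (fun l => if W1.good l ∅ then (1 : ℝ) else 0)).2 (by
        intro l hl hp
        rw [if_pos]
        exact (hW1g _ _).2 ⟨by simp, fun _ => ⟨hl, hp⟩⟩) (by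
        intro l; split_ifs <;> norm_num) hLq1
    have h3 : 0 ≤ (soT s L id []).LS (fun l => if W1.good l ∅ then (1 : ℝ) else 0) :=
      RT.LS_nonneg (soT_ok hs0) fun l _ _ => by split_ifs <;> norm_num
    have h4 := mul_le_mul_of_nonneg_left h2 hw0
    have h5 : 0 ≤ (1 - 1 / (2 * (N : ℝ))) *
        (soT s L id []).LS (fun l => if W1.good l ∅ then (1 : ℝ) else 0) :=
      mul_nonneg (by linarith) h3
    linarith
  have hX1' : W1.X T ∅ ≤ 0 := by
    unfold Law.X
    refine (RT.LS_mono W1.ok (g := fun _ => 0) fun l _ _ => ?_).trans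
      (RT.LS_zero W1.tree).le
    split_ifs with h
    · have h2 : T.exc l ∅ = 0 := excOf_zs_eq_zero' hLq1 l ∅ (by simp) (((hW1g _ _).1 h).2 rfl).2
      rw [h2]; simp
    · exact le_rfl
  have hq1' : (1 : ℝ) < q := by linarith
  have hq0' : (0 : ℝ) < q := by linarith
  refine goodR_of_tree_X (by omega) zs (zs_ne_zero hLq1) W1 fun E => ?_
  have hE : E.card ≤ L := by simpa using Finset.card_le_univ E
  have htgt : 0 < al q τ ^ E.card * (q * (1 - τ)) ^ (L - E.card) := by positivity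
  have e1 : (q : ℝ) ^ ((Real.logb q (q * (1 - τ)) + Real.logb q κ) * (L - E.card) +
      (Real.logb q (al q τ) + Real.logb q κ) * E.card) =
      al q τ ^ E.card * (q * (1 - τ)) ^ (L - E.card) * κ ^ L := by
    have e2 : ∀ (x : ℝ) (n : ℕ), 0 < x → x ^ n = (q : ℝ) ^ (Real.logb q x * n) := by
      intro x n hx
      rw [Real.rpow_mul hq0'.le, Real.rpow_logb hq0' hq1'.ne' hx, Real.rpow_natCast]
    rw [e2 _ _ ha, e2 _ _ hQ0, e2 _ _ hκ0, ← Real.rpow_add hq0', ← Real.rpow_add hq0',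
      Nat.cast_sub hE]
    congr 1
    ring
  rw [e1]
  have hw2 : (0 : ℝ) ≤ 1 - 1 / (2 * N) := by linarith
  have hκ2 : κ ^ L ≤ 1 := by
    refine hκ1.trans ?_
    have h2 : 0 ≤ (L : ℝ) * ((L : ℝ) / (q - 1)) ^ (w0 + 1) := by positivity
    rcases lt_or_ge (1 - (L : ℝ) * ((L : ℝ) / (q - 1)) ^ (w0 + 1)) 0 with h | h
    · exact (mul_nonpos_of_nonneg_of_nonpos hw2 h.le).trans zero_le_one
    · exact mul_le_one₀ (by linarith) h (by linarith)
  rcases Finset.eq_empty_or_nonempty E with hE0 | hE0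
  · subst hE0
    have h2 := mul_le_mul_of_nonneg_left hκ2 htgt.le
    linarith
  · have h2 := mul_le_mul_of_nonneg_left hκ1 htgt.le
    have h3 := hZ1 E hE0
    have h4 := hX1 E hE0
    rw [h3]
    refine h2.trans ?_
    have h5 : al q τ ^ E.card * (q * (1 - τ)) ^ (L - E.card) * ((1 - 1 / (2 * N)) *
        (1 - L * ((L : ℝ) / (q - 1)) ^ (w0 + 1))) =
        (1 - 1 / (2 * N)) * (al q τ ^ E.card * (q * (1 - τ)) ^ (L - E.card)) -
        (1 - 1 / (2 * N)) * (L * δ * (al q τ ^ E.card * (q * (1 - τ)) ^ (L - E.card))) := by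
      rw [hδ]
      ring
    rw [h5]
    exact sub_le_sub_left h4 _

theorem AchRate.mono {q : ℕ} {τ R R' : ℝ} (h : AchRate q τ R) (hR : R' ≤ R) :
    AchRate q τ R' := by
  intro ε hε
  obtain ⟨n0, hn0⟩ := h ε hε
  refine ⟨n0, fun n hn => ?_⟩
  obtain ⟨M, f, hM, hf, hb⟩ := hn0 n hn
  exact ⟨M, f, hM, hf, le_trans (mul_le_mul_of_nonneg_right (by linarith) (Nat.cast_nonneg n)) hb⟩

theorem large_exp {x : ℝ} (h0 : 0 ≤ x) (h1 : x ≤ 1 / 2) : Real.exp (-(2 * x)) ≤ 1 - x := by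
  have h2 : 1 + 2 * x ≤ Real.exp (2 * x) := by linarith [Real.add_one_le_exp (2 * x)]
  rw [Real.exp_neg, inv_le_comm₀ (Real.exp_pos _) (by linarith)]
  refine le_trans ?_ h2
  rw [inv_le_iff_one_le_mul₀ (by linarith)]
  nlinarith

/-- Large alphabets: nearly the Hamming bound for all fractions of errors below one half. -/
theorem rate_large : ∃ q0 : ℕ, ∀ q : ℕ, q0 ≤ q → ∀ τ : ℝ, 1 / 4 ≤ τ → τ < 1 / 2 →
    AchRate q τ (Hq q τ - Real.exp (-((Real.log q) ^ 2 / (4 * Real.log (Real.log q))))) := by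
  have hlog : Tendsto (fun q : ℕ => Real.log (q : ℝ)) atTop atTop :=
    Real.tendsto_log_atTop.comp tendsto_natCast_atTop_atTop
  obtain ⟨q0, hq0⟩ := eventually_atTop.1 (large2_params.and
    (hlog.eventually (eventually_ge_atTop 3)))
  refine ⟨max q0 4, fun q hq τ h0 h1 => ?_⟩
  have hq4 : 4 ≤ q := le_trans (le_max_right _ _) hq
  have hne : NeZero q := ⟨by omega⟩
  obtain ⟨⟨L, w0, N, hL, hN, hLq, hc, hg, hN1, hw⟩, hlq⟩ := hq0 q (le_trans (le_max_left _ _) hq)
  obtain ⟨ρ, hρ⟩ : ∃ ρ : ℝ, ρ = Real.exp (-((Real.log q) ^ 2 / (4 * Real.log (Real.log q)))) :=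
    ⟨_, rfl⟩
  rw [← hρ] at hN1 hw ⊢
  have hρ0 : 0 < ρ := hρ ▸ Real.exp_pos _
  have hgain : 8 * (N : ℝ) * (1 - τ) ^ L ≤ 1 := by
    refine le_trans (mul_le_mul_of_nonneg_left ?_ (by positivity)) hg
    exact pow_le_pow_left₀ (by linarith) (by linarith) L
  have hq' : (4 : ℝ) ≤ q := by exact_mod_cast hq4
  have hq1 : (0 : ℝ) < q - 1 := by linarith
  have hq1' : (1 : ℝ) < q := by linarith
  have hL' : (1 : ℝ) ≤ L := by exact_mod_cast hL
  have hN' : (1 : ℝ) ≤ N := by exact_mod_cast hN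
  set δ : ℝ := ((L : ℝ) / (q - 1)) ^ (w0 + 1) with hδ
  have hδ0 : 0 ≤ δ := by positivity
  have hL6 : 6 * (L : ℝ) ^ 2 ≤ q := by
    refine le_trans ?_ hc
    have h2 : (1 : ℝ) ≤ (3 * (L : ℝ)) ^ w0 := one_le_pow₀ (by linarith)
    have h3 : (2 : ℝ) ≤ (w0 : ℝ) + 2 := by
      have : (0 : ℝ) ≤ w0 := Nat.cast_nonneg _
      linarith
    have h4 : (2 : ℝ) * 1 ≤ ((w0 : ℝ) + 2) * (3 * L) ^ w0 :=
      mul_le_mul h3 h2 zero_le_one (by linarith)
    nlinarith [mul_le_mul_of_nonneg_right h4 (by positivity : (0 : ℝ) ≤ 3 * (L : ℝ) ^ 2)]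
  have hLδ : (L : ℝ) * δ ≤ 1 / 2 := by
    have h2 : (L : ℝ) / (q - 1) ≤ 1 := by
      rw [div_le_one hq1]
      nlinarith
    have h3 : δ ≤ (L : ℝ) / (q - 1) := by
      rw [hδ]
      exact pow_le_of_le_one (by positivity) h2 (by omega)
    calc (L : ℝ) * δ ≤ L * (L / (q - 1)) := mul_le_mul_of_nonneg_left h3 (by positivity)
      _ ≤ 1 / 2 := by
        rw [mul_div_assoc', div_le_div_iff₀ hq1 two_pos]
        nlinarith
  have hxN : (1 : ℝ) / (2 * N) ≤ 1 / 2 := by
    rw [div_le_div_iff₀ (by positivity) (by norm_num)]; linarith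
  obtain ⟨κ, hκ⟩ : ∃ κ : ℝ, κ = Real.exp (-(1 / N + 2 * δ)) := ⟨_, rfl⟩
  have hκ0 : 0 < κ := hκ ▸ Real.exp_pos _
  have hκ1 : κ ^ L ≤ (1 - 1 / (2 * N)) * (1 - L * δ) := by
    have h2 := large_exp (x := 1 / (2 * (N : ℝ))) (by positivity) hxN
    have h3 := large_exp (x := L * δ) (by positivity) hLδ
    refine le_trans ?_ (mul_le_mul h2 h3 (Real.exp_pos _).le (by linarith))
    rw [hκ, ← Real.exp_nat_mul, ← Real.exp_add, Real.exp_le_exp]
    have h4 : 2 * (1 / (2 * (N : ℝ))) = 1 / N := by field_simp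
    have h5 : (0 : ℝ) ≤ 1 / N := by positivity
    rw [h4]
    nlinarith
  have hsys := goodR_large hq4 hL hN hLq hc (by linarith : 0 < τ) h1 hgain hκ0 hκ1
  obtain ⟨hA, hD, hH⟩ := engine_logs (by omega : 2 ≤ q) (by linarith : 0 < τ) h1
  have hlκ : -ρ ≤ Real.logb q κ := by
    rw [hκ, Real.logb, Real.log_exp, le_div_iff₀ (by linarith)]
    have h2 : 1 / (N : ℝ) + 2 * δ ≤ 3 * ρ := by linarith
    nlinarith [mul_le_mul_of_nonneg_left hlq hρ0.le]
  have hlκ' : Real.logb q κ ≤ 0 := by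
    refine Real.logb_nonpos hq1' hκ0.le ?_
    rw [hκ, Real.exp_le_one_iff]
    have : (0 : ℝ) ≤ 1 / N := by positivity
    linarith
  rcases lt_or_ge 0 (Real.logb q (q * (1 - τ)) + Real.logb q κ) with hA' | hA'
  · have h2 := engineG (by omega) (by omega) (by linarith : 0 < τ) h1 hA' (by linarith)
      one_pos le_rfl le_rfl (by linarith) hsys
    refine h2.mono ?_
    rw [hH]
    have e : Real.logb q (q * (1 - τ)) + Real.logb q κ - (Real.logb q (q * (1 - τ)) +
      Real.logb q κ - (Real.logb q (al q τ) + Real.logb q κ)) * τ =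
      Real.logb q (q * (1 - τ)) - (Real.logb q (q * (1 - τ)) - Real.logb q (al q τ)) * τ +
        Real.logb q κ := by ring
    rw [e]
    linarith
  · -- the rate is not positive
    intro ε hε
    refine ⟨0, fun n _ => engine_trivial (mul_nonpos_of_nonpos_of_nonneg ?_ (Nat.cast_nonneg n))⟩
    have h2 : 0 ≤ (Real.logb q (q * (1 - τ)) - Real.logb q (al q τ)) * τ :=
      mul_nonneg (by linarith) (by linarith)
    rw [hH]
    linarith

end Pool.Agent.MPf4617e
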