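import Pool.Agent.Lib.MP_f4617e_lc_G.L2G
import Pool.Agent.Lib.MP_f4617e_lc_G.LargeG
import Pool.Agent.Lib.MP_f4617e_lc.One

/-!
MP_f4617e_lc, project G: the rate of the system with blocks of length two.
-/

set_option autoImplicit false

namespace Pool.Agent.MPf4617e

open Finset

theorem goodR2 {q : ℕ} [NeZero q] (h4 : 4 ≤ q) {f s x α β Λ : ℝ} (hf : 0 ≤ f) (hs : 0 ≤ s)
    (hx : 0 ≤ x) (h1 : f + s + x = 1) (hα : 0 < α) (hβ : 0 < β) (hΛ : 0 < Λ)
    (e0 : Λ * (α * α) ≤ f + 2 * s * (q - 2) + x * ((q - 1) * (q - 1) - 1))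
    (e1 : Λ * (α * β) ≤ f + s / 2 * (q - 1) + x) (e2 : Λ * (β * β) ≤ f) :
    GoodR q 2 (Real.logb q α + Real.logb q Λ / 2) (Real.logb q β + Real.logb q Λ / 2) 1 0 := by
  classical
  have hq' : (4 : ℝ) ≤ q := by exact_mod_cast h4
  have hq0 : (0 : ℝ) < q := by linarith
  have hq1 : (1 : ℝ) < q := by linarith
  have hP0 : ∀ k : Fin 4, 0 ≤ (![f, s / 2, s / 2, x] : Fin 4 → ℝ) k := by
    intro k
    fin_cases k
    · exact hf
    · exact div_nonneg hs two_pos.le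
    · exact div_nonneg hs two_pos.le
    · exact hx
  have hP1 : ∑ k : Fin 4, (![f, s / 2, s / 2, x] : Fin 4 → ℝ) k = 1 := by
    rw [Fin.sum_univ_four]
    change f + s / 2 + s / 2 + x = 1
    linarith
  have hlog : ∀ a b : ℝ, 0 < a → 0 < b → (q : ℝ) ^ (Real.logb q a + Real.logb q b +
      Real.logb q Λ) = Λ * (a * b) := by
    intro a b ha hb
    rw [Real.rpow_add hq0, Real.rpow_add hq0, Real.rpow_logb hq0 hq1.ne' ha,
      Real.rpow_logb hq0 hq1.ne' hb, Real.rpow_logb hq0 hq1.ne' hΛ]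
    ring
  refine goodR_single (by omega) (z2 q) ?_
    (mkG (Fin 4) (Fin q × Fin q) ![f, s / 2, s / 2, x] (cell2 q) (good2 q) (wd2 q) hP0 hP1
      good_cell2) ?_ ?_
  · intro V i _ h
    have h2 := congrArg Fin.val h
    unfold z2 at h2
    split_ifs at h2
    · rw [Fin.val_ofNat, Fin.val_zero, Nat.mod_eq_of_lt (by omega)] at h2
      exact two_ne_zero h2
    · rw [Fin.val_ofNat, Fin.val_zero, Nat.mod_eq_of_lt (by omega)] at h2
      exact one_ne_zero h2
  · intro E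
    rw [mkG_Z, Fin.sum_univ_four]
    change _ ≤ f * (cn2 q 0 E : ℝ) + s / 2 * (cn2 q 1 E : ℝ) + s / 2 * (cn2 q 2 E : ℝ) +
      x * (cn2 q 3 E : ℝ)
    have c0 : (1 : ℝ) ≤ cn2 q 0 E := by exact_mod_cast cn2_0 E
    have f0 : f ≤ f * (cn2 q 0 E : ℝ) := le_mul_of_one_le_right hf c0
    have n1 : 0 ≤ s / 2 * (cn2 q 1 E : ℝ) := mul_nonneg (by linarith) (Nat.cast_nonneg _)
    have n2 : 0 ≤ s / 2 * (cn2 q 2 E : ℝ) := mul_nonneg (by linarith) (Nat.cast_nonneg _)
    have n3 : 0 ≤ x * (cn2 q 3 E : ℝ) := mul_nonneg hx (Nat.cast_nonneg _)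
    rcases fin2_cases E with hE | hE | hE | hE
    · subst hE
      have c1 : ((q : ℝ) - 2) + (q - 2) ≤ cn2 q 1 ∅ := by
        have h := cn2_1e h4
        have h2 : (((q - 2) + (q - 2) : ℕ) : ℝ) ≤ (cn2 q 1 ∅ : ℕ) := by exact_mod_cast h
        rw [Nat.cast_add, Nat.cast_sub (by omega)] at h2
        exact h2
      have c2 : ((q : ℝ) - 2) + (q - 2) ≤ cn2 q 2 ∅ := by
        have h := cn2_2e h4
        have h2 : (((q - 2) + (q - 2) : ℕ) : ℝ) ≤ (cn2 q 2 ∅ : ℕ) := by exact_mod_cast h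
        rw [Nat.cast_add, Nat.cast_sub (by omega)] at h2
        exact h2
      have c3 : ((q : ℝ) - 1) * (q - 1) - 1 ≤ cn2 q 3 ∅ := by
        have h := cn2_3e h4
        have h2 : (((q - 1) * (q - 1) - 1 : ℕ) : ℝ) ≤ (cn2 q 3 ∅ : ℕ) := by exact_mod_cast h
        rw [Nat.cast_sub (Nat.mul_pos (by omega) (by omega)), Nat.cast_mul,
          Nat.cast_sub (by omega), Nat.cast_one] at h2
        exact h2
      have d1 := mul_le_mul_of_nonneg_left c1 (by linarith : 0 ≤ s / 2)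
      have d2 := mul_le_mul_of_nonneg_left c2 (by linarith : 0 ≤ s / 2)
      have d3 := mul_le_mul_of_nonneg_left c3 hx
      have e : (Real.logb q α + Real.logb q Λ / 2) * (((2 : ℕ) : ℝ) -
          (((∅ : Finset (Fin 2)).card : ℕ) : ℝ)) +
          (Real.logb q β + Real.logb q Λ / 2) * (((∅ : Finset (Fin 2)).card : ℕ) : ℝ) =
          Real.logb q α + Real.logb q α + Real.logb q Λ := by
        rw [Finset.card_empty]
        push_cast
        ring
      rw [e, hlog α α hα hα]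
      linarith
    · subst hE
      have c2 : ((q : ℝ) - 1) ≤ cn2 q 2 {0} := by
        have h := cn2_2 (q := q)
        have h2 : ((q - 1 : ℕ) : ℝ) ≤ (cn2 q 2 {0} : ℕ) := by exact_mod_cast h
        rw [Nat.cast_sub (by omega), Nat.cast_one] at h2
        exact h2
      have c3 : (1 : ℝ) ≤ cn2 q 3 {0} := by exact_mod_cast cn2_3 (q := q) (Or.inl rfl)
      have d2 := mul_le_mul_of_nonneg_left c2 (by linarith : 0 ≤ s / 2)
      have d3 := mul_le_mul_of_nonneg_left c3 hx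
      have e : (Real.logb q α + Real.logb q Λ / 2) * (((2 : ℕ) : ℝ) -
          ((({0} : Finset (Fin 2)).card : ℕ) : ℝ)) +
          (Real.logb q β + Real.logb q Λ / 2) * ((({0} : Finset (Fin 2)).card : ℕ) : ℝ) =
          Real.logb q α + Real.logb q β + Real.logb q Λ := by
        rw [Finset.card_singleton]
        push_cast
        ring
      rw [e, hlog α β hα hβ]
      linarith
    · subst hE
      have c2 : ((q : ℝ) - 1) ≤ cn2 q 1 {1} := by
        have h := cn2_1 (q := q)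
        have h2 : ((q - 1 : ℕ) : ℝ) ≤ (cn2 q 1 {1} : ℕ) := by exact_mod_cast h
        rw [Nat.cast_sub (by omega), Nat.cast_one] at h2
        exact h2
      have c3 : (1 : ℝ) ≤ cn2 q 3 {1} := by exact_mod_cast cn2_3 (q := q) (Or.inr rfl)
      have d2 := mul_le_mul_of_nonneg_left c2 (by linarith : 0 ≤ s / 2)
      have d3 := mul_le_mul_of_nonneg_left c3 hx
      have e : (Real.logb q α + Real.logb q Λ / 2) * (((2 : ℕ) : ℝ) -
          ((({1} : Finset (Fin 2)).card : ℕ) : ℝ)) +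
          (Real.logb q β + Real.logb q Λ / 2) * ((({1} : Finset (Fin 2)).card : ℕ) : ℝ) =
          Real.logb q α + Real.logb q β + Real.logb q Λ := by
        rw [Finset.card_singleton]
        push_cast
        ring
      rw [e, hlog α β hα hβ]
      linarith
    · subst hE
      have e : (Real.logb q α + Real.logb q Λ / 2) * (((2 : ℕ) : ℝ) -
          (((univ : Finset (Fin 2)).card : ℕ) : ℝ)) +
          (Real.logb q β + Real.logb q Λ / 2) * (((univ : Finset (Fin 2)).card : ℕ) : ℝ) =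
          Real.logb q β + Real.logb q β + Real.logb q Λ := by
        rw [Finset.card_univ, Fintype.card_fin]
        push_cast
        ring
      rw [e, hlog β β hβ hβ]
      linarith
  · intro E
    exact mkG_Y hP0 hP1 good_cell2 (z2 q) E fun k c hg => level2 h4 k c E hg

/-- The numbers. -/
theorem par2 {q t : ℝ} (hq : 4 ≤ q) (h0 : 4 / 9 ≤ t) (h1 : t < 1 / 2) :
    ∃ f s x Λ : ℝ, 0 ≤ f ∧ 0 ≤ s ∧ 0 ≤ x ∧ f + s + x = 1 ∧ 1 / 2 < Λ ∧
      1 ≤ Λ * (1 + 11 / (5 * q ^ 2)) ∧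
      Λ * (q * (1 - t) * (q * (1 - t))) ≤ f + 2 * s * (q - 2) + x * ((q - 1) * (q - 1) - 1) ∧
      Λ * (q * (1 - t) * (q * t / (q - 1))) ≤ f + s / 2 * (q - 1) + x ∧
      Λ * (q * t / (q - 1) * (q * t / (q - 1))) ≤ f := by
  obtain ⟨p, hp⟩ : ∃ p : ℝ, p = q - 4 := ⟨_, rfl⟩
  have hp0 : 0 ≤ p := by linarith
  have hqp : q = 4 + p := by linarith
  obtain ⟨u, hu⟩ : ∃ u : ℝ, u = 1 / (q - 3) := ⟨_, rfl⟩
  obtain ⟨v, hv⟩ : ∃ v : ℝ, v = 1 / (q - 1) := ⟨_, rfl⟩
  have hq3 : 0 < q - 3 := by linarith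
  have hq1 : 0 < q - 1 := by linarith
  have hq0 : 0 < q := by linarith
  have hu1 : u * (q - 3) = 1 := by rw [hu]; exact div_mul_cancel₀ _ hq3.ne'
  have hv1 : v * (q - 1) = 1 := by rw [hv]; exact div_mul_cancel₀ _ hq1.ne'
  have hu0 : 0 < u := by rw [hu]; exact div_pos one_pos hq3
  have hv0 : 0 < v := by rw [hv]; exact div_pos one_pos hq1
  have hu2 : u ≤ 1 := by rw [hu, div_le_one hq3]; linarith
  have ht1 : 20 / 81 ≤ t * (1 - t) := by nlinarith
  have ht2 : t * (1 - t) ≤ 1 / 4 := by nlinarith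
  have ht3 : 16 / 81 ≤ t * t := by nlinarith
  have ht4 : t * t ≤ 1 / 4 := by nlinarith
  obtain ⟨M, hM⟩ : ∃ M : ℝ, M = q * (1 - t) * (q * t * v) := ⟨_, rfl⟩
  obtain ⟨B, hB⟩ : ∃ B : ℝ, B = q * t * v * (q * t * v) := ⟨_, rfl⟩
  have hqv : q * v = 1 + v := by linear_combination hv1
  have hM' : M = (q + 1 + v) * (t * (1 - t)) := by
    rw [hM]
    linear_combination (q + 1) * (t * (1 - t)) * hv1
  have hB' : B = (1 + v) ^ 2 * (t * t) := by
    rw [hB, ← hqv]
    ring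
  have hM1 : (q + 1 + v) * (20 / 81) ≤ M := by
    rw [hM']
    exact mul_le_mul_of_nonneg_left ht1 (by linarith)
  have hM2 : M ≤ (q + 1 + v) / 4 := by
    rw [hM', div_eq_mul_one_div]
    exact mul_le_mul_of_nonneg_left ht2 (by linarith)
  have hB1 : (1 + v) ^ 2 * (16 / 81) ≤ B := by
    rw [hB']
    exact mul_le_mul_of_nonneg_left ht3 (by positivity)
  have hB2 : B ≤ (1 + v) ^ 2 / 4 := by
    rw [hB', div_eq_mul_one_div ((1 + v) ^ 2)]
    exact mul_le_mul_of_nonneg_left ht4 (by positivity)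
  have hB0 : 0 ≤ B := le_trans (by positivity) hB1
  have hM0 : 0 ≤ M := le_trans (by positivity) hM1
  have hq16 : 16 ≤ q ^ 2 := by nlinarith
  have hv3 : v ≤ 1 / 3 := by
    rw [hv]
    exact one_div_le_one_div_of_le (by norm_num) (by linarith)
  have hB3 : B ≤ 4 / 9 := by
    refine hB2.trans ?_
    nlinarith
  obtain ⟨num, hnum⟩ : ∃ n : ℝ, n = q ^ 2 - 2 + 2 * u := ⟨_, rfl⟩
  obtain ⟨den, hden⟩ : ∃ n : ℝ, n = q ^ 2 - 2 * B + 2 * u * M := ⟨_, rfl⟩
  have huM : 0 ≤ 2 * u * M := by positivity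
  have hden0 : 0 < den := by
    rw [hden]
    linarith
  have hnum0 : 0 < num := by
    rw [hnum]
    linarith
  obtain ⟨Λ, hΛ⟩ : ∃ n : ℝ, n = num / den := ⟨_, rfl⟩
  have hΛ1 : Λ * den = num := by rw [hΛ]; exact div_mul_cancel₀ _ hden0.ne'
  have hΛ0 : 0 < Λ := by rw [hΛ]; exact div_pos hnum0 hden0
  -- the factor is close to one
  have k1 : den ≤ num * (1 + 11 / (5 * q ^ 2)) := by
    have e : (q ^ 2 - 2 + 2 * u) * (1 + 11 / (5 * q ^ 2)) -
        (q ^ 2 - 2 * ((1 + v) ^ 2 * (16 / 81)) + 2 * u * ((q + 1 + v) / 4)) =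
        (32 / 81 * (q ^ 4 * (q - 3)) - 3 / 10 * (q ^ 2 * (q - 1) ^ 2 * (q - 3)) -
          1 / 2 * (q ^ 2 * (q - 1)) - 22 / 5 * ((q - 4) * (q - 1) ^ 2)) /
          (q ^ 2 * (q - 1) ^ 2 * (q - 3)) := by
      have h3 : q - 3 ≠ 0 := hq3.ne'
      have h4 : q - 1 ≠ 0 := hq1.ne'
      have h5 : q ≠ 0 := hq0.ne'
      rw [hu, hv]
      field_simp
      ring
    have e2 : 0 ≤ (32 / 81 * (q ^ 4 * (q - 3)) - 3 / 10 * (q ^ 2 * (q - 1) ^ 2 * (q - 3)) -
          1 / 2 * (q ^ 2 * (q - 1)) - 22 / 5 * ((q - 4) * (q - 1) ^ 2)) := by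
      rw [hqp]
      ring_nf
      positivity
    have e3 : 0 ≤ (q ^ 2 - 2 + 2 * u) * (1 + 11 / (5 * q ^ 2)) -
        (q ^ 2 - 2 * ((1 + v) ^ 2 * (16 / 81)) + 2 * u * ((q + 1 + v) / 4)) := by
      rw [e]
      exact div_nonneg e2 (by positivity)
    have e4 : 2 * u * M ≤ 2 * u * ((q + 1 + v) / 4) :=
      mul_le_mul_of_nonneg_left hM2 (by positivity)
    rw [hden, hnum]
    linarith
  have k2 : 1 ≤ Λ * (1 + 11 / (5 * q ^ 2)) := by
    rw [hΛ, div_mul_eq_mul_div, one_le_div hden0]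
    exact k1
  have k3 : 1 / 2 < Λ := by
    have h5 : 11 / (5 * q ^ 2) < 1 := by
      rw [div_lt_one (by positivity)]
      linarith
    have h6 : Λ * (1 + 11 / (5 * q ^ 2)) < Λ * 2 := mul_lt_mul_of_pos_left (by linarith) hΛ0
    linarith
  have k4 : 1 ≤ Λ * M := by
    rw [hΛ, div_mul_eq_mul_div, one_le_div hden0, hden, hnum]
    have h5 : (q + 1) * (20 / 81) ≤ M := by linarith
    have h6 : (q ^ 2 - 2) * ((q + 1) * (20 / 81)) ≤ (q ^ 2 - 2) * M :=
      mul_le_mul_of_nonneg_left h5 (by linarith)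
    have h7 : q ^ 2 ≤ (q ^ 2 - 2) * ((q + 1) * (20 / 81)) := by
      rw [hqp]
      nlinarith [pow_nonneg hp0 3, pow_nonneg hp0 2]
    have h8 : (q ^ 2 - 2 + 2 * u) * M = (q ^ 2 - 2) * M + 2 * u * M := by ring
    rw [h8]
    linarith
  have k5 : 0 ≤ 1 - Λ * B - 2 * u * (Λ * M - 1) := by
    have e : (1 + 2 * u) * q ^ 2 - (1 + v) ^ 2 / 4 * (q ^ 2 + 6 * u) -
        2 * u * ((q + 1 + v) / 4) * (q ^ 2 - 3) =
        q ^ 2 * (q ^ 3 - 7 * q ^ 2 + 18 * q - 16) / (4 * (q - 1) ^ 2 * (q - 3)) := by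
      have h3 : q - 3 ≠ 0 := hq3.ne'
      have h4 : q - 1 ≠ 0 := hq1.ne'
      rw [hu, hv]
      field_simp
      ring
    have e2 : 0 ≤ q ^ 3 - 7 * q ^ 2 + 18 * q - 16 := by
      rw [hqp]
      ring_nf
      positivity
    have e3 : 0 ≤ (1 + 2 * u) * q ^ 2 - (1 + v) ^ 2 / 4 * (q ^ 2 + 6 * u) -
        2 * u * ((q + 1 + v) / 4) * (q ^ 2 - 3) := by
      rw [e]
      apply div_nonneg
      · exact mul_nonneg (by positivity) e2
      · positivity
    have e4 : B * (q ^ 2 + 6 * u) ≤ (1 + v) ^ 2 / 4 * (q ^ 2 + 6 * u) :=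
      mul_le_mul_of_nonneg_right hB2 (by positivity)
    have e5 : 2 * u * M * (q ^ 2 - 3) ≤ 2 * u * ((q + 1 + v) / 4) * (q ^ 2 - 3) :=
      mul_le_mul_of_nonneg_right (mul_le_mul_of_nonneg_left hM2 (by positivity)) (by linarith)
    have e6 : 0 ≤ (1 + 2 * u) * den - num * (B + 2 * u * M) := by
      have e8 : (1 + 2 * u) * den - num * (B + 2 * u * M) =
          (1 + 2 * u) * q ^ 2 - B * (q ^ 2 + 6 * u) - 2 * u * M * (q ^ 2 - 3) := by
        rw [hden, hnum]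
        ring
      rw [e8]
      linarith
    have e7 : (1 - Λ * B - 2 * u * (Λ * M - 1)) * den =
        (1 + 2 * u) * den - num * (B + 2 * u * M) := by
      rw [← hΛ1]
      ring
    by_contra hneg
    push Not at hneg
    have := mul_neg_of_neg_of_pos hneg hden0
    linarith
  have hβ : q * t / (q - 1) = q * t * v := by rw [hv]; ring
  refine ⟨Λ * B, 2 * u * (Λ * M - 1), 1 - Λ * B - 2 * u * (Λ * M - 1), Λ, by positivity,
    mul_nonneg (by positivity) (by linarith), k5, by ring, k3, k2, le_of_eq ?_, le_of_eq ?_,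
    le_of_eq ?_⟩
  · have hα2 : q * (1 - t) * (q * (1 - t)) =
        q ^ 2 - 2 * (q - 1) * M - (q - 1) * (q - 1) * B := by
      rw [hM, hB]
      linear_combination (q ^ 2 * (2 * t * (1 - t) + t ^ 2 * (v * (q - 1) + 1))) * hv1
    rw [hα2]
    rw [hden, hnum] at hΛ1
    linear_combination hΛ1 + (Λ * M - 1) * 2 * (q - 1) * hu1
  · rw [hβ, ← hM]
    linear_combination (-(Λ * M - 1)) * hu1
  · rw [hβ, ← hB]

/-- The rate of blocks of length two. -/
theorem rate2 {q : ℕ} (h4 : 4 ≤ q) {t : ℝ} (h0 : 4 / 9 ≤ t) (h1 : t < 1 / 2) :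
    AchRate q t (Hq q t - 11 / (10 * q ^ 2 * Real.log q)) := by
  have hne : NeZero q := ⟨by omega⟩
  have hq' : (4 : ℝ) ≤ q := by exact_mod_cast h4
  have hq0 : (0 : ℝ) < q := by linarith
  have hq1 : (1 : ℝ) < q := by linarith
  have hqm : (0 : ℝ) < q - 1 := by linarith
  obtain ⟨f, s, x, Λ, hf, hs, hx, hsum, hΛ2, hΛ, e0, e1, e2⟩ := par2 hq' h0 h1
  have hα : 0 < (q : ℝ) * (1 - t) := by nlinarith
  have hβ : 0 < (q : ℝ) * t / (q - 1) := by
    apply div_pos _ hqm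
    nlinarith
  have hΛ0 : 0 < Λ := by linarith
  have hsys := goodR2 h4 hf hs hx hsum hα hβ hΛ0 e0 e1 e2
  have hA : 0 < Real.logb q (q * (1 - t)) + Real.logb q Λ / 2 := by
    have h2 : 0 < Real.logb q (q * (1 - t) * (q * (1 - t)) * Λ) := by
      refine Real.logb_pos hq1 ?_
      have h3 : 2 < (q : ℝ) * (1 - t) := by nlinarith
      nlinarith
    rw [Real.logb_mul (by positivity) hΛ0.ne', Real.logb_mul hα.ne' hα.ne'] at h2
    linarith
  have hD : Real.logb q (q * t / (q - 1)) + Real.logb q Λ / 2 ≤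
      Real.logb q (q * (1 - t)) + Real.logb q Λ / 2 := by
    have : Real.logb q (q * t / (q - 1)) ≤ Real.logb q (q * (1 - t)) := by
      refine Real.logb_le_logb_of_le hq1 hβ ?_
      rw [div_le_iff₀ hqm]
      nlinarith
    linarith
  have h := engineG (by omega) two_pos (by linarith : 0 < t) h1 hA hD one_pos le_rfl le_rfl
    (by linarith) hsys
  obtain ⟨-, -, hH⟩ := engine_logs (by omega : 2 ≤ q) (by linarith : 0 < t) h1
  refine h.mono ?_
  have hal : Real.logb q (al q t) = Real.logb q (q * t / (q - 1)) := by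
    unfold al
    rw [mul_comm t (q : ℝ)]
  have hlq : 0 < Real.log q := Real.log_pos hq1
  have h5 : -(11 / (5 * (q : ℝ) ^ 2)) ≤ Real.log Λ := by
    have h6 : 0 < 1 + 11 / (5 * (q : ℝ) ^ 2) := by positivity
    have h7 : Real.log (1 + 11 / (5 * (q : ℝ) ^ 2)) ≤ 11 / (5 * (q : ℝ) ^ 2) := by
      have := Real.log_le_sub_one_of_pos h6
      linarith
    have h8 : 0 ≤ Real.log (Λ * (1 + 11 / (5 * (q : ℝ) ^ 2))) := Real.log_nonneg hΛ
    rw [Real.log_mul hΛ0.ne' h6.ne'] at h8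
    linarith
  have h9 : -(11 / (10 * (q : ℝ) ^ 2 * Real.log q)) ≤ Real.logb q Λ / 2 := by
    rw [Real.logb, div_div, le_div_iff₀ (by positivity)]
    have e : -(11 / (10 * (q : ℝ) ^ 2 * Real.log q)) * (Real.log q * 2) =
        -(11 / (5 * (q : ℝ) ^ 2)) := by
      field_simp
      ring
    rw [e]
    exact h5
  rw [hH, hal]
  have e : Real.logb q (q * (1 - t)) + Real.logb q Λ / 2 - (Real.logb q (q * (1 - t)) +
      Real.logb q Λ / 2 - (Real.logb q (q * t / (q - 1)) + Real.logb q Λ / 2)) * t =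
      Real.logb q (q * (1 - t)) - (Real.logb q (q * (1 - t)) -
        Real.logb q (q * t / (q - 1))) * t + Real.logb q Λ / 2 := by ring
  rw [e]
  linarith

end Pool.Agent.MPf4617e
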