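import Pool.Agent.Lib.MP_f4617e_lc_G.S33

/-!
MP_f4617e_lc, project G: three symbols, a positive rate for all error fractions below one half.
-/

set_option autoImplicit false

namespace Pool.Agent.MPf4617e

/-- The rate of a system with `Z(E) ≥ θ ρ ^ |E|` and all levels at most the number of errors. -/
theorem achRate_of_goodR {q L : ℕ} [NeZero q] (hq : 2 ≤ q) (hL : 0 < L) {θ ρ τ : ℝ}
    (hθ : 1 < θ) (hρ : 0 < ρ) (hρ1 : ρ ≤ 1) (hτ0 : 0 < τ) (hτ1 : τ < 1 / 2)
    (h : GoodR q L (Real.logb q θ / L) (Real.logb q θ / L + Real.logb q ρ) 1 0) :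
    AchRate q τ (Real.logb q θ / L + τ * Real.logb q ρ) := by
  have hq' : (1 : ℝ) < q := by exact_mod_cast (show 1 < q by omega)
  have hL' : (0 : ℝ) < L := by exact_mod_cast hL
  have h1 : 0 < Real.logb q θ / L := div_pos (Real.logb_pos hq' hθ) hL'
  have h2 : Real.logb q ρ ≤ 0 := Real.logb_nonpos hq' hρ.le hρ1
  have h3 := engineG hq hL hτ0 hτ1 h1 (by linarith) one_pos le_rfl le_rfl (by linarith) h
  have e : Real.logb q θ / L - (Real.logb q θ / L - (Real.logb q θ / L + Real.logb q ρ)) * τ =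
      Real.logb q θ / L + τ * Real.logb q ρ := by ring
  rwa [e] at h3

/-- Three symbols: the rate `(1 / 3) log₃ (27 / 14) - τ log₃ (3 / 2)` for all `τ < 1 / 2`. -/
theorem achRate3 {τ : ℝ} (h0 : 0 < τ) (h1 : τ < 1 / 2) :
    AchRate 3 τ (Real.logb 3 (27 / 14) / 3 - τ * Real.logb 3 (3 / 2)) := by
  have h2 := achRate_of_goodR (q := 3) (L := 3) (by norm_num) (by norm_num) (by norm_num)
    (by norm_num) (by norm_num) h0 h1 goodR33
  have e : Real.logb (3 : ℕ) (2 / 3) = -Real.logb 3 (3 / 2) := by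
    rw [← Real.logb_inv]
    norm_num
  rw [e] at h2
  have e2 : Real.logb (3 : ℕ) (27 / 14) / (3 : ℕ) + τ * -Real.logb 3 (3 / 2) =
      Real.logb 3 (27 / 14) / 3 - τ * Real.logb 3 (3 / 2) := by
    push_cast
    ring
  rwa [e2] at h2

/-- The rate is more than `1 / 68` at all `τ ≤ 1 / 2`. -/
theorem rate3_pos {τ : ℝ} (h1 : τ ≤ 1 / 2) :
    1 / 68 < Real.logb 3 (27 / 14) / 3 - τ * Real.logb 3 (3 / 2) := by
  have h3 : 0 ≤ Real.logb 3 (3 / 2) := Real.logb_nonneg (by norm_num) (by norm_num)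
  have h4 : Real.logb 3 (27 / 14) / 3 - 1 / 2 * Real.logb 3 (3 / 2) ≤
      Real.logb 3 (27 / 14) / 3 - τ * Real.logb 3 (3 / 2) := by
    have := mul_le_mul_of_nonneg_right h1 h3
    linarith
  refine lt_of_lt_of_le ?_ h4
  have e : Real.logb 3 (27 / 14) / 3 - 1 / 2 * Real.logb 3 (3 / 2) =
      Real.logb 3 (54 / 49) / 6 := by
    have h5 : Real.logb 3 (54 / 49) = 2 * Real.logb 3 (27 / 14) - 3 * Real.logb 3 (3 / 2) := by
      rw [show (54 / 49 : ℝ) = (27 / 14) ^ 2 / (3 / 2) ^ 3 by norm_num,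
        Real.logb_div (x := (27 / 14 : ℝ) ^ 2) (by norm_num) (by norm_num)]
      have h6 : Real.logb 3 ((27 / 14 : ℝ) ^ 2) = 2 * Real.logb 3 (27 / 14) := by
        exact_mod_cast Real.logb_pow 3 (27 / 14) 2
      have h7 : Real.logb 3 ((3 / 2 : ℝ) ^ 3) = 3 * Real.logb 3 (3 / 2) := by
        exact_mod_cast Real.logb_pow 3 (3 / 2) 3
      rw [h6, h7]
    rw [h5]
    ring
  have h8 : (3 : ℝ) / 34 < Real.logb 3 (54 / 49) := by
    have h9 : (3 : ℝ) < 34 * Real.logb 3 (54 / 49) := by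
      have h10 : 34 * Real.logb 3 (54 / 49) = Real.logb 3 ((54 / 49 : ℝ) ^ 34) := by
        exact_mod_cast (Real.logb_pow 3 (54 / 49) 34).symm
      rw [h10, Real.lt_logb_iff_rpow_lt (by norm_num) (by norm_num)]
      have h11 : (3 : ℝ) ^ (3 : ℝ) = 27 := by
        rw [show (3 : ℝ) = ((3 : ℕ) : ℝ) by norm_num, Real.rpow_natCast]
        norm_num
      rw [h11]
      norm_num
    linarith
  rw [e]
  linarith

end Pool.Agent.MPf4617e
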