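import Pool.Agent.Lib.MP_f4617e_lc_G.CertR

/-!
MP_f4617e_lc, project G: one reserved symbol, blocks of length one.
-/

set_option autoImplicit false

namespace Pool.Agent.MPf4617e

open Finset

/-- With probability `p` one cell, else the cells are the single symbols, the reserved symbol `1`
is in the cell of `0`. -/
noncomputable def law1 (q : ℕ) [NeZero q] (p : ℝ) (h0 : 0 ≤ p) (h1 : p ≤ 1) : GLaw q 1 where
  m := 2
  N := q
  P := ![p, 1 - p]
  cell ω y := if ω = 0 then 0 else if y 0 = 1 then 0 else y 0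
  good ω c E := if ω = 0 then c = 0 else E = ∅ ∧ c ≠ 1
  wd _ c _ _ := c
  P_nonneg := by
    intro ω
    fin_cases ω
    · exact h0
    · change 0 ≤ 1 - p
      linarith
  P_sum := by
    rw [Fin.sum_univ_two]
    simp
  good_cell := by
    intro ω c E hg y hy
    by_cases hω : ω = 0
    · rw [if_pos hω] at hg ⊢
      exact hg.symm
    · rw [if_neg hω] at hg ⊢
      rw [hy 0 (by rw [hg.1]; exact Finset.notMem_empty _), if_neg hg.2]

open Classical in
theorem law1_Z {q : ℕ} [NeZero q] (hq : 2 ≤ q) {p : ℝ} (h0 : 0 ≤ p) (h1 : p ≤ 1)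
    (E : Finset (Fin 1)) : (law1 q p h0 h1).Z E =
      if E = ∅ then p + (1 - p) * (q - 1) else p := by
  have e0 : (law1 q p h0 h1).Z E = ∑ ω : Fin 2, (![p, 1 - p] : Fin 2 → ℝ) ω * ∑ c : Fin q,
      (if (if ω = 0 then c = 0 else E = ∅ ∧ c ≠ 1) then (1 : ℝ) else 0) := by
    unfold GLaw.Z
    refine Finset.sum_congr rfl fun ω _ => ?_
    congr 1
    exact Finset.sum_congr rfl fun c _ => if_congr Iff.rfl rfl rfl
  rw [e0, Fin.sum_univ_two]
  simp only [Matrix.cons_val_zero, Matrix.cons_val_one, if_true, one_ne_zero, if_false]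
  have e1 : ∑ c : Fin q, (if c = 0 then (1 : ℝ) else 0) = 1 := by
    rw [Finset.sum_ite_eq']
    simp
  rw [e1, mul_one]
  by_cases hE : E = ∅
  · simp only [hE, true_and, if_true]
    congr 2
    rw [Finset.sum_boole, Finset.filter_ne', Finset.card_erase_of_mem (Finset.mem_univ _),
      Finset.card_univ, Fintype.card_fin, Nat.cast_sub (by omega)]
    simp
  · simp only [hE, false_and, if_false, Finset.sum_const_zero, mul_zero, add_zero]

theorem law1_ne {q : ℕ} [NeZero q] (h10 : (1 : Fin q) ≠ 0) {p : ℝ} (h0 : 0 ≤ p) (h1 : p ≤ 1)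
    {E : Finset (Fin 1)} (ω : Fin 2) (c : Fin q) (hg : (law1 q p h0 h1).good ω c E) :
    c ≠ 1 := by
  change (if ω = 0 then c = 0 else E = ∅ ∧ c ≠ 1) at hg
  split_ifs at hg with hω
  · rw [hg]
    exact h10.symm
  · exact hg.2

theorem good1 {q : ℕ} [NeZero q] (hq : 3 ≤ q) {τ : ℝ} (h0 : 0 < τ) (h1 : τ < 1 / 2) :
    GoodR q 1 (Real.logb q ((q - 1) * (1 - τ))) (Real.logb q (τ * (q - 1) / (q - 2))) 1 0 := by
  classical
  have hq' : (3 : ℝ) ≤ q := by exact_mod_cast hq
  have hq0 : (0 : ℝ) < q := by linarith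
  have hq1 : (1 : ℝ) < q := by linarith
  have hq2 : (0 : ℝ) < q - 2 := by linarith
  have hqm : (0 : ℝ) < q - 1 := by linarith
  have p0 : 0 < τ * (q - 1) / (q - 2) := by positivity
  have p1 : τ * (q - 1) / (q - 2) ≤ 1 := by
    rw [div_le_one hq2]
    nlinarith
  have h10 : (1 : Fin q) ≠ 0 := by
    intro h
    have h2 := congrArg Fin.val h
    rw [Fin.val_one', Fin.val_zero, Nat.mod_eq_of_lt (by omega)] at h2
    exact one_ne_zero h2
  refine goodR_single (by omega) (fun _ _ => 1) (fun _ _ _ => h10)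
    (law1 q _ p0.le p1) ?_ ?_
  · intro E
    rw [law1_Z (by omega)]
    by_cases hE : E = ∅
    · rw [if_pos hE, hE, Finset.card_empty]
      have e : Real.logb q ((q - 1) * (1 - τ)) * (((1 : ℕ) : ℝ) - ((0 : ℕ) : ℝ)) +
          Real.logb q (τ * (q - 1) / (q - 2)) * ((0 : ℕ) : ℝ) =
          Real.logb q ((q - 1) * (1 - τ)) := by
        push_cast
        ring
      rw [e, Real.rpow_logb hq0 hq1.ne' (mul_pos hqm (by linarith))]
      apply le_of_eq
      field_simp
      ring
    · rw [if_neg hE]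
      have hc : E.card = 1 := by
        have h2 : 0 < E.card := Finset.card_pos.2 (Finset.nonempty_iff_ne_empty.2 hE)
        have h3 : E.card ≤ 1 := by simpa using Finset.card_le_univ E
        omega
      rw [hc]
      have e : Real.logb q ((q - 1) * (1 - τ)) * (((1 : ℕ) : ℝ) - ((1 : ℕ) : ℝ)) +
          Real.logb q (τ * (q - 1) / (q - 2)) * ((1 : ℕ) : ℝ) =
          Real.logb q (τ * (q - 1) / (q - 2)) := by
        push_cast
        ring
      rw [e, Real.rpow_logb hq0 hq1.ne' p0]
  · intro E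
    refine GLaw.Y_le _ _ E fun ω c hg => ?_
    rw [lvl_le_iff]
    intro y hy V hV
    have hV1 : V.card ≤ 1 := by simpa using Finset.card_le_univ V
    by_cases hE : E = ∅
    · rw [hE, Finset.card_empty, Nat.le_zero, Finset.card_eq_zero]
      by_contra hne
      obtain ⟨i, hi⟩ := Finset.nonempty_iff_ne_empty.2 hne
      have h2 := hV i hi
      have h3 := hy i (by rw [hE]; exact Finset.notMem_empty _)
      rw [h2] at h3
      exact law1_ne h10 p0.le p1 ω c hg h3.symm
    · have h2 : 0 < E.card := Finset.card_pos.2 (Finset.nonempty_iff_ne_empty.2 hE)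
      omega

/-- The rate of the Hamming bound for one symbol less. -/
theorem rate1 {q : ℕ} (h3 : 3 ≤ q) {t : ℝ} (h0 : 0 < t) (h1 : t < 1 / 2) :
    AchRate q t (Real.logb q (q - 1) - hq q t - t * Real.logb q (q - 2)) := by
  have hne : NeZero q := ⟨by omega⟩
  have hq' : (3 : ℝ) ≤ q := by exact_mod_cast h3
  have hq0 : (0 : ℝ) < q := by linarith
  have hq1 : (1 : ℝ) < q := by linarith
  have hq2 : (0 : ℝ) < q - 2 := by linarith
  have hqm : (0 : ℝ) < q - 1 := by linarith
  have ht1 : 0 < 1 - t := by linarith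
  have p0 : 0 < t * (q - 1) / (q - 2) := by positivity
  have hA : 0 < Real.logb q ((q - 1) * (1 - t)) := Real.logb_pos hq1 (by nlinarith)
  have hD : Real.logb q (t * (q - 1) / (q - 2)) ≤ Real.logb q ((q - 1) * (1 - t)) := by
    refine Real.logb_le_logb_of_le hq1 p0 ?_
    rw [div_le_iff₀ hq2]
    nlinarith [mul_pos hqm hq2]
  have h := engineG (by omega) one_pos h0 h1 hA hD one_pos le_rfl le_rfl (by linarith)
    (good1 h3 h0 h1)
  have e : Real.logb q ((q - 1) * (1 - t)) - (Real.logb q ((q - 1) * (1 - t)) -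
      Real.logb q (t * (q - 1) / (q - 2))) * t =
      Real.logb q (q - 1) - hq q t - t * Real.logb q (q - 2) := by
    unfold hq
    rw [Real.logb_mul hqm.ne' ht1.ne', Real.logb_div (by positivity) hq2.ne',
      Real.logb_mul h0.ne' hqm.ne']
    ring
  rw [e] at h
  exact h

end Pool.Agent.MPf4617e
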