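import Pool.Agent.Lib.MP_f4617e_lc_G.CertR

/-!
MP_f4617e_lc, project G: a law without excess for three symbols, blocks of length three
(cyclic table: the special word of a set has at `i` a symbol that tells whether the cyclic
predecessor of `i` lies in the set).
-/

set_option autoImplicit false

namespace Pool.Agent.MPf4617e

open Finset

/-- special words -/
def ztR : List ℕ := [0, 1, 3, 7, 9, 11, 21, 26]

/-- levels -/
def ltR : List ℕ :=
  [0, 1, 0, 1, 1, 1, 0, 2, 0, 1, 1, 2, 1, 1, 2, 1, 2, 2, 0, 1, 0, 2, 2, 2, 0, 2, 3]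

/-- key 0 -/
def kR_0 : KeyData where
  tab :=
    [0, 0, 0, 0, 0, 0, 0, 0, 0, 0, 0, 0, 0, 0, 0, 0, 0, 0, 0, 0, 0, 0, 0, 0, 0, 0, 0]
  sv := [[(0, 24, 0)], [(0, 18, 1)], [(0, 9, 1)], [(0, 9, 2)], [(0, 6, 1)], [(0, 3, 2)], [(0,
    1, 2)], [(0, 0, 3)]]

/-- key 1 -/
def kR_1 : KeyData where
  tab :=
    [2, 2, 2, 0, 0, 0, 0, 0, 0, 0, 0, 0, 0, 0, 0, 0, 0, 0, 1, 1, 1, 0, 0, 0, 0, 0, 0]
  sv := [[(0, 24, 0), (1, 20, 0), (2, 2, 0)], [(0, 3, 1), (1, 18, 1), (2, 0, 1)], [(0, 9, 1)],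
    [(0, 9, 2)], [(0, 6, 1)], [(0, 3, 2)], [], []]

/-- key 2 -/
def kR_2 : KeyData where
  tab :=
    [1, 0, 2, 1, 0, 2, 1, 0, 2, 0, 0, 0, 0, 0, 0, 0, 0, 0, 0, 0, 0, 0, 0, 0, 0, 0, 0]
  sv := [[(0, 24, 0), (1, 6, 0), (2, 8, 0)], [(0, 18, 1)], [(0, 9, 1), (1, 0, 1), (2, 2, 1)],
    [(0, 9, 2)], [(0, 1, 1)], [], [(0, 1, 2)], []]

/-- key 3 -/
def kR_3 : KeyData where
  tab :=
    [2, 0, 0, 0, 0, 0, 1, 0, 0, 2, 0, 0, 0, 0, 0, 1, 0, 0, 2, 0, 0, 0, 0, 0, 1, 0, 0]
  sv := [[(0, 20, 0), (1, 24, 0), (2, 18, 0)], [(0, 3, 1)], [(0, 2, 1)], [], [(0, 1, 1), (1, 6,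
    1), (2, 0, 1)], [(0, 3, 2)], [(0, 1, 2)], []]

/-- key 4 -/
def kR_4 : KeyData where
  tab :=
    [2, 0, 0, 0, 0, 0, 1, 0, 0, 2, 0, 0, 0, 0, 0, 1, 0, 0, 2, 0, 3, 0, 0, 0, 1, 0, 0]
  sv := [[(0, 8, 0), (1, 24, 0), (2, 18, 0), (3, 20, 0)], [(0, 3, 1)], [(0, 2, 1)], [], [(0, 1,
    1), (1, 6, 1), (2, 0, 1)], [(0, 3, 2)], [(0, 1, 2)], []]

/-- the keys -/
def DR : List KeyData := [kR_0, kR_1, kR_2, kR_3, kR_4]

theorem zchkR : zchk 3 3 ztR ltR = true := by decide +kernel

theorem kchkR : DR.all (kchk 3 3 4 ltR) = true := by decide +kernel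

/-- the weights -/
noncomputable def PR : List ℝ := [4 / 7, 1 / 7, 1 / 7, 1 / 14, 1 / 14]

private theorem nR_0 : DR.map (nE 0) = [1, 3, 3, 3, 4] := by decide

private theorem yR_0 : DR.map (yE 0) = [0, 0, 0, 0, 0] := by decide

private theorem nR_1 : DR.map (nE 1) = [1, 3, 1, 1, 1] := by decide

private theorem yR_1 : DR.map (yE 1) = [1, 3, 1, 1, 1] := by decide

private theorem nR_2 : DR.map (nE 2) = [1, 1, 3, 1, 1] := by decide

private theorem yR_2 : DR.map (yE 2) = [1, 1, 3, 1, 1] := by decide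

private theorem nR_3 : DR.map (nE 3) = [1, 1, 1, 0, 0] := by decide

private theorem yR_3 : DR.map (yE 3) = [2, 2, 2, 0, 0] := by decide

private theorem nR_4 : DR.map (nE 4) = [1, 1, 1, 3, 3] := by decide

private theorem yR_4 : DR.map (yE 4) = [1, 1, 1, 3, 3] := by decide

private theorem nR_5 : DR.map (nE 5) = [1, 1, 0, 1, 1] := by decide

private theorem yR_5 : DR.map (yE 5) = [2, 2, 0, 2, 2] := by decide

private theorem nR_6 : DR.map (nE 6) = [1, 0, 1, 1, 1] := by decide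

private theorem yR_6 : DR.map (yE 6) = [2, 0, 2, 2, 2] := by decide

private theorem nR_7 : DR.map (nE 7) = [1, 0, 0, 0, 0] := by decide

private theorem yR_7 : DR.map (yE 7) = [3, 0, 0, 0, 0] := by decide

/-- the exponent of the clean positions -/
noncomputable def AR : ℝ := Real.logb 3 (27 / 14) / 3

/-- the exponent of the errors -/
noncomputable def DDR : ℝ := AR + Real.logb 3 (2 / 3)

theorem powR (k : ℕ) : (3 : ℝ) ^ (AR * (3 - k) + DDR * k) = 27 / 14 * (2 / 3) ^ k := by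
  have e : AR * (3 - k) + DDR * k = Real.logb 3 (27 / 14) + Real.logb 3 (2 / 3) * k := by
    unfold DDR AR
    ring
  rw [e, Real.rpow_add (by norm_num), Real.rpow_mul (by norm_num), Real.rpow_logb (by norm_num)
    (by norm_num) (by norm_num), Real.rpow_logb (by norm_num) (by norm_num) (by norm_num),
    Real.rpow_natCast]

theorem goodR33 : GoodR 3 3 AR DDR 1 0 := by
  have p0 : pc 3 0 = 0 := by decide
  have p1 : pc 3 1 = 1 := by decide
  have p2 : pc 3 2 = 1 := by decide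
  have p3 : pc 3 3 = 2 := by decide
  have p4 : pc 3 4 = 1 := by decide
  have p5 : pc 3 5 = 2 := by decide
  have p6 : pc 3 6 = 2 := by decide
  have p7 : pc 3 7 = 3 := by decide
  refine goodR_cert (N := 4) (K := DR) (Pl := PR) (zt := ztR) (lt := ltR) (by norm_num)
    zero_le_one le_rfl rfl ?_ ?_ zchkR kchkR ?_ ?_
  · intro p hp
    simp only [PR, List.mem_cons, List.not_mem_nil, or_false] at hp
    rcases hp with h | h | h | h | h <;> rw [h] <;> norm_num
  · unfold PR
    norm_num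
  · intro m hm
    have h := powR (pc 3 m)
    push_cast
    rw [h]
    interval_cases m
    · rw [p0, nR_0, PR]
      simp only [dot]
      norm_num
    · rw [p1, nR_1, PR]
      simp only [dot]
      norm_num
    · rw [p2, nR_2, PR]
      simp only [dot]
      norm_num
    · rw [p3, nR_3, PR]
      simp only [dot]
      norm_num
    · rw [p4, nR_4, PR]
      simp only [dot]
      norm_num
    · rw [p5, nR_5, PR]
      simp only [dot]
      norm_num
    · rw [p6, nR_6, PR]
      simp only [dot]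
      norm_num
    · rw [p7, nR_7, PR]
      simp only [dot]
      norm_num
  · intro m hm
    interval_cases m
    · rw [p0, nR_0, yR_0, PR]
      simp only [dot]
      norm_num
    · rw [p1, nR_1, yR_1, PR]
      simp only [dot]
      norm_num
    · rw [p2, nR_2, yR_2, PR]
      simp only [dot]
      norm_num
    · rw [p3, nR_3, yR_3, PR]
      simp only [dot]
      norm_num
    · rw [p4, nR_4, yR_4, PR]
      simp only [dot]
      norm_num
    · rw [p5, nR_5, yR_5, PR]
      simp only [dot]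
      norm_num
    · rw [p6, nR_6, yR_6, PR]
      simp only [dot]
      norm_num
    · rw [p7, nR_7, yR_7, PR]
      simp only [dot]
      norm_num

/-- three symbols: a positive rate up to one half -/
theorem rate33 {t : ℝ} (h0 : 0 < t) (h1 : t < 1 / 2) :
    AchRate 3 t (Real.logb 3 (27 / 14) / 3 - t * Real.logb 3 (3 / 2)) := by
  have hA : 0 < AR := by
    unfold AR
    have : 0 < Real.logb 3 (27 / 14) := Real.logb_pos (by norm_num) (by norm_num)
    positivity
  have hD : Real.logb 3 (2 / 3) = -Real.logb 3 (3 / 2) := by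
    rw [← Real.logb_inv]
    norm_num
  have hD1 : 0 < Real.logb 3 (3 / 2) := Real.logb_pos (by norm_num) (by norm_num)
  have h := engineG (by norm_num : 2 ≤ 3) (by norm_num : 0 < 3) h0 h1 hA
    (by unfold DDR; linarith) one_pos le_rfl le_rfl (by linarith) goodR33
  have e : AR - (AR - DDR) * t = Real.logb 3 (27 / 14) / 3 - t * Real.logb 3 (3 / 2) := by
    unfold DDR
    rw [hD]
    unfold AR
    ring
  rw [e] at h
  exact h

end Pool.Agent.MPf4617e
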