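import Pool.Agent.Lib.MP_f4617e_lc_G.CertR

/-!
MP_f4617e_lc, project G: a law without excess for four symbols, blocks of length three.
-/

set_option autoImplicit false

namespace Pool.Agent.MPf4617e

open Finset

/-- special words -/
def ztR43 : List ℕ := [0, 1, 4, 6, 16, 33, 24, 42]

/-- levels -/
def ltR43 : List ℕ :=
    [0, 1, 0, 0, 1, 1, 2, 1, 0, 1, 0, 0, 0, 1, 0, 0, 1, 1, 1, 1, 1, 1, 2, 1, 2, 2, 2, 2, 1, 1,
    1, 1, 0, 2, 0, 0, 1, 2, 2, 1, 0, 2, 3, 0, 0, 2, 0, 0, 0, 1, 0, 0, 1, 1, 2, 1, 0, 1, 0, 0,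
    0, 1, 0, 0]

/-- key 0 -/
def kR43_0 : KeyData where
  tab :=
    [0, 0, 0, 0, 0, 0, 0, 0, 0, 0, 0, 0, 0, 0, 0, 0, 0, 0, 0, 0, 0, 0, 0, 0, 0, 0, 0, 0, 0, 0,
    0, 0, 0, 0, 0, 0, 0, 0, 0, 0, 0, 0, 0, 0, 0, 0, 0, 0, 0, 0, 0, 0, 0, 0, 0, 0, 0, 0, 0, 0,
    0, 0, 0, 0]
  sv :=
    [[(0, 0, 0)], [(0, 0, 1)], [(0, 0, 1)], [(0, 0, 2)], [(0, 0, 1)], [(0, 0, 2)], [(0, 0, 2)],
    [(0, 0, 3)]]

/-- key 1 -/
def kR43_1 : KeyData where
  tab :=
    [0, 1, 2, 3, 0, 1, 1, 3, 0, 1, 4, 3, 0, 1, 1, 3, 1, 1, 1, 1, 1, 1, 1, 1, 1, 1, 1, 1, 1, 1,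
    1, 1, 5, 1, 6, 7, 5, 1, 8, 7, 5, 1, 9, 7, 5, 1, 1, 7, 10, 1, 11, 12, 10, 1, 1, 12, 10, 1,
    13, 12, 10, 1, 1, 12]
  sv :=
    [[(0, 0, 0), (1, 14, 0), (2, 2, 0), (3, 3, 0), (4, 10, 0), (5, 32, 0), (6, 34, 0), (7, 35,
    0), (10, 48, 0), (11, 50, 0), (12, 51, 0), (13, 58, 0)], [(1, 16, 1)], [(0, 0, 1), (1, 1,
    1), (3, 3, 1), (5, 32, 1), (7, 35, 1), (10, 48, 1), (12, 51, 1)], [(1, 16, 2)], [(1, 14,
    1)], [], [(1, 1, 2)], []]

/-- key 2 -/
def kR43_2 : KeyData where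
  tab :=
    [0, 1, 2, 3, 1, 1, 1, 1, 4, 1, 5, 6, 7, 1, 8, 9, 0, 1, 2, 3, 1, 1, 1, 1, 1, 1, 10, 1, 7, 1,
    8, 9, 0, 1, 2, 3, 1, 1, 1, 1, 11, 1, 12, 13, 7, 1, 8, 9, 0, 1, 2, 3, 1, 1, 1, 1, 1, 1, 1,
    1, 7, 1, 8, 9]
  sv :=
    [[(0, 0, 0), (1, 56, 0), (2, 2, 0), (3, 3, 0), (4, 8, 0), (5, 10, 0), (6, 11, 0), (7, 12,
    0), (8, 14, 0), (9, 15, 0), (11, 40, 0), (13, 43, 0)], [(1, 56, 1)], [(1, 1, 1)], [], [(0,
    0, 1), (1, 4, 1), (2, 2, 1), (3, 3, 1), (7, 12, 1), (8, 14, 1), (9, 15, 1)], [(1, 4, 2)],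
    [(1, 1, 2)], []]

/-- key 3 -/
def kR43_3 : KeyData where
  tab :=
    [0, 0, 0, 0, 1, 1, 1, 1, 2, 2, 2, 2, 3, 3, 3, 3, 1, 1, 1, 1, 1, 1, 1, 1, 1, 1, 1, 1, 1, 1,
    1, 1, 4, 1, 5, 1, 1, 1, 1, 1, 6, 7, 8, 1, 9, 1, 10, 1, 11, 11, 11, 11, 1, 1, 1, 1, 12, 12,
    12, 12, 13, 13, 13, 13]
  sv :=
    [[(0, 0, 0), (1, 35, 0), (2, 8, 0), (3, 12, 0), (4, 32, 0), (5, 34, 0), (6, 40, 0), (9, 44,
    0), (10, 46, 0), (11, 48, 0), (12, 56, 0), (13, 60, 0)], [(0, 0, 1), (1, 16, 1), (2, 8, 1),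
    (3, 12, 1), (11, 48, 1), (12, 56, 1), (13, 60, 1)], [(1, 35, 1)], [(1, 16, 2)], [(1, 4,
    1)], [(1, 4, 2)], [], []]

/-- the keys -/
def DR43 : List KeyData := [kR43_0, kR43_1, kR43_2, kR43_3]

theorem zchkR43 : zchk 4 3 ztR43 ltR43 = true := by decide +kernel

theorem kchkR43 : DR43.all (kchk 4 3 14 ltR43) = true := by decide +kernel

/-- the weights -/
noncomputable def PR43 : List ℝ := [4 / 19, 5 / 19, 5 / 19, 5 / 19]

private theorem nR43_0 : DR43.map (nE 0) = [1, 12, 12, 12] := by decide +kernel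

private theorem yR43_0 : DR43.map (yE 0) = [0, 0, 0, 0] := by decide +kernel

private theorem nR43_1 : DR43.map (nE 1) = [1, 1, 1, 7] := by decide +kernel

private theorem yR43_1 : DR43.map (yE 1) = [1, 1, 1, 7] := by decide +kernel

private theorem nR43_2 : DR43.map (nE 2) = [1, 7, 1, 1] := by decide +kernel

private theorem yR43_2 : DR43.map (yE 2) = [1, 7, 1, 1] := by decide +kernel

private theorem nR43_3 : DR43.map (nE 3) = [1, 1, 0, 1] := by decide +kernel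

private theorem yR43_3 : DR43.map (yE 3) = [2, 2, 0, 2] := by decide +kernel

private theorem nR43_4 : DR43.map (nE 4) = [1, 1, 7, 1] := by decide +kernel

private theorem yR43_4 : DR43.map (yE 4) = [1, 1, 7, 1] := by decide +kernel

private theorem nR43_5 : DR43.map (nE 5) = [1, 0, 1, 1] := by decide +kernel

private theorem yR43_5 : DR43.map (yE 5) = [2, 0, 2, 2] := by decide +kernel

private theorem nR43_6 : DR43.map (nE 6) = [1, 1, 1, 0] := by decide +kernel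

private theorem yR43_6 : DR43.map (yE 6) = [2, 2, 2, 0] := by decide +kernel

private theorem nR43_7 : DR43.map (nE 7) = [1, 0, 0, 0] := by decide +kernel

private theorem yR43_7 : DR43.map (yE 7) = [3, 0, 0, 0] := by decide +kernel

/-- the exponent of the clean positions -/
noncomputable def AR43 : ℝ := Real.logb 4 (343 / 38) / 3

/-- the exponent of the errors -/
noncomputable def DDR43 : ℝ := AR43 + Real.logb 4 (2 / 7)

theorem powR43 (k : ℕ) : (4 : ℝ) ^ (AR43 * (3 - k) + DDR43 * k) = 343 / 38 * (2 / 7) ^ k := by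
  have e : AR43 * (3 - k) + DDR43 * k = Real.logb 4 (343 / 38) + Real.logb 4 (2 / 7) * k := by
    unfold DDR43 AR43
    ring
  rw [e, Real.rpow_add (by norm_num), Real.rpow_mul (by norm_num), Real.rpow_logb (by norm_num)
    (by norm_num) (by norm_num), Real.rpow_logb (by norm_num) (by norm_num) (by norm_num),
    Real.rpow_natCast]

theorem goodRR43 : GoodR 4 3 AR43 DDR43 1 0 := by
  have p0 : pc 3 0 = 0 := by decide
  have p1 : pc 3 1 = 1 := by decide
  have p2 : pc 3 2 = 1 := by decide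
  have p3 : pc 3 3 = 2 := by decide
  have p4 : pc 3 4 = 1 := by decide
  have p5 : pc 3 5 = 2 := by decide
  have p6 : pc 3 6 = 2 := by decide
  have p7 : pc 3 7 = 3 := by decide
  refine goodR_cert (N := 14) (K := DR43) (Pl := PR43) (zt := ztR43) (lt := ltR43) (by norm_num)
    zero_le_one le_rfl rfl ?_ ?_ zchkR43 kchkR43 ?_ ?_
  · intro p hp
    simp only [PR43, List.mem_cons, List.not_mem_nil, or_false] at hp
    rcases hp with h | h | h | h <;> rw [h] <;> norm_num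
  · unfold PR43
    norm_num
  · intro m hm
    have h := powR43 (pc 3 m)
    push_cast
    rw [h]
    interval_cases m
    · rw [p0, nR43_0, PR43]
      simp only [dot]
      norm_num
    · rw [p1, nR43_1, PR43]
      simp only [dot]
      norm_num
    · rw [p2, nR43_2, PR43]
      simp only [dot]
      norm_num
    · rw [p3, nR43_3, PR43]
      simp only [dot]
      norm_num
    · rw [p4, nR43_4, PR43]
      simp only [dot]
      norm_num
    · rw [p5, nR43_5, PR43]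
      simp only [dot]
      norm_num
    · rw [p6, nR43_6, PR43]
      simp only [dot]
      norm_num
    · rw [p7, nR43_7, PR43]
      simp only [dot]
      norm_num
  · intro m hm
    interval_cases m
    · rw [p0, nR43_0, yR43_0, PR43]
      simp only [dot]
      norm_num
    · rw [p1, nR43_1, yR43_1, PR43]
      simp only [dot]
      norm_num
    · rw [p2, nR43_2, yR43_2, PR43]
      simp only [dot]
      norm_num
    · rw [p3, nR43_3, yR43_3, PR43]
      simp only [dot]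
      norm_num
    · rw [p4, nR43_4, yR43_4, PR43]
      simp only [dot]
      norm_num
    · rw [p5, nR43_5, yR43_5, PR43]
      simp only [dot]
      norm_num
    · rw [p6, nR43_6, yR43_6, PR43]
      simp only [dot]
      norm_num
    · rw [p7, nR43_7, yR43_7, PR43]
      simp only [dot]
      norm_num

/-- a law without excess for four symbols, blocks of length three. -/
theorem rateR43 {t : ℝ} (h0 : 0 < t) (h1 : t < 1 / 2) :
    AchRate 4 t (Real.logb 4 (343 / 38) / 3 - t * Real.logb 4 (7 / 2)) := by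
  have hA : 0 < AR43 := by
    unfold AR43
    have : 0 < Real.logb 4 (343 / 38) := Real.logb_pos (by norm_num) (by norm_num)
    positivity
  have hD : Real.logb 4 (2 / 7) = -Real.logb 4 (7 / 2) := by
    rw [← Real.logb_inv]
    norm_num
  have hD1 : 0 < Real.logb 4 (7 / 2) := Real.logb_pos (by norm_num) (by norm_num)
  have h := engineG (by norm_num : 2 ≤ 4) (by norm_num : 0 < 3) h0 h1 hA
    (by unfold DDR43; linarith) one_pos le_rfl le_rfl (by linarith) goodRR43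
  have e : AR43 - (AR43 - DDR43) * t = Real.logb 4 (343 / 38) / 3 - t * Real.logb 4 (7 / 2) := by
    unfold DDR43
    rw [hD]
    unfold AR43
    ring
  rw [e] at h
  exact h

end Pool.Agent.MPf4617e
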