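import Pool.Agent.Lib.MP_f4617e_lc_G.CertR

/-!
MP_f4617e_lc, project G: a law without excess for five symbols, blocks of length three.
-/

set_option autoImplicit false

namespace Pool.Agent.MPf4617e

open Finset

/-- special words -/
def ztR53 : List ℕ := [0, 1, 5, 7, 25, 51, 35, 62]

/-- levels -/
def ltR53 : List ℕ :=
    [0, 1, 0, 0, 0, 1, 1, 2, 1, 1, 0, 1, 0, 0, 0, 0, 1, 0, 0, 0, 0, 1, 0, 0, 0, 1, 1, 1, 1, 1,
    1, 1, 2, 1, 1, 2, 2, 2, 2, 2, 1, 1, 1, 1, 1, 1, 1, 1, 1, 1, 0, 2, 0, 0, 0, 1, 2, 2, 1, 1,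
    0, 2, 3, 0, 0, 0, 2, 0, 0, 0, 0, 2, 0, 0, 0, 0, 1, 0, 0, 0, 1, 1, 2, 1, 1, 0, 1, 0, 0, 0,
    0, 1, 0, 0, 0, 0, 1, 0, 0, 0, 0, 1, 0, 0, 0, 1, 1, 2, 1, 1, 0, 1, 0, 0, 0, 0, 1, 0, 0, 0,
    0, 1, 0, 0, 0]

/-- key 0 -/
def kR53_0 : KeyData where
  tab :=
    [0, 0, 0, 0, 0, 0, 0, 0, 0, 0, 0, 0, 0, 0, 0, 0, 0, 0, 0, 0, 0, 0, 0, 0, 0, 0, 0, 0, 0, 0,
    0, 0, 0, 0, 0, 0, 0, 0, 0, 0, 0, 0, 0, 0, 0, 0, 0, 0, 0, 0, 0, 0, 0, 0, 0, 0, 0, 0, 0, 0,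
    0, 0, 0, 0, 0, 0, 0, 0, 0, 0, 0, 0, 0, 0, 0, 0, 0, 0, 0, 0, 0, 0, 0, 0, 0, 0, 0, 0, 0, 0,
    0, 0, 0, 0, 0, 0, 0, 0, 0, 0, 0, 0, 0, 0, 0, 0, 0, 0, 0, 0, 0, 0, 0, 0, 0, 0, 0, 0, 0, 0,
    0, 0, 0, 0, 0]
  sv :=
    [[(0, 0, 0)], [(0, 0, 1)], [(0, 0, 1)], [(0, 0, 2)], [(0, 0, 1)], [(0, 0, 2)], [(0, 0, 2)],
    [(0, 0, 3)]]

/-- key 1 -/
def kR53_1 : KeyData where
  tab :=
    [0, 1, 2, 3, 4, 0, 1, 1, 3, 4, 0, 1, 5, 3, 4, 0, 1, 6, 3, 4, 0, 1, 1, 3, 4, 1, 1, 1, 1, 1,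
    1, 1, 1, 1, 1, 1, 1, 1, 1, 1, 1, 1, 1, 1, 1, 1, 1, 1, 1, 1, 7, 1, 8, 9, 10, 7, 1, 1, 9, 10,
    7, 1, 11, 9, 10, 7, 1, 12, 9, 10, 7, 1, 1, 9, 10, 13, 1, 14, 15, 16, 13, 1, 17, 15, 16, 13,
    1, 18, 15, 16, 13, 1, 19, 15, 16, 13, 1, 1, 15, 16, 20, 1, 21, 22, 23, 20, 1, 1, 22, 23,
    20, 1, 24, 22, 23, 20, 1, 25, 22, 23, 20, 1, 1, 22, 23]
  sv :=
    [[(0, 0, 0), (1, 22, 0), (2, 2, 0), (3, 3, 0), (4, 4, 0), (5, 12, 0), (6, 17, 0), (7, 50,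
    0), (8, 52, 0), (9, 53, 0), (10, 54, 0), (12, 67, 0), (13, 75, 0), (14, 77, 0), (15, 78,
    0), (16, 79, 0), (18, 87, 0), (19, 92, 0), (20, 100, 0), (21, 102, 0), (22, 103, 0), (23,
    104, 0), (24, 112, 0), (25, 117, 0)], [(1, 25, 1)], [(0, 0, 1), (1, 1, 1), (3, 3, 1), (4,
    4, 1), (7, 50, 1), (9, 53, 1), (10, 54, 1), (13, 75, 1), (15, 78, 1), (16, 79, 1), (20,
    100, 1), (22, 103, 1), (23, 104, 1)], [(1, 25, 2)], [(1, 22, 1)], [], [(1, 1, 2)], []]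

/-- key 2 -/
def kR53_2 : KeyData where
  tab :=
    [0, 1, 2, 3, 4, 1, 1, 1, 1, 1, 5, 1, 6, 7, 8, 9, 1, 10, 11, 12, 13, 1, 14, 15, 16, 0, 1, 2,
    3, 4, 1, 1, 1, 1, 1, 1, 1, 1, 17, 1, 9, 1, 10, 11, 12, 13, 1, 14, 15, 16, 0, 1, 2, 3, 4, 1,
    1, 1, 1, 1, 18, 1, 19, 20, 21, 9, 1, 10, 11, 12, 13, 1, 14, 15, 16, 0, 1, 2, 3, 4, 1, 1, 1,
    1, 1, 22, 1, 23, 24, 25, 9, 1, 10, 11, 12, 13, 1, 14, 15, 16, 0, 1, 2, 3, 4, 1, 1, 1, 1, 1,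
    1, 1, 1, 1, 1, 9, 1, 10, 11, 12, 13, 1, 14, 15, 16]
  sv :=
    [[(0, 0, 0), (1, 110, 0), (2, 2, 0), (3, 3, 0), (4, 4, 0), (5, 10, 0), (6, 12, 0), (7, 13,
    0), (8, 14, 0), (9, 15, 0), (10, 17, 0), (11, 18, 0), (12, 19, 0), (13, 20, 0), (14, 22,
    0), (15, 23, 0), (16, 24, 0), (18, 60, 0), (20, 63, 0), (21, 64, 0), (22, 85, 0), (23, 87,
    0), (24, 88, 0), (25, 89, 0)], [(1, 110, 1)], [(1, 1, 1)], [], [(0, 0, 1), (1, 5, 1), (2,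
    2, 1), (3, 3, 1), (4, 4, 1), (9, 15, 1), (10, 17, 1), (11, 18, 1), (12, 19, 1), (13, 20,
    1), (14, 22, 1), (15, 23, 1), (16, 24, 1)], [(1, 5, 2)], [(1, 1, 2)], []]

/-- key 3 -/
def kR53_3 : KeyData where
  tab :=
    [0, 0, 0, 0, 0, 1, 1, 1, 1, 1, 2, 2, 2, 2, 2, 3, 3, 3, 3, 3, 4, 4, 4, 4, 4, 1, 1, 1, 1, 1,
    1, 1, 1, 1, 1, 1, 1, 1, 1, 1, 1, 1, 1, 1, 1, 1, 1, 1, 1, 1, 5, 1, 6, 7, 1, 1, 1, 1, 1, 1,
    8, 1, 9, 10, 1, 11, 12, 13, 14, 1, 15, 1, 16, 17, 1, 18, 18, 18, 18, 18, 1, 1, 1, 1, 1, 19,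
    19, 19, 19, 19, 20, 20, 20, 20, 20, 21, 21, 21, 21, 21, 22, 22, 22, 22, 22, 1, 1, 1, 1, 1,
    23, 23, 23, 23, 23, 24, 24, 24, 24, 24, 25, 25, 25, 25, 25]
  sv :=
    [[(0, 0, 0), (1, 54, 0), (2, 10, 0), (3, 15, 0), (4, 20, 0), (5, 50, 0), (6, 52, 0), (7,
    53, 0), (8, 60, 0), (10, 63, 0), (11, 65, 0), (13, 67, 0), (14, 68, 0), (15, 70, 0), (16,
    72, 0), (17, 73, 0), (18, 75, 0), (19, 85, 0), (20, 90, 0), (21, 95, 0), (22, 100, 0), (23,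
    110, 0), (24, 115, 0), (25, 120, 0)], [(0, 0, 1), (1, 25, 1), (2, 10, 1), (3, 15, 1), (4,
    20, 1), (18, 75, 1), (19, 85, 1), (20, 90, 1), (21, 95, 1), (22, 100, 1), (23, 110, 1),
    (24, 115, 1), (25, 120, 1)], [(1, 54, 1)], [(1, 25, 2)], [(1, 5, 1)], [(1, 5, 2)], [], []]

/-- key 4 -/
def kR53_4 : KeyData where
  tab :=
    [0, 1, 2, 3, 4, 0, 1, 5, 3, 4, 0, 1, 6, 3, 4, 0, 1, 7, 3, 4, 0, 1, 8, 3, 4, 0, 1, 2, 3, 4,
    0, 1, 9, 3, 4, 0, 1, 10, 3, 4, 0, 1, 7, 3, 4, 0, 1, 8, 3, 4, 0, 1, 2, 3, 4, 0, 1, 11, 3, 4,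
    0, 1, 3, 3, 4, 0, 1, 7, 3, 4, 0, 1, 8, 3, 4, 0, 1, 2, 3, 4, 0, 1, 12, 3, 4, 0, 1, 13, 3, 4,
    0, 1, 7, 3, 4, 0, 1, 8, 3, 4, 0, 1, 2, 3, 4, 0, 1, 14, 3, 4, 0, 1, 15, 3, 4, 0, 1, 7, 3, 4,
    0, 1, 8, 3, 4]
  sv :=
    [[(0, 0, 0), (2, 2, 0), (3, 3, 0), (4, 4, 0), (6, 12, 0), (7, 17, 0), (8, 22, 0), (13, 87,
    0), (15, 112, 0)], [], [(0, 0, 1), (1, 1, 1), (3, 3, 1), (4, 4, 1)], [], [(0, 0, 1), (2, 2,
    1), (3, 3, 1), (4, 4, 1), (7, 17, 1), (8, 22, 1)], [], [(0, 0, 2), (1, 1, 2), (3, 3, 2),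
    (4, 4, 2)], []]

/-- key 5 -/
def kR53_5 : KeyData where
  tab :=
    [0, 0, 0, 0, 0, 1, 1, 1, 1, 1, 2, 2, 2, 2, 2, 3, 3, 3, 3, 3, 4, 4, 4, 4, 4, 0, 0, 0, 0, 0,
    1, 1, 1, 1, 1, 5, 6, 7, 8, 9, 3, 3, 3, 3, 3, 4, 4, 4, 4, 4, 0, 0, 0, 0, 0, 1, 1, 1, 1, 1,
    10, 11, 3, 12, 13, 3, 3, 3, 3, 3, 4, 4, 4, 4, 4, 0, 0, 0, 0, 0, 1, 1, 1, 1, 1, 14, 14, 14,
    14, 14, 3, 3, 3, 3, 3, 4, 4, 4, 4, 4, 0, 0, 0, 0, 0, 1, 1, 1, 1, 1, 15, 15, 15, 15, 15, 3,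
    3, 3, 3, 3, 4, 4, 4, 4, 4]
  sv :=
    [[(0, 0, 0), (2, 10, 0), (3, 15, 0), (4, 20, 0), (10, 60, 0), (12, 63, 0), (13, 64, 0),
    (14, 85, 0), (15, 110, 0)], [(0, 0, 1), (2, 10, 1), (3, 15, 1), (4, 20, 1), (14, 85, 1),
    (15, 110, 1)], [], [], [(0, 0, 1), (1, 5, 1), (3, 15, 1), (4, 20, 1)], [(0, 0, 2), (1, 5,
    2), (3, 15, 2), (4, 20, 2)], [], []]

/-- key 6 -/
def kR53_6 : KeyData where
  tab :=
    [0, 0, 0, 0, 0, 0, 0, 0, 0, 0, 0, 0, 0, 0, 0, 0, 0, 0, 0, 0, 0, 0, 0, 0, 0, 1, 1, 1, 1, 1,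
    1, 1, 1, 1, 1, 1, 1, 1, 1, 1, 1, 1, 1, 1, 1, 1, 1, 1, 1, 1, 2, 3, 4, 5, 6, 2, 7, 8, 5, 6,
    2, 9, 10, 5, 6, 2, 11, 12, 5, 6, 2, 13, 14, 5, 6, 10, 10, 10, 10, 10, 10, 10, 10, 10, 10,
    10, 10, 10, 10, 10, 10, 10, 10, 10, 10, 10, 10, 10, 10, 10, 15, 15, 15, 15, 15, 15, 15, 15,
    15, 15, 15, 15, 15, 15, 15, 15, 15, 15, 15, 15, 15, 15, 15, 15, 15]
  sv :=
    [[(0, 0, 0), (2, 50, 0), (4, 52, 0), (5, 53, 0), (6, 54, 0), (10, 75, 0), (12, 67, 0), (14,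
    72, 0), (15, 100, 0)], [(0, 0, 1), (1, 25, 1), (10, 75, 1), (15, 100, 1)], [(0, 0, 1), (2,
    50, 1), (5, 53, 1), (6, 54, 1), (10, 75, 1), (15, 100, 1)], [(0, 0, 2), (1, 25, 2), (10,
    75, 2), (15, 100, 2)], [], [], [], []]

/-- the keys -/
def DR53 : List KeyData := [kR53_0, kR53_1, kR53_2, kR53_3, kR53_4, kR53_5, kR53_6]

theorem zchkR53 : zchk 5 3 ztR53 ltR53 = true := by decide +kernel

theorem kchkR53 : DR53.all (kchk 5 3 26 ltR53) = true := by decide +kernel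

/-- the weights -/
noncomputable def PR53 : List ℝ := [11 / 50, 107 / 600, 107 / 600, 107 / 600, 49 / 600, 49 / 600, 49 / 600]

private theorem nR53_0 : DR53.map (nE 0) = [1, 24, 24, 24, 9, 9, 9] := by decide +kernel

private theorem yR53_0 : DR53.map (yE 0) = [0, 0, 0, 0, 0, 0, 0] := by decide +kernel

private theorem nR53_1 : DR53.map (nE 1) = [1, 1, 1, 13, 0, 6, 4] := by decide +kernel

private theorem yR53_1 : DR53.map (yE 1) = [1, 1, 1, 13, 0, 6, 4] := by decide +kernel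

private theorem nR53_2 : DR53.map (nE 2) = [1, 13, 1, 1, 4, 0, 6] := by decide +kernel

private theorem yR53_2 : DR53.map (yE 2) = [1, 13, 1, 1, 4, 0, 6] := by decide +kernel

private theorem nR53_3 : DR53.map (nE 3) = [1, 1, 0, 1, 0, 0, 4] := by decide +kernel

private theorem yR53_3 : DR53.map (yE 3) = [2, 2, 0, 2, 0, 0, 8] := by decide +kernel

private theorem nR53_4 : DR53.map (nE 4) = [1, 1, 13, 1, 6, 4, 0] := by decide +kernel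

private theorem yR53_4 : DR53.map (yE 4) = [1, 1, 13, 1, 6, 4, 0] := by decide +kernel

private theorem nR53_5 : DR53.map (nE 5) = [1, 0, 1, 1, 0, 4, 0] := by decide +kernel

private theorem yR53_5 : DR53.map (yE 5) = [2, 0, 2, 2, 0, 8, 0] := by decide +kernel

private theorem nR53_6 : DR53.map (nE 6) = [1, 1, 1, 0, 4, 0, 0] := by decide +kernel

private theorem yR53_6 : DR53.map (yE 6) = [2, 2, 2, 0, 8, 0, 0] := by decide +kernel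

private theorem nR53_7 : DR53.map (nE 7) = [1, 0, 0, 0, 0, 0, 0] := by decide +kernel

private theorem yR53_7 : DR53.map (yE 7) = [3, 0, 0, 0, 0, 0, 0] := by decide +kernel

/-- the exponent of the clean positions -/
noncomputable def AR53 : ℝ := Real.logb 5 (61 / 4) / 3

/-- the exponent of the errors -/
noncomputable def DDR53 : ℝ := AR53 + Real.logb 5 (9 / 37)

theorem powR53 (k : ℕ) : (5 : ℝ) ^ (AR53 * (3 - k) + DDR53 * k) = 61 / 4 * (9 / 37) ^ k := by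
  have e : AR53 * (3 - k) + DDR53 * k = Real.logb 5 (61 / 4) + Real.logb 5 (9 / 37) * k := by
    unfold DDR53 AR53
    ring
  rw [e, Real.rpow_add (by norm_num), Real.rpow_mul (by norm_num), Real.rpow_logb (by norm_num)
    (by norm_num) (by norm_num), Real.rpow_logb (by norm_num) (by norm_num) (by norm_num),
    Real.rpow_natCast]

theorem goodRR53 : GoodR 5 3 AR53 DDR53 1 0 := by
  have p0 : pc 3 0 = 0 := by decide
  have p1 : pc 3 1 = 1 := by decide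
  have p2 : pc 3 2 = 1 := by decide
  have p3 : pc 3 3 = 2 := by decide
  have p4 : pc 3 4 = 1 := by decide
  have p5 : pc 3 5 = 2 := by decide
  have p6 : pc 3 6 = 2 := by decide
  have p7 : pc 3 7 = 3 := by decide
  refine goodR_cert (N := 26) (K := DR53) (Pl := PR53) (zt := ztR53) (lt := ltR53) (by norm_num)
    zero_le_one le_rfl rfl ?_ ?_ zchkR53 kchkR53 ?_ ?_
  · intro p hp
    simp only [PR53, List.mem_cons, List.not_mem_nil, or_false] at hp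
    rcases hp with h | h | h | h | h | h | h <;> rw [h] <;> norm_num
  · unfold PR53
    norm_num
  · intro m hm
    have h := powR53 (pc 3 m)
    push_cast
    rw [h]
    interval_cases m
    · rw [p0, nR53_0, PR53]
      simp only [dot]
      norm_num
    · rw [p1, nR53_1, PR53]
      simp only [dot]
      norm_num
    · rw [p2, nR53_2, PR53]
      simp only [dot]
      norm_num
    · rw [p3, nR53_3, PR53]
      simp only [dot]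
      norm_num
    · rw [p4, nR53_4, PR53]
      simp only [dot]
      norm_num
    · rw [p5, nR53_5, PR53]
      simp only [dot]
      norm_num
    · rw [p6, nR53_6, PR53]
      simp only [dot]
      norm_num
    · rw [p7, nR53_7, PR53]
      simp only [dot]
      norm_num
  · intro m hm
    interval_cases m
    · rw [p0, nR53_0, yR53_0, PR53]
      simp only [dot]
      norm_num
    · rw [p1, nR53_1, yR53_1, PR53]
      simp only [dot]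
      norm_num
    · rw [p2, nR53_2, yR53_2, PR53]
      simp only [dot]
      norm_num
    · rw [p3, nR53_3, yR53_3, PR53]
      simp only [dot]
      norm_num
    · rw [p4, nR53_4, yR53_4, PR53]
      simp only [dot]
      norm_num
    · rw [p5, nR53_5, yR53_5, PR53]
      simp only [dot]
      norm_num
    · rw [p6, nR53_6, yR53_6, PR53]
      simp only [dot]
      norm_num
    · rw [p7, nR53_7, yR53_7, PR53]
      simp only [dot]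
      norm_num

/-- a law without excess for five symbols, blocks of length three. -/
theorem rateR53 {t : ℝ} (h0 : 0 < t) (h1 : t < 1 / 2) :
    AchRate 5 t (Real.logb 5 (61 / 4) / 3 - t * Real.logb 5 (37 / 9)) := by
  have hA : 0 < AR53 := by
    unfold AR53
    have : 0 < Real.logb 5 (61 / 4) := Real.logb_pos (by norm_num) (by norm_num)
    positivity
  have hD : Real.logb 5 (9 / 37) = -Real.logb 5 (37 / 9) := by
    rw [← Real.logb_inv]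
    norm_num
  have hD1 : 0 < Real.logb 5 (37 / 9) := Real.logb_pos (by norm_num) (by norm_num)
  have h := engineG (by norm_num : 2 ≤ 5) (by norm_num : 0 < 3) h0 h1 hA
    (by unfold DDR53; linarith) one_pos le_rfl le_rfl (by linarith) goodRR53
  have e : AR53 - (AR53 - DDR53) * t = Real.logb 5 (61 / 4) / 3 - t * Real.logb 5 (37 / 9) := by
    unfold DDR53
    rw [hD]
    unfold AR53
    ring
  rw [e] at h
  exact h

end Pool.Agent.MPf4617e
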