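import Pool.Agent.Lib.MP_f4617e_lc_G.Choice

/-!
MP_f4617e_lc, project G: the scheme for one part (many blocks) from general letters.
-/

set_option autoImplicit false

namespace Pool.Agent.MPf4617e

open Finset Filter Topology

theorem choice_p_pos {q B L : ℕ} (hq : 2 ≤ q) {A D γ : ℝ} (hγ : 0 < γ) (e : ℕ) :
    0 < choice_p q B L A D γ e := by
  have hq0 : (0 : ℝ) < q := by
    have : 0 < q := by omega
    exact_mod_cast this
  unfold choice_p
  positivity

/-- size of the code book -/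
noncomputable def psg_K (q B L : ℕ) (A D γ : ℝ) (e : ℕ) : ℕ :=
  ⌈(B * L * Real.log (2 * q) + 1) / choice_p q B L A D γ e⌉₊

theorem psg_K_pos {q B L : ℕ} (hq : 2 ≤ q) {A D γ : ℝ} (hγ : 0 < γ) (e : ℕ) :
    0 < psg_K q B L A D γ e := by
  have hq' : (2 : ℝ) ≤ q := by exact_mod_cast hq
  have h1 : 0 ≤ Real.log (2 * q) := Real.log_nonneg (by linarith)
  unfold psg_K
  rw [Nat.ceil_pos]
  have := choice_p_pos (B := B) (L := L) (A := A) (D := D) hq hγ e
  positivity

open Classical in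
/-- covering with few headers -/
theorem psg_cover {q N : ℕ} (hq : 2 ≤ q) {Ω Θ : Type} [Fintype Ω] [Fintype Θ] (P : Ω → ℝ)
    (hP : ∀ ω, 0 ≤ P ω) (hs : ∑ ω, P ω = 1) (hit : Ω → Θ → Prop) {p : ℝ} (hp : 0 < p)
    (h : ∀ t, p ≤ ∑ ω, P ω * (if hit ω t then 1 else 0))
    (hΘ : (Fintype.card Θ : ℝ) ≤ (2 * q) ^ N) {K : ℕ}
    (hK : (N * Real.log (2 * q) + 1) / p ≤ K) : ∃ c : Fin K → Ω, ∀ t, ∃ k, hit (c k) t := by
  have hq' : (2 : ℝ) ≤ q := by exact_mod_cast hq
  refine cover P hP hs hit p hp h K ?_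
  rcases isEmpty_or_nonempty Θ with hE | ⟨⟨t0⟩⟩
  · simp [Fintype.card_eq_zero]
  have hp1 : p ≤ 1 := by
    refine ((h t0).trans (Finset.sum_le_sum fun w _ => ?_)).trans hs.le
    have := hP w
    split_ifs <;> simp [this]
  have h1 : (N * Real.log (2 * q) + 1) ≤ p * (K : ℝ) := by
    rw [div_le_iff₀ hp] at hK
    rw [mul_comm p]
    exact hK
  have h2 : (1 - p) ^ K ≤ Real.exp (-(N * Real.log (2 * q) + 1)) := by
    calc (1 - p) ^ K ≤ (Real.exp (-p)) ^ K :=
          pow_le_pow_left₀ (by linarith) (by linarith [Real.add_one_le_exp (-p)]) _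
      _ = Real.exp (-(p * (K : ℝ))) := by
          rw [← Real.exp_nat_mul]; ring_nf
      _ ≤ _ := Real.exp_le_exp.2 (by linarith)
  have h3 : ((2 * q : ℝ)) ^ N = Real.exp (N * Real.log (2 * q)) := by
    rw [← Real.exp_log (show (0 : ℝ) < 2 * q by linarith), ← Real.exp_nat_mul, Real.log_exp]
  calc (1 - p) ^ K * (Fintype.card Θ : ℝ)
      ≤ Real.exp (-(N * Real.log (2 * q) + 1)) * (2 * q : ℝ) ^ N :=
        mul_le_mul h2 hΘ (by positivity) (Real.exp_pos _).le
    _ = Real.exp (-1) := by rw [h3, ← Real.exp_add]; ring_nf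
    _ < 1 := by rw [Real.exp_lt_one_iff]; norm_num

/-- logarithm estimate for the header length -/
theorem psg_log {q B L nΛ : ℕ} (hq : 2 ≤ q) (hn : 0 < nΛ) (hBL : 1 ≤ B * L) {A D γ : ℝ}
    (hγ : 0 < γ) {e : ℕ} (hp1 : choice_p q B L A D γ e ≤ 1) :
    ((B : ℝ) * L - e) * A + e * D - partsch_sig q L nΛ γ B ≤
      (B : ℝ) * L - (Real.logb q (nΛ * (B * L + 1)) +
        Real.logb q (psg_K q B L A D γ e) + 2) := by
  have hq' : (2 : ℝ) ≤ q := by exact_mod_cast hq
  have hq1 : (1 : ℝ) < q := by linarith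
  have hq0 : (0 : ℝ) < q := by linarith
  have hp := choice_p_pos (B := B) (L := L) (A := A) (D := D) hq hγ e
  have hl : 0 ≤ Real.log (2 * q) := Real.log_nonneg (by linarith)
  have hn' : (0 : ℝ) < nΛ := by exact_mod_cast hn
  have hBLr : (1 : ℝ) ≤ (B : ℝ) * L := by exact_mod_cast hBL
  have hK : (psg_K q B L A D γ e : ℝ) ≤
      (B * L * Real.log (2 * q) + 2) / choice_p q B L A D γ e := by
    have h1 : (psg_K q B L A D γ e : ℝ) <
        (B * L * Real.log (2 * q) + 1) / choice_p q B L A D γ e + 1 :=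
      Nat.ceil_lt_add_one (by positivity)
    have h2 : (1 : ℝ) ≤ 1 / choice_p q B L A D γ e := by
      rw [le_div_iff₀ hp]; linarith
    have h3 : (B * L * Real.log (2 * q) + 2) / choice_p q B L A D γ e =
      (B * L * Real.log (2 * q) + 1) / choice_p q B L A D γ e +
        1 / choice_p q B L A D γ e := by ring
    rw [h3]; linarith
  have hKpos : (0 : ℝ) < psg_K q B L A D γ e := by
    exact_mod_cast psg_K_pos (B := B) (L := L) (A := A) (D := D) hq hγ e
  have h4 : Real.logb q (psg_K q B L A D γ e) ≤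
      Real.logb q (B * L * Real.log (2 * q) + 2) - Real.logb q (choice_p q B L A D γ e) := by
    rw [← Real.logb_div (by positivity) hp.ne']
    exact Real.logb_le_logb_of_le hq1 hKpos hK
  have h5 : Real.logb q (choice_p q B L A D γ e) = A * (B * L - e) + D * e -
      Real.logb q ((2 + γ) / γ) - Real.logb q 2 - B * L := by
    unfold choice_p
    have hqρ : (0 : ℝ) < (q : ℝ) ^ (B * L) := by positivity
    have hx : (0 : ℝ) < (q : ℝ) ^ (A * (B * L - e) + D * e) := Real.rpow_pos_of_pos hq0 _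
    rw [Real.logb_div (by positivity) (by positivity), Real.logb_mul hx.ne' (by positivity),
      Real.logb_rpow hq0 hq1.ne', Real.logb_mul (by norm_num) hqρ.ne', Real.logb_pow,
      Real.logb_self_eq_one hq1]
    have h6 : Real.logb q (γ / (2 + γ)) = - Real.logb q ((2 + γ) / γ) := by
      rw [← Real.logb_inv, inv_div]
    rw [h6]
    push_cast
    ring
  have h7 : Real.logb q ((2 + γ) / γ) ≤ Real.logb q 2 + Real.logb q ((1 + γ) / γ) := by
    rw [← Real.logb_mul (by norm_num) (by positivity)]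
    refine Real.logb_le_logb_of_le hq1 (by positivity) ?_
    rw [← mul_div_assoc, div_le_div_iff_of_pos_right hγ]
    linarith
  have h8 : Real.logb q 2 ≤ Real.logb q ((B : ℝ) * L + 1) :=
    Real.logb_le_logb_of_le hq1 two_pos (by linarith)
  have h9 : Real.logb q (nΛ * ((B : ℝ) * L + 1) * (B * L + 1)) =
      Real.logb q (nΛ * ((B : ℝ) * L + 1)) + Real.logb q ((B : ℝ) * L + 1) :=
    Real.logb_mul (by positivity) (by positivity)
  unfold partsch_sig
  rw [h9]
  linarith

theorem psg_slice {B L : ℕ} (E : Finset (Fin B × Fin L)) (b : Fin B) (i : Fin L)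
    (hi : i ∉ partsch_sl E b) : (b, i) ∉ E := fun hE => hi (by simpa [partsch_sl] using hE)

/-- the levels of a part -/
noncomputable def psg_lev {q B L : ℕ} [NeZero q] (hB : 0 < B) (hL : 0 < L)
    (z : Finset (Fin L) → Fin L → Fin q) (hz : ∀ V, ∀ i ∈ V, z V i ≠ 0) :
    PartLev q (Fin B × Fin L) where
  lev y := (∑ b, (levOf z fun i => y (b, i) : ℝ)) / (B * L)
  spec E x := z (partsch_sl E x.1)ᶜ x.2
  lev_nonneg y := by positivity
  lev_le_one y := by
    have hBL : (0 : ℝ) < (B : ℝ) * L := by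
      have : (0 : ℝ) < B := by exact_mod_cast hB
      have : (0 : ℝ) < L := by exact_mod_cast hL
      positivity
    rw [div_le_one hBL]
    calc ∑ b, (levOf z fun i => y (b, i) : ℝ) ≤ ∑ _b : Fin B, (L : ℝ) :=
          Finset.sum_le_sum fun b _ => by exact_mod_cast (tableOf z hz).lev_le _
      _ = B * L := by simp
  lev_spec E y hy := by
    have hBL : (0 : ℝ) < (B : ℝ) * L := by
      have : (0 : ℝ) < B := by exact_mod_cast hB
      have : (0 : ℝ) < L := by exact_mod_cast hL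
      positivity
    have hcard : (Fintype.card (Fin B × Fin L) : ℝ) = B * L := by simp
    rw [hcard, le_div_iff₀ hBL]
    have h1 : ∀ b : Fin B, (L : ℝ) ≤ (levOf z fun i => y (b, i) : ℝ) +
        (partsch_sl E b).card := fun b => by
      exact_mod_cast (tableOf z hz).lev_spec (partsch_sl E b) (fun i => y (b, i))
        (fun i hi => hy (b, i) (psg_slice E b i hi))
    have h2 := Finset.sum_le_sum fun (b : Fin B) (_ : b ∈ univ) => h1 b
    rw [Finset.sum_add_distrib] at h2
    have h3 : ∑ b, ((partsch_sl E b).card : ℝ) = E.card := by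
      rw [← partsch_sl_card E]; push_cast; rfl
    rw [h3] at h2
    simp only [sum_const, card_univ, Fintype.card_fin, nsmul_eq_mul] at h2
    rw [sub_mul, div_mul_cancel₀ _ hBL.ne']
    linarith
  lev_zero E y hy := by
    have hBL : (0 : ℝ) < (B : ℝ) * L := by
      have : (0 : ℝ) < B := by exact_mod_cast hB
      have : (0 : ℝ) < L := by exact_mod_cast hL
      positivity
    have hcard : (Fintype.card (Fin B × Fin L) : ℝ) = B * L := by simp
    rw [hcard]
    refine div_le_div_of_nonneg_right ?_ hBL.le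
    have h3 : ∑ b, ((partsch_sl E b).card : ℝ) = E.card := by
      rw [← partsch_sl_card E]; push_cast; rfl
    rw [← h3]
    refine Finset.sum_le_sum fun b _ => ?_
    exact_mod_cast (tableOf z hz).lev_zero (partsch_sl E b) (fun i => y (b, i))
      (fun i hi => hy (b, i) (psg_slice E b i hi))

theorem psg_fixed {q L : ℕ} [NeZero q] (hq : 2 ≤ q) (hL : 0 < L) {A D c1 c2 : ℝ}
    (hc1 : 0 ≤ c1) (hc1' : c1 ≤ 1) (hc2 : 0 ≤ c2) (hc2' : c2 ≤ 1)
    (z : Finset (Fin L) → Fin L → Fin q) (hz : ∀ V, ∀ i ∈ V, z V i ≠ 0) {nΛ : ℕ}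
    (W : Fin nΛ → GLaw q L)
    (h : ∀ (B : ℕ) (E : Fin B → Finset (Fin L)), ∃ k : Fin nΛ,
      (∀ b, 0 < (W k).Z (E b)) ∧
      (q : ℝ) ^ (A * (B * L - ∑ b, ((E b).card : ℝ)) + D * ∑ b, ((E b).card : ℝ)) ≤
        ∏ b, (W k).Z (E b) ∧
      ∑ b, (W k).Y z (E b) / (W k).Z (E b) ≤ c1 * ∑ b, ((E b).card : ℝ) + c2 * (B * L))
    {γ : ℝ} (hγ : 0 < γ) {B : ℕ} (hB : 0 < B) :
    ∃ (K : ℕ) (S : PartScheme q (Fin B × Fin L) K) (V : PartLev q (Fin B × Fin L)),
      (∀ (E : Finset (Fin B × Fin L)) (d : List (Fin q)) (y : Fin B × Fin L → Fin q),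
        d.length = S.rho E → (∀ i, i ∉ E → y i = S.wd E d i) →
          V.lev y ≤ c1 * ((E.card : ℝ) / (B * L)) + c2 + γ) ∧
      ∀ E : Finset (Fin B × Fin L),
        ((B : ℝ) * L - E.card) * A + E.card * D - partsch_sig q L nΛ γ B ≤
          (S.rho E : ℝ) - S.lam E := by
  classical
  have hBL1 : 1 ≤ B * L := Nat.mul_pos hB hL
  have hBL : (0 : ℝ) < (B : ℝ) * L := by
    have : (0 : ℝ) < B := by exact_mod_cast hB
    have : (0 : ℝ) < L := by exact_mod_cast hL
    positivity
  choose kk hkZ hkP hkY using fun E : Finset (Fin B × Fin L) => h B (partsch_sl E)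
  have hn : 0 < nΛ := Fin.pos_iff_nonempty.2 ⟨kk ∅⟩
  -- the probabilities
  have hev : ∀ (E : Finset (Fin B × Fin L)) (d : Fin (B * L) → Fin q),
      choice_p q B L A D γ E.card ≤
      ∑ x : (Fin B → Fin (W (kk E)).m) × ((Fin B → Fin (W (kk E)).N) → (Fin (B * L) → Fin q)),
        choice_w B (W (kk E)) x *
          (if choice_ev z (W (kk E)) (choice_M B L c1 c2 γ E.card) E d x then 1 else 0) :=
    fun E d => choice hL hc1 hc1' hc2 hc2' hγ z (W (kk E)) hB E (hkZ E) (hkP E) (hkY E) d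
  -- types
  let Θ := Fin nΛ × Fin (B * L + 1)
  let tp : Finset (Fin B × Fin L) → Θ := fun E =>
    (kk E, ⟨E.card, Nat.lt_succ_of_le (partsch_card_le E)⟩)
  have hne : Nonempty Θ := ⟨tp ∅⟩
  let Kθ : Θ → ℕ := fun θ => psg_K q B L A D γ θ.2.val
  have hKθ : ∀ θ, 0 < Kθ θ := fun θ => psg_K_pos hq hγ _
  -- code books
  have hbook : ∀ θ : Θ, ∃ c : Fin (Kθ θ) →
      (Fin B → Fin (W θ.1).m) × ((Fin B → Fin (W θ.1).N) → (Fin (B * L) → Fin q)),
      ∀ E, tp E = θ → ∀ d : Fin (B * L) → Fin q,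
        ∃ j, choice_ev z (W θ.1) (choice_M B L c1 c2 γ θ.2.val) E d (c j) := by
    intro θ
    let X := {x : Finset (Fin B × Fin L) × (Fin (B * L) → Fin q) // tp x.1 = θ}
    have hX : (Fintype.card X : ℝ) ≤ (2 * q) ^ (B * L) := by
      have h1 : Fintype.card X ≤
          Fintype.card (Finset (Fin B × Fin L) × (Fin (B * L) → Fin q)) :=
        Fintype.card_subtype_le _
      have h2 : Fintype.card (Finset (Fin B × Fin L) × (Fin (B * L) → Fin q)) =
          2 ^ (B * L) * q ^ (B * L) := by simp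
      have h3 := h1.trans h2.le
      rw [← mul_pow] at h3
      exact_mod_cast h3
    obtain ⟨c, hc⟩ := psg_cover hq (choice_w B (W θ.1)) (choice_w_nonneg B (W θ.1))
      (choice_w_sum B (W θ.1))
      (fun w (x : X) => choice_ev z (W θ.1) (choice_M B L c1 c2 γ θ.2.val) x.1.1 x.1.2 w)
      (choice_p_pos (B := B) (L := L) (A := A) (D := D) hq hγ θ.2.val)
      (by
        rintro ⟨⟨E, d⟩, hE⟩
        subst hE
        exact hev E d) hX (K := Kθ θ) (by
          have := Nat.le_ceil ((B * L * Real.log (2 * q) + 1) / choice_p q B L A D γ θ.2.val)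
          push_cast
          exact this)
    exact ⟨c, fun E hE d => hc ⟨(E, d), hE⟩⟩
  choose cb hcb using hbook
  obtain ⟨K, e, code, parse, len, hparse, hlen, hbound⟩ := header_code hq Kθ hKθ
  -- choice of the header and of the word
  have hj : ∀ (E : Finset (Fin B × Fin L)) (d : List (Fin q)), ∃ (j : Fin (Kθ (tp E)))
      (w : Fin B × Fin L → Fin q), d.length = B * L → ∃ c : Fin B → Fin (W (kk E)).N,
        (∀ b, (W (kk E)).good ((cb (tp E) j).1 b) (c b) (partsch_sl E b)) ∧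
        ∑ b, (lvl z ((W (kk E)).wd ((cb (tp E) j).1 b) (c b) (partsch_sl E b))
          (partsch_sl E b) : ℝ) ≤ choice_M B L c1 c2 γ E.card ∧
        ((cb (tp E) j).2 c = fun i : Fin (B * L) => d.getD i 0) ∧
        ∀ b i, w (b, i) = (W (kk E)).wd ((cb (tp E) j).1 b) (c b) (partsch_sl E b) i := by
    intro E d
    obtain ⟨j, c, h1, h2, h3⟩ := hcb (tp E) E rfl fun i : Fin (B * L) => d.getD i 0
    exact ⟨j, fun x => (W (kk E)).wd ((cb (tp E) j).1 x.1) (c x.1) (partsch_sl E x.1) x.2,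
      fun _ => ⟨c, h1, h2, h3, fun _ _ => rfl⟩⟩
  choose jj ww hjj using hj
  let S : PartScheme q (Fin B × Fin L) K :=
    { code := code
      parse := parse
      parse_code := hparse
      rho := fun _ => B * L
      lam := fun E => len (tp E)
      hd := fun E d => e ⟨tp E, jj E d⟩
      wd := ww
      rd := fun h y => List.ofFn ((cb (e.symm h).1 (e.symm h).2).2 fun b =>
        (W (e.symm h).1.1).cell ((cb (e.symm h).1 (e.symm h).2).1 b) (fun i => y (b, i)))
      len_hd := fun E d _ => hlen _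
      rd_hd := by
        intro E d y hd hy
        have h0 : e.symm (e ⟨tp E, jj E d⟩) = ⟨tp E, jj E d⟩ := e.symm_apply_apply _
        rw [h0]
        obtain ⟨c, hg, -, hc, hw⟩ := hjj E d hd
        have h1 : (fun b => (W (kk E)).cell ((cb (tp E) (jj E d)).1 b) (fun i => y (b, i))) =
            c := by
          funext b
          refine (W (kk E)).good_cell _ _ _ (hg b) _ fun i hi => ?_
          rw [hy (b, i) (psg_slice E b i hi), hw]
        change List.ofFn ((cb (tp E) (jj E d)).2 fun b =>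
          (W (kk E)).cell ((cb (tp E) (jj E d)).1 b) (fun i => y (b, i))) = d
        rw [h1, hc]
        apply List.ext_getElem
        · simp [hd]
        · intro i h2 h3
          simp [h3] }
  refine ⟨K, S, psg_lev hB hL z hz, ?_, ?_⟩
  · intro E d y hd hy
    obtain ⟨c, hg, hx, -, hw⟩ := hjj E d hd
    change (∑ b, (levOf z fun i => y (b, i) : ℝ)) / (B * L) ≤ _
    rw [div_le_iff₀ hBL]
    have h1 : ∀ b : Fin B, (levOf z fun i => y (b, i) : ℝ) ≤
        (lvl z ((W (kk E)).wd ((cb (tp E) (jj E d)).1 b) (c b) (partsch_sl E b))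
          (partsch_sl E b) : ℝ) := by
      intro b
      have h2 : (levOf z fun i => y (b, i)) ≤
          lvl z ((W (kk E)).wd ((cb (tp E) (jj E d)).1 b) (c b) (partsch_sl E b))
            (partsch_sl E b) := by
        unfold lvl
        refine Finset.le_sup (f := levOf z) (mem_filter.2 ⟨mem_univ _, fun i hi => ?_⟩)
        rw [← hw b i]
        exact hy (b, i) (psg_slice E b i hi)
      exact_mod_cast h2
    have h2 := (Finset.sum_le_sum fun (b : Fin B) (_ : b ∈ univ) => h1 b).trans hx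
    refine h2.trans (le_of_eq ?_)
    unfold choice_M
    field_simp
  · intro E
    have hp1 : choice_p q B L A D γ E.card ≤ 1 := by
      refine ((hev E fun _ => 0).trans (Finset.sum_le_sum fun w _ => ?_)).trans
        (choice_w_sum B (W (kk E))).le
      have := choice_w_nonneg B (W (kk E)) w
      split_ifs <;> simp [this]
    have h1 := psg_log hq hn hBL1 hγ hp1
    refine h1.trans ?_
    have h2 := hbound (tp E)
    have h3 : (Fintype.card Θ : ℝ) = nΛ * (B * L + 1) := by
      simp only [Θ, Fintype.card_prod, Fintype.card_fin]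
      push_cast
      ring
    rw [h3] at h2
    change _ ≤ ((B * L : ℕ) : ℝ) - ((len (tp E) : ℕ) : ℝ)
    have h4 : (Kθ (tp E) : ℝ) = psg_K q B L A D γ E.card := rfl
    rw [h4] at h2
    push_cast
    linarith

theorem psg_scheme {q L : ℕ} [NeZero q] (hq : 2 ≤ q) (hL : 0 < L) {A D c1 c2 : ℝ}
    (hc1 : 0 ≤ c1) (hc1' : c1 ≤ 1) (hc2 : 0 ≤ c2) (hc2' : c2 ≤ 1)
    (h : GoodR q L A D c1 c2) (γ : ℝ) (hγ : 0 < γ) :
    ∃ σ : ℕ → ℝ, Tendsto (fun B : ℕ => σ B / B) atTop (𝓝 0) ∧
      ∀ B : ℕ, 0 < B → ∃ (K : ℕ) (S : PartScheme q (Fin B × Fin L) K)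
        (V : PartLev q (Fin B × Fin L)),
        (∀ (E : Finset (Fin B × Fin L)) (d : List (Fin q)) (y : Fin B × Fin L → Fin q),
          d.length = S.rho E → (∀ i, i ∉ E → y i = S.wd E d i) →
            V.lev y ≤ c1 * ((E.card : ℝ) / (B * L)) + c2 + γ) ∧
        ∀ E : Finset (Fin B × Fin L),
          ((B : ℝ) * L - E.card) * A + E.card * D - σ B ≤ (S.rho E : ℝ) - S.lam E := by
  obtain ⟨z, hz, nΛ, W, hW⟩ := h
  have hn : 0 < nΛ := by
    obtain ⟨k, -⟩ := hW 0 (fun b => b.elim0)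
    exact Fin.pos_iff_nonempty.2 ⟨k⟩
  exact ⟨partsch_sig q L nΛ γ, partsch_sig_tendsto hq hL hn hγ, fun B hB =>
    psg_fixed hq hL hc1 hc1' hc2 hc2' z hz W hW hγ hB⟩

end Pool.Agent.MPf4617e
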