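import Pool.Agent.Lib.MP_f4617e_lc_G.CertR
import Pool.Agent.Lib.MP_f4617e_lc.Read

/-!
MP_f4617e_lc, project G: reading trees give general laws without excess.
-/

set_option autoImplicit false

namespace Pool.Agent.MPf4617e

open Finset

/-- extension of a finite word to a stream -/
def rtgExt {q L : ℕ} [NeZero q] (δ : Fin L → Fin q) : ℕ → Fin q :=
  fun n => if h : n < L then δ ⟨n, h⟩ else 0

/-- code of a list -/
def rtgCode {q : ℕ} (L : ℕ) [NeZero q] (l : List (Fin q)) : Fin (L + 1) × (Fin L → Fin q) :=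
  (Fin.ofNat (L + 1) l.length, fun i => l.getD i 0)

/-- the data read -/
def rtgList {q L : ℕ} [NeZero q] {t : RT L q} (R : Reader q L t) (ω : R.Ω) (δ : Fin L → Fin q) :
    List (Fin q) :=
  (List.range (R.path ω (rtgExt δ)).length).map (rtgExt δ)

theorem rtg_len {q L : ℕ} [NeZero q] {t : RT L q} (R : Reader q L t) (ω : R.Ω)
    (δ : ℕ → Fin q) : (R.path ω δ).length ≤ L := by
  have h := R.nodup ω δ
  have h2 := h.length_le_card
  simpa using h2

/-- served without excess -/
def rtgGood {q L : ℕ} [NeZero q] (W : Law q L) (R : Reader q L W.tree)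
    (z : Finset (Fin L) → Fin L → Fin q) (ω : R.Ω) (c : Fin (L + 1) × (Fin L → Fin q))
    (E : Finset (Fin L)) : Prop :=
  ∃ δ : Fin L → Fin q, (W.good (R.path ω (rtgExt δ)) E ∧ excOf z (R.path ω (rtgExt δ)) E = 0) ∧
    rtgCode L (rtgList R ω δ) = c

open Classical in
/-- the law -/
noncomputable def rtgLaw {q L : ℕ} [NeZero q] (W : Law q L) (R : Reader q L W.tree)
    (z : Finset (Fin L) → Fin L → Fin q) : GLaw q L where
  m := Fintype.card R.Ω
  N := Fintype.card (Fin (L + 1) × (Fin L → Fin q))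
  P k := R.P ((Fintype.equivFin R.Ω).symm k)
  cell k y := Fintype.equivFin _ (rtgCode L (R.rd ((Fintype.equivFin R.Ω).symm k) y))
  good k c E := rtgGood W R z ((Fintype.equivFin R.Ω).symm k) ((Fintype.equivFin _).symm c) E
  wd k c E := if h : rtgGood W R z ((Fintype.equivFin R.Ω).symm k)
      ((Fintype.equivFin _).symm c) E then
    word (R.path ((Fintype.equivFin R.Ω).symm k) (rtgExt h.choose)) else fun _ => 0
  P_nonneg k := R.P_nonneg _
  P_sum := by
    rw [← R.P_sum]
    exact Equiv.sum_comp (Fintype.equivFin R.Ω).symm R.P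
  good_cell := by
    intro k c E hg y hy
    rw [dif_pos hg] at hy
    obtain ⟨⟨h1, -⟩, h2⟩ := hg.choose_spec
    have h3 := R.rd_ok ((Fintype.equivFin R.Ω).symm k) (rtgExt hg.choose) y (by
      intro i hi
      refine hy i fun hE => ?_
      exact Finset.disjoint_left.1 (W.good_disj _ _ h1) hi hE)
    rw [h3]
    exact (congrArg (Fintype.equivFin _) h2).trans (Equiv.apply_symm_apply _ _)

theorem rtg_card {q L n : ℕ} [NeZero q] (hn : n ≤ L) (g : Fin L → Fin q) :
    (univ.filter fun δ : Fin L → Fin q => ∀ i : Fin L, i.val < n → δ i = g i).card =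
      q ^ (L - n) := by
  have h1 : (univ.filter fun δ : Fin L → Fin q => ∀ i : Fin L, i.val < n → δ i = g i) =
      Fintype.piFinset fun i : Fin L => if i.val < n then {g i} else (univ : Finset (Fin q)) := by
    ext δ
    simp only [mem_filter, mem_univ, true_and, Fintype.mem_piFinset]
    refine forall_congr' fun i => ?_
    split_ifs with h <;> simp [h]
  rw [h1, Fintype.card_piFinset]
  have h2 : ∀ i : Fin L, (if i.val < n then {g i} else (univ : Finset (Fin q))).card =
      if i.val < n then 1 else q := by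
    intro i
    split_ifs <;> simp
  rw [Finset.prod_congr rfl fun i _ => h2 i, Finset.prod_ite, Finset.prod_const_one, one_mul,
    Finset.prod_const]
  congr 1
  have h3 := Finset.card_filter_add_card_filter_not (s := (univ : Finset (Fin L)))
    (fun i => i.val < n)
  have h4 : (univ.filter fun i : Fin L => i.val < n).card = n := by
    have h5 : (univ.filter fun i : Fin L => i.val < n) =
        (univ : Finset (Fin n)).map (Fin.castLEEmb hn) := by
      ext i
      simp only [mem_filter, mem_univ, true_and, mem_map]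
      constructor
      · intro h
        exact ⟨⟨i.val, h⟩, Fin.ext rfl⟩
      · rintro ⟨j, rfl⟩
        exact j.isLt
    rw [h5, card_map, card_univ, Fintype.card_fin]
  rw [card_univ, Fintype.card_fin] at h3
  omega

open Classical in
theorem rtg_count {q L : ℕ} [NeZero q] (W : Law q L) (R : Reader q L W.tree)
    (z : Finset (Fin L) → Fin L → Fin q) (ω : R.Ω) (E : Finset (Fin L)) :
    ∑ δ : Fin L → Fin q, (q : ℝ) ^ (R.path ω (rtgExt δ)).length *
      (if W.good (R.path ω (rtgExt δ)) E ∧ excOf z (R.path ω (rtgExt δ)) E = 0 then (1 : ℝ)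
        else 0) ≤
    (q : ℝ) ^ L * ((univ.filter fun c => rtgGood W R z ω c E).card : ℝ) := by
  obtain ⟨G, hG⟩ : ∃ G : (Fin L → Fin q) → Prop, G = fun δ =>
    W.good (R.path ω (rtgExt δ)) E ∧ excOf z (R.path ω (rtgExt δ)) E = 0 := ⟨_, rfl⟩
  have h1 : ∀ δ : Fin L → Fin q, (q : ℝ) ^ (R.path ω (rtgExt δ)).length *
      (if W.good (R.path ω (rtgExt δ)) E ∧ excOf z (R.path ω (rtgExt δ)) E = 0 then (1 : ℝ)
        else 0) = if G δ then (q : ℝ) ^ (R.path ω (rtgExt δ)).length else 0 := by
    intro δ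
    simp only [hG, mul_ite, mul_one, mul_zero]
  rw [Finset.sum_congr rfl fun δ _ => h1 δ, ← Finset.sum_filter]
  rw [← Finset.sum_fiberwise_of_maps_to (s := univ.filter G)
    (t := univ.filter fun c => rtgGood W R z ω c E)
    (g := fun δ => rtgCode L (rtgList R ω δ)) (fun δ hδ => ?_)]
  · refine (Finset.sum_le_sum (g := fun _ => (q : ℝ) ^ L) fun c _ => ?_).trans (le_of_eq ?_)
    · have h2 : ∀ δ ∈ (univ.filter G).filter fun δ => rtgCode L (rtgList R ω δ) = c,
          (R.path ω (rtgExt δ)).length = c.1.val ∧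
            ∀ i : Fin L, i.val < c.1.val → δ i = c.2 i := by
        intro δ hδ
        have h3 := (mem_filter.1 hδ).2
        have hl := rtg_len R ω (rtgExt δ)
        have h4 : (R.path ω (rtgExt δ)).length = c.1.val := by
          rw [← h3]
          simp only [rtgCode, rtgList, List.length_map, List.length_range, Fin.val_ofNat]
          exact (Nat.mod_eq_of_lt (by omega)).symm
        refine ⟨h4, fun i hi => ?_⟩
        rw [← h3]
        simp only [rtgCode, rtgList]
        rw [List.getD_eq_getElem _ _ (by simpa [h4] using hi)]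
        simp [rtgExt]
      rw [Finset.sum_congr rfl fun δ hδ => by rw [(h2 δ hδ).1], Finset.sum_const, nsmul_eq_mul]
      have h5 : ((univ.filter G).filter fun δ => rtgCode L (rtgList R ω δ) = c).card ≤
          q ^ (L - c.1.val) := by
        rw [← rtg_card (by omega : c.1.val ≤ L) c.2]
        exact Finset.card_le_card fun δ hδ => mem_filter.2 ⟨mem_univ _, (h2 δ hδ).2⟩
      have h6 : ((q ^ (L - c.1.val) : ℕ) : ℝ) * (q : ℝ) ^ c.1.val = (q : ℝ) ^ L := by
        push_cast
        rw [← pow_add]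
        congr 1
        omega
      rw [← h6]
      refine mul_le_mul_of_nonneg_right ?_ (by positivity)
      exact_mod_cast h5
    · rw [Finset.sum_const, nsmul_eq_mul, mul_comm]
  · refine mem_coe.2 (mem_filter.2 ⟨mem_univ _, δ, ?_, rfl⟩)
    have := (mem_filter.1 hδ).2
    rw [hG] at this
    exact this

open Classical in
theorem rtg_Z {q L : ℕ} [NeZero q] (W : Law q L) (R : Reader q L W.tree)
    (z : Finset (Fin L) → Fin L → Fin q) (E : Finset (Fin L)) :
    W.tree.LS (fun l => if W.good l E ∧ excOf z l E = 0 then (1 : ℝ) else 0) ≤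
      (rtgLaw W R z).Z E := by
  obtain ⟨f, hf⟩ : ∃ f : Path L q → ℝ, f = fun l =>
    if W.good l E ∧ excOf z l E = 0 then (1 : ℝ) else 0 := ⟨_, rfl⟩
  rw [← hf]
  have hq : (0 : ℝ) < (q : ℝ) ^ L := by
    have : 0 < q := Nat.pos_of_ne_zero (NeZero.ne q)
    positivity
  have h1 : (rtgLaw W R z).Z E =
      ∑ ω : R.Ω, R.P ω * ((univ.filter fun c => rtgGood W R z ω c E).card : ℝ) := by
    unfold GLaw.Z
    rw [← Equiv.sum_comp (Fintype.equivFin R.Ω).symm
      (fun ω => R.P ω * ((univ.filter fun c => rtgGood W R z ω c E).card : ℝ))]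
    refine Finset.sum_congr rfl fun k _ => ?_
    congr 1
    rw [← Finset.sum_boole, ← Equiv.sum_comp
      (Fintype.equivFin (Fin (L + 1) × (Fin L → Fin q))).symm
      (fun c => if rtgGood W R z ((Fintype.equivFin R.Ω).symm k) c E then (1 : ℝ) else 0)]
    rfl
  rw [h1, ← mul_le_mul_iff_right₀ hq, Finset.mul_sum]
  have h2 : (q : ℝ) ^ L * W.tree.LS f = ∑ δ : Fin L → Fin q, ∑ ω : R.Ω,
      R.P ω * ((q : ℝ) ^ (R.path ω (rtgExt δ)).length * f (R.path ω (rtgExt δ))) := by
    rw [Finset.sum_congr rfl fun δ _ => R.avg f (rtgExt δ), Finset.sum_const, card_univ,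
      nsmul_eq_mul]
    congr 1
    simp
  rw [h2, Finset.sum_comm]
  refine Finset.sum_le_sum fun ω _ => ?_
  rw [← Finset.mul_sum, mul_left_comm]
  refine mul_le_mul_of_nonneg_left ?_ (R.P_nonneg ω)
  rw [hf]
  exact rtg_count W R z ω E

open Classical in
/-- A reading tree without much excess gives a general law without excess. -/
theorem goodR_of_tree {q L : ℕ} [NeZero q] (hq : 2 ≤ q) {A D : ℝ}
    (z : Finset (Fin L) → Fin L → Fin q) (hz : ∀ V, ∀ i ∈ V, z V i ≠ 0) (W : Law q L)
    (h : ∀ E : Finset (Fin L), (q : ℝ) ^ (A * (L - E.card) + D * E.card) ≤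
      W.tree.LS (fun l => if W.good l E ∧ excOf z l E = 0 then (1 : ℝ) else 0)) :
    GoodR q L A D 1 0 := by
  obtain ⟨R⟩ := exists_reader W.tree W.ok
  refine goodR_single hq z hz (rtgLaw W R z) (fun E => (h E).trans (rtg_Z W R z E)) fun E => ?_
  refine GLaw.Y_le _ _ E fun k c hg => ?_
  have hg' : rtgGood W R z ((Fintype.equivFin R.Ω).symm k) ((Fintype.equivFin _).symm c) E := hg
  obtain ⟨⟨-, h1⟩, -⟩ := hg'.choose_spec
  have h2 : (rtgLaw W R z).wd k c E =
      word (R.path ((Fintype.equivFin R.Ω).symm k) (rtgExt hg'.choose)) := dif_pos hg'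
  rw [h2]
  have h3 : lvl z (word (R.path ((Fintype.equivFin R.Ω).symm k) (rtgExt hg'.choose))) E -
      E.card = 0 := h1
  omega

open Classical in
/-- The same with the total excess. -/
theorem goodR_of_tree_X {q L : ℕ} [NeZero q] (hq : 2 ≤ q) {A D : ℝ}
    (z : Finset (Fin L) → Fin L → Fin q) (hz : ∀ V, ∀ i ∈ V, z V i ≠ 0) (W : Law q L)
    (h : ∀ E : Finset (Fin L), (q : ℝ) ^ (A * (L - E.card) + D * E.card) ≤
      W.Z E - W.X (tableOf z hz) E) :
    GoodR q L A D 1 0 := by
  refine goodR_of_tree hq z hz W fun E => (h E).trans ?_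
  have h1 : W.Z E + (-1) * W.X (tableOf z hz) E =
      W.tree.LS (fun l => (if W.good l E then (1 : ℝ) else 0) +
        (-1) * (if W.good l E then ((tableOf z hz).exc l E : ℝ) else 0)) := by
    rw [RT.LS_add, RT.LS_const_mul]
    rfl
  have h2 : W.Z E - W.X (tableOf z hz) E = W.Z E + (-1) * W.X (tableOf z hz) E := by ring
  rw [h2, h1]
  refine RT.LS_mono W.ok fun l _ _ => ?_
  change (if W.good l E then (1 : ℝ) else 0) +
    (-1) * (if W.good l E then (excOf z l E : ℝ) else 0) ≤ _
  by_cases hg : W.good l E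
  · by_cases he : excOf z l E = 0
    · simp [hg, he]
    · have h3 : (1 : ℝ) ≤ excOf z l E := by exact_mod_cast Nat.one_le_iff_ne_zero.2 he
      simp only [hg, he, if_true, and_false, if_false]
      linarith
  · simp [hg]

end Pool.Agent.MPf4617e
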