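import Pool.Agent.Lib.MP_f4617e_lc_G.SupForm

/-!
MP_f4617e_lc, project G: a block system for 3 symbols, blocks of length 3, all levels at most the
number of the errors.
-/

set_option autoImplicit false

namespace Pool.Agent.MPf4617e

open Finset

/-! ### The data -/

/-- special words -/
def zt33 : List ℕ := [0, 1, 3, 7, 9, 11, 21, 26]

/-- levels -/
def lt33 : List ℕ :=
  [0, 1, 0, 1, 1, 1, 0, 2, 0, 1, 1, 2, 1, 1, 2, 1, 2, 2, 0, 1, 0, 2, 2, 2, 0, 2, 3]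

/-- key 0 -/
def k33_0 : KeyData where
  tab := [0, 0, 0, 0, 0, 0, 0, 0, 0, 0, 0, 0, 0, 0, 0, 0, 0, 0, 0, 0, 0, 0, 0, 0, 0, 0, 0]
  sv := [[(0, 0, 0)], [(0, 0, 1)], [(0, 0, 1)], [(0, 0, 2)], [(0, 0, 1)], [(0, 0, 2)], [(0, 0,
    2)], [(0, 0, 3)]]

/-- key 1 -/
def k33_1 : KeyData where
  tab := [2, 2, 2, 0, 0, 0, 0, 0, 0, 0, 0, 0, 0, 0, 0, 0, 0, 0, 1, 1, 1, 0, 0, 0, 0, 0, 0]
  sv := [[(0, 6, 0), (1, 18, 0), (2, 0, 0)], [(0, 3, 1), (1, 18, 1), (2, 0, 1)], [(0, 9, 1)],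
    [(0, 9, 2)], [(0, 6, 1)], [(0, 3, 2)], [], []]

/-- key 2 -/
def k33_2 : KeyData where
  tab := [1, 0, 2, 1, 0, 2, 1, 0, 2, 0, 0, 0, 0, 0, 0, 0, 0, 0, 0, 0, 0, 0, 0, 0, 0, 0, 0]
  sv := [[(0, 18, 0), (1, 0, 0), (2, 2, 0)], [(0, 18, 1)], [(0, 9, 1), (1, 0, 1), (2, 2, 1)],
    [(0, 9, 2)], [(0, 1, 1)], [], [(0, 1, 2)], []]

/-- key 3 -/
def k33_3 : KeyData where
  tab := [2, 0, 0, 0, 0, 0, 1, 0, 0, 2, 0, 0, 0, 0, 0, 1, 0, 0, 2, 0, 0, 0, 0, 0, 1, 0, 0]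
  sv := [[(0, 2, 0), (1, 6, 0), (2, 0, 0)], [(0, 3, 1)], [(0, 2, 1)], [], [(0, 1, 1), (1, 6, 1),
    (2, 0, 1)], [(0, 3, 2)], [(0, 1, 2)], []]

/-- key 4 -/
def k33_4 : KeyData where
  tab := [2, 0, 0, 0, 0, 0, 1, 0, 0, 2, 0, 0, 0, 0, 0, 1, 0, 0, 2, 0, 3, 0, 0, 0, 1, 0, 0]
  sv := [[(0, 2, 0), (1, 6, 0), (2, 0, 0), (3, 20, 0)], [(0, 3, 1)], [(0, 2, 1)], [], [(0, 1,
    1), (1, 6, 1), (2, 0, 1)], [(0, 3, 2)], [(0, 1, 2)], []]

/-- the keys -/
def D33 : List KeyData := [k33_0, k33_1, k33_2, k33_3, k33_4]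

/-- the weights -/
noncomputable def P33 : List ℝ := [4 / 7, 1 / 7, 1 / 7, 1 / 14, 1 / 14]

theorem zchk33 : zchk 3 3 zt33 lt33 = true := by decide +kernel

theorem kchk33 : D33.all (kchk 3 3 4 lt33) = true := by decide +kernel

private theorem n33_0 : D33.map (nE 0) = [1, 3, 3, 3, 4] := by decide +kernel

private theorem y33_0 : D33.map (yE 0) = [0, 0, 0, 0, 0] := by decide +kernel

private theorem n33_1 : D33.map (nE 1) = [1, 3, 1, 1, 1] := by decide +kernel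

private theorem y33_1 : D33.map (yE 1) = [1, 3, 1, 1, 1] := by decide +kernel

private theorem n33_2 : D33.map (nE 2) = [1, 1, 3, 1, 1] := by decide +kernel

private theorem y33_2 : D33.map (yE 2) = [1, 1, 3, 1, 1] := by decide +kernel

private theorem n33_3 : D33.map (nE 3) = [1, 1, 1, 0, 0] := by decide +kernel

private theorem y33_3 : D33.map (yE 3) = [2, 2, 2, 0, 0] := by decide +kernel

private theorem n33_4 : D33.map (nE 4) = [1, 1, 1, 3, 3] := by decide +kernel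

private theorem y33_4 : D33.map (yE 4) = [1, 1, 1, 3, 3] := by decide +kernel

private theorem n33_5 : D33.map (nE 5) = [1, 1, 0, 1, 1] := by decide +kernel

private theorem y33_5 : D33.map (yE 5) = [2, 2, 0, 2, 2] := by decide +kernel

private theorem n33_6 : D33.map (nE 6) = [1, 0, 1, 1, 1] := by decide +kernel

private theorem y33_6 : D33.map (yE 6) = [2, 0, 2, 2, 2] := by decide +kernel

private theorem n33_7 : D33.map (nE 7) = [1, 0, 0, 0, 0] := by decide +kernel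

private theorem y33_7 : D33.map (yE 7) = [3, 0, 0, 0, 0] := by decide +kernel

theorem goodR33 : GoodR 3 3 (Real.logb (3 : ℕ) (27 / 14) / (3 : ℕ))
    (Real.logb (3 : ℕ) (27 / 14) / (3 : ℕ) + Real.logb (3 : ℕ) (2 / 3)) 1 0 := by
  have hpc : pc 3 0 = 0 ∧ pc 3 1 = 1 ∧ pc 3 2 = 1 ∧ pc 3 3 = 2 ∧ pc 3 4 = 1 ∧ pc 3 5 = 2 ∧ pc
      3 6 = 2 ∧ pc 3 7 = 3 := by
    decide +kernel
  obtain ⟨p0, p1, p2, p3, p4, p5, p6, p7⟩ := hpc
  refine goodR_cert (q := 3) (L := 3) (N := 4) (by norm_num) (by norm_num) (by norm_num)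
    (by norm_num) zero_le_one le_rfl (zt := zt33) (lt := lt33) (D := D33) (Pl := P33) rfl ?_ ?_
    zchk33 kchk33 ?_ ?_
  · intro p hp
    simp only [P33, List.mem_cons, List.not_mem_nil, or_false] at hp
    rcases hp with h | h | h | h | h <;> rw [h] <;> norm_num
  · simp only [P33, List.sum_cons, List.sum_nil]
    norm_num
  · intro m hm
    have hm' : m < 8 := hm
    interval_cases m
    · rw [p0, n33_0, P33]
      norm_num [dot]
    · rw [p1, n33_1, P33]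
      norm_num [dot]
    · rw [p2, n33_2, P33]
      norm_num [dot]
    · rw [p3, n33_3, P33]
      norm_num [dot]
    · rw [p4, n33_4, P33]
      norm_num [dot]
    · rw [p5, n33_5, P33]
      norm_num [dot]
    · rw [p6, n33_6, P33]
      norm_num [dot]
    · rw [p7, n33_7, P33]
      norm_num [dot]
  · intro m hm
    have hm' : m < 8 := hm
    interval_cases m
    · rw [p0, n33_0, y33_0, P33]
      norm_num [dot]
    · rw [p1, n33_1, y33_1, P33]
      norm_num [dot]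
    · rw [p2, n33_2, y33_2, P33]
      norm_num [dot]
    · rw [p3, n33_3, y33_3, P33]
      norm_num [dot]
    · rw [p4, n33_4, y33_4, P33]
      norm_num [dot]
    · rw [p5, n33_5, y33_5, P33]
      norm_num [dot]
    · rw [p6, n33_6, y33_6, P33]
      norm_num [dot]
    · rw [p7, n33_7, y33_7, P33]
      norm_num [dot]

end Pool.Agent.MPf4617e
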