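import Pool.Agent.Lib.MP_f4617e_lc_G.Cert

/-!
MP_f4617e_lc, project G: good systems for a whole interval of error fractions from finite data.

The weights of the keys are forms of degree `L` in two parameters `u, v ≥ 0` with `u + v = 1`, given
by their coefficients; the error fraction is `(a * v + b * u) / n`.
-/

set_option autoImplicit false

namespace Pool.Agent.MPf4617e

open Finset

/-! ### Forms -/

/-- value of the form `∑ c j * u ^ j * v ^ (d - j)` given by the list `[c 0, ..., c d]` -/
noncomputable def fev (u v : ℝ) : List ℕ → ℝ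
  | [] => 0
  | c :: cs => c * v ^ cs.length + u * fev u v cs

/-- adds to the first coefficient -/
def addHead (x : ℕ) : List ℕ → List ℕ
  | [] => [x]
  | y :: ys => (x + y) :: ys

/-- product with the form `a * v + b * u` -/
def mulLin (a b : ℕ) : List ℕ → List ℕ
  | [] => []
  | c :: cs => (a * c) :: addHead (b * c) (mulLin a b cs)

/-- product with a power of the form `a * v + b * u` -/
def mulPow (a b : ℕ) : ℕ → List ℕ → List ℕ
  | 0, l => l
  | n + 1, l => mulLin a b (mulPow a b n l)

theorem length_addHead_mulLin (x a b : ℕ) (l : List ℕ) :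
    (addHead x (mulLin a b l)).length = l.length + 1 := by
  induction l generalizing x with
  | nil => rfl
  | cons c cs ih =>
    rw [mulLin, addHead, List.length_cons, ih, List.length_cons]

theorem fev_addHead {u v : ℝ} (x : ℕ) (l : List ℕ) :
    fev u v (addHead x l) = x * v ^ (l.length - 1) + fev u v l := by
  cases l with
  | nil => simp [addHead, fev]
  | cons y ys =>
    rw [addHead, fev, fev, List.length_cons, Nat.add_sub_cancel]
    push_cast
    ring

theorem fev_mulLin (u v : ℝ) (a b : ℕ) (l : List ℕ) :
    fev u v (mulLin a b l) = (a * v + b * u) * fev u v l := by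
  induction l with
  | nil => simp [mulLin, fev]
  | cons c cs ih =>
    rw [mulLin, fev, length_addHead_mulLin, fev_addHead, ih, fev]
    have h : (mulLin a b cs).length - 1 = cs.length := by
      cases cs with
      | nil => rfl
      | cons d ds => rw [mulLin, List.length_cons, length_addHead_mulLin]; rfl
    rw [h]
    push_cast
    ring

theorem fev_mulPow (u v : ℝ) (a b n : ℕ) (l : List ℕ) :
    fev u v (mulPow a b n l) = (a * v + b * u) ^ n * fev u v l := by
  induction n with
  | zero => simp [mulPow]
  | succ n ih => rw [mulPow, fev_mulLin, ih]; ring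

theorem fev_nonneg {u v : ℝ} (hu : 0 ≤ u) (hv : 0 ≤ v) (l : List ℕ) : 0 ≤ fev u v l := by
  induction l with
  | nil => exact le_rfl
  | cons c cs ih =>
    rw [fev]
    positivity

/-- comparison of the coefficients -/
def lle : List ℕ → List ℕ → Bool
  | [], [] => true
  | a :: as, b :: bs => decide (a ≤ b) && lle as bs
  | _, _ => false

theorem lle_length {l l' : List ℕ} (h : lle l l' = true) : l.length = l'.length := by
  induction l generalizing l' with
  | nil =>
    cases l' with
    | nil => rfl
    | cons b bs => simp [lle] at h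
  | cons a as ih =>
    cases l' with
    | nil => simp [lle] at h
    | cons b bs =>
      rw [lle, Bool.and_eq_true] at h
      rw [List.length_cons, List.length_cons, ih h.2]

theorem fev_le {u v : ℝ} (hu : 0 ≤ u) (hv : 0 ≤ v) {l l' : List ℕ} (h : lle l l' = true) :
    fev u v l ≤ fev u v l' := by
  induction l generalizing l' with
  | nil =>
    cases l' with
    | nil => exact le_rfl
    | cons b bs => simp [lle] at h
  | cons a as ih =>
    cases l' with
    | nil => simp [lle] at h
    | cons b bs =>
      have h1 := h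
      rw [lle, Bool.and_eq_true, decide_eq_true_eq] at h1
      rw [fev, fev, lle_length h1.2]
      have h2 : (a : ℝ) ≤ b := by exact_mod_cast h1.1
      exact add_le_add (mul_le_mul_of_nonneg_right h2 (pow_nonneg hv _))
        (mul_le_mul_of_nonneg_left (ih h1.2) hu)

/-! ### Combinations of forms -/

/-- sum of two lists -/
def ladd : List ℕ → List ℕ → List ℕ
  | a :: as, b :: bs => (a + b) :: ladd as bs
  | _, _ => []

/-- multiple of a list -/
def lmul (n : ℕ) (l : List ℕ) : List ℕ := l.map (n * ·)

theorem length_lmul (n : ℕ) (l : List ℕ) : (lmul n l).length = l.length := List.length_map _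

theorem fev_lmul (u v : ℝ) (n : ℕ) (l : List ℕ) : fev u v (lmul n l) = n * fev u v l := by
  induction l with
  | nil => simp [lmul, fev]
  | cons a as ih =>
    have h : lmul n (a :: as) = (n * a) :: lmul n as := rfl
    rw [h, fev, fev, ih, length_lmul]
    push_cast
    ring

theorem length_ladd {l l' : List ℕ} (h : l.length = l'.length) :
    (ladd l l').length = l.length := by
  induction l generalizing l' with
  | nil => rfl
  | cons a as ih =>
    cases l' with
    | nil => simp at h
    | cons b bs =>
      rw [ladd, List.length_cons, List.length_cons, ih (by simpa using h)]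

theorem fev_ladd (u v : ℝ) {l l' : List ℕ} (h : l.length = l'.length) :
    fev u v (ladd l l') = fev u v l + fev u v l' := by
  induction l generalizing l' with
  | nil =>
    cases l' with
    | nil => simp [ladd, fev]
    | cons b bs => simp at h
  | cons a as ih =>
    cases l' with
    | nil => simp at h
    | cons b bs =>
      have h' : as.length = bs.length := by simpa using h
      rw [ladd, fev, fev, fev, ih h', length_ladd h', h']
      push_cast
      ring

/-- `∑ n k * C k` -/
def lsum (d : ℕ) : List (List ℕ) → List ℕ → List ℕ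
  | C :: Cs, n :: ns => ladd (lmul n C) (lsum d Cs ns)
  | _, _ => List.replicate d 0

theorem length_lsum {d : ℕ} {Cs : List (List ℕ)} (h : ∀ C ∈ Cs, C.length = d) (ns : List ℕ) :
    (lsum d Cs ns).length = d := by
  induction Cs generalizing ns with
  | nil => simp [lsum]
  | cons C Cs ih =>
    cases ns with
    | nil => simp [lsum]
    | cons n ns =>
      have h1 := h C List.mem_cons_self
      have h2 := ih (fun C hC => h C (List.mem_cons_of_mem _ hC)) ns
      rw [lsum, length_ladd (by rw [length_lmul, h1, h2]), length_lmul, h1]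

theorem fev_replicate (u v : ℝ) (d : ℕ) : fev u v (List.replicate d 0) = 0 := by
  induction d with
  | zero => rfl
  | succ d ih => rw [List.replicate_succ, fev, ih]; simp

/-- the weights given by the coefficients -/
noncomputable def wts (u v : ℝ) (Dn : ℕ) (Cs : List (List ℕ)) : List ℝ :=
  Cs.map fun C => fev u v C / Dn

theorem dot_wts (u v : ℝ) {Dn d : ℕ} (hDn : 0 < Dn) {Cs : List (List ℕ)}
    (h : ∀ C ∈ Cs, C.length = d) (ns : List ℕ) :
    Dn * dot (wts u v Dn Cs) ns = fev u v (lsum d Cs ns) := by
  have hD : (Dn : ℝ) ≠ 0 := by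
    have : (0 : ℝ) < Dn := by exact_mod_cast hDn
    exact this.ne'
  induction Cs generalizing ns with
  | nil => simp [wts, dot, lsum, fev_replicate]
  | cons C Cs ih =>
    cases ns with
    | nil => simp [wts, dot, lsum, fev_replicate]
    | cons n ns =>
      have h1 := h C List.mem_cons_self
      have h2 := fun C hC => h C (List.mem_cons_of_mem _ hC)
      have h3 := ih h2 ns
      have h4 : wts u v Dn (C :: Cs) = (fev u v C / Dn) :: wts u v Dn Cs := rfl
      rw [h4, dot, lsum, fev_ladd u v (by rw [length_lmul, h1, length_lsum h2]), fev_lmul, ← h3]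
      field_simp

theorem sum_wts (u v : ℝ) {Dn d : ℕ} (hDn : 0 < Dn) {Cs : List (List ℕ)}
    (h : ∀ C ∈ Cs, C.length = d) :
    Dn * (wts u v Dn Cs).sum = fev u v (lsum d Cs (List.replicate Cs.length 1)) := by
  rw [← dot_wts u v hDn h]
  congr 1
  induction Cs with
  | nil => simp [wts, dot]
  | cons C Cs ih =>
    have h4 : wts u v Dn (C :: Cs) = (fev u v C / Dn) :: wts u v Dn Cs := rfl
    rw [h4, List.sum_cons, List.length_cons, List.replicate_succ, dot,
      ih (fun C hC => h C (List.mem_cons_of_mem _ hC))]
    simp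

/-! ### The check -/

/-- The check of an interval: `Cs` are the coefficients of the weights (divided by `Dn`), the error
fraction is `(a * v + b * u) / n`, the constant of the level condition is `p / r`. -/
def segchk (q L a b n p r Dn : ℕ) (D : List KeyData) (Cs : List (List ℕ)) : Bool :=
  decide (0 < Dn) && decide (0 < n) && decide (0 < r) && decide (a ≤ n) && decide (b ≤ n) &&
  decide (p ≤ r) && decide (Cs.length = D.length) && (Cs.all fun C => decide (C.length = L + 1)) &&
  decide (lsum (L + 1) Cs (List.replicate Cs.length 1) = lmul Dn (mulPow 1 1 L [1])) &&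
  (List.range (2 ^ L)).all fun m =>
    lle (lmul (Dn * q ^ L) (mulPow a b (pc L m) (mulPow (n - a) (n - b) (L - pc L m) [1])))
      (lmul ((q - 1) ^ pc L m * n ^ L) (lsum (L + 1) Cs (D.map (nE m)))) &&
    lle (lmul r (lsum (L + 1) Cs (D.map (yE m))))
      (lmul (L * r - p * (L - pc L m)) (lsum (L + 1) Cs (D.map (nE m))))

theorem pc_le (L m : ℕ) : pc L m ≤ L := by
  unfold pc
  have h : ∀ x ∈ (List.range L).map (dig 2 m), x ≤ 1 := by
    intro x hx
    obtain ⟨i, _, rfl⟩ := List.mem_map.1 hx
    exact Nat.lt_succ_iff.1 (Nat.mod_lt _ (by norm_num))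
  have h2 := List.sum_le_card_nsmul _ 1 h
  simpa using h2

theorem goodG_seg {q L N : ℕ} [NeZero q] [NeZero N] (hq : 2 ≤ q) {a b n p r Dn : ℕ}
    {zt lt : List ℕ} {D : List KeyData} {Cs : List (List ℕ)}
    (hz : zchk q L zt lt = true) (hD : D.all (kchk q L N lt) = true)
    (hS : segchk q L a b n p r Dn D Cs = true) {u v : ℝ} (hu : 0 ≤ u) (hv : 0 ≤ v)
    (huv : v + u = 1) (h0 : 0 < (a * v + b * u) / n) (h1 : (a * v + b * u) / n < 1 / 2) :
    GoodG q L ((a * v + b * u) / n) (p / r) (1 - p / r) 0 := by
  unfold segchk at hS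
  simp only [Bool.and_eq_true, decide_eq_true_eq, List.all_eq_true] at hS
  obtain ⟨⟨⟨⟨⟨⟨⟨⟨⟨hDn, hn⟩, hr⟩, ha⟩, hb⟩, hp⟩, hlen⟩, hC⟩, hsum⟩, hE⟩ := hS
  have hD0 : (0 : ℝ) < Dn := by exact_mod_cast hDn
  have hn0 : (0 : ℝ) < n := by exact_mod_cast hn
  have hr0 : (0 : ℝ) < r := by exact_mod_cast hr
  have hp' : (p : ℝ) / r ≤ 1 := by
    rw [div_le_one hr0]
    exact_mod_cast hp
  have hq0 : (0 : ℝ) < (q : ℝ) - 1 := by
    have : (2 : ℝ) ≤ q := by exact_mod_cast hq
    linarith
  have hq1 : ((q - 1 : ℕ) : ℝ) = (q : ℝ) - 1 := by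
    rw [Nat.cast_sub (by omega)]
    norm_num
  refine goodG_cert (N := N) hq h0 h1 (by positivity) (by linarith) (Pl := wts u v Dn Cs)
    (by rw [wts, List.length_map, hlen]) ?_ ?_ hz hD ?_ ?_
  · intro x hx
    obtain ⟨C, _, rfl⟩ := List.mem_map.1 hx
    exact div_nonneg (fev_nonneg hu hv C) hD0.le
  · have h2 := sum_wts u v hDn hC
    rw [hsum, fev_lmul, fev_mulPow] at h2
    have h3 : fev u v [1] = 1 := by simp [fev]
    have h4 : ((1 : ℕ) : ℝ) * v + ((1 : ℕ) : ℝ) * u = 1 := by
      rw [Nat.cast_one, one_mul, one_mul, huv]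
    rw [h3, h4, one_pow, mul_one, mul_one] at h2
    exact mul_left_cancel₀ hD0.ne' (h2.trans (mul_one _).symm)
  · intro m hm
    obtain ⟨h2, -⟩ := hE m (List.mem_range.2 hm)
    have h3 := fev_le hu hv h2
    rw [fev_lmul, fev_mulPow, fev_mulPow, fev_lmul, ← dot_wts u v hDn hC] at h3
    have h4 : fev u v [1] = 1 := by simp [fev]
    have hpc := pc_le L m
    set e := pc L m with he
    have h5 : ((n - a : ℕ) : ℝ) * v + ((n - b : ℕ) : ℝ) * u = n * (1 - (a * v + b * u) / n) := by
      rw [Nat.cast_sub ha, Nat.cast_sub hb]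
      field_simp
      linear_combination (n : ℝ) * huv
    have h6 : (a : ℝ) * v + b * u = n * ((a * v + b * u) / n) := by
      field_simp
    set t : ℝ := (a * v + b * u) / n with ht
    rw [h5, h6, h4] at h3
    push_cast at h3
    rw [hq1] at h3
    unfold al
    have h7 : (n : ℝ) ^ L = n ^ e * n ^ (L - e) := by rw [← pow_add]; congr 1; omega
    have h8 : (q : ℝ) ^ L = q ^ e * q ^ (L - e) := by rw [← pow_add]; congr 1; omega
    have h9 : (0 : ℝ) < ((q : ℝ) - 1) ^ e * n ^ L * Dn := by positivity
    refine le_of_mul_le_mul_left ?_ h9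
    have h10 : ((q : ℝ) - 1) ^ e * n ^ L * Dn * ((t * q / (q - 1)) ^ e * (q * (1 - t)) ^ (L - e)) =
        Dn * q ^ L * ((n * t) ^ e * ((n * (1 - t)) ^ (L - e) * 1)) := by
      rw [h7, h8, div_pow]
      simp only [mul_pow]
      field_simp
    rw [h10]
    refine h3.trans (le_of_eq ?_)
    ring
  · intro m hm
    obtain ⟨-, h2⟩ := hE m (List.mem_range.2 hm)
    have h3 := fev_le hu hv h2
    rw [fev_lmul, fev_lmul, ← dot_wts u v hDn hC, ← dot_wts u v hDn hC] at h3
    have hpc := pc_le L m
    set e := pc L m with he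
    have h4 : ((L * r - p * (L - e) : ℕ) : ℝ) = L * r - p * (L - e) := by
      have h5 : p * (L - e) ≤ L * r := by
        calc p * (L - e) ≤ r * L := Nat.mul_le_mul hp (Nat.sub_le _ _)
          _ = L * r := Nat.mul_comm _ _
      rw [Nat.cast_sub h5]
      push_cast [Nat.cast_sub hpc]
      ring
    rw [h4] at h3
    have h9 : (0 : ℝ) < r * Dn := by positivity
    refine le_of_mul_le_mul_left ?_ h9
    have h10 : (r : ℝ) * Dn * ((p / r * e + (1 - p / r) * L) *
        dot (wts u v Dn Cs) (D.map (nE m))) =
        (L * r - p * (L - e)) * (Dn * dot (wts u v Dn Cs) (D.map (nE m))) := by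
      field_simp
      ring
    rw [h10]
    refine le_trans (le_of_eq ?_) h3
    ring

end Pool.Agent.MPf4617e
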