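import Pool.Agent.Lib.MP_f4617e_lc_G.Defs

/-!
MP_f4617e_lc, project G: one law.
-/

set_option autoImplicit false

namespace Pool.Agent.MPf4617e

open Finset

theorem al_pos {q : ℕ} (hq : 2 ≤ q) {τ : ℝ} (h0 : 0 < τ) : 0 < al q τ := by
  have : (2 : ℝ) ≤ q := by exact_mod_cast hq
  unfold al
  apply div_pos <;> nlinarith

theorem qt_pos {q : ℕ} (hq : 2 ≤ q) {τ : ℝ} (h1 : τ < 1 / 2) : 0 < (q : ℝ) * (1 - τ) := by
  have : (2 : ℝ) ≤ q := by exact_mod_cast hq
  nlinarith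

theorem lvl_le_iff {q L : ℕ} {z : Finset (Fin L) → Fin L → Fin q} {x : Fin L → Fin q}
    {E : Finset (Fin L)} {n : ℕ} :
    lvl z x E ≤ n ↔ ∀ y : Fin L → Fin q, (∀ i, i ∉ E → y i = x i) →
      ∀ V : Finset (Fin L), (∀ i ∈ V, y i = z V i) → V.card ≤ n := by
  unfold lvl levOf
  rw [Finset.sup_le_iff]
  constructor
  · intro h y hy V hV
    have h1 := h y (by simpa using hy)
    rw [Finset.sup_le_iff] at h1
    exact h1 V (by simpa using hV)
  · intro h y hy
    rw [Finset.sup_le_iff]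
    intro V hV
    exact h y (by simpa using hy) V (by simpa using hV)

/-- One law that is good for every single block gives a good system. -/
theorem goodG_single {q L : ℕ} [NeZero q] (hq : 2 ≤ q) {τ c1 c2 ε : ℝ} (h0 : 0 < τ)
    (h1 : τ < 1 / 2) (z : Finset (Fin L) → Fin L → Fin q) (hz : ∀ V, ∀ i ∈ V, z V i ≠ 0)
    (W : GLaw q L)
    (hZ : ∀ E : Finset (Fin L), al q τ ^ E.card * (q * (1 - τ)) ^ (L - E.card) *
      (q : ℝ) ^ (-(ε * L)) ≤ W.Z E)
    (hY : ∀ E : Finset (Fin L), W.Y z E ≤ (c1 * E.card + c2 * L) * W.Z E) :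
    GoodG q L τ c1 c2 ε := by
  have hq0 : (0 : ℝ) < q := by
    have : 0 < q := by omega
    exact_mod_cast this
  have hp : ∀ e : ℕ, 0 < al q τ ^ e * (q * (1 - τ)) ^ (L - e) * (q : ℝ) ^ (-(ε * L)) := by
    intro e
    have := al_pos hq h0
    have := qt_pos hq h1
    positivity
  have hZ0 : ∀ E, 0 < W.Z E := fun E => lt_of_lt_of_le (hp _) (hZ E)
  refine ⟨z, hz, 1, fun _ => W, fun B E => ⟨0, fun b => hZ0 _, ?_, ?_⟩⟩
  · have h2 : (q : ℝ) ^ (-(ε * (B * L))) = ∏ _b : Fin B, (q : ℝ) ^ (-(ε * L)) := by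
      rw [Finset.prod_const, card_univ, Fintype.card_fin, ← Real.rpow_natCast,
        ← Real.rpow_mul hq0.le]
      congr 1
      ring
    rw [h2, ← Finset.prod_mul_distrib]
    exact Finset.prod_le_prod (fun b _ => (hp _).le) fun b _ => hZ _
  · calc ∑ b, W.Y z (E b) / W.Z (E b)
        ≤ ∑ b : Fin B, (c1 * ((E b).card : ℝ) + c2 * L) :=
          Finset.sum_le_sum fun b _ => (div_le_iff₀ (hZ0 _)).2 (hY _)
      _ = c1 * ∑ b, ((E b).card : ℝ) + c2 * (B * L) := by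
        rw [Finset.sum_add_distrib, ← Finset.mul_sum]
        simp
        ring

end Pool.Agent.MPf4617e
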