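import Pool.Agent.Lib.MP_f4617e_lc_G.EngineG
import Pool.Agent.Lib.MP_f4617e_lc_G.Cert

/-!
MP_f4617e_lc, project G: rates from finite data, with weights `θ * ρ ^ (number of errors)`.
-/

set_option autoImplicit false

namespace Pool.Agent.MPf4617e

open Finset

/-- A good system from finite data. -/
theorem goodR_cert {q L N : ℕ} [NeZero q] [NeZero N] (hq : 2 ≤ q) (hL : 0 < L)
    {θ ρ c1 c2 : ℝ} (hθ : 0 < θ) (hρ : 0 < ρ) (hc1 : 0 ≤ c1) (hc2 : 0 ≤ c2)
    {zt lt : List ℕ} {D : List KeyData} {Pl : List ℝ} (hlen : Pl.length = D.length)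
    (hP0 : ∀ p ∈ Pl, 0 ≤ p) (hP1 : Pl.sum = 1)
    (hz : zchk q L zt lt = true) (hD : D.all (kchk q L N lt) = true)
    (hZ : ∀ m < 2 ^ L, θ * ρ ^ pc L m ≤ dot Pl (D.map (nE m)))
    (hY : ∀ m < 2 ^ L, dot Pl (D.map (yE m)) ≤
      (c1 * pc L m + c2 * L) * dot Pl (D.map (nE m))) :
    GoodR q L (Real.logb q θ / L) (Real.logb q θ / L + Real.logb q ρ) c1 c2 := by
  have hP0' : ∀ ω : Fin D.length, 0 ≤ Pl.getD ω 0 := by
    intro ω
    have h2 : (ω : ℕ) < Pl.length := by rw [hlen]; exact ω.isLt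
    rw [List.getD_eq_getElem _ _ h2]
    exact hP0 _ (List.getElem_mem h2)
  have hP1' : ∑ ω : Fin D.length, Pl.getD ω 0 = 1 := by
    rw [sum_weights _ _ hlen, hP1]
  have hZ' := mkLaw_Z (N := N) hP0' hP1' hD
  have hY' := mkLaw_Y (N := N) hP0' hP1' hD hz
  have hq' : (1 : ℝ) < q := by exact_mod_cast (show 1 < q by omega)
  have hq0 : (0 : ℝ) < q := by linarith
  have hL' : (L : ℝ) ≠ 0 := by
    have : (0 : ℝ) < L := by exact_mod_cast hL
    exact this.ne'
  set W := mkLaw q L N lt D _ hP0' hP1' hD with hW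
  have hZE : ∀ E : Finset (Fin L), θ * ρ ^ E.card ≤ W.Z E := by
    intro E
    have h2 := hZ (mc E) (mc_lt E)
    rw [pc_mc] at h2
    have h3 := hZ' E
    rw [sum_dot D (nE (mc E)) Pl hlen] at h3
    exact h2.trans h3
  have hYE : ∀ E : Finset (Fin L), W.Y (zOf q L zt) E ≤ (c1 * E.card + c2 * L) * W.Z E := by
    intro E
    have h2 := hY (mc E) (mc_lt E)
    rw [pc_mc] at h2
    have h3 := hZ' E
    rw [sum_dot D (nE (mc E)) Pl hlen] at h3
    have h4 := hY' E
    rw [sum_dot D (yE (mc E)) Pl hlen] at h4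
    refine h4.trans (h2.trans (mul_le_mul_of_nonneg_left h3 ?_))
    positivity
  have hpos : ∀ E : Finset (Fin L), 0 < W.Z E := fun E =>
    lt_of_lt_of_le (by positivity) (hZE E)
  refine ⟨zOf q L zt, zOf_ne hz, 1, fun _ => W, fun B E => ⟨0, fun b => hpos _, ?_, ?_⟩⟩
  · have e2 : ∀ (x : ℝ) (n : ℕ), 0 < x → x ^ n = (q : ℝ) ^ (Real.logb q x * n) := by
      intro x n hx
      rw [Real.rpow_mul hq0.le, Real.rpow_logb hq0 hq'.ne' hx, Real.rpow_natCast]
    refine le_trans (le_of_eq ?_) (Finset.prod_le_prod (fun b _ => by positivity)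
      fun b _ => hZE (E b))
    rw [Finset.prod_mul_distrib, Finset.prod_const, Finset.prod_pow_eq_pow_sum,
      Finset.card_univ, Fintype.card_fin, e2 _ _ hθ, e2 _ _ hρ, ← Real.rpow_add hq0]
    congr 1
    push_cast
    field_simp
    ring
  · have h1 : ∀ b, W.Y (zOf q L zt) (E b) / W.Z (E b) ≤ c1 * ((E b).card : ℝ) + c2 * L := by
      intro b
      rw [div_le_iff₀ (hpos _)]
      exact hYE (E b)
    refine (Finset.sum_le_sum fun b _ => h1 b).trans (le_of_eq ?_)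
    rw [Finset.sum_add_distrib, Finset.sum_const, ← Finset.mul_sum, Finset.card_univ,
      Fintype.card_fin, nsmul_eq_mul]
    ring

end Pool.Agent.MPf4617e
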